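import Pool.Agent.Work.MP_80fcda_co.Defs

/-!
# Connected vertex sets
-/

set_option autoImplicit false

namespace Pool.Agent.Work.MP_80fcda_co

open Set

variable {V : Type}

/-- `S` is closed in `A`: no edge of `G` leads from `S` to a vertex of `A` outside `S`. -/
def Closed (G : SimpleGraph V) (A S : Set V) : Prop := ∀ u ∈ S, ∀ v ∈ A, G.Adj u v → v ∈ S

/-- `A` is a nonempty connected vertex set. -/
def Con (G : SimpleGraph V) (A : Set V) : Prop :=
  A.Nonempty ∧ ∀ S ⊆ A, S.Nonempty → Closed G A S → A ⊆ S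

/-- There is an edge between `A` and `B`. -/
def EAdj (G : SimpleGraph V) (A B : Set V) : Prop := ∃ a ∈ A, ∃ b ∈ B, G.Adj a b

variable {G : SimpleGraph V} {A B C D K S T : Set V}

theorem EAdj.symm (h : EAdj G A B) : EAdj G B A := by
  obtain ⟨a, ha, b, hb, hab⟩ := h
  exact ⟨b, hb, a, ha, hab.symm⟩

theorem eadj_comm : EAdj G A B ↔ EAdj G B A := ⟨EAdj.symm, EAdj.symm⟩

theorem EAdj.mono {A' B' : Set V} (h : EAdj G A B) (hA : A ⊆ A') (hB : B ⊆ B') : EAdj G A' B' := by
  obtain ⟨a, ha, b, hb, hab⟩ := h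
  exact ⟨a, hA ha, b, hB hb, hab⟩

theorem eadj_union_left : EAdj G (A ∪ B) C ↔ EAdj G A C ∨ EAdj G B C := by
  constructor
  · rintro ⟨a, ha | ha, b, hb, hab⟩
    · exact Or.inl ⟨a, ha, b, hb, hab⟩
    · exact Or.inr ⟨a, ha, b, hb, hab⟩
  · rintro (h | h)
    · exact h.mono subset_union_left subset_rfl
    · exact h.mono subset_union_right subset_rfl

theorem eadj_union_right : EAdj G A (B ∪ C) ↔ EAdj G A B ∨ EAdj G A C := by
  rw [eadj_comm, eadj_union_left, eadj_comm, @eadj_comm _ G C A]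

theorem eadj_singleton_left {a : V} : EAdj G {a} B ↔ ∃ b ∈ B, G.Adj a b := by
  simp [EAdj]

theorem eadj_singleton_right {b : V} : EAdj G A {b} ↔ ∃ a ∈ A, G.Adj a b := by
  simp [EAdj]

theorem eadj_of {a b : V} (ha : a ∈ A) (hb : b ∈ B) (h : G.Adj a b) : EAdj G A B :=
  ⟨a, ha, b, hb, h⟩

theorem Con.nonempty (h : Con G A) : A.Nonempty := h.1

theorem con_singleton (v : V) : Con G {v} := by
  refine ⟨singleton_nonempty v, fun S hS hne _ => ?_⟩
  obtain ⟨x, hx⟩ := hne
  have := hS hx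
  rw [mem_singleton_iff] at this
  subst this
  simpa using hx

theorem Con.union (hA : Con G A) (hB : Con G B) (h : EAdj G A B) : Con G (A ∪ B) := by
  refine ⟨hA.1.mono subset_union_left, fun S hS hne hcl => ?_⟩
  have key : ∀ {X : Set V}, Con G X → X ⊆ A ∪ B → (S ∩ X).Nonempty → X ⊆ S := by
    intro X hX hXs hne
    have := hX.2 (S ∩ X) inter_subset_right hne
      (fun u hu v hv huv => ⟨hcl u hu.1 v (hXs hv) huv, hv⟩)
    exact this.trans inter_subset_left
  obtain ⟨a, ha, b, hb, hab⟩ := h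
  have hab' : A ⊆ S ∧ B ⊆ S := by
    obtain ⟨x, hx⟩ := hne
    rcases hS hx with hxA | hxB
    · have h1 := key hA subset_union_left ⟨x, hx, hxA⟩
      have h2 := hcl a (h1 ha) b (Or.inr hb) hab
      exact ⟨h1, key hB subset_union_right ⟨b, h2, hb⟩⟩
    · have h1 := key hB subset_union_right ⟨x, hx, hxB⟩
      have h2 := hcl b (h1 hb) a (Or.inl ha) hab.symm
      exact ⟨key hA subset_union_left ⟨a, h2, ha⟩, h1⟩
  exact union_subset hab'.1 hab'.2

theorem Con.union_inter (hA : Con G A) (hB : Con G B) (h : (A ∩ B).Nonempty) :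
    Con G (A ∪ B) := by
  refine ⟨hA.1.mono subset_union_left, fun S hS hne hcl => ?_⟩
  have key : ∀ {X : Set V}, Con G X → X ⊆ A ∪ B → (S ∩ X).Nonempty → X ⊆ S := by
    intro X hX hXs hne
    have := hX.2 (S ∩ X) inter_subset_right hne
      (fun u hu v hv huv => ⟨hcl u hu.1 v (hXs hv) huv, hv⟩)
    exact this.trans inter_subset_left
  obtain ⟨z, hzA, hzB⟩ := h
  obtain ⟨x, hx⟩ := hne
  rcases hS hx with hxA | hxB
  · have h1 := key hA subset_union_left ⟨x, hx, hxA⟩
    exact union_subset h1 (key hB subset_union_right ⟨z, h1 hzA, hzB⟩)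
  · have h1 := key hB subset_union_right ⟨x, hx, hxB⟩
    exact union_subset (key hA subset_union_left ⟨z, h1 hzB, hzA⟩) h1

/-- A connected set `D` together with a family of connected sets each joined to `D` by an edge. -/
theorem Con.biUnion {ι : Type*} {I : Set ι} {f : ι → Set V} (hD : Con G D)
    (hf : ∀ i ∈ I, Con G (f i) ∧ EAdj G D (f i)) : Con G (D ∪ ⋃ i ∈ I, f i) := by
  refine ⟨hD.1.mono subset_union_left, fun S hS hne hcl => ?_⟩
  have key : ∀ {X : Set V}, Con G X → X ⊆ D ∪ ⋃ i ∈ I, f i → (S ∩ X).Nonempty → X ⊆ S := by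
    intro X hX hXs hne
    have := hX.2 (S ∩ X) inter_subset_right hne
      (fun u hu v hv huv => ⟨hcl u hu.1 v (hXs hv) huv, hv⟩)
    exact this.trans inter_subset_left
  have hfi : ∀ i ∈ I, f i ⊆ D ∪ ⋃ i ∈ I, f i := fun i hi =>
    (subset_biUnion_of_mem (u := fun i => f i) hi).trans subset_union_right
  have hDS : D ⊆ S := by
    obtain ⟨x, hx⟩ := hne
    rcases hS hx with hxD | hxU
    · exact key hD subset_union_left ⟨x, hx, hxD⟩
    · rw [mem_iUnion₂] at hxU
      obtain ⟨i, hi, hxi⟩ := hxU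
      have h1 := key (hf i hi).1 (hfi i hi) ⟨x, hx, hxi⟩
      obtain ⟨d, hd, y, hy, hdy⟩ := (hf i hi).2
      exact key hD subset_union_left ⟨d, hcl y (h1 hy) d (Or.inl hd) hdy.symm, hd⟩
  refine union_subset hDS (iUnion₂_subset fun i hi => ?_)
  obtain ⟨d, hd, y, hy, hdy⟩ := (hf i hi).2
  exact key (hf i hi).1 (hfi i hi) ⟨y, hcl d (hDS hd) y (hfi i hi hy) hdy, hy⟩

/-- If `A` is connected and `S` is a nonempty proper part, some edge leaves `S` inside `A`. -/
theorem Con.exists_edge (hA : Con G A) (hS : S ⊆ A) (hne : S.Nonempty) (hne' : (A \ S).Nonempty) :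
    EAdj G S (A \ S) := by
  by_contra hcon
  have hcl : Closed G A S := by
    intro u hu v hv huv
    by_contra hvS
    exact hcon ⟨u, hu, v, ⟨hv, hvS⟩, huv⟩
  obtain ⟨x, hx⟩ := hne'
  exact hx.2 (hA.2 S hS hne hcl hx.1)

theorem Con.exists_adj_of_ne {u v : V} (hA : Con G A) (hu : u ∈ A) (hv : v ∈ A) (h : u ≠ v) :
    ∃ w ∈ A, G.Adj u w := by
  have := hA.exists_edge (S := {u}) (by simpa using hu) ⟨u, rfl⟩ ⟨v, hv, by simpa using h.symm⟩
  obtain ⟨a, ha, b, hb, hab⟩ := this
  rw [mem_singleton_iff] at ha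
  subst ha
  exact ⟨b, hb.1, hab⟩

theorem con_univ_iff : Con G univ ↔ G.Connected := by
  constructor
  · intro h
    obtain ⟨x, _⟩ := h.1
    have : Nonempty V := ⟨x⟩
    refine ⟨fun u v => ?_⟩
    have := h.2 {w | G.Reachable u w} (subset_univ _) ⟨u, SimpleGraph.Reachable.refl u⟩
      (fun a ha b _ hab => SimpleGraph.Reachable.trans ha hab.reachable)
    exact this (mem_univ v)
  · intro h
    obtain ⟨x⟩ := h.nonempty
    refine ⟨⟨x, mem_univ x⟩, fun S _ hne hcl v _ => ?_⟩
    obtain ⟨u, hu⟩ := hne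
    obtain ⟨p⟩ := h u v
    have key : ∀ {a b : V} (q : G.Walk a b), a ∈ S → b ∈ S := by
      intro a b q
      induction q with
      | nil => exact id
      | cons hab q ih => exact fun ha => ih (hcl _ ha _ (mem_univ _) hab)
    exact key p hu

/-- `K` is a component of the subgraph induced by `A`. -/
def IsComp (G : SimpleGraph V) (A K : Set V) : Prop := K ⊆ A ∧ Con G K ∧ Closed G A K

theorem exists_comp {v : V} (hv : v ∈ A) : ∃ K, IsComp G A K ∧ v ∈ K := by
  let K : Set V := {u | ∀ S ⊆ A, v ∈ S → Closed G A S → u ∈ S}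
  have hvK : v ∈ K := fun S _ h _ => h
  have hKA : K ⊆ A := fun u hu => hu A subset_rfl hv (fun _ _ w hw _ => hw)
  have hcl : Closed G A K := fun u hu w hw huw S hSA hvS hS => hS u (hu S hSA hvS hS) w hw huw
  refine ⟨K, ⟨hKA, ⟨⟨v, hvK⟩, fun S hSK hne hS => ?_⟩, hcl⟩, hvK⟩
  by_cases hvS : v ∈ S
  · intro u hu
    exact hu S (hSK.trans hKA) hvS (fun a ha b hb hab => hS a ha b (hcl a (hSK ha) b hb hab) hab)
  · exfalso
    obtain ⟨s, hs⟩ := hne
    have := hSK hs (K \ S) (sdiff_subset.trans hKA) ⟨hvK, hvS⟩ (by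
      intro a ha b hb hab
      refine ⟨hcl a ha.1 b hb hab, fun hbS => ha.2 (hS b hbS a ha.1 hab.symm)⟩)
    exact this.2 hs

theorem IsComp.subset (h : IsComp G A K) : K ⊆ A := h.1
theorem IsComp.con (h : IsComp G A K) : Con G K := h.2.1
theorem IsComp.closed (h : IsComp G A K) : Closed G A K := h.2.2

/-- A connected subset of `A` meeting a closed set is inside it. -/
theorem Con.subset_of_closed (hB : Con G B) (hBA : B ⊆ A) (hS : Closed G A S)
    (hne : (S ∩ B).Nonempty) : B ⊆ S := by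
  have := hB.2 (S ∩ B) inter_subset_right hne
    (fun u hu v hv huv => ⟨hS u hu.1 v (hBA hv) huv, hv⟩)
  exact this.trans inter_subset_left

theorem IsComp.subset_of_con (h : IsComp G A K) (hB : Con G B) (hBA : B ⊆ A)
    (hne : (K ∩ B).Nonempty) : B ⊆ K := hB.subset_of_closed hBA h.closed hne

theorem IsComp.eq_or_disjoint {K' : Set V} (h : IsComp G A K) (h' : IsComp G A K') :
    K = K' ∨ Disjoint K K' := by
  by_cases hne : (K ∩ K').Nonempty
  · left
    exact subset_antisymm (h'.subset_of_con h.con h.subset (by rwa [inter_comm]))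
      (h.subset_of_con h'.con h'.subset hne)
  · right
    rw [Set.disjoint_iff_inter_eq_empty]
    exact Set.not_nonempty_iff_eq_empty.mp hne

theorem IsComp.not_eadj {K' : Set V} (h : IsComp G A K) (h' : IsComp G A K') (hd : Disjoint K K') :
    ¬ EAdj G K K' := by
  rintro ⟨a, ha, b, hb, hab⟩
  exact Set.disjoint_left.mp hd (h.closed a ha b (h'.subset hb) hab) hb

theorem IsComp.not_eadj_diff (h : IsComp G A K) : ¬ EAdj G K (A \ K) := by
  rintro ⟨a, ha, b, hb, hab⟩
  exact hb.2 (h.closed a ha b hb.1 hab)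

/-- In a connected set `A`, a component of `A \ D` is joined to `D`. -/
theorem Con.eadj_comp (hA : Con G A) (hK : IsComp G (A \ D) K) (hD : (A ∩ D).Nonempty) :
    EAdj G K (A ∩ D) := by
  obtain ⟨d, hdA, hdD⟩ := hD
  have h := hA.exists_edge (hK.subset.trans sdiff_subset) hK.con.1
    ⟨d, hdA, fun hdK => (hK.subset hdK).2 hdD⟩
  obtain ⟨a, ha, b, hb, hab⟩ := h
  by_cases hbD : b ∈ D
  · exact ⟨a, ha, b, ⟨hb.1, hbD⟩, hab⟩
  · exact absurd (hK.closed a ha b ⟨hb.1, hbD⟩ hab) hb.2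

/-- Removing from a connected set `A` a component of `A \ D`, where `D ⊆ A` is connected, leaves a
connected set. -/
theorem Con.diff_comp (hA : Con G A) (hD : Con G D) (hDA : D ⊆ A) (hK : IsComp G (A \ D) K) :
    Con G (A \ K) := by
  have hDK : D ⊆ A \ K := fun d hd => ⟨hDA hd, fun hdK => (hK.subset hdK).2 hd⟩
  refine ⟨hD.1.mono hDK, fun S hS hne hcl => ?_⟩
  by_cases hSD : (S ∩ D).Nonempty
  · have hDS : D ⊆ S := hD.subset_of_closed hDK hcl hSD
    have hcl' : Closed G A (S ∪ K) := by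
      rintro u (hu | hu) v hv huv
      · by_cases hvK : v ∈ K
        · exact Or.inr hvK
        · exact Or.inl (hcl u hu v ⟨hv, hvK⟩ huv)
      · by_cases hvD : v ∈ D
        · exact Or.inl (hDS hvD)
        · exact Or.inr (hK.closed u hu v ⟨hv, hvD⟩ huv)
    have := hA.2 (S ∪ K) (union_subset (hS.trans sdiff_subset) (hK.subset.trans sdiff_subset))
      (hne.mono subset_union_left) hcl'
    rintro x ⟨hxA, hxK⟩
    rcases this hxA with h | h
    · exact h
    · exact absurd h hxK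
  · exfalso
    have hcl' : Closed G A S := by
      intro u hu v hv huv
      by_cases hvK : v ∈ K
      · exfalso
        have huD : u ∉ D := fun h => hSD ⟨u, hu, h⟩
        exact (hS hu).2 (hK.closed v hvK u ⟨(hS hu).1, huD⟩ huv.symm)
      · exact hcl u hu v ⟨hv, hvK⟩ huv
    have := hA.2 S (hS.trans sdiff_subset) hne hcl'
    obtain ⟨k, hk⟩ := hK.con.1
    exact (hS (this (hK.subset hk).1)).2 hk

/-- Splitting a connected set between two of its vertices. -/
theorem Con.split {u v : V} (hA : Con G A) (hu : u ∈ A) (hv : v ∈ A) (h : u ≠ v) :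
    ∃ B C : Set V, B ∪ C = A ∧ Disjoint B C ∧ Con G B ∧ Con G C ∧ EAdj G B C ∧ u ∈ B ∧ v ∈ C := by
  obtain ⟨K, hK, huK⟩ := exists_comp (G := G) (A := A \ {v}) (v := u) ⟨hu, by simpa using h⟩
  have hvK : v ∉ K := fun hvK => (hK.subset hvK).2 rfl
  refine ⟨K, A \ K, union_sdiff_cancel (hK.subset.trans sdiff_subset), disjoint_sdiff_right,
    hK.con, hA.diff_comp (con_singleton v) (by simpa using hv) hK, ?_, huK, ⟨hv, hvK⟩⟩
  have := hA.eadj_comp hK ⟨v, hv, rfl⟩
  exact this.mono subset_rfl (by rintro x ⟨hx, rfl⟩; exact ⟨hx, hvK⟩)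

/-- Every vertex outside a nonempty closed set of a connected set... a convenient form. -/
theorem Con.eadj_of_partition (hA : Con G A) (hBC : B ∪ C = A) (hd : Disjoint B C)
    (hB : B.Nonempty) (hC : C.Nonempty) : EAdj G B C := by
  have hCe : A \ B = C := by
    rw [← hBC, union_sdiff_left]
    exact hd.symm.sdiff_eq_left
  have := hA.exists_edge (S := B) (hBC ▸ subset_union_left) hB (hCe ▸ hC)
  rwa [hCe] at this

end Pool.Agent.Work.MP_80fcda_co
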