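import Pool.Agent.Work.MP_80fcda_co.RGem

/-!
# 2-connected gem-contraction-free graphs
-/

set_option autoImplicit false

namespace Pool.Agent.Work.MP_80fcda_co

open Set

variable {V : Type} {G : SimpleGraph V}

theorem IsComp.disjoint_of_ne {A K K' : Set V} (h : IsComp G A K) (h' : IsComp G A K')
    (hne : K ≠ K') : Disjoint K K' := (h.eq_or_disjoint h').resolve_left hne

/-- Absorbing all other components. -/
theorem exists_tri (hG : Con G univ) {S0 T0 K C : Set V} (hS : Con G S0) (hT : Con G T0)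
    (hd : Disjoint S0 T0) (hST : EAdj G S0 T0) (hK : IsComp G (S0 ∪ T0)ᶜ K)
    (hC : IsComp G (S0 ∪ T0)ᶜ C) (hKC : K ≠ C) (hCS : EAdj G S0 C) (hCT : EAdj G T0 C) :
    ∃ S T, Tri G S T C K ∧ S0 ⊆ S ∧ T0 ⊆ T := by
  let IS : Set (Set V) := {L | IsComp G (S0 ∪ T0)ᶜ L ∧ L ≠ K ∧ L ≠ C ∧ EAdj G S0 L}
  let IT : Set (Set V) := {L | IsComp G (S0 ∪ T0)ᶜ L ∧ L ≠ K ∧ L ≠ C ∧ ¬ EAdj G S0 L}
  have hadj : ∀ L, IsComp G (S0 ∪ T0)ᶜ L → EAdj G S0 L ∨ EAdj G T0 L := by
    intro L hL
    have hL' : IsComp G (univ \ (S0 ∪ T0)) L := by rwa [← compl_eq_univ_sdiff]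
    have hne : (univ ∩ (S0 ∪ T0)).Nonempty := by
      rw [univ_inter]; exact hS.1.mono subset_union_left
    have := hG.eadj_comp hL' hne
    rw [univ_inter, eadj_union_right] at this
    rcases this with h | h
    · exact Or.inl h.symm
    · exact Or.inr h.symm
  have hL0 : ∀ L, IsComp G (S0 ∪ T0)ᶜ L → Disjoint (S0 ∪ T0) L := fun L hL =>
    disjoint_compl_right.mono_right hL.subset
  have dSLf : ∀ (I : Set (Set V)) (L : Set V), (∀ M ∈ I, IsComp G (S0 ∪ T0)ᶜ M ∧ M ≠ L) →
      IsComp G (S0 ∪ T0)ᶜ L → Disjoint (⋃ M ∈ I, M) L := by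
    intro I L hI hL
    rw [Set.disjoint_left]
    intro x hx hxL
    simp only [mem_iUnion, exists_prop] at hx
    obtain ⟨M, hM, hxM⟩ := hx
    exact Set.disjoint_left.mp ((hI M hM).1.disjoint_of_ne hL (hI M hM).2) hxM hxL
  have dLU : ∀ (I : Set (Set V)), (∀ M ∈ I, IsComp G (S0 ∪ T0)ᶜ M) →
      Disjoint (S0 ∪ T0) (⋃ M ∈ I, M) := by
    intro I hI
    rw [Set.disjoint_left]
    intro x hx hx'
    simp only [mem_iUnion, exists_prop] at hx'
    obtain ⟨M, hM, hxM⟩ := hx'
    exact (hI M hM).subset hxM hx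
  refine ⟨S0 ∪ ⋃ L ∈ IS, L, T0 ∪ ⋃ L ∈ IT, L, ⟨?_, ?_, hC.con, hK.con, ?_, ?_, ?_, ?_, ?_, ?_, ?_,
    ?_, ?_, ?_, ?_⟩, subset_union_left, subset_union_left⟩
  · exact hS.biUnion fun L hL => ⟨hL.1.con, hL.2.2.2⟩
  · exact hT.biUnion fun L hL => ⟨hL.1.con, (hadj L hL.1).resolve_left hL.2.2.2⟩
  · intro x
    by_cases hx : x ∈ S0 ∪ T0
    · rcases hx with hx | hx
      · exact Or.inl (Or.inl hx)
      · exact Or.inr (Or.inl (Or.inl hx))
    · obtain ⟨L, hL, hxL⟩ := exists_comp (G := G) (A := (S0 ∪ T0)ᶜ) hx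
      by_cases h1 : L = K
      · exact Or.inr (Or.inr (Or.inr (h1 ▸ hxL)))
      · by_cases h2 : L = C
        · exact Or.inr (Or.inr (Or.inl (h2 ▸ hxL)))
        · by_cases h3 : EAdj G S0 L
          · left; right
            simp only [mem_iUnion, exists_prop]
            exact ⟨L, ⟨hL, h1, h2, h3⟩, hxL⟩
          · right; left; right
            simp only [mem_iUnion, exists_prop]
            exact ⟨L, ⟨hL, h1, h2, h3⟩, hxL⟩
  · rw [disjoint_union_left, disjoint_union_right, disjoint_union_right]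
    refine ⟨⟨hd, (dLU IT fun M hM => hM.1).mono_left subset_union_left⟩,
      ((dLU IS fun M hM => hM.1).mono_left subset_union_right).symm, ?_⟩
    rw [Set.disjoint_left]
    intro x hx hx'
    simp only [mem_iUnion, exists_prop] at hx hx'
    obtain ⟨M, hM, hxM⟩ := hx
    obtain ⟨M', hM', hxM'⟩ := hx'
    rcases hM.1.eq_or_disjoint hM'.1 with h | h
    · exact hM'.2.2.2 (h ▸ hM.2.2.2)
    · exact Set.disjoint_left.mp h hxM hxM'
  · rw [disjoint_union_left]
    exact ⟨(hL0 C hC).mono_left subset_union_left, dSLf IS C (fun M hM => ⟨hM.1, hM.2.2.1⟩) hC⟩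
  · rw [disjoint_union_left]
    exact ⟨(hL0 C hC).mono_left subset_union_right, dSLf IT C (fun M hM => ⟨hM.1, hM.2.2.1⟩) hC⟩
  · rw [disjoint_union_left]
    exact ⟨(hL0 K hK).mono_left subset_union_left, dSLf IS K (fun M hM => ⟨hM.1, hM.2.1⟩) hK⟩
  · rw [disjoint_union_left]
    exact ⟨(hL0 K hK).mono_left subset_union_right, dSLf IT K (fun M hM => ⟨hM.1, hM.2.1⟩) hK⟩
  · exact hC.disjoint_of_ne hK (Ne.symm hKC)
  · exact hST.mono subset_union_left subset_union_left
  · exact hCS.mono subset_union_left subset_rfl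
  · exact hCT.mono subset_union_left subset_rfl
  · exact hC.not_eadj hK (hC.disjoint_of_ne hK (Ne.symm hKC))

section gemfree

variable [Finite V] (h2 : TwoCon G) (hno : ¬ ContractsTo gem G)

include h2 hno

theorem gem_dec_comp {S0 T0 K C : Set V} (hS : Con G S0) (hT : Con G T0)
    (hd : Disjoint S0 T0) (hST : EAdj G S0 T0) (hK : IsComp G (S0 ∪ T0)ᶜ K)
    (hC : IsComp G (S0 ∪ T0)ᶜ C) (hKC : K ≠ C) (hCS : EAdj G S0 C) (hCT : EAdj G T0 C)
    (hKS : EAdj G S0 K) (hKT : EAdj G T0 K) : Dec (res G K) 2 K := by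
  obtain ⟨S, T, h, h1, h2'⟩ := exists_tri h2.con hS hT hd hST hK hC hKC hCS hCT
  exact h.dec_gem h2 hno (hKS.mono h1 subset_rfl) (hKT.mono h2' subset_rfl)

omit [Finite V] hno in
/-- In a 2-connected graph every component of the complement of a pair is joined to both. -/
theorem TwoCon.eadj_pair {u v : V} {K K' : Set V} (hK : IsComp G ({u, v} : Set V)ᶜ K)
    (hK' : IsComp G ({u, v} : Set V)ᶜ K') (hne : K ≠ K') : EAdj G {u} K ∧ EAdj G {v} K := by
  have hd := hK.disjoint_of_ne hK' hne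
  obtain ⟨y, hy⟩ := hK'.con.1
  have huK : u ∉ K := fun h => hK.subset h (Or.inl rfl)
  have hvK : v ∉ K := fun h => hK.subset h (Or.inr rfl)
  have hyK : y ∉ K := fun h => Set.disjoint_left.mp hd h hy
  have hyu : y ≠ u := fun h => hK'.subset hy (Or.inl h)
  have hyv : y ≠ v := fun h => hK'.subset hy (Or.inr h)
  have hcl : ∀ a ∈ K, ∀ b ∉ K, G.Adj a b → b = u ∨ b = v := by
    intro a ha b hb hab
    by_contra hcon
    exact hb (hK.closed a ha b hcon hab)
  constructor
  · by_contra hcon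
    refine hyK (h2.eq_compl hK.con.1 hvK (fun a ha b hb hab => ?_) y hyv)
    rcases hcl a ha b hb hab with h | h
    · exact absurd ⟨u, rfl, a, ha, h ▸ hab.symm⟩ hcon
    · exact h
  · by_contra hcon
    refine hyK (h2.eq_compl hK.con.1 huK (fun a ha b hb hab => ?_) y hyu)
    rcases hcl a ha b hb hab with h | h
    · exact h
    · exact absurd ⟨v, rfl, a, ha, h ▸ hab.symm⟩ hcon

omit [Finite V] hno in
/-- Setting for three components of the complement of a pair. -/
theorem three_comps_setup {u v : V} (huv : u ≠ v) {K C L : Set V}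
    (hK : IsComp G ({u, v} : Set V)ᶜ K) (hC : IsComp G ({u, v} : Set V)ᶜ C)
    (hL : IsComp G ({u, v} : Set V)ᶜ L) (hKC : K ≠ C) (hKL : K ≠ L) (hCL : C ≠ L) :
    Con G ({u} ∪ L) ∧ Disjoint ({u} ∪ L) ({v} : Set V) ∧ EAdj G ({u} ∪ L) {v} ∧
    IsComp G (({u} ∪ L) ∪ ({v} : Set V))ᶜ K ∧ IsComp G (({u} ∪ L) ∪ ({v} : Set V))ᶜ C ∧
    EAdj G ({u} ∪ L) C ∧ EAdj G {v} C ∧ EAdj G ({u} ∪ L) K ∧ EAdj G {v} K := by
  have hLu := h2.eadj_pair hL hK hKL.symm
  have hKu := h2.eadj_pair hK hC hKC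
  have hCu := h2.eadj_pair hC hK hKC.symm
  have hsub : ∀ M, IsComp G ({u, v} : Set V)ᶜ M → M ≠ L →
      IsComp G (({u} ∪ L) ∪ ({v} : Set V))ᶜ M := by
    intro M hM hne
    refine ⟨?_, hM.con, ?_⟩
    · intro x hx
      have h1 := hM.subset hx
      have h2 : x ∉ L := fun h => Set.disjoint_left.mp (hM.disjoint_of_ne hL hne) hx h
      simp only [mem_compl_iff, mem_insert_iff, mem_singleton_iff, not_or, mem_union] at h1 ⊢
      tauto
    · intro x hx y hy hxy
      refine hM.closed x hx y ?_ hxy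
      simp only [mem_compl_iff, mem_insert_iff, mem_singleton_iff, not_or, mem_union] at hy ⊢
      tauto
  refine ⟨(con_singleton u).union hL.con hLu.1, ?_, ?_, hsub K hK hKL, hsub C hC hCL,
    hCu.1.mono subset_union_left subset_rfl, hCu.2, hKu.1.mono subset_union_left subset_rfl,
    hKu.2⟩
  · rw [disjoint_singleton_right]
    rintro (h | h)
    · exact huv (show v = u from h).symm
    · exact hL.subset h (Or.inr rfl)
  · exact (hLu.2.symm).mono subset_union_right subset_rfl

theorem gem_three_comps {u v : V} (huv : u ≠ v) {K1 K2 K3 : Set V}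
    (hK1 : IsComp G ({u, v} : Set V)ᶜ K1) (hK2 : IsComp G ({u, v} : Set V)ᶜ K2)
    (hK3 : IsComp G ({u, v} : Set V)ᶜ K3) (h12 : K1 ≠ K2) (h13 : K1 ≠ K3) (h23 : K2 ≠ K3) :
    Dec G 48 univ := by
  have : Nonempty V := ⟨u⟩
  refine (dec_of_comps (k := 2) (m := 2) (W := {u, v}) ?_ ?_).mono (by norm_num)
  · exact (ncard_insert_le _ _).trans (by simp)
  · intro K hK
    obtain ⟨C, L, hC, hL, hKC, hKL, hCL⟩ : ∃ C L, IsComp G ({u, v} : Set V)ᶜ C ∧
        IsComp G ({u, v} : Set V)ᶜ L ∧ K ≠ C ∧ K ≠ L ∧ C ≠ L := by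
      by_cases h1 : K = K1
      · exact ⟨K2, K3, hK2, hK3, h1 ▸ h12, h1 ▸ h13, h23⟩
      · by_cases h2 : K = K2
        · exact ⟨K1, K3, hK1, hK3, h1, h2 ▸ h23, h13⟩
        · exact ⟨K1, K2, hK1, hK2, h1, h2, h12⟩
    obtain ⟨a1, a2, a3, a4, a5, a6, a7, a8, a9⟩ := three_comps_setup h2 huv hK hC hL hKC hKL hCL
    exact gem_dec_comp h2 hno a1 (con_singleton v) a2 a3 a4 a5 hKC a6 a7 a8 a9

omit [Finite V] hno in
/-- A component not joined to `P1` is bypassed by another one. -/
theorem cross_comp {P1 P2 : Set V} {p : V} (hP1 : P1.Nonempty) (h12 : ¬ EAdj G P1 P2)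
    (hp1 : p ∉ P1) {K : Set V} (hK : IsComp G (P1 ∪ {p} ∪ P2)ᶜ K) (hKP : ¬ EAdj G P1 K) :
    ∃ C, IsComp G (P1 ∪ {p} ∪ P2)ᶜ C ∧ EAdj G P1 C ∧ EAdj G P2 C := by
  by_contra hcon
  push Not at hcon
  let X : Set V := P1 ∪ ⋃ C ∈ {C | IsComp G (P1 ∪ {p} ∪ P2)ᶜ C ∧ EAdj G P1 C}, C
  have hKX : ∀ x ∈ K, x ∉ X := by
    rintro x hx (h | h)
    · exact hK.subset hx (Or.inl (Or.inl h))
    · simp only [mem_iUnion, exists_prop] at h
      obtain ⟨C, ⟨hC, hPC⟩, hxC⟩ := h
      rcases hC.eq_or_disjoint hK with h' | h'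
      · exact hKP (h' ▸ hPC)
      · exact Set.disjoint_left.mp h' hxC hx
  have hpX : p ∉ X := by
    rintro (h | h)
    · exact hp1 h
    · simp only [mem_iUnion, exists_prop] at h
      obtain ⟨C, ⟨hC, -⟩, hpC⟩ := h
      exact hC.subset hpC (Or.inl (Or.inr rfl))
  have hall := h2.eq_compl (K := X) (v := p) (hP1.mono subset_union_left) hpX (by
    rintro a ha b hb hab
    by_contra hbp
    have hbP : b ∉ P1 ∪ {p} ∪ P2 ∨ b ∈ P2 := by
      by_cases h : b ∈ P2
      · exact Or.inr h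
      · left
        rintro ((h' | h') | h')
        · exact hb (Or.inl h')
        · exact hbp h'
        · exact h h'
    rcases ha with ha | ha
    · rcases hbP with h | h
      · obtain ⟨C, hC, hbC⟩ := exists_comp (G := G) (A := (P1 ∪ {p} ∪ P2)ᶜ) h
        apply hb
        right
        simp only [mem_iUnion, exists_prop]
        exact ⟨C, ⟨hC, a, ha, b, hbC, hab⟩, hbC⟩
      · exact h12 ⟨a, ha, b, h, hab⟩
    · simp only [mem_iUnion, exists_prop] at ha
      obtain ⟨C, ⟨hC, hPC⟩, haC⟩ := ha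
      rcases hbP with h | h
      · apply hb
        right
        simp only [mem_iUnion, exists_prop]
        exact ⟨C, ⟨hC, hPC⟩, hC.closed a haC b h hab⟩
      · exact hcon C hC hPC ⟨b, h, a, haC, hab.symm⟩)
  obtain ⟨x, hx⟩ := hK.con.1
  refine hKX x hx (hall x ?_)
  rintro rfl
  exact hK.subset hx (Or.inl (Or.inr rfl))

end gemfree

theorem IP4.reverse {a b c d : V} (h : IP4 G a b c d) : IP4 G d c b a :=
  ⟨h.cd.symm, h.bc.symm, h.ab.symm, fun h' => h.bd h'.symm, fun h' => h.ad h'.symm,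
    fun h' => h.ac h'.symm, h.bd'.symm, h.ad'.symm, h.ac'.symm⟩

theorem con_pair {a b : V} (h : G.Adj a b) : Con G {a, b} := by
  have := (con_singleton (G := G) a).union (con_singleton b) ⟨a, rfl, b, rfl, h⟩
  rwa [singleton_union] at this

theorem con_triple {a b c : V} (h : G.Adj a b) (h' : G.Adj b c) : Con G {a, b, c} := by
  have := (con_singleton (G := G) a).union (con_pair h') ⟨a, rfl, b, Or.inl rfl, h⟩
  rwa [singleton_union] at this

/-- The cut of an induced path shared by two components. -/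
theorem exists_cut (h2 : TwoCon G) {a b c d : V} (hP : IP4 G a b c d)
    {K : Set V} (hK : IsComp G ({a, b, c, d} : Set V)ᶜ K)
    (hother : ∃ C, IsComp G ({a, b, c, d} : Set V)ᶜ C ∧ C ≠ K) :
    ∃ S0 T0 C : Set V, S0 ∪ T0 = {a, b, c, d} ∧ Con G S0 ∧ Con G T0 ∧ Disjoint S0 T0 ∧
      EAdj G S0 T0 ∧ IsComp G ({a, b, c, d} : Set V)ᶜ C ∧ K ≠ C ∧ EAdj G S0 C ∧ EAdj G T0 C ∧
      EAdj G S0 K ∧ EAdj G T0 K ∧
      ((S0 = {a} ∧ T0 = {b, c, d}) ∨ (S0 = {a, b} ∧ T0 = {c, d}) ∨
        (S0 = {a, b, c} ∧ T0 = {d})) := by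
  have hab := hP.ab
  have hbc := hP.bc
  have hcd := hP.cd
  have hac' := hP.ac'
  have had' := hP.ad'
  have hbd' := hP.bd'
  -- attachments of a component
  have hatt : ∀ L, IsComp G ({a, b, c, d} : Set V)ᶜ L → ∃ p ∈ ({a, b, c, d} : Set V),
      ∃ q ∈ ({a, b, c, d} : Set V), p ≠ q ∧ EAdj G {p} L ∧ EAdj G {q} L := by
    intro L hL
    obtain ⟨x, hx, y, hy, p, hp, q, hq, hxp, hyq, hpq⟩ := h2.two_nbrs hL.con.1 (x := a) (y := b)
      (fun h => hL.subset h (by simp)) (fun h => hL.subset h (by simp)) hab.ne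
    refine ⟨p, ?_, q, ?_, hpq, ⟨p, rfl, x, hx, hxp.symm⟩, ⟨q, rfl, y, hy, hyq.symm⟩⟩
    · by_contra h; exact hp (hL.closed x hx p h hxp)
    · by_contra h; exact hq (hL.closed y hy q h hyq)
  -- the three cuts
  have cut0 : ∀ C, IsComp G ({a, b, c, d} : Set V)ᶜ C → K ≠ C → EAdj G {a} C →
      EAdj G {b, c, d} C → EAdj G {a} K → EAdj G {b, c, d} K →
      ∃ S0 T0 C : Set V, S0 ∪ T0 = {a, b, c, d} ∧ Con G S0 ∧ Con G T0 ∧ Disjoint S0 T0 ∧
      EAdj G S0 T0 ∧ IsComp G ({a, b, c, d} : Set V)ᶜ C ∧ K ≠ C ∧ EAdj G S0 C ∧ EAdj G T0 C ∧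
      EAdj G S0 K ∧ EAdj G T0 K ∧
      ((S0 = {a} ∧ T0 = {b, c, d}) ∨ (S0 = {a, b} ∧ T0 = {c, d}) ∨
        (S0 = {a, b, c} ∧ T0 = {d})) := by
    intro C hC hKC h1 h2 h3 h4
    refine ⟨{a}, {b, c, d}, C, by rw [singleton_union], con_singleton a, con_triple hbc hcd, ?_,
      ⟨a, rfl, b, Or.inl rfl, hab⟩, hC, hKC, h1, h2, h3, h4, Or.inl ⟨rfl, rfl⟩⟩
    simp [hab.ne, hac', had']
  have cut1 : ∀ C, IsComp G ({a, b, c, d} : Set V)ᶜ C → K ≠ C → EAdj G {a, b} C →
      EAdj G {c, d} C → EAdj G {a, b} K → EAdj G {c, d} K →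
      ∃ S0 T0 C : Set V, S0 ∪ T0 = {a, b, c, d} ∧ Con G S0 ∧ Con G T0 ∧ Disjoint S0 T0 ∧
      EAdj G S0 T0 ∧ IsComp G ({a, b, c, d} : Set V)ᶜ C ∧ K ≠ C ∧ EAdj G S0 C ∧ EAdj G T0 C ∧
      EAdj G S0 K ∧ EAdj G T0 K ∧
      ((S0 = {a} ∧ T0 = {b, c, d}) ∨ (S0 = {a, b} ∧ T0 = {c, d}) ∨
        (S0 = {a, b, c} ∧ T0 = {d})) := by
    intro C hC hKC h1 h2 h3 h4
    refine ⟨{a, b}, {c, d}, C, by rw [insert_union, singleton_union], con_pair hab, con_pair hcd,
      ?_, ⟨b, Or.inr rfl, c, Or.inl rfl, hbc⟩, hC, hKC, h1, h2, h3, h4,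
      Or.inr (Or.inl ⟨rfl, rfl⟩)⟩
    simp [hac'.symm, had'.symm, hbc.ne', hbd'.symm]
  have cut2 : ∀ C, IsComp G ({a, b, c, d} : Set V)ᶜ C → K ≠ C → EAdj G {a, b, c} C →
      EAdj G {d} C → EAdj G {a, b, c} K → EAdj G {d} K →
      ∃ S0 T0 C : Set V, S0 ∪ T0 = {a, b, c, d} ∧ Con G S0 ∧ Con G T0 ∧ Disjoint S0 T0 ∧
      EAdj G S0 T0 ∧ IsComp G ({a, b, c, d} : Set V)ᶜ C ∧ K ≠ C ∧ EAdj G S0 C ∧ EAdj G T0 C ∧
      EAdj G S0 K ∧ EAdj G T0 K ∧
      ((S0 = {a} ∧ T0 = {b, c, d}) ∨ (S0 = {a, b} ∧ T0 = {c, d}) ∨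
        (S0 = {a, b, c} ∧ T0 = {d})) := by
    intro C hC hKC h1 h2 h3 h4
    refine ⟨{a, b, c}, {d}, C, by rw [insert_union, insert_union, singleton_union],
      con_triple hab hbc, con_singleton d, ?_, ⟨c, by simp, d, rfl, hcd⟩, hC, hKC, h1, h2, h3, h4,
      Or.inr (Or.inr ⟨rfl, rfl⟩)⟩
    simp [hcd.ne', had'.symm, hbd'.symm]
  by_cases hKa : EAdj G {a} K
  · by_cases hKd : EAdj G {d} K
    · obtain ⟨C, hC, hCK⟩ := hother
      obtain ⟨p, hp, q, hq, hpq, hpC, hqC⟩ := hatt C hC
      have hKbcd : EAdj G {b, c, d} K := hKd.mono (by simp) subset_rfl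
      have hKabc : EAdj G {a, b, c} K := hKa.mono (by simp) subset_rfl
      by_cases hCa : EAdj G {a} C
      · refine cut0 C hC hCK.symm hCa ?_ hKa hKbcd
        have : ∀ r ∈ ({a, b, c, d} : Set V), r ≠ a → EAdj G {r} C → EAdj G {b, c, d} C := by
          rintro r (h | h | h | h) hra hrC
          · exact absurd h hra
          · exact hrC.mono (by simp [h]) subset_rfl
          · exact hrC.mono (by simp [h]) subset_rfl
          · exact hrC.mono (by simp [show r = d from h]) subset_rfl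
        by_cases hpa : p = a
        · exact this q hq (fun h => hpq (hpa.trans h.symm)) hqC
        · exact this p hp hpa hpC
      · by_cases hCd : EAdj G {d} C
        · refine cut2 C hC hCK.symm ?_ hCd hKabc hKd
          have : ∀ r ∈ ({a, b, c, d} : Set V), r ≠ d → EAdj G {r} C → EAdj G {a, b, c} C := by
            rintro r (h | h | h | h) hrd hrC
            · exact hrC.mono (by simp [h]) subset_rfl
            · exact hrC.mono (by simp [h]) subset_rfl
            · exact hrC.mono (by simp [h]) subset_rfl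
            · exact absurd h hrd
          by_cases hpd : p = d
          · exact this q hq (fun h => hpq (hpd.trans h.symm)) hqC
          · exact this p hp hpd hpC
        · have hbcC : ∀ r ∈ ({a, b, c, d} : Set V), EAdj G {r} C → r = b ∨ r = c := by
            rintro r (h | h | h | h) hrC
            · exact absurd (h ▸ hrC) hCa
            · exact Or.inl h
            · exact Or.inr h
            · exact absurd ((show r = d from h) ▸ hrC) hCd
          have hb : EAdj G {b} C ∧ EAdj G {c} C := by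
            rcases hbcC p hp hpC with h | h <;> rcases hbcC q hq hqC with h' | h'
            · exact absurd (h.trans h'.symm) hpq
            · exact ⟨h ▸ hpC, h' ▸ hqC⟩
            · exact ⟨h' ▸ hqC, h ▸ hpC⟩
            · exact absurd (h.trans h'.symm) hpq
          exact cut1 C hC hCK.symm (hb.1.mono (by simp) subset_rfl)
            (hb.2.mono (by simp) subset_rfl) (hKa.mono (by simp) subset_rfl)
            (hKd.mono (by simp) subset_rfl)
    · -- `K` not joined to `d`
      obtain ⟨p, hp, q, hq, hpq, hpK, hqK⟩ := hatt K hK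
      by_cases hKc : EAdj G {c} K
      · have e : ({a, b, c, d} : Set V) = {d} ∪ {c} ∪ {a, b} := by
          ext x; simp only [mem_insert_iff, mem_singleton_iff, mem_union]; tauto
        obtain ⟨C, hC, hC1, hC2⟩ := cross_comp h2 (P1 := {d}) (P2 := {a, b}) (p := c)
          (singleton_nonempty d) (by
            simp only [EAdj, mem_singleton_iff, exists_eq_left, mem_insert_iff]
            rintro ⟨x, (rfl | rfl), hx⟩
            · exact hP.ad hx.symm
            · exact hP.bd hx.symm) (by simp [hcd.ne]) (K := K) (by rwa [← e]) hKd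
        rw [← e] at hC
        refine cut1 C hC ?_ hC2 (hC1.mono (by simp) subset_rfl)
          (hKa.mono (by simp) subset_rfl) (hKc.mono (by simp) subset_rfl)
        rintro rfl
        exact hKd hC1
      · have hab' : ∀ r ∈ ({a, b, c, d} : Set V), EAdj G {r} K → r = a ∨ r = b := by
          rintro r (h | h | h | h) hrK
          · exact Or.inl h
          · exact Or.inr h
          · exact absurd (h ▸ hrK) hKc
          · exact absurd ((show r = d from h) ▸ hrK) hKd
        have hKb : EAdj G {b} K := by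
          rcases hab' p hp hpK with h | h <;> rcases hab' q hq hqK with h' | h'
          · exact absurd (h.trans h'.symm) hpq
          · exact h' ▸ hqK
          · exact h ▸ hpK
          · exact h ▸ hpK
        have e : ({a, b, c, d} : Set V) = {c, d} ∪ {b} ∪ {a} := by
          ext x; simp only [mem_insert_iff, mem_singleton_iff, mem_union]; tauto
        obtain ⟨C, hC, hC1, hC2⟩ := cross_comp h2 (P1 := {c, d}) (P2 := {a}) (p := b)
          ⟨c, Or.inl rfl⟩ (by
            simp only [EAdj, mem_singleton_iff, exists_eq_left, mem_insert_iff]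
            rintro ⟨x, (rfl | rfl), hx⟩
            · exact hP.ac hx.symm
            · exact hP.ad hx.symm) (by simp [hbc.ne, hbd']) (K := K) (by rwa [← e]) (by
            rintro ⟨x, (rfl | rfl), hx⟩
            · exact hKc ⟨_, rfl, hx⟩
            · exact hKd ⟨_, rfl, hx⟩)
        rw [← e] at hC
        refine cut0 C hC ?_ hC2 (hC1.mono (by
          rintro x (rfl | rfl) <;> simp) subset_rfl) hKa
          (hKb.mono (by simp) subset_rfl)
        rintro rfl
        obtain ⟨x, (rfl | rfl), hx⟩ := hC1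
        · exact hKc ⟨_, rfl, hx⟩
        · exact hKd ⟨_, rfl, hx⟩
  · -- `K` not joined to `a`
    obtain ⟨p, hp, q, hq, hpq, hpK, hqK⟩ := hatt K hK
    by_cases hKb : EAdj G {b} K
    · have hKcd : EAdj G {c, d} K := by
        have : ∀ r ∈ ({a, b, c, d} : Set V), r ≠ b → EAdj G {r} K → EAdj G {c, d} K := by
          rintro r (h | h | h | h) hrb hrK
          · exact absurd (h ▸ hrK) hKa
          · exact absurd h hrb
          · exact hrK.mono (by simp [h]) subset_rfl
          · exact hrK.mono (by simp [show r = d from h]) subset_rfl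
        by_cases hpb : p = b
        · exact this q hq (fun h => hpq (hpb.trans h.symm)) hqK
        · exact this p hp hpb hpK
      have e : ({a, b, c, d} : Set V) = {a} ∪ {b} ∪ {c, d} := by
        ext x; simp only [mem_insert_iff, mem_singleton_iff, mem_union]; tauto
      obtain ⟨C, hC, hC1, hC2⟩ := cross_comp h2 (P1 := {a}) (P2 := {c, d}) (p := b)
        (singleton_nonempty a) (by
          simp only [EAdj, mem_singleton_iff, exists_eq_left, mem_insert_iff]
          rintro ⟨x, (rfl | rfl), hx⟩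
          · exact hP.ac hx
          · exact hP.ad hx) (by simp [hab.ne']) (K := K) (by rwa [← e]) hKa
      rw [← e] at hC
      refine cut1 C hC ?_ (hC1.mono (by simp) subset_rfl) hC2
        (hKb.mono (by simp) subset_rfl) hKcd
      rintro rfl
      exact hKa hC1
    · have hcd' : ∀ r ∈ ({a, b, c, d} : Set V), EAdj G {r} K → r = c ∨ r = d := by
        rintro r (h | h | h | h) hrK
        · exact absurd (h ▸ hrK) hKa
        · exact absurd (h ▸ hrK) hKb
        · exact Or.inl h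
        · exact Or.inr h
      have hKc : EAdj G {c} K ∧ EAdj G {d} K := by
        rcases hcd' p hp hpK with h | h <;> rcases hcd' q hq hqK with h' | h'
        · exact absurd (h.trans h'.symm) hpq
        · exact ⟨h ▸ hpK, h' ▸ hqK⟩
        · exact ⟨h' ▸ hqK, h ▸ hpK⟩
        · exact absurd (h.trans h'.symm) hpq
      have e : ({a, b, c, d} : Set V) = {a, b} ∪ {c} ∪ {d} := by
        ext x; simp only [mem_insert_iff, mem_singleton_iff, mem_union]; tauto
      obtain ⟨C, hC, hC1, hC2⟩ := cross_comp h2 (P1 := {a, b}) (P2 := {d}) (p := c)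
        ⟨a, Or.inl rfl⟩ (by
          simp only [EAdj, mem_singleton_iff, exists_eq_left, mem_insert_iff]
          rintro ⟨x, (rfl | rfl), hx⟩
          · exact hP.ad hx
          · exact hP.bd hx) (by simp [hbc.ne', hac'.symm]) (K := K) (by rwa [← e]) (by
          rintro ⟨x, (rfl | rfl), hx⟩
          · exact hKa ⟨_, rfl, hx⟩
          · exact hKb ⟨_, rfl, hx⟩)
      rw [← e] at hC
      refine cut2 C hC ?_ (hC1.mono (by
        rintro x (rfl | rfl) <;> simp) subset_rfl) hC2 (hKc.1.mono (by simp) subset_rfl) hKc.2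
      rintro rfl
      obtain ⟨x, (rfl | rfl), hx⟩ := hC1
      · exact hKa ⟨_, rfl, hx⟩
      · exact hKb ⟨_, rfl, hx⟩

/-- `z` has exactly the two neighbours `x` and `y`. -/
structure Deg2 (G : SimpleGraph V) (z x y : V) : Prop where
  ne : x ≠ y
  ax : G.Adj z x
  ay : G.Adj z y
  all : ∀ w, G.Adj z w → w = x ∨ w = y

theorem Deg2.swap {z x y : V} (h : Deg2 G z x y) : Deg2 G z y x :=
  ⟨h.ne.symm, h.ay, h.ax, fun w hw => (h.all w hw).symm⟩

section gemfree2

variable [Finite V] (h2 : TwoCon G) (hno : ¬ ContractsTo gem G)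

include h2 hno

theorem gem_dec_of_P4 {a b c d : V} (hP : IP4 G a b c d)
    (hnc : ¬ Con G ({a, b, c, d} : Set V)ᶜ) : Dec G 48 univ := by
  have : Nonempty V := ⟨a⟩
  refine (dec_of_comps (k := 2) (m := 4) (W := {a, b, c, d}) ?_ ?_).mono (by norm_num)
  · calc ({a, b, c, d} : Set V).ncard ≤ ({b, c, d} : Set V).ncard + 1 := ncard_insert_le _ _
      _ ≤ ({c, d} : Set V).ncard + 1 + 1 := by gcongr; exact ncard_insert_le _ _
      _ ≤ ({d} : Set V).ncard + 1 + 1 + 1 := by gcongr; exact ncard_insert_le _ _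
      _ ≤ 4 := by simp
  · intro K hK
    have hother : ∃ C, IsComp G ({a, b, c, d} : Set V)ᶜ C ∧ C ≠ K := by
      by_contra hcon
      push Not at hcon
      apply hnc
      have : ({a, b, c, d} : Set V)ᶜ = K := by
        refine subset_antisymm (fun x hx => ?_) hK.subset
        obtain ⟨C, hC, hxC⟩ := exists_comp (G := G) hx
        exact hcon C hC ▸ hxC
      rw [this]
      exact hK.con
    obtain ⟨S0, T0, C, hST, hS, hT, hd, e, hC, hKC, e1, e2, e3, e4, -⟩ :=
      exists_cut h2 hP hK hother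
    exact gem_dec_comp h2 hno hS hT hd e (hST ▸ hK) (hST ▸ hC) hKC e1 e2 e3 e4

/-- If an induced path has connected complement then an inner vertex has degree two. -/
theorem gem_P4_deg {a b c d : V} (hP : IP4 G a b c d)
    (hQ : Con G ({a, b, c, d} : Set V)ᶜ) : Deg2 G b a c ∨ Deg2 G c b d := by
  have hab := hP.ab
  have hbc := hP.bc
  have hcd := hP.cd
  have hac' := hP.ac'
  have had' := hP.ad'
  have hbd' := hP.bd'
  have end1 : ∀ {a b c d : V}, IP4 G a b c d → EAdj G ({a, b, c, d} : Set V)ᶜ {a} := by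
    intro a b c d hP
    by_contra hcon
    have hall := h2.eq_compl (K := {a}) (v := b) (singleton_nonempty a) (by simpa using hP.ab.ne')
      (by
        intro x hx y hy hxy
        rw [mem_singleton_iff] at hx
        subst hx
        by_contra hyb
        refine hcon ⟨y, ?_, x, rfl, hxy.symm⟩
        rintro (h | h | h | h)
        · exact hy h
        · exact hyb h
        · exact hP.ac (h ▸ hxy)
        · exact hP.ad ((show y = d from h) ▸ hxy))
    have : c = a := hall c hP.bc.ne'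
    exact hP.ac' this.symm
  by_contra hcon
  push Not at hcon
  have hbQ : EAdj G ({a, b, c, d} : Set V)ᶜ {b} := by
    by_contra h
    refine hcon.1 ⟨hac', hab.symm, hbc, fun w hw => ?_⟩
    by_contra hw'
    push Not at hw'
    refine h ⟨w, ?_, b, rfl, hw.symm⟩
    rintro (h | h | h | h)
    · exact hw'.1 h
    · exact hw.ne' h
    · exact hw'.2 h
    · exact hP.bd ((show w = d from h) ▸ hw)
  have hcQ : EAdj G ({a, b, c, d} : Set V)ᶜ {c} := by
    by_contra h
    refine hcon.2 ⟨hbd', hbc.symm, hcd, fun w hw => ?_⟩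
    by_contra hw'
    push Not at hw'
    refine h ⟨w, ?_, c, rfl, hw.symm⟩
    rintro (h | h | h | h)
    · exact hP.ac (h ▸ hw).symm
    · exact hw'.1 h
    · exact hw.ne' h
    · exact hw'.2 h
  have haQ := end1 hP
  have hdQ := end1 hP.reverse
  have e : ({d, c, b, a} : Set V) = {a, b, c, d} := by
    ext x; simp only [mem_insert_iff, mem_singleton_iff]; tauto
  rw [e] at hdQ
  apply hno
  refine gem_of_bags (B0 := {a}) (B1 := {b}) (B2 := {c}) (B3 := {d})
    (B4 := ({a, b, c, d} : Set V)ᶜ) ?_ (by simpa using hab.ne) (by simpa using hac')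
    (by simpa using had') (by simp) (by simpa using hbc.ne) (by simpa using hbd') (by simp)
    (by simpa using hcd.ne) (by simp) (by simp) (con_singleton a) (con_singleton b)
    (con_singleton c) (con_singleton d) hQ (by simpa [EAdj] using hab) (by simpa [EAdj] using hbc)
    (by simpa [EAdj] using hcd) haQ hbQ hcQ hdQ (by simpa [EAdj] using hP.ac)
    (by simpa [EAdj] using hP.ad) (by simpa [EAdj] using hP.bd)
  intro x
  simp only [mem_singleton_iff, mem_compl_iff, mem_insert_iff]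
  tauto

theorem gem_dec_of_common {z x y w : V} (hz : Deg2 G z x y) (_hxy : ¬ G.Adj x y) (hwz : w ≠ z)
    (hwx : G.Adj w x) (hwy : G.Adj w y) : Dec G 48 univ := by
  have : Nonempty V := ⟨z⟩
  have hzx := hz.ax
  have hzy := hz.ay
  refine (dec_of_comps (k := 2) (m := 3) (W := {x, y, w}) ?_ ?_).mono (by norm_num)
  · calc ({x, y, w} : Set V).ncard ≤ ({y, w} : Set V).ncard + 1 := ncard_insert_le _ _
      _ ≤ ({w} : Set V).ncard + 1 + 1 := by gcongr; exact ncard_insert_le _ _
      _ ≤ 3 := by simp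
  · intro K hK
    have hzC : IsComp G ({x, y, w} : Set V)ᶜ {z} := by
      refine ⟨?_, con_singleton z, ?_⟩
      · rintro u rfl
        simp only [mem_compl_iff, mem_insert_iff, mem_singleton_iff, not_or]
        exact ⟨hzx.ne, hzy.ne, hwz.symm⟩
      · rintro u rfl v hv huv
        exfalso
        simp only [mem_compl_iff, mem_insert_iff, mem_singleton_iff, not_or] at hv
        rcases hz.all v huv with h | h
        · exact hv.1 h
        · exact hv.2.1 h
    by_cases hKz : K = {z}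
    · rw [hKz]; exact Dec.single z
    · -- two attachments of `K`
      obtain ⟨a, ha, b, hb, p, hp, q, hq, hap, hbq, hpq⟩ := h2.two_nbrs hK.con.1 (x := x) (y := y)
        (fun h => hK.subset h (by simp)) (fun h => hK.subset h (by simp)) hz.ne
      have hp' : p ∈ ({x, y, w} : Set V) := by
        by_contra h; exact hp (hK.closed a ha p h hap)
      have hq' : q ∈ ({x, y, w} : Set V) := by
        by_contra h; exact hq (hK.closed b hb q h hbq)
      have hpK : EAdj G {p} K := ⟨p, rfl, a, ha, hap.symm⟩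
      have hqK : EAdj G {q} K := ⟨q, rfl, b, hb, hbq.symm⟩
      have e1 : ({x} : Set V) ∪ {y, w} = {x, y, w} := by rw [singleton_union]
      have e2 : ({y} : Set V) ∪ {x, w} = {x, y, w} := by
        ext u; simp only [mem_insert_iff, mem_singleton_iff, mem_union]; tauto
      by_cases hKx : EAdj G {x} K
      · -- `{x} | {y, w}`
        have hK2 : EAdj G {y, w} K := by
          have : ∀ r ∈ ({x, y, w} : Set V), r ≠ x → EAdj G {r} K → EAdj G {y, w} K := by
            rintro r (h | h | h) hrx hrK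
            · exact absurd h hrx
            · exact hrK.mono (by simp [h]) subset_rfl
            · exact hrK.mono (by simp [show r = w from h]) subset_rfl
          by_cases hpx : p = x
          · exact this q hq' (fun h => hpq (hpx.trans h.symm)) hqK
          · exact this p hp' hpx hpK
        exact gem_dec_comp h2 hno (con_singleton x) (con_pair hwy.symm)
          (by simp [hz.ne, hwx.ne']) ⟨x, rfl, w, Or.inr rfl, hwx.symm⟩ (e1 ▸ hK) (e1 ▸ hzC) hKz
          ⟨x, rfl, z, rfl, hzx.symm⟩ ⟨y, Or.inl rfl, z, rfl, hzy.symm⟩ hKx hK2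
      · have hKy : EAdj G {y} K ∧ EAdj G {x, w} K := by
          have : ∀ r ∈ ({x, y, w} : Set V), EAdj G {r} K → r = y ∨ r = w := by
            rintro r (h | h | h) hrK
            · exact absurd (h ▸ hrK) hKx
            · exact Or.inl h
            · exact Or.inr h
          rcases this p hp' hpK with h | h <;> rcases this q hq' hqK with h' | h'
          · exact absurd (h.trans h'.symm) hpq
          · exact ⟨h ▸ hpK, (h' ▸ hqK).mono (by simp) subset_rfl⟩
          · exact ⟨h' ▸ hqK, (h ▸ hpK).mono (by simp) subset_rfl⟩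
          · exact absurd (h.trans h'.symm) hpq
        exact gem_dec_comp h2 hno (con_singleton y) (con_pair hwx.symm)
          (by simp [hz.ne.symm, hwy.ne']) ⟨y, rfl, w, Or.inr rfl, hwy.symm⟩ (e2 ▸ hK)
          (e2 ▸ hzC) hKz ⟨y, rfl, z, rfl, hzy.symm⟩ ⟨x, Or.inl rfl, z, rfl, hzx.symm⟩ hKy.1 hKy.2

end gemfree2

/-- Removing leaves keeps a set connected. -/
theorem con_trim {v : V} {K : Set V} (hK : Con G K) (hvK : v ∉ K)
    (hN : ∀ n ∈ K, G.Adj v n → ∃ n', Deg2 G n v n' ∧ ¬ G.Adj v n')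
    (hne : (K \ G.neighborSet v).Nonempty) : Con G (K \ G.neighborSet v) := by
  refine ⟨hne, fun S hS hSne hcl => ?_⟩
  have key := hK.2 (S ∪ {n | n ∈ K ∧ G.Adj v n ∧ ∃ n' ∈ S, G.Adj n n'})
    (union_subset (hS.trans sdiff_subset) (fun n hn => hn.1)) (hSne.mono subset_union_left) (by
    rintro a (ha | ⟨haK, hva, n', hn', hna⟩) b hb hab
    · by_cases hvb : G.Adj v b
      · exact Or.inr ⟨hb, hvb, a, ha, hab.symm⟩
      · exact Or.inl (hcl a ha b ⟨hb, hvb⟩ hab)
    · obtain ⟨m, hm, hvm⟩ := hN a haK hva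
      have h1 : n' = m := by
        rcases hm.all n' hna with h | h
        · exact absurd (h ▸ (hS hn').1) hvK
        · exact h
      rcases hm.all b hab with h | h
      · exact absurd (h ▸ hb) hvK
      · exact Or.inl (by rw [h, ← h1]; exact hn'))
  rintro x ⟨hxK, hxv⟩
  rcases key hxK with h | h
  · exact h
  · exact absurd h.2.1 hxv

section gemfree3

variable [Finite V] (h2 : TwoCon G) (hno : ¬ ContractsTo gem G)

include h2 hno

/-- A vertex of degree at least three all of whose neighbours have degree two. -/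
theorem gem_dec_of_star {v n1 n2 n3 : V} (h1v : G.Adj v n1) (h2v : G.Adj v n2)
    (h3v : G.Adj v n3) (h12 : n1 ≠ n2) (h13 : n1 ≠ n3) (h23 : n2 ≠ n3)
    (hN : ∀ n, G.Adj v n → ∃ n', Deg2 G n v n') : Dec G 48 univ := by
  -- the other neighbours are not adjacent to `v`
  have hN' : ∀ n, G.Adj v n → ∃ n', Deg2 G n v n' ∧ ¬ G.Adj v n' := by
    intro n hn
    obtain ⟨n', hn'⟩ := hN n hn
    refine ⟨n', hn', fun hvn' => ?_⟩
    obtain ⟨n'', hn''⟩ := hN n' hvn'
    have hnn : n'' = n := by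
      rcases hn''.all n hn'.ay.symm with h | h
      · exact absurd h hn.ne'
      · exact h.symm
    obtain ⟨m, hm, hmn, hmn'⟩ : ∃ m, G.Adj v m ∧ m ≠ n ∧ m ≠ n' := by
      by_contra hcon
      push Not at hcon
      have k1 := hcon n1 h1v
      have k2 := hcon n2 h2v
      have k3 := hcon n3 h3v
      by_cases e1 : n1 = n
      · have e2 : n2 = n' := k2 fun h => h12 (e1.trans h.symm)
        have e3 : n3 = n' := k3 fun h => h13 (e1.trans h.symm)
        exact h23 (e2.trans e3.symm)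
      · by_cases e2 : n2 = n
        · have e3 : n3 = n' := k3 fun h => h23 (e2.trans h.symm)
          exact h13 ((k1 e1).trans e3.symm)
        · exact h12 ((k1 e1).trans (k2 e2).symm)
    have hall := h2.eq_compl (K := {n, n'}) (v := v) ⟨n, Or.inl rfl⟩
      (by simp [hn.ne, hvn'.ne]) (by
      rintro a (rfl | rfl) b hb hab
      · rcases hn'.all b hab with h | h
        · exact h
        · exact absurd (Or.inr h) hb
      · rcases hn''.all b hab with h | h
        · exact h
        · exact absurd (Or.inl (h.trans hnn)) hb)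
    rcases hall m hm.ne' with h | h
    · exact hmn h
    · exact hmn' h
  obtain ⟨w1, hw1, hvw1⟩ := hN' n1 h1v
  obtain ⟨w2, hw2, hvw2⟩ := hN' n2 h2v
  obtain ⟨w3, hw3, hvw3⟩ := hN' n3 h3v
  have hw1v : w1 ≠ v := hw1.ne.symm
  have hw2v : w2 ≠ v := hw2.ne.symm
  have hw3v : w3 ≠ v := hw3.ne.symm
  -- components containing the `n_i`
  have hcompn : ∀ {u : V} {K : Set V}, u ≠ v → ¬ G.Adj v u → IsComp G ({v, u} : Set V)ᶜ K →
      ∀ {n w m : V}, G.Adj v n → Deg2 G n v w → n ∈ K → m ∈ K → m ≠ n → w ∈ K := by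
    intro u K _ _ hK n w m _ hnw hnK hmK hmn
    obtain ⟨x, hx, hnx⟩ := hK.con.exists_adj_of_ne hnK hmK hmn.symm
    rcases hnw.all x hnx with h | h
    · exact absurd (Or.inl h) (hK.subset hx)
    · exact h ▸ hx
  -- three different components
  have three : ∀ u : V, u ≠ v → ¬ G.Adj v u →
      (∀ K, IsComp G ({v, u} : Set V)ᶜ K → ¬ (n1 ∈ K ∧ n2 ∈ K) ∧ ¬ (n1 ∈ K ∧ n3 ∈ K) ∧
        ¬ (n2 ∈ K ∧ n3 ∈ K)) → Dec G 48 univ := by
    intro u huv hvu hK
    have hmem : ∀ n, G.Adj v n → n ∈ ({v, u} : Set V)ᶜ := by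
      rintro n hn (h | h)
      · exact hn.ne h.symm
      · exact hvu ((show n = u from h) ▸ hn)
    obtain ⟨K1, hK1, k1⟩ := exists_comp (G := G) (hmem n1 h1v)
    obtain ⟨K2, hK2, k2⟩ := exists_comp (G := G) (hmem n2 h2v)
    obtain ⟨K3, hK3, k3⟩ := exists_comp (G := G) (hmem n3 h3v)
    refine gem_three_comps h2 hno huv.symm hK1 hK2 hK3 ?_ ?_ ?_
    · rintro rfl; exact (hK K1 hK1).1 ⟨k1, k2⟩
    · rintro rfl; exact (hK K1 hK1).2.1 ⟨k1, k3⟩
    · rintro rfl; exact (hK K2 hK2).2.2 ⟨k2, k3⟩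
  -- equal ends
  have heq : ∀ {n n' m w : V}, G.Adj v n → G.Adj v n' → n ≠ n' → Deg2 G n v w →
      Deg2 G n' v w → ¬ G.Adj v w → ∀ K, IsComp G ({v, w} : Set V)ᶜ K → n ∈ K → m ∈ K →
      m ≠ n → False := by
    intro n n' m w _ _ _ hn _ _ K hK hnK hmK hmn
    obtain ⟨x, hx, hnx⟩ := hK.con.exists_adj_of_ne hnK hmK hmn.symm
    rcases hn.all x hnx with h | h
    · exact hK.subset hx (Or.inl h)
    · exact hK.subset hx (Or.inr h)
  by_cases e12 : w1 = w2
  · refine three w1 hw1v hvw1 fun K hK => ⟨?_, ?_, ?_⟩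
    · rintro ⟨ha, hb⟩
      exact heq h1v h2v h12 hw1 (e12 ▸ hw2) hvw1 K hK ha hb h12.symm
    · rintro ⟨ha, hb⟩
      exact heq h1v h2v h12 hw1 (e12 ▸ hw2) hvw1 K hK ha hb h13.symm
    · rintro ⟨ha, hb⟩
      exact heq h2v h1v h12.symm (e12 ▸ hw2) hw1 hvw1 K hK ha hb h23.symm
  by_cases e13 : w1 = w3
  · refine three w1 hw1v hvw1 fun K hK => ⟨?_, ?_, ?_⟩
    · rintro ⟨ha, hb⟩
      exact heq h1v h3v h13 hw1 (e13 ▸ hw3) hvw1 K hK ha hb h12.symm
    · rintro ⟨ha, hb⟩
      exact heq h1v h3v h13 hw1 (e13 ▸ hw3) hvw1 K hK ha hb h13.symm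
    · rintro ⟨ha, hb⟩
      exact heq h3v h1v h13.symm (e13 ▸ hw3) hw1 hvw1 K hK hb ha h23
  by_cases e23 : w2 = w3
  · refine three w2 hw2v hvw2 fun K hK => ⟨?_, ?_, ?_⟩
    · rintro ⟨ha, hb⟩
      exact heq h2v h3v h23 hw2 (e23 ▸ hw3) hvw2 K hK hb ha h12
    · rintro ⟨ha, hb⟩
      exact heq h3v h2v h23.symm (e23 ▸ hw3) hw2 hvw2 K hK hb ha h13
    · rintro ⟨ha, hb⟩
      exact heq h2v h3v h23 hw2 (e23 ▸ hw3) hvw2 K hK ha hb h23.symm
  -- the far part
  let F : Set V := ({v} : Set V)ᶜ \ G.neighborSet v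
  have hF : Con G F := con_trim (h2.del v) (by simp) (fun n _ hn => hN' n hn)
    ⟨w1, by simpa using hw1v, hvw1⟩
  have m1 : w1 ∈ F := ⟨by simpa using hw1v, hvw1⟩
  have m2 : w2 ∈ F := ⟨by simpa using hw2v, hvw2⟩
  have m3 : w3 ∈ F := ⟨by simpa using hw3v, hvw3⟩
  have hnF : ∀ n, G.Adj v n → n ∉ F := fun n hn h => h.2 hn
  rcases rooted_triangle (G := G) _ F w1 w2 w3 rfl hF m1 m2 m3 e12 e13 e23 with
    ⟨H1, H2, H3, hU, d12, d13, d23, c1, c2, c3, k1, k2, k3, f12, f13, f23⟩ | ⟨u, hu⟩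
  · exfalso
    apply hno
    have s1 : H1 ⊆ F := by rw [← hU]; exact subset_union_left.trans subset_union_left
    have s2 : H2 ⊆ F := by rw [← hU]; exact subset_union_right.trans subset_union_left
    have s3 : H3 ⊆ F := by rw [← hU]; exact subset_union_right
    let Hub0 : Set V := {v} ∪ ⋃ n ∈ {n | G.Adj v n ∧ n ≠ n1 ∧ n ≠ n2}, {n}
    have hHub0 : Con G Hub0 := (con_singleton v).biUnion fun n hn =>
      ⟨con_singleton n, v, rfl, n, rfl, hn.1⟩
    have hmem0 : ∀ x, x ∈ Hub0 ↔ x = v ∨ (G.Adj v x ∧ x ≠ n1 ∧ x ≠ n2) := by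
      intro x
      simp [Hub0]
    have hHub : Con G (Hub0 ∪ H3) := hHub0.union c3
      ⟨n3, (hmem0 n3).mpr (Or.inr ⟨h3v, h13.symm, h23.symm⟩), w3, k3, hw3.ay⟩
    have dF0 : ∀ x ∈ F, x ∉ Hub0 := by
      intro x hx h
      rcases (hmem0 x).mp h with h' | h'
      · exact hx.1 h'
      · exact hx.2 h'.1
    have dsing : ∀ n, G.Adj v n → (n = n1 ∨ n = n2) → Disjoint {n} (Hub0 ∪ H3) := by
      intro n hn hn'
      rw [disjoint_singleton_left]
      rintro (h | h)
      · rcases (hmem0 n).mp h with h' | h'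
        · exact hn.ne h'.symm
        · rcases hn' with h'' | h''
          · exact h'.2.1 h''
          · exact h'.2.2 h''
      · exact hnF n hn (s3 h)
    have dset : ∀ H ⊆ F, Disjoint H H3 → Disjoint H (Hub0 ∪ H3) := by
      intro H hH hd
      rw [disjoint_union_right]
      exact ⟨Set.disjoint_left.mpr fun x hx => dF0 x (hH hx), hd⟩
    have nsing : ∀ {n w : V} {H : Set V}, G.Adj v n → Deg2 G n v w → H ⊆ F → w ∉ H →
        ¬ EAdj G {n} H := by
      rintro n w H hn hw hH hwH ⟨a, rfl, b, hb, hab⟩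
      rcases hw.all b hab with h | h
      · exact (hH hb).1 h
      · exact hwH (h ▸ hb)
    refine gem_of_bags (B0 := {n1}) (B1 := H1) (B2 := H2) (B3 := {n2}) (B4 := Hub0 ∪ H3) ?_
      (Set.disjoint_singleton_left.mpr fun h => hnF n1 h1v (s1 h))
      (Set.disjoint_singleton_left.mpr fun h => hnF n1 h1v (s2 h))
      (by simpa using h12) (dsing n1 h1v (Or.inl rfl)) d12
      (Set.disjoint_singleton_right.mpr fun h => hnF n2 h2v (s1 h)) (dset H1 s1 d13)
      (Set.disjoint_singleton_right.mpr fun h => hnF n2 h2v (s2 h)) (dset H2 s2 d23)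
      (dsing n2 h2v (Or.inr rfl)) (con_singleton n1) c1 c2 (con_singleton n2) hHub
      ⟨n1, rfl, w1, k1, hw1.ay⟩ f12 ⟨w2, k2, n2, rfl, hw2.ay.symm⟩
      ⟨v, Or.inl ((hmem0 v).mpr (Or.inl rfl)), n1, rfl, h1v⟩
      (f13.symm.mono subset_union_right subset_rfl)
      (f23.symm.mono subset_union_right subset_rfl)
      ⟨v, Or.inl ((hmem0 v).mpr (Or.inl rfl)), n2, rfl, h2v⟩
      (nsing h1v hw1 s2 fun h => Set.disjoint_left.mp d12 k1 h) ?_
      (fun h => nsing h2v hw2 s1 (fun h' => Set.disjoint_left.mp d12 h' k2) h.symm)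
    · intro x
      by_cases hx1 : x = n1
      · exact Or.inl hx1
      by_cases hx2 : x = n2
      · exact Or.inr (Or.inr (Or.inr (Or.inl hx2)))
      by_cases hxv : x = v
      · exact Or.inr (Or.inr (Or.inr (Or.inr (Or.inl ((hmem0 x).mpr (Or.inl hxv))))))
      by_cases hvx : G.Adj v x
      · exact Or.inr (Or.inr (Or.inr (Or.inr (Or.inl ((hmem0 x).mpr
          (Or.inr ⟨hvx, hx1, hx2⟩))))))
      · have hxF : x ∈ F := ⟨hxv, hvx⟩
        rw [← hU] at hxF
        rcases hxF with (h | h) | h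
        · exact Or.inr (Or.inl h)
        · exact Or.inr (Or.inr (Or.inl h))
        · exact Or.inr (Or.inr (Or.inr (Or.inr (Or.inr h))))
    · rintro ⟨a, rfl, b, rfl, hab⟩
      rcases hw1.all b hab with h | h
      · exact h2v.ne h.symm
      · exact hnF b h2v (h ▸ m1)
  · -- separated by `u`
    have huF : u ∈ F := by
      by_contra h
      exact (hu F (fun x hx => ⟨hx, fun h' => h (h' ▸ hx)⟩) hF).1 ⟨m1, m2⟩
    have hpair : ∀ {n n' w w' : V}, G.Adj v n → G.Adj v n' → n ≠ n' → Deg2 G n v w →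
        Deg2 G n' v w' → w ∈ F → w' ∈ F → (∀ D ⊆ F \ {u}, Con G D → ¬ (w ∈ D ∧ w' ∈ D)) →
        ∀ K, IsComp G ({v, u} : Set V)ᶜ K → ¬ (n ∈ K ∧ n' ∈ K) := by
      rintro n n' w w' hn hn' hne hw hw' hwF hwF' hsep K hK ⟨ha, hb⟩
      have hwK := hcompn huF.1 huF.2 hK hn hw ha hb hne.symm
      have hwK' := hcompn huF.1 huF.2 hK hn' hw' hb ha hne
      have hvK : v ∉ K := fun h => hK.subset h (Or.inl rfl)
      refine hsep (K \ G.neighborSet v) ?_ (con_trim hK.con hvK (fun n _ hn => hN' n hn)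
        ⟨w, hwK, hwF.2⟩) ⟨⟨hwK, hwF.2⟩, hwK', hwF'.2⟩
      rintro x ⟨hxK, hxv⟩
      exact ⟨⟨fun h => hvK (h ▸ hxK), hxv⟩, fun h => hK.subset hxK (Or.inr h)⟩
    exact three u huF.1 huF.2 fun K hK =>
      ⟨hpair h1v h2v h12 hw1 hw2 m1 m2 (fun D hD hDc => (hu D hD hDc).1) K hK,
        hpair h1v h3v h13 hw1 hw3 m1 m3 (fun D hD hDc => (hu D hD hDc).2.1) K hK,
        hpair h2v h3v h23 hw2 hw3 m2 m3 (fun D hD hDc => (hu D hD hDc).2.2) K hK⟩

/-- The 2-connected case for the gem. -/
theorem gem_twoCon : Dec G 48 univ := by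
  classical
  by_cases hcog : ∀ a b c d : V, ¬ IP4 G a b c d
  · have := dec_of_cograph (G := G) (A := univ) h2.con.1 (fun a _ b _ c _ d _ => hcog a b c d)
    rw [res_univ] at this
    exact this.mono (by norm_num)
  by_contra hdec
  push Not at hcog
  have hP : ∀ a b c d : V, IP4 G a b c d → Con G ({a, b, c, d} : Set V)ᶜ := by
    intro a b c d hI
    by_contra h
    exact hdec (gem_dec_of_P4 h2 hno hI h)
  have hcom : ∀ z x y w : V, Deg2 G z x y → ¬ G.Adj x y → w ≠ z → G.Adj w x → ¬ G.Adj w y :=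
    fun z x y w hz hxy hwz hwx hwy => hdec (gem_dec_of_common h2 hno hz hxy hwz hwx hwy)
  -- vertices of degree two with nonadjacent neighbours
  let Y : Set V := {z | ∃ x y, Deg2 G z x y ∧ ¬ G.Adj x y}
  have hYne : Y.Nonempty := by
    obtain ⟨a, b, c, d, hI⟩ := hcog
    rcases gem_P4_deg h2 hno hI (hP a b c d hI) with h | h
    · exact ⟨b, a, c, h, hI.ac⟩
    · exact ⟨c, b, d, h, hI.bd⟩
  -- a neighbour of `z ∈ Y`
  have hYcl : ∀ z x y, Deg2 G z x y → ¬ G.Adj x y → x ∈ Y := by
    intro z x y hz hxy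
    -- a second neighbour of `x`
    obtain ⟨n, hn, hnz⟩ : ∃ n, G.Adj x n ∧ n ≠ z := by
      by_contra hcon
      push Not at hcon
      have := h2.eq_compl (K := {x}) (v := z) (singleton_nonempty x)
        (by simpa using hz.ax.ne) (by
        rintro a ha b hb hab
        rw [mem_singleton_iff] at ha
        subst ha
        exact hcon b hab) y hz.ay.ne'
      exact hz.ne (show y = x from this).symm
    have hny : n ≠ y := by
      rintro rfl
      exact hxy hn
    have hzn : ¬ G.Adj z n := by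
      intro h
      rcases hz.all n h with h' | h'
      · exact hn.ne h'.symm
      · exact hny h'
    by_cases h3 : ∃ m, G.Adj x m ∧ m ≠ z ∧ m ≠ n
    · exfalso
      obtain ⟨m, hm, hmz, hmn⟩ := h3
      -- all neighbours of `x` have degree two
      refine hdec (gem_dec_of_star h2 hno (v := x) (n1 := z) (n2 := n) (n3 := m) hz.ax.symm hn hm
        hnz.symm hmz.symm hmn.symm ?_)
      have hout : ∀ p q, G.Adj x p → p ≠ z → G.Adj p q → q ≠ x → ¬ G.Adj x q →
          Deg2 G p x q := by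
        intro p q hxp hpz hpq hqx hxq
        have hpy : p ≠ y := by rintro rfl; exact hxy hxp
        have hzp : ¬ G.Adj z p := by
          intro h
          rcases hz.all p h with h' | h'
          · exact hxp.ne h'.symm
          · exact hpy h'
        have hqy : q ≠ y := by
          rintro rfl
          exact hcom z x q p hz hxy hpz hxp.symm hpq
        have hqz : q ≠ z := by
          rintro rfl
          exact hzp hpq.symm
        have hzq : ¬ G.Adj z q := by
          intro h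
          rcases hz.all q h with h' | h'
          · exact hqx h'
          · exact hqy h'
        have hI : IP4 G z x p q := ⟨hz.ax, hxp, hpq, hzp, hzq, hxq, hpz.symm, hqz.symm,
          hqx.symm⟩
        rcases gem_P4_deg h2 hno hI (hP z x p q hI) with h | h
        · exfalso
          have k1 := h.all n hn
          have k2 := h.all m hm
          rcases k1 with k1 | k1
          · exact hnz k1
          · rcases k2 with k2 | k2
            · exact hmz k2
            · exact hmn (k2.trans k1.symm)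
        · exact h
      -- the set of neighbours without outside neighbours is empty
      have hN2 : ∀ p, G.Adj x p → p ≠ z → ∃ q, G.Adj p q ∧ q ≠ x ∧ ¬ G.Adj x q := by
        intro p hxp hpz
        by_contra hcon
        have hall := h2.eq_compl (K := {p | G.Adj x p ∧ p ≠ z ∧ ¬ ∃ q, G.Adj p q ∧ q ≠ x ∧
          ¬ G.Adj x q}) (v := x) ⟨p, hxp, hpz, hcon⟩ (fun h => h.1.ne rfl) (by
          rintro a ⟨hxa, haz, ha⟩ b hb hab
          by_contra hbx
          have hxb : G.Adj x b := by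
            by_contra h
            exact ha ⟨b, hab, hbx, h⟩
          have hbz : b ≠ z := by
            rintro rfl
            rcases hz.all a hab.symm with h' | h'
            · exact hxa.ne h'.symm
            · exact hxy (h' ▸ hxa)
          apply hb
          refine ⟨hxb, hbz, ?_⟩
          rintro ⟨q, hbq, hqx, hxq⟩
          have := hout b q hxb hbz hbq hqx hxq
          rcases this.all a hab.symm with h' | h'
          · exact hxa.ne h'.symm
          · exact hxq (h' ▸ hxa))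
        exact (hall z hz.ax.ne).2.1 rfl
      intro p hxp
      by_cases hpz : p = z
      · subst hpz
        exact ⟨y, hz⟩
      · obtain ⟨q, hpq, hqx, hxq⟩ := hN2 p hxp hpz
        exact ⟨q, hout p q hxp hpz hpq hqx hxq⟩
    · push Not at h3
      refine ⟨z, n, ⟨hnz.symm, hz.ax.symm, hn, fun w hw => ?_⟩, hzn⟩
      by_cases hwz : w = z
      · exact Or.inl hwz
      · exact Or.inr (h3 w hw hwz)
  have hall : univ ⊆ Y := h2.con.2 Y (subset_univ _) hYne (by
    rintro z ⟨x, y, hz, hxy⟩ w _ hzw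
    rcases hz.all w hzw with rfl | rfl
    · exact hYcl z w y hz hxy
    · exact hYcl z w x hz.swap fun h => hxy h.symm)
  apply hdec
  have := dec_of_degree_two (G := G) (A := univ) h2.con (by
    intro z _
    obtain ⟨x, y, hz, -⟩ := hall (mem_univ z)
    have hsub : G.neighborSet z ∩ univ ⊆ {x, y} := by
      rintro w ⟨hw, -⟩
      exact hz.all w hw
    exact (ncard_le_ncard hsub (toFinite _)).trans ((ncard_insert_le _ _).trans (by simp)))
  rw [res_univ] at this
  exact this.mono (by norm_num)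

end gemfree3

end Pool.Agent.Work.MP_80fcda_co
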