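import Pool.Agent.Work.MP_80fcda_co.DecTools
import Pool.Agent.Work.MP_80fcda_co.Gem

/-!
# From 2-connected graphs to connected graphs
-/

set_option autoImplicit false

namespace Pool.Agent.Work.MP_80fcda_co

open Set

variable {V : Type}

/-- Removing one vertex from every set of a decomposition. -/
theorem Dec.remove {G : SimpleGraph V} {k : ℕ} {A : Set V} (h : Dec G k A) (r : V) :
    (A \ {r}).Nonempty → Dec G ((k + 1) * 2) (A \ {r}) := by
  classical
  induction h with
  | single v =>
    rintro ⟨x, hx, hxr⟩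
    have : ({v} : Set V) \ {r} = {v} := by
      rw [sdiff_eq_left, disjoint_singleton]
      rintro rfl
      exact hxr hx
    rw [this]
    exact Dec.single v
  | @union A B C hA hB hd hC hdiv ihA ihB =>
    intro hne
    have hU : (A \ {r}) ∪ (B \ {r}) = C \ {r} := by
      rw [← hC, union_sdiff_distrib]
    by_cases h1 : (A \ {r}).Nonempty
    · by_cases h2 : (B \ {r}).Nonempty
      · refine Dec.union (ihA h1) (ihB h2) (hd.mono sdiff_subset sdiff_subset) hU ?_
        obtain ⟨c, hc⟩ := hdiv.col
        refine Div.of_col (α := Fin (k + 1) × Bool) (fun x => (c x, decide (G.Adj x r))) ?_ ?_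
        · simp
        · intro x hx y hy _ _ hxy v hv
          have e1 : c x = c y := (Prod.ext_iff.mp hxy).1
          have e2 : decide (G.Adj x r) = decide (G.Adj y r) := (Prod.ext_iff.mp hxy).2
          by_cases hvr : v = r
          · subst hvr
            simpa using e2
          · exact hc x hx.1 y hy.1 e1 v fun h => hv ⟨h, hvr⟩
      · rw [not_nonempty_iff_eq_empty] at h2
        rw [← hU, h2, union_empty]
        exact ihA h1
    · rw [not_nonempty_iff_eq_empty] at h1
      rw [← hU, h1, empty_union]
      refine ihB ?_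
      rwa [← hU, h1, empty_union] at hne

/-- Transfer of decompositions from an induced subgraph. -/
theorem Dec.ofInduce {G : SimpleGraph V} {k : ℕ} (hk : 1 ≤ k) {U : Set V} {A : Set U}
    (h : Dec (G.induce U) k A) : Dec (res G U) k (Subtype.val '' A) := by
  classical
  induction h with
  | single v => rw [image_singleton]; exact Dec.single _
  | @union A B C hA hB hd hC hdiv ihA ihB =>
    refine Dec.union ihA ihB ?_ (by rw [← image_union, hC]) ?_
    · exact (disjoint_image_iff Subtype.val_injective).mpr hd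
    · obtain ⟨c, hc⟩ := hdiv
      refine ⟨fun x => if hx : x ∈ U then c ⟨x, hx⟩ else ⟨0, hk⟩, ?_⟩
      rintro _ ⟨⟨x, hxU⟩, hx, rfl⟩ _ ⟨⟨y, hyU⟩, hy, rfl⟩ ⟨p, hp, hxp⟩ ⟨q, hq, hyq⟩ hxy v hv
      simp only [hxU, hyU, dif_pos] at hxy
      have hpU : p ∈ U := hxp.2.2
      have hqU : q ∈ U := hyq.2.2
      by_cases hvU : v ∈ U
      · have := hc ⟨x, hxU⟩ hx ⟨y, hyU⟩ hy
          ⟨⟨p, hpU⟩, fun h => hp ⟨_, h, rfl⟩, hxp.1⟩
          ⟨⟨q, hqU⟩, fun h => hq ⟨_, h, rfl⟩, hyq.1⟩ hxy ⟨v, hvU⟩ (fun h => hv ⟨_, h, rfl⟩)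
        simp only [res_adj, hxU, hyU, hvU, and_true]
        exact this
      · simp [res_adj, hvU]

theorem con_induce {G : SimpleGraph V} {U : Set V} (h : Con G U) : Con (G.induce U) univ := by
  obtain ⟨u, hu⟩ := h.1
  refine ⟨⟨⟨u, hu⟩, mem_univ _⟩, fun S _ hne hcl x _ => ?_⟩
  have := h.2 (Subtype.val '' S) (by rintro _ ⟨y, -, rfl⟩; exact y.2) (hne.image _) (by
    rintro _ ⟨y, hy, rfl⟩ z hz hyz
    exact ⟨⟨z, hz⟩, hcl y hy ⟨z, hz⟩ (mem_univ _) hyz, rfl⟩)
  obtain ⟨y, hy, hyx⟩ := this x.2
  rwa [← Subtype.ext hyx]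

/-- The two sides at a cut vertex. -/
structure CutV (G : SimpleGraph V) (V1 V2 : Set V) (v : V) : Prop where
  cov : ∀ x, x ∈ V1 ∨ x ∈ V2
  inter : ∀ x, x ∈ V1 → x ∈ V2 → x = v
  v1 : v ∈ V1
  v2 : v ∈ V2
  con1 : Con G V1
  con2 : Con G V2
  sep : ∀ x ∈ V1, ∀ y ∈ V2, x ≠ v → y ≠ v → ¬ G.Adj x y

theorem CutV.swap {G : SimpleGraph V} {V1 V2 : Set V} {v : V} (h : CutV G V1 V2 v) :
    CutV G V2 V1 v :=
  ⟨fun x => (h.cov x).symm, fun x h1 h2 => h.inter x h2 h1, h.v2, h.v1, h.con2, h.con1,
    fun x hx y hy hxv hyv hxy => h.sep y hy x hx hyv hxv hxy.symm⟩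

theorem CutV.contractsTo [Finite V] {G : SimpleGraph V} {V1 V2 : Set V} {v : V}
    (h : CutV G V1 V2 v) : ContractsTo (G.induce V1) G := by
  classical
  refine contractsTo_of_bags (fun w : V1 => if w.1 = v then V2 else {w.1}) ?_ ?_ ?_ ?_
  · intro x
    by_cases hx : x ∈ V1
    · refine ⟨⟨x, hx⟩, ?_⟩
      by_cases hxv : x = v
      · simp only [hxv, if_true]; exact h.v2
      · simp [hxv]
    · refine ⟨⟨v, h.v1⟩, ?_⟩
      simpa using (h.cov x).resolve_left hx
  · intro a b hab
    have hab' : a.1 ≠ b.1 := fun h => hab (Subtype.ext h)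
    by_cases ha : a.1 = v
    · have hb : b.1 ≠ v := fun hb => hab' (ha.trans hb.symm)
      simp only [ha, hb, if_true, if_false]
      rw [disjoint_singleton_right]
      exact fun hb2 => hb (h.inter _ b.2 hb2)
    · by_cases hb : b.1 = v
      · simp only [ha, hb, if_true, if_false]
        rw [disjoint_singleton_left]
        exact fun ha2 => ha (h.inter _ a.2 ha2)
      · simp only [ha, hb, if_false]
        rwa [disjoint_singleton]
  · intro w
    by_cases hw : w.1 = v
    · simp only [hw, if_true]; exact h.con2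
    · simp only [hw, if_false]; exact con_singleton _
  · intro a b hab
    have hab' : a.1 ≠ b.1 := fun h => hab (Subtype.ext h)
    have key : ∀ a b : V1, a.1 = v → b.1 ≠ v → (G.Adj a.1 b.1 ↔ EAdj G V2 {b.1}) := by
      intro a b ha hb
      constructor
      · intro hadj
        exact ⟨v, h.v2, b.1, rfl, ha ▸ hadj⟩
      · rintro ⟨x, hx, y, rfl, hxy⟩
        by_cases hxv : x = v
        · rw [ha, ← hxv]; exact hxy
        · exact absurd hxy.symm (h.sep _ b.2 x hx hb hxv)
    show G.Adj a.1 b.1 ↔ _
    by_cases ha : a.1 = v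
    · have hb : b.1 ≠ v := fun hb => hab' (ha.trans hb.symm)
      simp only [ha, hb, if_true, if_false]
      rw [← ha]
      exact key a b ha hb
    · by_cases hb : b.1 = v
      · simp only [ha, hb, if_true, if_false]
        rw [← hb, eadj_comm, G.adj_comm]
        exact key b a hb ha
      · simp [ha, hb, EAdj]

/-- Gluing decompositions at a cut vertex. -/
theorem CutV.dec {G : SimpleGraph V} {V1 V2 : Set V} {v r : V} {k : ℕ} (hk : 1 ≤ k)
    (h : CutV G V1 V2 v) (hr : r ∈ V1) (h1 : Dec (res G V1) k (V1 \ {r}))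
    (h2 : Dec (res G V2) k (V2 \ {v})) : Dec G k {r}ᶜ := by
  -- a decomposition inside one side is one of `G`
  have key2 : ∀ A, Dec (res G V2) k A → A ⊆ V2 \ {v} → Dec G k A := by
    intro A hA
    induction hA with
    | single x => intro _; exact Dec.single x
    | @union A B C _ _ hd hC hdiv ihA ihB =>
      intro hsub
      refine Dec.union (ihA ((hC ▸ subset_union_left).trans hsub))
        (ihB ((hC ▸ subset_union_right).trans hsub)) hd hC ?_
      obtain ⟨c, hc⟩ := hdiv
      have hin : ∀ x ∈ C, ∀ y, G.Adj x y → y ∈ V2 := by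
        intro x hx y hxy
        by_contra hy
        have hy1 := (h.cov y).resolve_right hy
        refine h.sep y hy1 x (hsub hx).1 ?_ (hsub hx).2 hxy.symm
        rintro rfl
        exact hy h.v2
      refine ⟨c, fun x hx y hy ⟨p, hp, hxp⟩ ⟨q, hq, hyq⟩ hxy w hw => ?_⟩
      have := hc x hx y hy ⟨p, hp, hxp, (hsub hx).1, hin x hx p hxp⟩
        ⟨q, hq, hyq, (hsub hy).1, hin y hy q hyq⟩ hxy w hw
      simp only [res_adj, (hsub hx).1, (hsub hy).1, true_and] at this
      constructor
      · intro h'; exact (this.mp ⟨h', hin x hx w h'⟩).1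
      · intro h'; exact (this.mpr ⟨h', hin y hy w h'⟩).1
  have hV2 : Dec G k (V2 \ {v}) := key2 _ h2 subset_rfl
  -- the whole second side
  have hV2' : Dec G k V2 := by
    refine Dec.union hV2 (Dec.single v) disjoint_sdiff_left
      (sdiff_union_of_subset (by simpa using h.v2)) ⟨fun _ => ⟨0, hk⟩, ?_⟩
    have hin : ∀ x ∈ V2, (∃ w ∉ V2, G.Adj x w) → x = v := by
      rintro x hx ⟨w, hw, hxw⟩
      by_contra hxv
      refine h.sep w ((h.cov w).resolve_right hw) x hx ?_ hxv hxw.symm
      rintro rfl
      exact hw h.v2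
    intro x hx y hy hx' hy' _ w _
    rw [hin x hx hx', hin y hy hy']
  by_cases hrv : r = v
  · subst hrv
    have key1 : ∀ A, Dec (res G V1) k A → A ⊆ V1 \ {r} → Dec G k A := by
      intro A hA
      induction hA with
      | single x => intro _; exact Dec.single x
      | @union A B C _ _ hd hC hdiv ihA ihB =>
        intro hsub
        refine Dec.union (ihA ((hC ▸ subset_union_left).trans hsub))
          (ihB ((hC ▸ subset_union_right).trans hsub)) hd hC ?_
        obtain ⟨c, hc⟩ := hdiv
        have hin : ∀ x ∈ C, ∀ y, G.Adj x y → y ∈ V1 := by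
          intro x hx y hxy
          by_contra hy
          have hy1 := (h.cov y).resolve_left hy
          refine h.sep x (hsub hx).1 y hy1 (hsub hx).2 ?_ hxy
          rintro rfl
          exact hy h.v1
        refine ⟨c, fun x hx y hy ⟨p, hp, hxp⟩ ⟨q, hq, hyq⟩ hxy w hw => ?_⟩
        have := hc x hx y hy ⟨p, hp, hxp, (hsub hx).1, hin x hx p hxp⟩
          ⟨q, hq, hyq, (hsub hy).1, hin y hy q hyq⟩ hxy w hw
        simp only [res_adj, (hsub hx).1, (hsub hy).1, true_and] at this
        constructor
        · intro h'; exact (this.mp ⟨h', hin x hx w h'⟩).1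
        · intro h'; exact (this.mpr ⟨h', hin y hy w h'⟩).1
    have hV1 : Dec G k (V1 \ {r}) := key1 _ h1 subset_rfl
    refine Dec.union hV1 hV2 ?_ ?_ ⟨fun _ => ⟨0, hk⟩, ?_⟩
    · rw [Set.disjoint_left]
      rintro x hx hx'
      exact hx.2 (h.inter x hx.1 hx'.1)
    · ext x
      have := h.cov x
      simp only [mem_union, mem_sdiff, mem_singleton_iff, mem_compl_iff]
      tauto
    · rintro x hx y hy ⟨p, hp, hxp⟩ ⟨q, hq, hyq⟩ _ w hw
      have hp' : p = r := by simpa using hp
      have hq' : q = r := by simpa using hq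
      have hw' : w = r := by simpa using hw
      subst hw'
      rw [hp'] at hxp
      rw [hq'] at hyq
      exact ⟨fun _ => hyq, fun _ => hxp⟩
  · -- replace the leaf `v` by the second side
    classical
    let ex : Set V → Set V := fun A => if v ∈ A then A ∪ V2 else A
    have hex1 : ∀ A, v ∈ A → ex A = A ∪ V2 := fun A hA => by simp [ex, hA]
    have hex2 : ∀ A, v ∉ A → ex A = A := fun A hA => by simp [ex, hA]
    have key : ∀ A, Dec (res G V1) k A → A ⊆ V1 → Dec G k (ex A) := by
      intro A hA
      induction hA with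
      | single x =>
        intro _
        by_cases hx : x = v
        · subst hx
          rw [hex1 {x} rfl, singleton_union, insert_eq_of_mem h.v2]
          exact hV2'
        · rw [hex2 _ (fun h' => hx (show v = x from h').symm)]
          exact Dec.single x
      | @union A B C _ _ hd hC hdiv ihA ihB =>
        intro hsub
        have hA1 : A ⊆ V1 := (hC ▸ subset_union_left).trans hsub
        have hB1 : B ⊆ V1 := (hC ▸ subset_union_right).trans hsub
        have hdl : ∀ x ∈ A, x ∉ B := fun _ h => Set.disjoint_left.mp hd h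
        refine Dec.union (ihA hA1) (ihB hB1) ?_ ?_ ?_
        · by_cases hvA : v ∈ A
          · have hvB := hdl v hvA
            rw [hex1 _ hvA, hex2 _ hvB, disjoint_union_left]
            refine ⟨hd, Set.disjoint_left.mpr fun x hx hxB => ?_⟩
            exact hvB (h.inter x (hB1 hxB) hx ▸ hxB)
          · by_cases hvB : v ∈ B
            · rw [hex2 _ hvA, hex1 _ hvB, disjoint_union_right]
              refine ⟨hd, Set.disjoint_left.mpr fun x hxA hx => ?_⟩
              exact hvA (h.inter x (hA1 hxA) hx ▸ hxA)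
            · rwa [hex2 _ hvA, hex2 _ hvB]
        · by_cases hvA : v ∈ A
          · rw [hex1 _ hvA, hex2 _ (hdl v hvA), hex1 _ (hC ▸ Or.inl hvA), ← hC]
            ext x; simp only [mem_union]; tauto
          · by_cases hvB : v ∈ B
            · rw [hex2 _ hvA, hex1 _ hvB, hex1 _ (hC ▸ Or.inr hvB), ← hC]
              ext x; simp only [mem_union]; tauto
            · have hvC : v ∉ C := by
                rw [← hC]; rintro (h' | h')
                · exact hvA h'
                · exact hvB h'
              rw [hex2 _ hvA, hex2 _ hvB, hex2 _ hvC, hC]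
        · obtain ⟨c, hc⟩ := hdiv
          -- outside neighbours of `ex C`
          have hout : ∀ x ∈ ex C, ∀ y ∉ ex C, G.Adj x y → x ∈ C ∧ y ∈ V1 ∧ y ∉ C := by
            intro x hx y hy hxy
            by_cases hvC : v ∈ C
            · rw [hex1 _ hvC] at hx hy
              have hy1 : y ∈ V1 := (h.cov y).resolve_right fun h' => hy (Or.inr h')
              have hyC : y ∉ C := fun h' => hy (Or.inl h')
              have hyv : y ≠ v := by rintro rfl; exact hyC hvC
              refine ⟨?_, hy1, hyC⟩
              rcases hx with hx | hx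
              · exact hx
              · by_cases hxv : x = v
                · exact hxv ▸ hvC
                · exact absurd hxy.symm (h.sep y hy1 x hx hyv hxv)
            · rw [hex2 _ hvC] at hx hy
              refine ⟨hx, ?_, hy⟩
              by_contra hy1
              have hxv : x ≠ v := by rintro rfl; exact hvC hx
              have hyv : y ≠ v := by rintro rfl; exact hy1 h.v1
              exact h.sep x (hsub hx) y ((h.cov y).resolve_left hy1) hxv hyv hxy
          have hCex : C ⊆ ex C := by
            by_cases hvC : v ∈ C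
            · rw [hex1 _ hvC]; exact subset_union_left
            · rw [hex2 _ hvC]
          refine ⟨c, fun x hx y hy ⟨p, hp, hxp⟩ ⟨q, hq, hyq⟩ hxy w hw => ?_⟩
          obtain ⟨hxC, hp1, hpC⟩ := hout x hx p hp hxp
          obtain ⟨hyC, hq1, hqC⟩ := hout y hy q hq hyq
          have hwC : w ∉ C := fun h' => hw (hCex h')
          have := hc x hxC y hyC ⟨p, hpC, hxp, hsub hxC, hp1⟩ ⟨q, hqC, hyq, hsub hyC, hq1⟩ hxy w
            hwC
          simp only [res_adj, hsub hxC, hsub hyC, true_and] at this
          constructor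
          · intro h'; exact (this.mp ⟨h', (hout x hx w hw h').2.1⟩).1
          · intro h'; exact (this.mpr ⟨h', (hout y hy w hw h').2.1⟩).1
    have hfin := key _ h1 sdiff_subset
    have hvm : v ∈ V1 \ {r} := ⟨h.v1, fun h' => hrv (show v = r from h').symm⟩
    rw [hex1 _ hvm] at hfin
    have : (V1 \ {r}) ∪ V2 = {r}ᶜ := by
      ext x
      have hcx := h.cov x
      simp only [mem_union, mem_sdiff, mem_singleton_iff, mem_compl_iff]
      constructor
      · rintro (h' | h')
        · exact h'.2
        · rintro rfl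
          exact hrv (h.inter x hr h')
      · tauto
    rwa [this] at hfin

theorem dec_of_blocks {W : Type} {H : SimpleGraph W} {k : ℕ}
    (hH : ∀ (V : Type) [Finite V] (G : SimpleGraph V), TwoCon G → ¬ ContractsTo H G →
      Dec G k univ) : ∀ (n : ℕ) (V : Type) [Finite V] (G : SimpleGraph V), Nat.card V = n →
      Con G univ → ¬ ContractsTo H G → ∀ r : V, ({r}ᶜ : Set V).Nonempty →
      Dec G ((k + 1) * 2) {r}ᶜ := by
  intro n
  induction n using Nat.strong_induction_on with
  | _ n ih =>
    intro V _ G hn hG hno r hr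
    have hk : 1 ≤ (k + 1) * 2 := by omega
    by_cases h2 : ∀ v, Con G ({v}ᶜ : Set V)
    · have := (hH V G ⟨hG, h2⟩ hno).remove r
      rw [← compl_eq_univ_sdiff] at this
      exact this hr
    · push Not at h2
      obtain ⟨v, hv⟩ := h2
      -- a component at `v`
      obtain ⟨x, hxv⟩ : ({v}ᶜ : Set V).Nonempty := by
        obtain ⟨s, hs⟩ := hr
        by_cases h : s = v
        · refine ⟨r, fun h' => hs ?_⟩
          rw [mem_singleton_iff] at h' ⊢
          rw [h, h']
        · exact ⟨s, h⟩
      obtain ⟨K, hK, hxK⟩ := exists_comp (G := G) hxv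
      have hK' : IsComp G (univ \ {v}) K := by rwa [← compl_eq_univ_sdiff]
      have hvK : v ∉ K := fun h => hK.subset h rfl
      obtain ⟨y, hyv, hyK⟩ : (({v}ᶜ : Set V) \ K).Nonempty := by
        by_contra h
        rw [not_nonempty_iff_eq_empty, sdiff_eq_empty] at h
        apply hv
        rw [subset_antisymm h hK.subset]
        exact hK.con
      have hcut : CutV G Kᶜ (K ∪ {v}) v := by
        refine ⟨?_, ?_, hvK, Or.inr rfl, ?_, ?_, ?_⟩
        · intro z
          by_cases hz : z ∈ K
          · exact Or.inr (Or.inl hz)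
          · exact Or.inl hz
        · rintro z hz (h | h)
          · exact absurd h hz
          · exact h
        · have := hG.diff_comp (con_singleton v) (subset_univ _) hK'
          rwa [← compl_eq_univ_sdiff] at this
        · refine hK.con.union (con_singleton v) ?_
          exact (hG.eadj_comp hK' ⟨v, mem_univ v, rfl⟩).mono subset_rfl inter_subset_right
        · rintro a ha b (hb | hb) hav hbv hab
          · exact ha (hK.closed b hb a hav hab.symm)
          · exact hbv hb
      -- the inductive hypothesis for a side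
      have side : ∀ V1 V2 : Set V, CutV G V1 V2 v → V1 ≠ univ → ∀ s ∈ V1,
          (V1 \ {s}).Nonempty → Dec (res G V1) ((k + 1) * 2) (V1 \ {s}) := by
        intro V1 V2 hc hne s hs hsne
        have hlt : Nat.card V1 < n := by
          rw [← hn, Nat.card_coe_set_eq, ← ncard_univ]
          exact ncard_lt_ncard ⟨subset_univ _, fun h => hne (subset_antisymm (subset_univ _) h)⟩
            (toFinite _)
        obtain ⟨z, hz⟩ := hsne
        have := (ih _ hlt V1 (G.induce V1) rfl (con_induce hc.con1)
          (fun h => hno (hc.contractsTo.trans h)) ⟨s, hs⟩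
          ⟨⟨z, hz.1⟩, fun h => hz.2 (congrArg Subtype.val h)⟩).ofInduce hk
        have e : Subtype.val '' ({⟨s, hs⟩}ᶜ : Set V1) = V1 \ {s} := by
          ext w
          constructor
          · rintro ⟨⟨w', hw'⟩, hw, rfl⟩
            exact ⟨hw', fun h => hw (Subtype.ext h)⟩
          · rintro ⟨hw, hws⟩
            exact ⟨⟨w, hw⟩, fun h => hws (congrArg Subtype.val h), rfl⟩
        rwa [e] at this
      have hne1 : Kᶜ ≠ univ := by
        intro h
        have : x ∈ Kᶜ := h ▸ mem_univ x
        exact this hxK
      have hyKv : y ∉ K ∪ {v} := by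
        rintro (h | h)
        · exact hyK h
        · exact hyv h
      have hne2 : K ∪ {v} ≠ univ := by
        intro h
        exact hyKv (h ▸ mem_univ y)
      have hxv' : x ≠ v := hxv
      have hyv' : y ≠ v := hyv
      by_cases hrK : r ∈ K
      · refine hcut.swap.dec hk (Or.inl hrK) (side _ _ hcut.swap hne2 r (Or.inl hrK)
          ⟨v, Or.inr rfl, fun h => hvK ((show v = r from h) ▸ hrK)⟩)
          (side _ _ hcut hne1 v hvK ⟨y, hyK, hyv⟩)
      · refine hcut.dec hk hrK (side _ _ hcut hne1 r hrK ?_)
          (side _ _ hcut.swap hne2 v (Or.inr rfl) ⟨x, Or.inl hxK, hxv⟩)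
        by_cases hrv : r = v
        · exact ⟨y, hyK, fun h => hyv' ((show y = r from h).trans hrv)⟩
        · exact ⟨v, hvK, fun h => hrv (show v = r from h).symm⟩

theorem bounded_of_twoCon {W : Type} {H : SimpleGraph W} {k : ℕ}
    (hH : ∀ (V : Type) [Finite V] (G : SimpleGraph V), TwoCon G → ¬ ContractsTo H G →
      Dec G k univ) : BoundedCW H := by
  refine ⟨3 * ((k + 1) * 2 + 1), fun V _ G hG hno => ?_⟩
  rw [← con_univ_iff] at hG
  obtain ⟨r, -⟩ := hG.1
  apply Dec.cliqueWidth_le
  by_cases hr : ({r}ᶜ : Set V).Nonempty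
  · refine Dec.union (dec_of_blocks hH _ V G rfl hG hno r hr) (Dec.single r) (by simp)
      (by ext x; simp only [mem_union, mem_compl_iff, mem_univ, iff_true]; exact (em _).symm)
      ⟨fun _ => ⟨0, by omega⟩, ?_⟩
    intro x _ y _ _ _ _ w hw
    exact absurd (mem_univ w) hw
  · rw [not_nonempty_iff_eq_empty, compl_empty_iff] at hr
    rw [← hr]
    exact Dec.single r

theorem gem_bounded : BoundedCW gem :=
  bounded_of_twoCon (k := 48) fun _ _ _ h2 hno => gem_twoCon h2 hno

end Pool.Agent.Work.MP_80fcda_co
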