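import Pool.Agent.Work.MP_80fcda_co.Upper

/-!
# Tools for decompositions
-/

set_option autoImplicit false

namespace Pool.Agent.Work.MP_80fcda_co

open Set

variable {V : Type}

/-- The graph `G` with only the edges inside `U` kept. -/
def res (G : SimpleGraph V) (U : Set V) : SimpleGraph V where
  Adj x y := G.Adj x y ∧ x ∈ U ∧ y ∈ U
  symm := ⟨fun _ _ h => ⟨h.1.symm, h.2.2, h.2.1⟩⟩
  loopless := ⟨fun _ h => h.1.ne rfl⟩

theorem res_adj {G : SimpleGraph V} {U : Set V} {x y : V} :
    (res G U).Adj x y ↔ G.Adj x y ∧ x ∈ U ∧ y ∈ U := Iff.rfl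

theorem res_univ (G : SimpleGraph V) : res G univ = G := by
  ext x y
  simp [res_adj]

theorem Dec.nonempty {G : SimpleGraph V} {k : ℕ} {A : Set V} (h : Dec G k A) : A.Nonempty := by
  induction h with
  | single v => exact singleton_nonempty v
  | union _ _ _ hC _ ihA _ => rw [← hC]; exact ihA.mono subset_union_left

/-- Adding single vertices one at a time. -/
theorem Dec.grow [Finite V] {G : SimpleGraph V} {k : ℕ} {D E : Set V} (hD : Dec G k D)
    (hDE : D ⊆ E) (h : ∀ F, D ⊆ F → F ⊆ E → Div G k F) : Dec G k E := by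
  have key : ∀ n : ℕ, ∀ F : Set V, D ⊆ F → F ⊆ E → (F \ D).ncard = n → Dec G k F := by
    intro n
    induction n with
    | zero =>
      intro F hDF hFE hn
      rw [Set.ncard_eq_zero (toFinite _), sdiff_eq_empty] at hn
      rwa [subset_antisymm hn hDF]
    | succ n ih =>
      intro F hDF hFE hn
      obtain ⟨x, hx⟩ : (F \ D).Nonempty := by
        rw [← Set.ncard_pos (toFinite _)]; omega
      refine Dec.union (ih (F \ {x}) ?_ (sdiff_subset.trans hFE) ?_) (Dec.single x)
        disjoint_sdiff_left (sdiff_union_of_subset (by simpa using hx.1)) (h F hDF hFE)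
      · intro y hy
        exact ⟨hDF hy, fun h => hx.2 (by rw [← show y = x from h]; exact hy)⟩
      · have : (F \ {x}) \ D = (F \ D) \ {x} := by
          ext y; simp only [mem_sdiff, mem_singleton_iff]; tauto
        rw [this, Set.ncard_sdiff_singleton_of_mem hx, hn]
        rfl
  exact key _ E hDE subset_rfl rfl

/-- Bound through the traces on a small set. -/
theorem Div.of_trace {G : SimpleGraph V} {k : ℕ} {A W : Set V} [Finite W]
    (hk : 2 ^ W.ncard ≤ k) (h : ∀ x ∈ A, ∀ v ∉ A, G.Adj x v → v ∈ W) : Div G k A := by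
  classical
  have := Fintype.ofFinite W
  refine Div.of_col (α := Set W) (fun x => {w : W | G.Adj x w.1}) ?_ ?_
  · rw [Nat.card_eq_fintype_card, Fintype.card_set, ← Nat.card_eq_fintype_card,
      Nat.card_coe_set_eq]
    exact hk
  · intro x hx y hy _ _ hxy v hv
    constructor
    · intro hxv
      have hvW := h x hx v hv hxv
      have : (⟨v, hvW⟩ : W) ∈ {w : W | G.Adj x w.1} := hxv
      rw [hxy] at this
      exact this
    · intro hyv
      have hvW := h y hy v hv hyv
      have : (⟨v, hvW⟩ : W) ∈ {w : W | G.Adj y w.1} := hyv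
      rw [← hxy] at this
      exact this

/-- From a decomposition inside `K` to a decomposition in `G`, when `K` has few neighbours. -/
theorem Dec.lift {G : SimpleGraph V} {k : ℕ} {K W : Set V} [Finite W]
    (hW : ∀ x ∈ K, ∀ v ∉ K, G.Adj x v → v ∈ W) {A : Set V} (hA : Dec (res G K) k A) :
    A ⊆ K → Dec G ((k + 1) * 2 ^ W.ncard) A := by
  classical
  have := Fintype.ofFinite W
  induction hA with
  | single v => intro _; exact Dec.single v
  | @union A B C _ _ hd hC hdiv ihA ihB =>
    intro hCK
    have hAK : A ⊆ K := (hC ▸ subset_union_left).trans hCK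
    have hBK : B ⊆ K := (hC ▸ subset_union_right).trans hCK
    refine Dec.union (ihA hAK) (ihB hBK) hd hC ?_
    obtain ⟨c, hc⟩ := hdiv.col
    refine Div.of_col (α := Fin (k + 1) × Set W) (fun x => (c x, {w : W | G.Adj x w.1})) ?_ ?_
    · rw [Nat.card_eq_fintype_card, Fintype.card_prod, Fintype.card_set, Fintype.card_fin,
        ← Nat.card_eq_fintype_card (α := W), Nat.card_coe_set_eq]
    · intro x hx y hy _ _ hxy v hv
      have h1 : c x = c y := (Prod.ext_iff.mp hxy).1
      have h2 : {w : W | G.Adj x w.1} = {w : W | G.Adj y w.1} := (Prod.ext_iff.mp hxy).2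
      by_cases hvK : v ∈ K
      · have := hc x hx y hy h1 v hv
        simp only [res_adj, hCK hx, hCK hy, hvK, and_true] at this
        exact this
      · constructor
        · intro hxv
          have hvW := hW x (hCK hx) v hvK hxv
          have : (⟨v, hvW⟩ : W) ∈ {w : W | G.Adj x w.1} := hxv
          rw [h2] at this
          exact this
        · intro hyv
          have hvW := hW y (hCK hy) v hvK hyv
          have : (⟨v, hvW⟩ : W) ∈ {w : W | G.Adj y w.1} := hyv
          rw [← h2] at this
          exact this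

/-- If all components left after deleting a small set `W` are well decomposed, then so is `G`. -/
theorem dec_of_comps [Finite V] [Nonempty V] {G : SimpleGraph V} {k m : ℕ} {W : Set V}
    (hm : W.ncard ≤ m) (hK : ∀ K, IsComp G Wᶜ K → Dec (res G K) k K) :
    Dec G ((k + 1) * 2 ^ m) univ := by
  have hpow : 2 ^ W.ncard ≤ (k + 1) * 2 ^ W.ncard := Nat.le_mul_of_pos_left _ (Nat.succ_pos k)
  suffices h : Dec G ((k + 1) * 2 ^ W.ncard) univ from
    h.mono (Nat.mul_le_mul_left _ (Nat.pow_le_pow_right (by norm_num) hm))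
  by_cases hne : (Wᶜ).Nonempty
  · -- unions of components
    have key : ∀ n : ℕ, ∀ D : Set V, D ⊆ Wᶜ → D.Nonempty → Closed G Wᶜ D → D.ncard = n →
        Dec G ((k + 1) * 2 ^ W.ncard) D := by
      intro n
      induction n using Nat.strong_induction_on with
      | _ n ih =>
        intro D hDW hDne hcl hn
        obtain ⟨x, hx⟩ := hDne
        obtain ⟨K, hKc, hxK⟩ := exists_comp (G := G) (hDW hx)
        have hKD : K ⊆ D := hKc.con.subset_of_closed hKc.subset hcl ⟨x, hx, hxK⟩
        have hDK : Dec G ((k + 1) * 2 ^ W.ncard) K := by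
          refine (hK K hKc).lift ?_ subset_rfl
          intro y hy v hv hyv
          by_contra hvW
          exact hv (hKc.closed y hy v hvW hyv)
        by_cases hrest : (D \ K).Nonempty
        · refine Dec.union hDK (ih (D \ K).ncard ?_ (D \ K) (sdiff_subset.trans hDW) hrest ?_ rfl)
            disjoint_sdiff_right (union_sdiff_cancel hKD) ?_
          · rw [← hn]
            refine ncard_lt_ncard ?_ (toFinite _)
            exact ⟨sdiff_subset, fun h => (h hx).2 hxK⟩
          · intro u hu v hv huv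
            refine ⟨hcl u hu.1 v hv huv, fun hvK => hu.2 ?_⟩
            exact hKc.closed v hvK u (hDW hu.1) huv.symm
          · refine Div.of_trace (W := W) hpow fun y hy v hv hyv => ?_
            by_contra hvW
            exact hv (hcl y hy v hvW hyv)
        · have : D = K := by
            rw [not_nonempty_iff_eq_empty, sdiff_eq_empty] at hrest
            exact subset_antisymm hrest hKD
          rw [this]
          exact hDK
    refine (key _ Wᶜ subset_rfl hne (fun _ _ v hv _ => hv) rfl).grow (subset_univ _) ?_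
    intro F hF _
    refine Div.of_trace (W := W) hpow fun y _ v hv _ => ?_
    by_contra hvW
    exact hv (hF hvW)
  · rw [not_nonempty_iff_eq_empty, compl_empty_iff] at hne
    refine (dec_of_finite G univ_nonempty).mono ?_
    rw [hne, ncard_univ] at hpow ⊢
    exact (Nat.lt_two_pow_self).le.trans hpow

/-- A connected set with all inner degrees at most two. -/
theorem dec_of_degree_two [Finite V] {G : SimpleGraph V} {A : Set V} (hA : Con G A)
    (hdeg : ∀ y ∈ A, (G.neighborSet y ∩ A).ncard ≤ 2) : Dec (res G A) 2 A := by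
  classical
  -- boundary
  let bd : Set V → Set V := fun B => {x | x ∈ B ∧ ∃ v ∈ A \ B, G.Adj x v}
  have hdiv : ∀ B : Set V, (bd B).ncard ≤ 2 → Div (res G A) 2 B := by
    intro B hB
    have := Fintype.ofFinite (bd B)
    by_cases hne : (bd B).Nonempty
    · obtain ⟨b0, hb0⟩ := hne
      refine Div.of_col (α := bd B) (fun x => if h : x ∈ bd B then ⟨x, h⟩ else ⟨b0, hb0⟩) ?_ ?_
      · rw [Nat.card_coe_set_eq]; exact hB
      · rintro x hx y hy ⟨v, hv, hxv⟩ ⟨w, hw, hyw⟩ hxy u hu
        have h1 : x ∈ bd B := ⟨hx, v, ⟨hxv.2.2, hv⟩, hxv.1⟩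
        have h2 : y ∈ bd B := ⟨hy, w, ⟨hyw.2.2, hw⟩, hyw.1⟩
        simp only [h1, h2, dif_pos, Subtype.mk.injEq] at hxy
        rw [hxy]
    · refine ⟨fun _ => 0, ?_⟩
      rintro x hx y hy ⟨v, hv, hxv⟩
      exact absurd ⟨x, hx, v, ⟨hxv.2.2, hv⟩, hxv.1⟩ hne
  -- growing
  have key : ∀ n : ℕ, 1 ≤ n → n ≤ A.ncard → ∃ B, B ⊆ A ∧ B.ncard = n ∧ Con G B ∧
      (bd B).ncard ≤ 2 ∧ Dec (res G A) 2 B := by
    intro n hn
    induction n, hn using Nat.le_induction with
    | base =>
      intro _
      obtain ⟨a, ha⟩ := hA.1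
      refine ⟨{a}, by simpa using ha, ncard_singleton a, con_singleton a, ?_, Dec.single a⟩
      calc (bd {a}).ncard ≤ ({a} : Set V).ncard := ncard_le_ncard (fun x hx => hx.1) (toFinite _)
        _ ≤ 2 := by rw [ncard_singleton]; norm_num
    | succ n hn ih =>
      intro hle
      obtain ⟨B, hBA, hBn, hBc, hBb, hBd⟩ := ih (by omega)
      have hne : (A \ B).Nonempty := by
        by_contra h
        rw [not_nonempty_iff_eq_empty, sdiff_eq_empty] at h
        have := ncard_le_ncard h (toFinite _)
        omega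
      obtain ⟨b, hb, w, hw, hbw⟩ := hA.exists_edge hBA hBc.1 hne
      have hsub : bd (insert w B) ⊆ insert w (bd B) := by
        rintro x ⟨rfl | hx, v, hv, hxv⟩
        · exact Or.inl rfl
        · exact Or.inr ⟨hx, v, ⟨hv.1, fun h => hv.2 (Or.inr h)⟩, hxv⟩
      have hbd : (bd (insert w B)).ncard ≤ 2 := by
        by_cases h1 : n = 1
        · calc (bd (insert w B)).ncard ≤ (insert w B).ncard :=
                ncard_le_ncard (fun x hx => hx.1) (toFinite _)
            _ ≤ B.ncard + 1 := ncard_insert_le _ _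
            _ ≤ 2 := by omega
        · -- `b` is no longer a boundary vertex
          have hbb : b ∈ bd B := ⟨hb, w, hw, hbw⟩
          have hb' : b ∉ bd (insert w B) := by
            rintro ⟨-, v, hv, hbv⟩
            obtain ⟨b', hb'B, hb'ne⟩ : ∃ b' ∈ B, b' ≠ b := by
              by_contra hcon
              push Not at hcon
              have : B ⊆ {b} := fun x hx => hcon x hx
              have := ncard_le_ncard this (toFinite _)
              rw [ncard_singleton] at this
              omega
            obtain ⟨c, hc, hbc⟩ := hBc.exists_adj_of_ne hb hb'B hb'ne.symm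
            have h3 : ({c, w, v} : Set V) ⊆ G.neighborSet b ∩ A := by
              rintro x (rfl | rfl | rfl)
              · exact ⟨hbc, hBA hc⟩
              · exact ⟨hbw, hw.1⟩
              · exact ⟨hbv, hv.1⟩
            have hcw : c ≠ w := by rintro rfl; exact hw.2 hc
            have hcv : c ≠ v := by rintro rfl; exact hv.2 (Or.inr hc)
            have hwv : w ≠ v := by rintro rfl; exact hv.2 (Or.inl rfl)
            have h4 := ncard_le_ncard h3 (toFinite _)
            have h5 : ({c, w, v} : Set V).ncard = 3 := by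
              rw [ncard_eq_three]
              exact ⟨c, w, v, hcw, hcv, hwv, rfl⟩
            have := hdeg b (hBA hb)
            omega
          have hsub' : bd (insert w B) ⊆ insert w (bd B \ {b}) := by
            intro x hx
            rcases hsub hx with h | h
            · exact Or.inl h
            · refine Or.inr ⟨h, ?_⟩
              rintro rfl
              exact hb' hx
          calc (bd (insert w B)).ncard ≤ (insert w (bd B \ {b})).ncard :=
                ncard_le_ncard hsub' (toFinite _)
            _ ≤ (bd B \ {b}).ncard + 1 := ncard_insert_le _ _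
            _ ≤ 2 := by
                rw [ncard_sdiff_singleton_of_mem hbb]
                omega
      refine ⟨insert w B, insert_subset hw.1 hBA, ?_, ?_, hbd, ?_⟩
      · rw [ncard_insert_of_notMem hw.2, hBn]
      · rw [← union_singleton]
        exact hBc.union (con_singleton w) ⟨b, hb, w, rfl, hbw⟩
      · exact Dec.union hBd (Dec.single w) (by simpa using hw.2) (union_singleton) (hdiv _ hbd)
  obtain ⟨B, hBA, hBn, -, -, hBd⟩ := key A.ncard
    (by rw [Nat.succ_le_iff, Set.ncard_pos (toFinite _)]; exact hA.1) le_rfl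
  rwa [eq_of_subset_of_ncard_le hBA hBn.ge (toFinite _)] at hBd

/-- `a b c d` is an induced path of `G`. -/
structure IP4 (G : SimpleGraph V) (a b c d : V) : Prop where
  ab : G.Adj a b
  bc : G.Adj b c
  cd : G.Adj c d
  ac : ¬ G.Adj a c
  ad : ¬ G.Adj a d
  bd : ¬ G.Adj b d
  ac' : a ≠ c
  ad' : a ≠ d
  bd' : b ≠ d

theorem not_con_split {G : SimpleGraph V} {A : Set V} (hne : A.Nonempty) (h : ¬ Con G A) :
    ∃ B C : Set V, B ∪ C = A ∧ Disjoint B C ∧ B.Nonempty ∧ C.Nonempty ∧
      ∀ b ∈ B, ∀ c ∈ C, ¬ G.Adj b c := by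
  simp only [Con, not_and] at h
  have h' := h hne
  push Not at h'
  obtain ⟨S, hSA, hSne, hcl, hAS⟩ := h'
  refine ⟨S, A \ S, union_sdiff_cancel hSA, disjoint_sdiff_right, hSne, ?_, ?_⟩
  · by_contra hemp
    rw [not_nonempty_iff_eq_empty, sdiff_eq_empty] at hemp
    exact hAS hemp
  · intro b hb c hc hbc
    exact hc.2 (hcl b hb c hc.1 hbc)

/-- Seinsche's theorem, main step. -/
theorem cograph_step {G : SimpleGraph V} {A B C : Set V} {v : V} (hv : v ∈ A)
    (hP : ∀ a ∈ A, ∀ b ∈ A, ∀ c ∈ A, ∀ d ∈ A, ¬ IP4 G a b c d)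
    (hBC : B ∪ C = A \ {v}) (hB : B.Nonempty) (hC : C.Nonempty)
    (hanti : ∀ b ∈ B, ∀ c ∈ C, ¬ G.Adj b c) (h1 : Con G A) (h2 : Con Gᶜ A) : False := by
  have hBA : B ⊆ A := (hBC ▸ subset_union_left).trans sdiff_subset
  have hCA : C ⊆ A := (hBC ▸ subset_union_right).trans sdiff_subset
  have hvB : v ∉ B := fun h => ((hBC ▸ subset_union_left : B ⊆ A \ {v}) h).2 rfl
  have hvC : v ∉ C := fun h => ((hBC ▸ subset_union_right : C ⊆ A \ {v}) h).2 rfl
  -- `v` has a non-neighbour
  obtain ⟨u, huA, hvu⟩ : ∃ u ∈ A, Gᶜ.Adj v u := by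
    obtain ⟨b, hb⟩ := hB
    exact h2.exists_adj_of_ne hv (hBA hb) (fun h => hvB (h ▸ hb))
  rw [SimpleGraph.compl_adj] at hvu
  -- the symmetric core
  have core : ∀ B C : Set V, B ∪ C = A \ {v} → B.Nonempty → C.Nonempty →
      (∀ b ∈ B, ∀ c ∈ C, ¬ G.Adj b c) → u ∈ B → False := by
    intro B C hBC hB hC hanti huB
    have hBA : B ⊆ A := (hBC ▸ subset_union_left).trans sdiff_subset
    have hCA : C ⊆ A := (hBC ▸ subset_union_right).trans sdiff_subset
    have hvB : v ∉ B := fun h => ((hBC ▸ subset_union_left : B ⊆ A \ {v}) h).2 rfl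
    have hvC : v ∉ C := fun h => ((hBC ▸ subset_union_right : C ⊆ A \ {v}) h).2 rfl
    obtain ⟨K, hK, huK⟩ := exists_comp (G := G) huB
    -- some vertex of `C` is adjacent to `v`
    obtain ⟨c, hc, hcv⟩ : ∃ c ∈ C, G.Adj c v := by
      by_contra hcon
      push Not at hcon
      have := h1.2 C hCA hC (by
        intro x hx y hy hxy
        by_cases hyv : y = v
        · subst hyv; exact absurd hxy (hcon x hx)
        · have : y ∈ B ∪ C := hBC ▸ ⟨hy, hyv⟩
          rcases this with h | h
          · exact absurd hxy.symm (hanti y h x hx)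
          · exact h)
      exact hvC (this hv)
    obtain ⟨k, hk, hkv⟩ : ∃ k ∈ K, G.Adj k v := by
      by_contra hcon
      push Not at hcon
      have := h1.2 K (hK.subset.trans hBA) hK.con.1 (by
        intro x hx y hy hxy
        by_cases hyv : y = v
        · subst hyv; exact absurd hxy (hcon x hx)
        · have : y ∈ B ∪ C := hBC ▸ ⟨hy, hyv⟩
          rcases this with h | h
          · exact hK.closed x hx y h hxy
          · exact absurd hxy (hanti x (hK.subset hx) y h))
      exact hvB (hK.subset (this hv))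
    obtain ⟨p, hp, q, hq, hpq⟩ := hK.con.exists_edge (S := {x | x ∈ K ∧ G.Adj x v})
      (fun x hx => hx.1) ⟨k, hk, hkv⟩ ⟨u, huK, fun h => hvu.2 h.2.symm⟩
    have hqv : ¬ G.Adj q v := fun h => hq.2 ⟨hq.1, h⟩
    have hpB := hK.subset hp.1
    have hqB := hK.subset hq.1
    refine hP q (hBA hqB) p (hBA hpB) v hv c (hCA hc) ⟨hpq.symm, hp.2, hcv.symm, hqv,
      hanti q hqB c hc, hanti p hpB c hc, ?_, ?_, ?_⟩
    · rintro rfl; exact hvB hqB
    · rintro rfl; exact hanti p hpB q hc hpq
    · rintro rfl; exact hanti q hqB p hc hpq.symm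
  have hu : u ∈ B ∪ C := hBC ▸ ⟨huA, fun h => hvu.1 h.symm⟩
  rcases hu with hu | hu
  · exact core B C hBC hB hC hanti hu
  · exact core C B (by rw [union_comm, hBC]) hC hB (fun c hc b hb h => hanti b hb c hc h.symm) hu

theorem IP4.compl {G : SimpleGraph V} {a b c d : V} (h : IP4 Gᶜ a b c d) : IP4 G b d a c := by
  obtain ⟨ab, bc, cd, ac, ad, bd, ac', ad', bd'⟩ := h
  rw [SimpleGraph.compl_adj] at ab bc cd ac ad bd
  push Not at ac ad bd
  exact ⟨bd bd', (ad ad').symm, ac ac', fun h => ab.2 h.symm, bc.2, fun h => cd.2 h.symm,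
    ab.1.symm, bc.1, cd.1.symm⟩

theorem cograph_split [Finite V] {G : SimpleGraph V} : ∀ (n : ℕ) (A : Set V), A.ncard = n →
    2 ≤ n → (∀ a ∈ A, ∀ b ∈ A, ∀ c ∈ A, ∀ d ∈ A, ¬ IP4 G a b c d) →
    ∃ B C : Set V, B ∪ C = A ∧ Disjoint B C ∧ B.Nonempty ∧ C.Nonempty ∧
      ((∀ b ∈ B, ∀ c ∈ C, ¬ G.Adj b c) ∨ ∀ b ∈ B, ∀ c ∈ C, G.Adj b c) := by
  intro n
  induction n with
  | zero => intro A _ h; omega
  | succ n ih =>
    intro A hn h2 hP
    have hAne : A.Nonempty := by
      rw [← Set.ncard_pos (toFinite _)]; omega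
    by_contra hcon
    have h1 : Con G A := by
      by_contra h
      obtain ⟨B, C, h1, h2, h3, h4, h5⟩ := not_con_split hAne h
      exact hcon ⟨B, C, h1, h2, h3, h4, Or.inl h5⟩
    have h1' : Con Gᶜ A := by
      by_contra h
      obtain ⟨B, C, h1, h2, h3, h4, h5⟩ := not_con_split hAne h
      refine hcon ⟨B, C, h1, h2, h3, h4, Or.inr fun b hb c hc => ?_⟩
      have := h5 b hb c hc
      rw [SimpleGraph.compl_adj] at this
      push Not at this
      exact this (fun h => Set.disjoint_left.mp h2 hb (h ▸ hc))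
    obtain ⟨v, hv⟩ := hAne
    have hn' : (A \ {v}).ncard = n := by
      rw [ncard_sdiff_singleton_of_mem hv, hn]; rfl
    by_cases hn2 : 2 ≤ n
    · obtain ⟨B, C, hBC, hd, hB, hC, h⟩ := ih (A \ {v}) hn' hn2
        (fun a ha b hb c hc d hd => hP a ha.1 b hb.1 c hc.1 d hd.1)
      rcases h with h | h
      · exact cograph_step hv hP hBC hB hC h h1 h1'
      · refine cograph_step (G := Gᶜ) hv ?_ hBC hB hC ?_ h1' (by rwa [compl_compl])
        · intro a ha b hb c hc d hd hI
          exact hP b hb d hd a ha c hc hI.compl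
        · intro b hb c hc hbc
          rw [SimpleGraph.compl_adj] at hbc
          exact hbc.2 (h b hb c hc)
    · have hn1 : n = 1 := by omega
      subst hn1
      obtain ⟨u, hu⟩ := Set.ncard_eq_one.mp hn'
      have huA : u ∈ A \ {v} := hu ▸ rfl
      by_cases hadj : G.Adj u v
      · refine hcon ⟨{u}, {v}, ?_, ?_, ⟨u, rfl⟩, ⟨v, rfl⟩, Or.inr ?_⟩
        · rw [← hu, sdiff_union_of_subset (by simpa using hv)]
        · simpa using huA.2
        · rintro b rfl c rfl; exact hadj
      · refine hcon ⟨{u}, {v}, ?_, ?_, ⟨u, rfl⟩, ⟨v, rfl⟩, Or.inl ?_⟩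
        · rw [← hu, sdiff_union_of_subset (by simpa using hv)]
        · simpa using huA.2
        · rintro b rfl c rfl; exact hadj

theorem dec_of_cograph [Finite V] {G : SimpleGraph V} {A : Set V} (hA : A.Nonempty)
    (hP : ∀ a ∈ A, ∀ b ∈ A, ∀ c ∈ A, ∀ d ∈ A, ¬ IP4 G a b c d) : Dec (res G A) 1 A := by
  have key : ∀ (n : ℕ) (B : Set V), B.ncard = n → B ⊆ A → B.Nonempty →
      (∀ b ∈ B, ∀ b' ∈ B, ∀ a ∈ A \ B, (G.Adj b a ↔ G.Adj b' a)) → Dec (res G A) 1 B := by
    intro n
    induction n using Nat.strong_induction_on with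
    | _ n ih =>
      intro B hn hBA hBne hmod
      by_cases h2 : 2 ≤ n
      · obtain ⟨B1, B2, hB, hd, h1, h2, h⟩ := cograph_split n B hn h2
          (fun a ha b hb c hc d hd => hP a (hBA ha) b (hBA hb) c (hBA hc) d (hBA hd))
        have hs1 : B1 ⊆ B := hB ▸ subset_union_left
        have hs2 : B2 ⊆ B := hB ▸ subset_union_right
        have hdl : ∀ x ∈ B1, x ∉ B2 := fun _ h => Set.disjoint_left.mp hd h
        refine Dec.union (ih B1.ncard ?_ B1 rfl (hs1.trans hBA) h1 ?_)
          (ih B2.ncard ?_ B2 rfl (hs2.trans hBA) h2 ?_) hd hB ⟨fun _ => 0, ?_⟩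
        · rw [← hn]
          refine ncard_lt_ncard ⟨hs1, fun h => ?_⟩ (toFinite _)
          obtain ⟨x, hx⟩ := h2
          exact hdl x (h (hs2 hx)) hx
        · intro b hb b' hb' a ha
          by_cases haB : a ∈ B
          · have haB2 : a ∈ B2 := by
              have : a ∈ B1 ∪ B2 := hB ▸ haB
              rcases this with h | h
              · exact absurd h ha.2
              · exact h
            rcases h with h | h
            · exact ⟨fun h' => absurd h' (h b hb a haB2), fun h' => absurd h' (h b' hb' a haB2)⟩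
            · exact ⟨fun _ => h b' hb' a haB2, fun _ => h b hb a haB2⟩
          · exact hmod b (hs1 hb) b' (hs1 hb') a ⟨ha.1, haB⟩
        · rw [← hn]
          refine ncard_lt_ncard ⟨hs2, fun h => ?_⟩ (toFinite _)
          obtain ⟨x, hx⟩ := h1
          exact hdl x hx (h (hs1 hx))
        · intro b hb b' hb' a ha
          by_cases haB : a ∈ B
          · have haB1 : a ∈ B1 := by
              have : a ∈ B1 ∪ B2 := hB ▸ haB
              rcases this with h | h
              · exact h
              · exact absurd h ha.2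
            rcases h with h | h
            · exact ⟨fun h' => absurd h'.symm (h a haB1 b hb),
                fun h' => absurd h'.symm (h a haB1 b' hb')⟩
            · exact ⟨fun _ => (h a haB1 b' hb').symm, fun _ => (h a haB1 b hb).symm⟩
          · exact hmod b (hs2 hb) b' (hs2 hb') a ⟨ha.1, haB⟩
        · intro x hx y hy _ _ _ v hv
          simp only [res_adj, hBA hx, hBA hy]
          by_cases hvA : v ∈ A
          · simp only [hvA, and_true, hmod x hx y hy v ⟨hvA, hv⟩]
          · simp [hvA]
      · have h1 : B.ncard = 1 := by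
          have : 0 < B.ncard := (Set.ncard_pos (toFinite _)).mpr hBne
          omega
        obtain ⟨b, rfl⟩ := Set.ncard_eq_one.mp h1
        exact Dec.single b
  exact key _ A rfl subset_rfl hA (fun _ _ _ _ a ha => absurd ha.1 ha.2)

end Pool.Agent.Work.MP_80fcda_co
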