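import Mathlib

/-!
# Definitions for MP_80fcda_co: contractions and clique-width
-/

set_option autoImplicit false

namespace Pool.Agent.Work.MP_80fcda_co

/-- `contractEdge G u v` is the graph obtained from `G` by contracting the edge `uv`:
the vertex `v` is deleted and `u` plays the role of the new vertex, which is adjacent to
every vertex of `(N(u) ∪ N(v)) \ {u, v}`. -/
def contractEdge {V : Type} (G : SimpleGraph V) (u v : V) : SimpleGraph {w : V // w ≠ v} where
  Adj a b := a ≠ b ∧
    (G.Adj a.1 b.1 ∨ (a.1 = u ∧ G.Adj v b.1) ∨ (b.1 = u ∧ G.Adj v a.1))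
  symm := ⟨by
    rintro a b ⟨h1, h2⟩
    refine ⟨h1.symm, ?_⟩
    rcases h2 with h | h | h
    · exact Or.inl h.symm
    · exact Or.inr (Or.inr h)
    · exact Or.inr (Or.inl h)⟩
  loopless := ⟨fun a h => h.1 rfl⟩

/-- `ContractsTo H G`: the graph `G` contains `H` as a contraction, i.e. some sequence of zero or
more edge contractions applied to `G` yields a graph isomorphic to `H`. -/
inductive ContractsTo {W : Type} (H : SimpleGraph W) : {V : Type} → SimpleGraph V → Prop
  | iso {V : Type} {G : SimpleGraph V} (e : G ≃g H) : ContractsTo H G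
  | step {V : Type} {G : SimpleGraph V} {u v : V} (h : G.Adj u v)
      (hc : ContractsTo H (contractEdge G u v)) : ContractsTo H G

/-- Expressions over the label set `Fin k`: create a vertex with label `i`; disjoint union; add all
edges between vertices labelled `i` and vertices labelled `j` (`i ≠ j`); relabel `i` to `j`. -/
inductive KExpr (k : ℕ) : Type
  | vertex (i : Fin k) : KExpr k
  | union (s t : KExpr k) : KExpr k
  | join (i j : Fin k) (hij : i ≠ j) (s : KExpr k) : KExpr k
  | relabel (i j : Fin k) (s : KExpr k) : KExpr k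

/-- The vertex type of the labelled graph built by an expression. -/
def KExpr.Vert {k : ℕ} : KExpr k → Type
  | .vertex _ => Unit
  | .union s t => s.Vert ⊕ t.Vert
  | .join _ _ _ s => s.Vert
  | .relabel _ _ s => s.Vert

/-- The labelling of the labelled graph built by an expression. -/
def KExpr.label {k : ℕ} : (e : KExpr k) → e.Vert → Fin k
  | .vertex i, _ => i
  | .union s _, Sum.inl x => s.label x
  | .union _ t, Sum.inr x => t.label x
  | .join _ _ _ s, x => s.label x
  | .relabel i j s, x => if s.label x = i then j else s.label x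

/-- The graph built by an expression. -/
def KExpr.graph {k : ℕ} : (e : KExpr k) → SimpleGraph e.Vert
  | .vertex _ => ⊥
  | .union s t => s.graph ⊕g t.graph
  | .join i j _ s => s.graph ⊔ SimpleGraph.fromRel (fun x y => s.label x = i ∧ s.label y = j)
  | .relabel _ _ s => s.graph

/-- The clique-width of `G`: the least `k` such that `G` is built by an expression with labels
in `Fin k`. -/
noncomputable def cliqueWidth {V : Type} (G : SimpleGraph V) : ℕ :=
  sInf {k | ∃ e : KExpr k, Nonempty (e.graph ≃g G)}

/-- The class of all connected finite graphs that do not contain `H` as a contraction has bounded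
clique-width. -/
def BoundedCW {W : Type} (H : SimpleGraph W) : Prop :=
  ∃ c : ℕ, ∀ (V : Type) [Finite V] (G : SimpleGraph V),
    G.Connected → ¬ ContractsTo H G → cliqueWidth G ≤ c

/-- `P₃`, the path on three vertices. -/
def P3 : SimpleGraph (Fin 3) := SimpleGraph.fromEdgeSet {s(0, 1), s(1, 2)}

/-- The paw: a triangle `1 2 3` with a pendant vertex `0` attached to `1`. -/
def paw : SimpleGraph (Fin 4) := SimpleGraph.fromEdgeSet {s(0, 1), s(1, 2), s(1, 3), s(2, 3)}

/-- The diamond: `K₄` minus the edge `0 3`. -/
def diamond : SimpleGraph (Fin 4) :=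
  SimpleGraph.fromEdgeSet {s(0, 1), s(0, 2), s(1, 2), s(1, 3), s(2, 3)}

/-- The gem, the complement of `P₁ + P₄`: a path `0 1 2 3` and a vertex `4` adjacent to all of it. -/
def gem : SimpleGraph (Fin 5) :=
  SimpleGraph.fromEdgeSet {s(0, 1), s(1, 2), s(2, 3), s(4, 0), s(4, 1), s(4, 2), s(4, 3)}

/-- The complement of `2P₁ + P₃`: a `K₄` on `0 1 2 3` and a vertex `4` adjacent to `0` and `1`. -/
def coTwoP1P3 : SimpleGraph (Fin 5) :=
  SimpleGraph.fromEdgeSet {s(0, 1), s(0, 2), s(0, 3), s(1, 2), s(1, 3), s(2, 3), s(4, 0), s(4, 1)}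

end Pool.Agent.Work.MP_80fcda_co
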