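import Pool.Agent.Work.MP_80fcda_co.Upper

/-!
# Family A: graphs with a universal vertex and a sparse complement
-/

set_option autoImplicit false

namespace Pool.Agent.Work.MP_80fcda_co

open Set

theorem not_boundedCW_of_family {W : Type} {H : SimpleGraph W}
    (h : ∀ k : ℕ, ∃ (V : Type) (_ : Finite V) (G : SimpleGraph V),
      G.Connected ∧ ¬ ContractsTo H G ∧ ¬ cliqueWidth G ≤ k) : ¬ BoundedCW H := by
  rintro ⟨c, hc⟩
  obtain ⟨V, hV, G, h1, h2, h3⟩ := h c
  exact h3 (hc V G h1 h2)

/-- The complement adjacency. -/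
def FA {n : ℕ} (p q : Fin n × Fin n) : Prop := p.1 = q.1 ∨ (p.1 = q.2 ∧ p.2 = q.1)

/-- Family A. -/
def famA (n : ℕ) : SimpleGraph (Option (Fin n × Fin n)) where
  Adj a b := a ≠ b ∧ ∀ p q, a = some p → b = some q → ¬ FA p q
  symm := ⟨by
    rintro a b ⟨h1, h2⟩
    refine ⟨h1.symm, fun p q hp hq hF => h2 q p hq hp ?_⟩
    rcases hF with h | ⟨h, h'⟩
    · exact Or.inl h.symm
    · exact Or.inr ⟨h'.symm, h.symm⟩⟩
  loopless := ⟨fun a h => h.1 rfl⟩

theorem famA_none {n : ℕ} {a : Option (Fin n × Fin n)} (h : a ≠ none) : (famA n).Adj none a :=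
  ⟨h.symm, fun _ _ hp => absurd hp.symm (by simp)⟩

theorem famA_some {n : ℕ} {p q : Fin n × Fin n} :
    (famA n).Adj (some p) (some q) ↔ p ≠ q ∧ ¬ FA p q := by
  constructor
  · rintro ⟨h1, h2⟩
    exact ⟨fun h => h1 (by rw [h]), h2 p q rfl rfl⟩
  · rintro ⟨h1, h2⟩
    refine ⟨fun h => h1 (Option.some_injective _ h), ?_⟩
    intro p' q' hp hq
    rw [← Option.some_injective _ hp, ← Option.some_injective _ hq]
    exact h2

theorem famA_connected (n : ℕ) : (famA n).Connected := by
  rw [← con_univ_iff]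
  refine ⟨⟨none, mem_univ _⟩, fun S _ hne hcl v _ => ?_⟩
  have hnone : none ∈ S := by
    obtain ⟨x, hx⟩ := hne
    by_cases h : x = none
    · exact h ▸ hx
    · exact hcl x hx none (mem_univ _) (famA_none h).symm
  by_cases h : v = none
  · exact h ▸ hnone
  · exact hcl none hnone v (mem_univ _) (famA_none h)

section model

variable {W : Type} {H : SimpleGraph W} {n : ℕ} {φ : Option (Fin n × Fin n) → W}

theorem famA_universal (hφ : IsModel (famA n) H φ) {w : W} (hw : w ≠ φ none) :
    H.Adj (φ none) w := by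
  rw [hφ.adj _ _ hw.symm]
  obtain ⟨x, hx⟩ := (hφ.con w).1
  have hx' : φ x = w := hx
  refine ⟨none, rfl, x, hx, famA_none ?_⟩
  rintro rfl
  exact hw hx'.symm

theorem famA_nonadj (hφ : IsModel (famA n) H φ) {x y : Option (Fin n × Fin n)}
    (hne : φ x ≠ φ y) (h : ¬ H.Adj (φ x) (φ y)) : ∃ p q, x = some p ∧ y = some q ∧ FA p q := by
  by_contra hcon
  apply h
  rw [hφ.adj _ _ hne]
  refine ⟨x, rfl, y, rfl, fun hxy => hne (by rw [hxy]), fun p q hp hq hF => hcon ⟨p, q, hp, hq, hF⟩⟩

theorem famA_no2K2 (hφ : IsModel (famA n) H φ) {a b c d : W} (hab : H.Adj a b) (hcd : H.Adj c d)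
    (hac : ¬ H.Adj a c) (had : ¬ H.Adj a d) (hbc : ¬ H.Adj b c) (hbd : ¬ H.Adj b d) : False := by
  have h1 : a ≠ c := fun h => hbc (h ▸ hab.symm)
  have h2 : a ≠ d := fun h => hbd (h ▸ hab.symm)
  have h3 : b ≠ c := fun h => hac (h ▸ hab)
  have h4 : b ≠ d := fun h => had (h ▸ hab)
  obtain ⟨x, hx, y, hy, hxy⟩ := (hφ.adj _ _ hab.ne).mp hab
  obtain ⟨z, hz, w, hw, hzw⟩ := (hφ.adj _ _ hcd.ne).mp hcd
  have hx' : φ x = a := hx
  have hy' : φ y = b := hy
  have hz' : φ z = c := hz
  have hw' : φ w = d := hw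
  subst hx' hy' hz' hw'
  obtain ⟨p, r, rfl, rfl, k1⟩ := famA_nonadj hφ h1 hac
  obtain ⟨q, r', rfl, hr', k2⟩ := famA_nonadj hφ h3 hbc
  obtain ⟨p', s, hp', rfl, k3⟩ := famA_nonadj hφ h2 had
  obtain ⟨q', s', hq', hs', k4⟩ := famA_nonadj hφ h4 hbd
  have e1 := Option.some_injective _ hr'
  have e2 := Option.some_injective _ hp'
  have e3 := Option.some_injective _ hq'
  have e4 := Option.some_injective _ hs'
  subst e1 e2 e3 e4
  obtain ⟨hpq, hF1⟩ := famA_some.mp hxy
  obtain ⟨hrs, hF2⟩ := famA_some.mp hzw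
  obtain ⟨p1, p2⟩ := p
  obtain ⟨q1, q2⟩ := q
  obtain ⟨r1, r2⟩ := r
  obtain ⟨s1, s2⟩ := s
  simp only [FA, ne_eq, Prod.mk.injEq] at *
  grind

theorem famA_noK1K3 (hφ : IsModel (famA n) H φ) {a b c d : W} (hab : ¬ H.Adj a b)
    (hac : ¬ H.Adj a c) (had : ¬ H.Adj a d) (hbc : H.Adj b c) (hbd : H.Adj b d)
    (hcd : H.Adj c d) : False := by
  have h1 : a ≠ b := fun h => hac (h ▸ hbc)
  have h2 : a ≠ c := fun h => had (h ▸ hcd)
  have h3 : a ≠ d := fun h => hab (h ▸ hbd.symm)
  obtain ⟨u, hu⟩ := (hφ.con a).1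
  have hu' : φ u = a := hu
  subst hu'
  obtain ⟨p, hp⟩ : ∃ p, u = some p := by
    obtain ⟨x, hx⟩ := (hφ.con b).1
    have hx' : φ x = b := hx
    subst hx'
    obtain ⟨p, q, hp, -, -⟩ := famA_nonadj hφ h1 hab
    exact ⟨p, hp⟩
  subst hp
  -- two of the three bags lie in the row of `p`
  have key : ∀ {b c : W}, H.Adj b c → φ (some p) ≠ b → φ (some p) ≠ c → ¬ H.Adj (φ (some p)) b →
      ¬ H.Adj (φ (some p)) c → b ≠ φ (some (p.2, p.1)) → c ≠ φ (some (p.2, p.1)) → False := by
    intro b c hbc h1 h2 hab hac hb hc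
    obtain ⟨x, hx, y, hy, hxy⟩ := (hφ.adj _ _ hbc.ne).mp hbc
    have hx' : φ x = b := hx
    have hy' : φ y = c := hy
    subst hx' hy'
    obtain ⟨p', q, hp', rfl, hF⟩ := famA_nonadj hφ h1 hab
    obtain ⟨p'', r, hp'', rfl, hF'⟩ := famA_nonadj hφ h2 hac
    have e1 := Option.some_injective _ hp'
    have e2 := Option.some_injective _ hp''
    subst e1 e2
    obtain ⟨-, hF''⟩ := famA_some.mp hxy
    apply hF''
    rcases hF with h | ⟨h, h'⟩
    · rcases hF' with k | ⟨k, k'⟩
      · exact Or.inl (h.symm.trans k)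
      · exfalso; apply hc; rw [k, k']
    · exfalso; apply hb; rw [h, h']
  by_cases hb : b = φ (some (p.2, p.1))
  · refine key hcd h2 h3 hac had ?_ ?_
    · rw [← hb]; exact hbc.ne'
    · rw [← hb]; exact hbd.ne'
  · by_cases hc : c = φ (some (p.2, p.1))
    · refine key hbd h1 h3 hab had hb ?_
      rw [← hc]; exact hcd.ne'
    · exact key hbc h1 h2 hab hac hb hc

end model

/-- The lower bound. -/
theorem famA_ldiv {n k : ℕ} {A : Set (Option (Fin n × Fin n))} (hA : LDiv (famA n) k A) :
    (A ∩ range some).ncard ≤ 2 * k * n ∨ n * n ≤ (A ∩ range some).ncard + k * n := by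
  classical
  obtain ⟨c, hc⟩ := hA
  -- mixed rows
  let M : Finset (Fin n) := Finset.univ.filter fun i =>
    (∃ j, some (i, j) ∈ A) ∧ ∃ j, some (i, j) ∉ A
  let I : Finset (Fin n) := Finset.univ.filter fun i => ∀ j, some (i, j) ∈ A
  have hM : M.card ≤ k := by
    have h1 : ∀ i : M, ∃ j, some (i.1, j) ∈ A := fun i => (Finset.mem_filter.mp i.2).2.1
    have h2 : ∀ i : M, ∃ j, some (i.1, j) ∉ A := fun i => (Finset.mem_filter.mp i.2).2.2
    choose a ha using h1
    choose b hb using h2
    have hinj : Function.Injective fun i : M => c ⟨_, ha i⟩ := by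
      intro i i' hii
      by_contra hne
      have hne' : i.1 ≠ i'.1 := fun h => hne (Subtype.ext h)
      have key : ∀ i i' : M, c ⟨_, ha i⟩ = c ⟨_, ha i'⟩ → i.1 ≠ i'.1 →
          a i' = i.1 ∧ b i = i'.1 := by
        intro i i' hii hne'
        have h := hc _ _ hii _ (hb i)
        simp only [famA_some, FA] at h
        simp only [true_or, not_true, and_false, false_iff, not_and, not_not] at h
        have h' := h (fun h => hne' (Prod.ext_iff.mp h).1.symm)
        rcases h' with h' | h'
        · exact absurd h'.symm hne'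
        · exact ⟨h'.2, h'.1.symm⟩
      have k1 := key i i' hii hne'
      have k2 := key i' i hii.symm hne'.symm
      apply hb i
      rw [k1.2, ← k2.1]
      exact ha i
    have := Fintype.card_le_of_injective _ hinj
    simpa using this
  by_cases hI : I.card ≤ k
  · left
    have hsub : A ∩ range some ⊆ ((M ∪ I) ×ˢ (Finset.univ : Finset (Fin n))).image some := by
      rintro _ ⟨hx, ⟨i, j⟩, rfl⟩
      simp only [Finset.coe_image, mem_image, Finset.mem_coe, Finset.mem_product, Finset.mem_union,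
        Finset.mem_univ, and_true]
      refine ⟨(i, j), ?_, rfl⟩
      by_cases h : ∀ j, some (i, j) ∈ A
      · exact Or.inr (by simp [I, h])
      · push Not at h
        exact Or.inl (by simpa [M] using ⟨⟨j, hx⟩, h⟩)
    calc (A ∩ range some).ncard ≤ (((M ∪ I) ×ˢ (Finset.univ : Finset (Fin n))).image some).card := by
          rw [← ncard_coe_finset]
          exact ncard_le_ncard hsub (toFinite _)
      _ ≤ ((M ∪ I) ×ˢ (Finset.univ : Finset (Fin n))).card := Finset.card_image_le
      _ = (M ∪ I).card * n := by rw [Finset.card_product]; simp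
      _ ≤ (2 * k) * n := by
          apply Nat.mul_le_mul_right
          have := Finset.card_union_le M I
          omega
  · right
    have hout : ∀ j : Fin n, (∃ i, some (j, i) ∈ A) := by
      intro j
      by_contra hcon
      push Not at hcon
      apply hI
      have hinj : Function.Injective fun i : I =>
          c ⟨some (i.1, j), (Finset.mem_filter.mp i.2).2 j⟩ := by
        intro i i' hii
        by_contra hne
        have hne' : i.1 ≠ i'.1 := fun h => hne (Subtype.ext h)
        have h := hc _ _ hii _ (hcon i.1)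
        have hij : i'.1 ≠ j := by
          rintro rfl
          exact hcon i.1 ((Finset.mem_filter.mp i'.2).2 _)
        have hij' : i.1 ≠ j := by
          rintro rfl
          exact hcon i.1 ((Finset.mem_filter.mp i.2).2 _)
        simp only [famA_some, FA] at h
        simp only [and_self, or_true, not_true, and_false, false_iff, not_and, not_not] at h
        have h' := h (fun h => hij (Prod.ext_iff.mp h).1)
        rcases h' with h' | h'
        · exact hij h'
        · exact hne' h'.1.symm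
      have := Fintype.card_le_of_injective _ hinj
      simpa using this
    have hsub : ((Finset.univ \ M) ×ˢ (Finset.univ : Finset (Fin n))).image some ⊆
        (A ∩ range some).toFinite.toFinset := by
      intro x hx
      simp only [Finset.mem_image, Finset.mem_product, Finset.mem_sdiff, Finset.mem_univ,
        true_and, and_true] at hx
      obtain ⟨⟨i, j⟩, hi, rfl⟩ := hx
      simp only [Finite.mem_toFinset, mem_inter_iff, mem_range, exists_apply_eq_apply, and_true]
      by_contra hij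
      exact hi (by simpa [M] using ⟨hout i, ⟨j, hij⟩⟩)
    have hle := Finset.card_le_card hsub
    rw [Finset.card_image_of_injective _ (Option.some_injective _), Finset.card_product,
      Finset.card_sdiff_of_subset (Finset.subset_univ _), Finset.card_univ, Fintype.card_fin,
      ← ncard_eq_toFinset_card, Nat.sub_mul] at hle
    have : M.card * n ≤ k * n := Nat.mul_le_mul_right _ hM
    omega

theorem famA_cliqueWidth (k : ℕ) : ∃ n, ¬ cliqueWidth (famA n) ≤ k := by
  refine ⟨5 * (k + 1) + 1, fun hle => ?_⟩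
  obtain ⟨n, hn⟩ : ∃ n, n = 5 * (k + 1) + 1 := ⟨_, rfl⟩
  rw [← hn] at hle
  have hcard : (range (some : Fin n × Fin n → _)).ncard = n * n := by
    rw [← image_univ, ncard_image_of_injective _ (Option.some_injective _), ncard_univ]
    simp
  obtain ⟨A, h1, h2, h3⟩ := exists_ldiv_of_cliqueWidth hle (range some) (2 * (k + 1) * n)
    (by have : 1 ≤ n := by omega
        nlinarith) (by rw [hcard, hn]; nlinarith)
  obtain ⟨c, hc⟩ := h3
  have h3' : LDiv (famA n) (k + 1) A :=
    ⟨fun x => (c x).castSucc, fun x y hxy => hc x y (Fin.castSucc_injective _ hxy)⟩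
  rcases famA_ldiv h3' with h | h
  · omega
  · have h5 : n * n = (5 * (k + 1) + 1) * n := by rw [← hn]
    have h6 : 1 ≤ n := by omega
    nlinarith

theorem not_bounded_of_not_universal {W : Type} {H : SimpleGraph W}
    (h : ¬ ∃ u, ∀ w, w ≠ u → H.Adj u w) : ¬ BoundedCW H := by
  refine not_boundedCW_of_family fun k => ?_
  obtain ⟨n, hn⟩ := famA_cliqueWidth k
  refine ⟨_, inferInstance, famA n, famA_connected n, fun hc => ?_, hn⟩
  obtain ⟨φ, hφ⟩ := hc.exists_model
  exact h ⟨φ none, fun w hw => famA_universal hφ hw⟩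

theorem not_bounded_of_2K2 {W : Type} {H : SimpleGraph W} {a b c d : W} (hab : H.Adj a b)
    (hcd : H.Adj c d) (hac : ¬ H.Adj a c) (had : ¬ H.Adj a d) (hbc : ¬ H.Adj b c)
    (hbd : ¬ H.Adj b d) : ¬ BoundedCW H := by
  refine not_boundedCW_of_family fun k => ?_
  obtain ⟨n, hn⟩ := famA_cliqueWidth k
  refine ⟨_, inferInstance, famA n, famA_connected n, fun hc => ?_, hn⟩
  obtain ⟨φ, hφ⟩ := hc.exists_model
  exact famA_no2K2 hφ hab hcd hac had hbc hbd

theorem not_bounded_of_K1K3 {W : Type} {H : SimpleGraph W} {a b c d : W} (hab : ¬ H.Adj a b)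
    (hac : ¬ H.Adj a c) (had : ¬ H.Adj a d) (hbc : H.Adj b c) (hbd : H.Adj b d)
    (hcd : H.Adj c d) : ¬ BoundedCW H := by
  refine not_boundedCW_of_family fun k => ?_
  obtain ⟨n, hn⟩ := famA_cliqueWidth k
  refine ⟨_, inferInstance, famA n, famA_connected n, fun hc => ?_, hn⟩
  obtain ⟨φ, hφ⟩ := hc.exists_model
  exact famA_noK1K3 hφ hab hac had hbc hbd hcd

end Pool.Agent.Work.MP_80fcda_co
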