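import Pool.Agent.Work.MP_80fcda_co.FamA

/-!
# Families B and C
-/

set_option autoImplicit false

namespace Pool.Agent.Work.MP_80fcda_co

open Set

/-- Family B: two cliques. -/
def famB (n : ℕ) : SimpleGraph (Fin n ⊕ (Fin n × Fin n)) where
  Adj
    | .inl i, .inl j => i ≠ j
    | .inl i, .inr p => ¬ (i = p.1 ∨ i = p.2)
    | .inr p, .inl i => ¬ (i = p.1 ∨ i = p.2)
    | .inr p, .inr q => p ≠ q
  symm := ⟨by
    rintro (i | p) (j | q) h
    · exact Ne.symm h
    · exact h
    · exact h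
    · exact Ne.symm h⟩
  loopless := ⟨by
    rintro (i | p) h
    · exact h rfl
    · exact h rfl⟩

/-- Family C: a clique and an independent set. -/
def famC (n : ℕ) : SimpleGraph (Fin n ⊕ (Fin n × Fin n)) where
  Adj
    | .inl i, .inl j => i ≠ j
    | .inl i, .inr p => i = p.1 ∨ i = p.2
    | .inr p, .inl i => i = p.1 ∨ i = p.2
    | .inr _, .inr _ => False
  symm := ⟨by
    rintro (i | p) (j | q) h
    · exact Ne.symm h
    · exact h
    · exact h
    · exact h⟩
  loopless := ⟨by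
    rintro (i | p) h
    · exact h rfl
    · exact h⟩

theorem bc_ldiv {n k : ℕ} {G : SimpleGraph (Fin n ⊕ (Fin n × Fin n))} (P : Prop)
    (hP : ∀ i a b, (G.Adj (.inl i) (.inr (a, b)) ↔ (P ↔ (i = a ∨ i = b))))
    {A : Set (Fin n ⊕ (Fin n × Fin n))} (hA : LDiv G k A) :
    (A ∩ range .inl).ncard ≤ k ∨ n ≤ (A ∩ range .inl).ncard + k := by
  classical
  obtain ⟨c, hc⟩ := hA
  let I : Finset (Fin n) := Finset.univ.filter fun i => .inl i ∈ A
  let J : Finset (Fin n) := Finset.univ.filter fun i => .inl i ∉ A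
  have hIJ : I.card + J.card = n := by
    have := Finset.card_filter_add_card_filter_not (s := (Finset.univ : Finset (Fin n)))
      (fun i => (.inl i : Fin n ⊕ (Fin n × Fin n)) ∈ A)
    simpa [I, J] using this
  have hcard : (A ∩ range .inl).ncard = I.card := by
    have : A ∩ range .inl = (Sum.inl : Fin n → Fin n ⊕ (Fin n × Fin n)) '' (I : Set (Fin n)) := by
      ext x
      constructor
      · rintro ⟨hx, i, rfl⟩
        exact ⟨i, by simpa [I] using hx, rfl⟩
      · rintro ⟨i, hi, rfl⟩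
        exact ⟨by simpa [I] using hi, i, rfl⟩
    rw [this, ncard_image_of_injective _ Sum.inl_injective, ncard_coe_finset]
  rw [hcard]
  by_cases h : ∀ i ∈ I, ∃ j ∈ J, .inr (i, j) ∉ A
  · left
    have h' : ∀ i : I, ∃ j ∈ J, .inr (i.1, j) ∉ A := fun i => h i.1 i.2
    choose f hfJ hf using h'
    have hinj : Function.Injective fun i : I => c ⟨.inl i.1, (Finset.mem_filter.mp i.2).2⟩ := by
      intro i i' hii
      by_contra hne
      have hne' : i'.1 ≠ i.1 := fun h => hne (Subtype.ext h.symm)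
      have h1 := hc _ _ hii _ (hf i)
      have hne2 : i'.1 ≠ f i := by
        intro h
        have h2 := (Finset.mem_filter.mp (hfJ i)).2
        rw [← h] at h2
        exact h2 (Finset.mem_filter.mp i'.2).2
      simp only [hP, true_or, iff_true, hne', hne2, or_self, iff_false] at h1
      tauto
    have := Fintype.card_le_of_injective _ hinj
    simpa using this
  · right
    push Not at h
    obtain ⟨i, hi, hij⟩ := h
    have hinj : Function.Injective fun j : J => c ⟨.inr (i, j.1), hij j.1 j.2⟩ := by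
      intro j j' hjj
      by_contra hne
      have hne' : j.1 ≠ j'.1 := fun h => hne (Subtype.ext h)
      have h1 := hc _ _ hjj _ ((Finset.mem_filter.mp j.2).2)
      have hne2 : j.1 ≠ i := by
        intro h
        have h2 := (Finset.mem_filter.mp j.2).2
        rw [h] at h2
        exact h2 (Finset.mem_filter.mp hi).2
      simp only [G.adj_comm _ (.inl _), hP, or_true, iff_true, hne', hne2, or_self,
        iff_false] at h1
      tauto
    have := Fintype.card_le_of_injective _ hinj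
    have : J.card ≤ k := by simpa using this
    omega

theorem bc_cliqueWidth {n k : ℕ} {G : SimpleGraph (Fin n ⊕ (Fin n × Fin n))} (P : Prop)
    (hP : ∀ i a b, (G.Adj (.inl i) (.inr (a, b)) ↔ (P ↔ (i = a ∨ i = b))))
    (hn : n = 3 * (k + 1) + 1) : ¬ cliqueWidth G ≤ k := by
  intro hle
  have : Nonempty (Fin n ⊕ (Fin n × Fin n)) := ⟨.inl ⟨0, by omega⟩⟩
  have hcard : (range (.inl : Fin n → Fin n ⊕ (Fin n × Fin n))).ncard = n := by
    rw [← image_univ, ncard_image_of_injective _ Sum.inl_injective, ncard_univ]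
    simp
  obtain ⟨A, h1, h2, h3⟩ := exists_ldiv_of_cliqueWidth hle
    (range (.inl : Fin n → Fin n ⊕ (Fin n × Fin n))) (k + 1) (by omega) (by omega)
  rcases bc_ldiv P hP h3 with h | h <;> omega

theorem famB_connected {n : ℕ} (hn : 3 ≤ n) : (famB n).Connected := by
  rw [← con_univ_iff]
  have hl : Con (famB n) (range Sum.inl) := by
    refine ⟨⟨_, ⟨⟨0, by omega⟩, rfl⟩⟩, fun S hS hne hcl v hv => ?_⟩
    obtain ⟨x, hx⟩ := hne
    obtain ⟨i, rfl⟩ := hS hx
    obtain ⟨j, rfl⟩ := hv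
    by_cases h : i = j
    · exact h ▸ hx
    · exact hcl _ hx _ ⟨j, rfl⟩ h
  have hr : Con (famB n) (range Sum.inr) := by
    refine ⟨⟨_, ⟨(⟨0, by omega⟩, ⟨0, by omega⟩), rfl⟩⟩, fun S hS hne hcl v hv => ?_⟩
    obtain ⟨x, hx⟩ := hne
    obtain ⟨i, rfl⟩ := hS hx
    obtain ⟨j, rfl⟩ := hv
    by_cases h : i = j
    · exact h ▸ hx
    · exact hcl _ hx _ ⟨j, rfl⟩ h
  have := hl.union hr ⟨Sum.inl ⟨1, by omega⟩, ⟨_, rfl⟩, Sum.inr (⟨0, by omega⟩, ⟨0, by omega⟩),
    ⟨_, rfl⟩, show ¬ _ by simp [Fin.ext_iff]⟩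
  rwa [range_inl_union_range_inr] at this

theorem famC_connected {n : ℕ} (hn : 1 ≤ n) : (famC n).Connected := by
  rw [← con_univ_iff]
  refine ⟨⟨Sum.inl ⟨0, by omega⟩, mem_univ _⟩, fun S _ hne hcl v _ => ?_⟩
  have h1 : ∃ i, Sum.inl i ∈ S := by
    obtain ⟨x | x, hx⟩ := hne
    · exact ⟨x, hx⟩
    · exact ⟨x.1, hcl _ hx (.inl x.1) (mem_univ _) (Or.inl rfl)⟩
  obtain ⟨i, hi⟩ := h1
  have h2 : ∀ j, Sum.inl j ∈ S := by
    intro j
    by_cases h : i = j
    · exact h ▸ hi
    · exact hcl _ hi (.inl j) (mem_univ _) h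
  rcases v with j | p
  · exact h2 j
  · exact hcl _ (h2 p.1) (.inr p) (mem_univ _) (Or.inl rfl)

section model

variable {W : Type} {H : SimpleGraph W} {n : ℕ} {φ : Fin n ⊕ (Fin n × Fin n) → W}

theorem famB_alpha (hφ : IsModel (famB n) H φ) {a b c : W} (hab : a ≠ b) (hac : a ≠ c)
    (hbc : b ≠ c) : H.Adj a b ∨ H.Adj a c ∨ H.Adj b c := by
  have key : ∀ x y : Fin n ⊕ (Fin n × Fin n), φ x ≠ φ y → (x.isLeft = y.isLeft) →
      H.Adj (φ x) (φ y) := by
    intro x y hne hxy
    rw [hφ.adj _ _ hne]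
    refine ⟨x, rfl, y, rfl, ?_⟩
    rcases x with x | x <;> rcases y with y | y
    · exact fun h => hne (by rw [h])
    · simp at hxy
    · simp at hxy
    · exact fun h => hne (by rw [h])
  obtain ⟨x, hx⟩ := (hφ.con a).1
  obtain ⟨y, hy⟩ := (hφ.con b).1
  obtain ⟨z, hz⟩ := (hφ.con c).1
  have hx' : φ x = a := hx
  have hy' : φ y = b := hy
  have hz' : φ z = c := hz
  subst hx' hy' hz'
  by_cases h1 : x.isLeft = y.isLeft
  · exact Or.inl (key _ _ hab h1)
  · by_cases h2 : x.isLeft = z.isLeft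
    · exact Or.inr (Or.inl (key _ _ hac h2))
    · refine Or.inr (Or.inr (key _ _ hbc ?_))
      cases hx1 : x.isLeft <;> cases hy1 : y.isLeft <;> cases hz1 : z.isLeft <;> simp_all

theorem famC_degree (hφ : IsModel (famC n) H φ) (h : ∃ a b, a ≠ b ∧ ¬ H.Adj a b) :
    ∃ v p q, ∀ w, H.Adj v w → w = p ∨ w = q := by
  obtain ⟨a, b, hab, hadj⟩ := h
  have h1 : ∃ v, ∀ x, φ x = v → x.isLeft = false := by
    by_contra hcon
    push Not at hcon
    apply hadj
    obtain ⟨x, hx, hx'⟩ := hcon a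
    obtain ⟨y, hy, hy'⟩ := hcon b
    rw [hφ.adj _ _ hab]
    refine ⟨x, hx, y, hy, ?_⟩
    rcases x with x | x <;> rcases y with y | y
    · exact fun h => hab (by rw [← hx, ← hy, h])
    · simp at hy'
    · simp at hx'
    · simp at hx'
  obtain ⟨v, hv⟩ := h1
  obtain ⟨x, hx⟩ := (hφ.con v).1
  have hx' : φ x = v := hx
  have hxl := hv x hx'
  rcases x with x | ⟨i, j⟩
  · simp at hxl
  · refine ⟨v, φ (.inl i), φ (.inl j), fun w hw => ?_⟩
    have hsing : ∀ y, φ y = v → y = .inr (i, j) := by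
      intro y hy
      by_contra hne
      obtain ⟨z, hz, hzy⟩ := (hφ.con v).exists_adj_of_ne hx hy (Ne.symm hne)
      have := hv z hz
      rcases z with z | z
      · simp at this
      · exact hzy
    obtain ⟨y, hy, z, hz, hyz⟩ := (hφ.adj _ _ hw.ne).mp hw
    have := hsing y hy
    subst this
    have hz' : φ z = w := hz
    subst hz'
    rcases z with z | z
    · rcases hyz with h | h
      · exact Or.inl (by rw [h])
      · exact Or.inr (by rw [h])
    · exact hyz.elim

end model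

theorem not_bounded_of_alpha {W : Type} {H : SimpleGraph W} {a b c : W} (hab : a ≠ b)
    (hac : a ≠ c) (hbc : b ≠ c) (h1 : ¬ H.Adj a b) (h2 : ¬ H.Adj a c) (h3 : ¬ H.Adj b c) :
    ¬ BoundedCW H := by
  refine not_boundedCW_of_family fun k => ?_
  refine ⟨_, inferInstance, famB (3 * (k + 1) + 1), famB_connected (by omega), fun hc => ?_,
    bc_cliqueWidth False (fun i a b => ?_) rfl⟩
  · obtain ⟨φ, hφ⟩ := hc.exists_model
    have := famB_alpha hφ hab hac hbc
    tauto
  · show ¬ _ ↔ _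
    tauto

theorem not_bounded_of_degree {W : Type} {H : SimpleGraph W} (h : ∃ a b, a ≠ b ∧ ¬ H.Adj a b)
    (h' : ¬ ∃ v p q, ∀ w, H.Adj v w → w = p ∨ w = q) : ¬ BoundedCW H := by
  refine not_boundedCW_of_family fun k => ?_
  refine ⟨_, inferInstance, famC (3 * (k + 1) + 1), famC_connected (by omega), fun hc => ?_,
    bc_cliqueWidth True (fun i a b => ?_) rfl⟩
  · obtain ⟨φ, hφ⟩ := hc.exists_model
    exact h' (famC_degree hφ h)
  · show _ ∨ _ ↔ _
    tauto

theorem connected_of_bounded {W : Type} {H : SimpleGraph W} (h : BoundedCW H) : H.Connected := by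
  by_contra hcon
  refine not_boundedCW_of_family (H := H) (fun k => ?_) h
  refine ⟨_, inferInstance, famC (3 * (k + 1) + 1), famC_connected (by omega), fun hc => ?_,
    bc_cliqueWidth True (fun i a b => ?_) rfl⟩
  · obtain ⟨φ, hφ⟩ := hc.exists_model
    apply hcon
    rw [← con_univ_iff]
    refine ⟨⟨φ (.inl ⟨0, by omega⟩), mem_univ _⟩, fun S _ hne hcl w _ => ?_⟩
    have hG : Con (famC (3 * (k + 1) + 1)) univ := con_univ_iff.mpr (famC_connected (by omega))
    have key := hG.2 (φ ⁻¹' S) (subset_univ _) (by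
      obtain ⟨s, hs⟩ := hne
      obtain ⟨x, hx⟩ := (hφ.con s).1
      exact ⟨x, by rw [mem_preimage, show φ x = s from hx]; exact hs⟩) (by
      intro x hx y _ hxy
      by_cases he : φ x = φ y
      · rw [mem_preimage, ← he]; exact hx
      · exact hcl _ hx _ (mem_univ _) ((hφ.adj _ _ he).mpr ⟨x, rfl, y, rfl, hxy⟩))
    obtain ⟨x, hx⟩ := (hφ.con w).1
    have := key (mem_univ x)
    rwa [mem_preimage, show φ x = w from hx] at this
  · show _ ∨ _ ↔ _
    tauto

end Pool.Agent.Work.MP_80fcda_co
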