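import Pool.Agent.Work.MP_80fcda_co.Grid
import Pool.Agent.Work.MP_80fcda_co.FamBC

/-!
# Family D: square grids
-/

set_option autoImplicit false

namespace Pool.Agent.Work.MP_80fcda_co

open Set

/-- The embedding of the finite grid. -/
def emb {n : ℕ} (p : Fin n × Fin n) : ℕ × ℕ := (p.1.val + 1, p.2.val + 1)

/-- The `n × n` grid. -/
def famD (n : ℕ) : SimpleGraph (Fin n × Fin n) := latt.comap emb

theorem famD_adj {n : ℕ} {p q : Fin n × Fin n} : (famD n).Adj p q ↔
    (p.1.val = q.1.val ∧ (p.2.val + 1 = q.2.val ∨ q.2.val + 1 = p.2.val)) ∨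
    (p.2.val = q.2.val ∧ (p.1.val + 1 = q.1.val ∨ q.1.val + 1 = p.1.val)) := by
  simp only [famD, SimpleGraph.comap_adj, latt_adj, emb]
  omega

theorem Con.map {V V' : Type} {G : SimpleGraph V'} (f : V → V') {A : Set V}
    (hA : Con (G.comap f) A) : Con G (f '' A) := by
  refine ⟨hA.1.image f, fun S hS hne hcl => ?_⟩
  have := hA.2 (A ∩ f ⁻¹' S) inter_subset_left (by
    obtain ⟨s, hs⟩ := hne
    obtain ⟨a, ha, rfl⟩ := hS hs
    exact ⟨a, ha, hs⟩) (fun u hu v hv huv => ⟨hv, hcl _ hu.2 _ ⟨v, hv, rfl⟩ huv⟩)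
  rintro _ ⟨a, ha, rfl⟩
  exact (this ha).2

theorem famD_connected {n : ℕ} (hn : 1 ≤ n) : (famD n).Connected := by
  rw [← con_univ_iff]
  refine ⟨⟨(⟨0, by omega⟩, ⟨0, by omega⟩), mem_univ _⟩, fun S _ hne hcl => ?_⟩
  have key : ∀ m : ℕ, ∀ p : Fin n × Fin n, p.1.val + p.2.val = m →
      (p ∈ S ↔ ((⟨0, by omega⟩, ⟨0, by omega⟩) : Fin n × Fin n) ∈ S) := by
    intro m
    induction m with
    | zero =>
      rintro ⟨⟨a, ha⟩, ⟨b, hb⟩⟩ h
      simp only at h
      have h1 : a = 0 := by omega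
      have h2 : b = 0 := by omega
      subst h1 h2
      exact Iff.rfl
    | succ m ih =>
      rintro ⟨⟨a, ha⟩, ⟨b, hb⟩⟩ h
      simp only at h
      rcases a with _ | a
      · rcases b with _ | b
        · omega
        · rw [← ih (⟨0, ha⟩, ⟨b, by omega⟩) (by simp only; omega)]
          have : (famD n).Adj (⟨0, ha⟩, ⟨b, by omega⟩) (⟨0, ha⟩, ⟨b + 1, hb⟩) := by
            rw [famD_adj]; simp
          exact ⟨fun h => hcl _ h _ (mem_univ _) this.symm, fun h => hcl _ h _ (mem_univ _) this⟩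
      · rw [← ih (⟨a, by omega⟩, ⟨b, hb⟩) (by simp only; omega)]
        have : (famD n).Adj (⟨a, by omega⟩, ⟨b, hb⟩) (⟨a + 1, ha⟩, ⟨b, hb⟩) := by
          rw [famD_adj]; simp
        exact ⟨fun h => hcl _ h _ (mem_univ _) this.symm, fun h => hcl _ h _ (mem_univ _) this⟩
  obtain ⟨s, hs⟩ := hne
  intro v _
  rw [key _ v rfl, ← key _ s rfl]
  exact hs

theorem exists_consecutive {n : ℕ} (P : Fin n → Prop) (h1 : ∃ j, P j) (h2 : ∃ j, ¬ P j) :
    ∃ a b : Fin n, (a.val + 1 = b.val ∨ b.val + 1 = a.val) ∧ P a ∧ ¬ P b := by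
  by_contra hcon
  push Not at hcon
  obtain ⟨j, hj⟩ := h1
  have hn : 0 < n := lt_of_le_of_lt (Nat.zero_le _) j.2
  have key : ∀ m (hm : m < n), P ⟨m, hm⟩ ↔ P ⟨0, hn⟩ := by
    intro m
    induction m with
    | zero => intro _; exact Iff.rfl
    | succ m ih =>
      intro hm
      rw [← ih (by omega)]
      exact ⟨hcon _ _ (Or.inr rfl), hcon _ _ (Or.inl rfl)⟩
  obtain ⟨j', hj'⟩ := h2
  exact hj' ((key j'.1 j'.2).mpr ((key j.1 j.2).mp hj))

open Classical in
/-- The mixed rows. -/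
noncomputable def mixed {n : ℕ} (A : Set (Fin n × Fin n)) : Finset (Fin n) :=
  Finset.univ.filter fun i => (∃ j, (i, j) ∈ A) ∧ ∃ j, (i, j) ∉ A

theorem mixed_card {n k : ℕ} {A : Set (Fin n × Fin n)} (hA : LDiv (famD n) k A) :
    (mixed A).card ≤ 3 * k := by
  classical
  obtain ⟨c, hc⟩ := hA
  have h : ∀ i : mixed A, ∃ a b : Fin n, (a.val + 1 = b.val ∨ b.val + 1 = a.val) ∧
      (i.1, a) ∈ A ∧ (i.1, b) ∉ A := by
    intro i
    have := (Finset.mem_filter.mp i.2).2
    exact exists_consecutive (fun j => (i.1, j) ∈ A) this.1 this.2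
  choose a b hab ha hb using h
  have hinj : Function.Injective fun i : mixed A =>
      ((⟨i.1.val % 3, Nat.mod_lt _ (by norm_num)⟩ : Fin 3), c ⟨_, ha i⟩) := by
    intro i i' hii
    simp only [Prod.mk.injEq, Fin.mk.injEq] at hii
    obtain ⟨h3, hcc⟩ := hii
    have := hc _ _ hcc _ (hb i)
    rw [famD_adj, famD_adj] at this
    simp only at this
    have h1 := this.mp (Or.inl ⟨trivial, hab i⟩)
    apply Subtype.ext
    apply Fin.ext
    omega
  have := Fintype.card_le_of_injective _ hinj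
  simpa using this

theorem LDiv.swap {n k : ℕ} {A : Set (Fin n × Fin n)} (hA : LDiv (famD n) k A) :
    LDiv (famD n) k (Prod.swap ⁻¹' A) := by
  obtain ⟨c, hc⟩ := hA
  refine ⟨fun x => c ⟨_, x.2⟩, fun x y hxy v hv => ?_⟩
  have := hc _ _ hxy (Prod.swap v) hv
  rw [famD_adj, famD_adj] at this ⊢
  simp only [Prod.fst_swap, Prod.snd_swap] at this
  tauto

theorem famD_ldiv {n k : ℕ} {A : Set (Fin n × Fin n)} (hA : LDiv (famD n) k A)
    (hn : 3 * k < n) : A.ncard ≤ 3 * k * n ∨ n * n ≤ A.ncard + 3 * k * n := by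
  classical
  have h1 := mixed_card hA
  have h2 := mixed_card hA.swap
  obtain ⟨r, hr⟩ : ∃ r, r ∉ mixed A := by
    by_contra hcon
    push Not at hcon
    have : (Finset.univ : Finset (Fin n)) ⊆ mixed A := fun x _ => hcon x
    have := Finset.card_le_card this
    simp at this
    omega
  obtain ⟨s, hs⟩ : ∃ r, r ∉ mixed (Prod.swap ⁻¹' A) := by
    by_contra hcon
    push Not at hcon
    have : (Finset.univ : Finset (Fin n)) ⊆ mixed (Prod.swap ⁻¹' A) := fun x _ => hcon x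
    have := Finset.card_le_card this
    simp at this
    omega
  have hrow : ∀ i, i ∉ mixed A → ∀ j j', (i, j) ∈ A → (i, j') ∈ A := by
    intro i hi j j' hj
    by_contra h
    exact hi (by simpa [mixed] using ⟨⟨j, hj⟩, ⟨j', h⟩⟩)
  have hcol : ∀ i, (i, s) ∈ A → ∀ i', (i', s) ∈ A := by
    intro i hi i'
    by_contra h
    exact hs (by simpa [mixed] using ⟨⟨i, hi⟩, ⟨i', h⟩⟩)
  by_cases hin : (r, s) ∈ A
  · right
    have hsub : ((Finset.univ \ mixed A) ×ˢ (Finset.univ : Finset (Fin n))) ⊆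
        A.toFinite.toFinset := by
      rintro ⟨i, j⟩ hx
      simp only [Finset.mem_product, Finset.mem_sdiff, Finset.mem_univ, true_and, and_true] at hx
      rw [Finite.mem_toFinset]
      exact hrow i hx s j (hcol r hin i)
    have hle := Finset.card_le_card hsub
    rw [Finset.card_product, Finset.card_sdiff_of_subset (Finset.subset_univ _), Finset.card_univ,
      Fintype.card_fin, ← ncard_eq_toFinset_card, Nat.sub_mul] at hle
    have : (mixed A).card * n ≤ 3 * k * n := Nat.mul_le_mul_right _ h1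
    omega
  · left
    have hsub : A.toFinite.toFinset ⊆ (mixed A) ×ˢ (Finset.univ : Finset (Fin n)) := by
      rintro ⟨i, j⟩ hx
      rw [Finite.mem_toFinset] at hx
      simp only [Finset.mem_product, Finset.mem_univ, and_true]
      by_contra h
      exact hin (hcol i (hrow i h j s hx) r)
    have hle := Finset.card_le_card hsub
    rw [Finset.card_product, Finset.card_univ, Fintype.card_fin, ← ncard_eq_toFinset_card] at hle
    exact hle.trans (Nat.mul_le_mul_right _ h1)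

theorem famD_cliqueWidth (k : ℕ) : ∃ n, 1 ≤ n ∧ ¬ cliqueWidth (famD n) ≤ k := by
  refine ⟨9 * (k + 1) + 1, by omega, fun hle => ?_⟩
  obtain ⟨n, hn⟩ : ∃ n, n = 9 * (k + 1) + 1 := ⟨_, rfl⟩
  rw [← hn] at hle
  have : Nonempty (Fin n × Fin n) := ⟨(⟨0, by omega⟩, ⟨0, by omega⟩)⟩
  have h6 : 1 ≤ n := by omega
  obtain ⟨A, h1, h2, h3⟩ := exists_ldiv_of_cliqueWidth hle univ (3 * (k + 1) * n)
    (by nlinarith) (by
      rw [ncard_univ]
      simp only [Nat.card_eq_fintype_card, Fintype.card_prod, Fintype.card_fin]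
      have h5 : n * n = (9 * (k + 1) + 1) * n := by rw [← hn]
      nlinarith)
  rw [inter_univ] at h1 h2
  have h5 : n * n = (9 * (k + 1) + 1) * n := by rw [← hn]
  rcases famD_ldiv h3 (by omega) with h | h <;> nlinarith

theorem famD_noK5 {W : Type} {n : ℕ} (ι : Fin 5 → W) (hι : Function.Injective ι)
    {φ : Fin n × Fin n → W} (hφ : IsModel (famD n) (⊤ : SimpleGraph W) φ) : False := by
  classical
  have hinj : Function.Injective (emb : Fin n × Fin n → ℕ × ℕ) := by
    rintro ⟨a, b⟩ ⟨c, d⟩ h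
    simp only [emb, Prod.mk.injEq, Nat.add_right_cancel_iff] at h
    exact Prod.ext (Fin.ext h.1) (Fin.ext h.2)
  let B : Fin 5 → Finset (ℕ × ℕ) := fun i => (toFinite (emb '' (φ ⁻¹' {ι i}))).toFinset
  have hBc : ∀ i, (B i : Set (ℕ × ℕ)) = emb '' (φ ⁻¹' {ι i}) := fun i => by
    simp [B]
  have hBm : ∀ i x, x ∈ B i ↔ x ∈ emb '' (φ ⁻¹' {ι i}) := fun i x => by
    simp [B]
  refine no_K5_grid (n := n) B ?_ ?_ ?_ ?_
  · intro i x hx
    rw [hBm] at hx
    obtain ⟨⟨a, b⟩, -, rfl⟩ := hx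
    refine ⟨?_, ?_, ?_, ?_⟩ <;> simp [emb]
  · intro i
    rw [hBc]
    exact (hφ.con _).map
  · intro i j hij x hx hx'
    rw [hBm] at hx hx'
    obtain ⟨p, hp, rfl⟩ := hx
    obtain ⟨q, hq, hqp⟩ := hx'
    have := hinj hqp
    subst this
    exact hij (hι ((show φ q = ι i from hp).symm.trans hq))
  · intro i j hij
    rw [hBc, hBc]
    obtain ⟨x, hx, y, hy, hxy⟩ := (hφ.adj (ι i) (ι j) (hι.ne hij)).mp (hι.ne hij)
    exact ⟨_, ⟨x, hx, rfl⟩, _, ⟨y, hy, rfl⟩, hxy⟩

theorem not_bounded_of_complete {W : Type} (ι : Fin 5 → W) (hι : Function.Injective ι) :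
    ¬ BoundedCW (⊤ : SimpleGraph W) := by
  refine not_boundedCW_of_family fun k => ?_
  obtain ⟨n, hn, hcw⟩ := famD_cliqueWidth k
  refine ⟨_, inferInstance, famD n, famD_connected hn, fun hc => ?_, hcw⟩
  obtain ⟨φ, hφ⟩ := hc.exists_model
  exact famD_noK5 ι hι hφ

end Pool.Agent.Work.MP_80fcda_co
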