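import Pool.Agent.Work.MP_80fcda_co.FamD

/-!
# Necessity: only nine graphs can have the property
-/

set_option autoImplicit false

namespace Pool.Agent.Work.MP_80fcda_co

open Set

theorem iso_of_fin {W : Type} {H : SimpleGraph W} {n : ℕ} {K : SimpleGraph (Fin n)}
    (f : Fin n → W) (hinj : Function.Injective f) (hsurj : ∀ x, ∃ i, f i = x)
    (hadj : ∀ i j, K.Adj i j ↔ H.Adj (f i) (f j)) : Nonempty (H ≃g K) :=
  ⟨(⟨Equiv.ofBijective f ⟨hinj, hsurj⟩, fun {i j} => (hadj i j).symm⟩ : K ≃g H).symm⟩

theorem iso_P3 {W : Type} {H : SimpleGraph W} {a b c : W} (hac' : a ≠ c) (hab : H.Adj a b)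
    (hbc : H.Adj b c) (hac : ¬ H.Adj a c) (hall : ∀ x, x = a ∨ x = b ∨ x = c) :
    Nonempty (H ≃g P3) := by
  refine iso_of_fin ![a, b, c] ?_ ?_ ?_
  · intro i j
    fin_cases i <;> fin_cases j <;>
      simp [hab.ne, hab.ne', hbc.ne, hbc.ne', hac', hac'.symm]
  · intro x
    rcases hall x with rfl | rfl | rfl
    exacts [⟨0, rfl⟩, ⟨1, rfl⟩, ⟨2, rfl⟩]
  · intro i j
    fin_cases i <;> fin_cases j <;>
      simp [P3, hab, hab.symm, hbc, hbc.symm, hac, H.adj_comm c a]

/-- `b` is adjacent to all, `c ~ d`, and `a` is adjacent to `b` only. -/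
theorem iso_paw {W : Type} {H : SimpleGraph W} {a b c d : W} (hac' : a ≠ c) (had' : a ≠ d)
    (hab : H.Adj a b) (hbc : H.Adj b c) (hbd : H.Adj b d) (hcd : H.Adj c d) (hac : ¬ H.Adj a c)
    (had : ¬ H.Adj a d) (hall : ∀ x, x = a ∨ x = b ∨ x = c ∨ x = d) :
    Nonempty (H ≃g paw) := by
  refine iso_of_fin ![a, b, c, d] ?_ ?_ ?_
  · intro i j
    fin_cases i <;> fin_cases j <;>
      simp [hab.ne, hab.ne', hbc.ne, hbc.ne', hac', hac'.symm, had', had'.symm, hbd.ne, hbd.ne',
        hcd.ne, hcd.ne']
  · intro x
    rcases hall x with rfl | rfl | rfl | rfl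
    exacts [⟨0, rfl⟩, ⟨1, rfl⟩, ⟨2, rfl⟩, ⟨3, rfl⟩]
  · intro i j
    fin_cases i <;> fin_cases j <;>
      simp [paw, hab, hab.symm, hbc, hbc.symm, hac, H.adj_comm c a, H.adj_comm d a, had, hbd,
        hbd.symm, hcd, hcd.symm]

/-- All adjacent except `a, d`. -/
theorem iso_diamond {W : Type} {H : SimpleGraph W} {a b c d : W} (had' : a ≠ d)
    (hab : H.Adj a b) (hac : H.Adj a c) (hbc : H.Adj b c) (hbd : H.Adj b d) (hcd : H.Adj c d)
    (had : ¬ H.Adj a d) (hall : ∀ x, x = a ∨ x = b ∨ x = c ∨ x = d) :
    Nonempty (H ≃g diamond) := by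
  refine iso_of_fin ![a, b, c, d] ?_ ?_ ?_
  · intro i j
    fin_cases i <;> fin_cases j <;>
      simp [hab.ne, hab.ne', hbc.ne, hbc.ne', hac.ne, hac.ne', had', had'.symm, hbd.ne, hbd.ne',
        hcd.ne, hcd.ne']
  · intro x
    rcases hall x with rfl | rfl | rfl | rfl
    exacts [⟨0, rfl⟩, ⟨1, rfl⟩, ⟨2, rfl⟩, ⟨3, rfl⟩]
  · intro i j
    fin_cases i <;> fin_cases j <;>
      simp [diamond, hab, hab.symm, hbc, hbc.symm, hac, hac.symm, H.adj_comm d a, had, hbd,
        hbd.symm, hcd, hcd.symm]

/-- The path `a b c d` and `e` adjacent to all of it. -/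
theorem iso_gem {W : Type} {H : SimpleGraph W} {a b c d e : W} (hac' : a ≠ c) (had' : a ≠ d)
    (hbd' : b ≠ d) (hab : H.Adj a b) (hbc : H.Adj b c) (hcd : H.Adj c d) (hac : ¬ H.Adj a c)
    (had : ¬ H.Adj a d) (hbd : ¬ H.Adj b d) (hea : H.Adj e a) (heb : H.Adj e b) (hec : H.Adj e c)
    (hed : H.Adj e d) (hall : ∀ x, x = a ∨ x = b ∨ x = c ∨ x = d ∨ x = e) :
    Nonempty (H ≃g gem) := by
  refine iso_of_fin ![a, b, c, d, e] ?_ ?_ ?_
  · intro i j
    fin_cases i <;> fin_cases j <;>
      simp [hab.ne, hab.ne', hbc.ne, hbc.ne', hac', hac'.symm, had', had'.symm, hbd', hbd'.symm,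
        hcd.ne, hcd.ne', hea.ne, hea.ne', heb.ne, heb.ne', hec.ne, hec.ne', hed.ne, hed.ne']
  · intro x
    rcases hall x with rfl | rfl | rfl | rfl | rfl
    exacts [⟨0, rfl⟩, ⟨1, rfl⟩, ⟨2, rfl⟩, ⟨3, rfl⟩, ⟨4, rfl⟩]
  · intro i j
    fin_cases i <;> fin_cases j <;>
      simp [gem, hab, hab.symm, hbc, hbc.symm, hac, H.adj_comm c a, H.adj_comm d a,
        H.adj_comm d b, had, hbd, hcd, hcd.symm, hea, hea.symm, heb, heb.symm, hec, hec.symm,
        hed, hed.symm]

/-- A complete graph on `a b c d` and `e` adjacent to `a, b` only. -/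
theorem iso_coTwoP1P3 {W : Type} {H : SimpleGraph W} {a b c d e : W} (hec' : e ≠ c)
    (hed' : e ≠ d) (hab : H.Adj a b) (hac : H.Adj a c) (had : H.Adj a d) (hbc : H.Adj b c)
    (hbd : H.Adj b d) (hcd : H.Adj c d) (hea : H.Adj e a) (heb : H.Adj e b) (hec : ¬ H.Adj e c)
    (hed : ¬ H.Adj e d) (hall : ∀ x, x = a ∨ x = b ∨ x = c ∨ x = d ∨ x = e) :
    Nonempty (H ≃g coTwoP1P3) := by
  refine iso_of_fin ![a, b, c, d, e] ?_ ?_ ?_
  · intro i j
    fin_cases i <;> fin_cases j <;>
      simp [hab.ne, hab.ne', hbc.ne, hbc.ne', hac.ne, hac.ne', had.ne, had.ne', hbd.ne, hbd.ne',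
        hcd.ne, hcd.ne', hea.ne, hea.ne', heb.ne, heb.ne', hec', hec'.symm, hed', hed'.symm]
  · intro x
    rcases hall x with rfl | rfl | rfl | rfl | rfl
    exacts [⟨0, rfl⟩, ⟨1, rfl⟩, ⟨2, rfl⟩, ⟨3, rfl⟩, ⟨4, rfl⟩]
  · intro i j
    fin_cases i <;> fin_cases j <;>
      simp [coTwoP1P3, hab, hab.symm, hbc, hbc.symm, hac, hac.symm, had, had.symm, hbd,
        hbd.symm, hcd, hcd.symm, hea, hea.symm, heb, heb.symm, hec, hed, H.adj_comm c e,
        H.adj_comm d e]

theorem necessity {W : Type} {H : SimpleGraph W} (h : BoundedCW H) :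
    (∃ m : ℕ, 1 ≤ m ∧ m ≤ 4 ∧ Nonempty (H ≃g (⊤ : SimpleGraph (Fin m)))) ∨
      Nonempty (H ≃g P3) ∨ Nonempty (H ≃g paw) ∨ Nonempty (H ≃g diamond) ∨
      Nonempty (H ≃g gem) ∨ Nonempty (H ≃g coTwoP1P3) := by
  have hconn := connected_of_bounded h
  have hne : Nonempty W := hconn.nonempty
  by_cases hcomp : ∃ a b, a ≠ b ∧ ¬ H.Adj a b
  · right
    have hu : ∃ u, ∀ w, w ≠ u → H.Adj u w := by
      by_contra hcon; exact not_bounded_of_not_universal hcon h
    have hv : ∃ v p q, ∀ w, H.Adj v w → w = p ∨ w = q := by
      by_contra hcon; exact not_bounded_of_degree hcomp hcon h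
    have hK : ∀ {a b c d : W}, ¬ H.Adj a b → ¬ H.Adj a c → ¬ H.Adj a d → H.Adj b c → H.Adj b d →
        H.Adj c d → False := fun h1 h2 h3 h4 h5 h6 => not_bounded_of_K1K3 h1 h2 h3 h4 h5 h6 h
    have hα : ∀ {a b c : W}, a ≠ b → a ≠ c → b ≠ c → ¬ H.Adj a b → ¬ H.Adj a c →
        H.Adj b c := fun h1 h2 h3 h4 h5 => by
      by_contra h6; exact not_bounded_of_alpha h1 h2 h3 h4 h5 h6 h
    have h2 : ∀ {a b c d : W}, H.Adj a b → H.Adj c d → ¬ H.Adj a c → ¬ H.Adj a d →
        ¬ H.Adj b c → ¬ H.Adj b d → False := fun h1 h2 h3 h4 h5 h6 =>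
      not_bounded_of_2K2 h1 h2 h3 h4 h5 h6 h
    obtain ⟨u, hu⟩ := hu
    obtain ⟨v, p, q, hv⟩ := hv
    by_cases hvu : v = u
    · -- `v` is universal
      subst hvu
      left
      obtain ⟨a, b, hab, hnab⟩ := hcomp
      have hav : a ≠ v := by
        rintro rfl
        exact hnab (hu b hab.symm)
      have hbv : b ≠ v := by
        rintro rfl
        exact hnab (hu a hab).symm
      have h1 := hv a (hu a hav)
      have h2 := hv b (hu b hbv)
      refine iso_P3 (a := a) (b := v) (c := b) hab (hu a hav).symm (hu b hbv) hnab fun x => ?_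
      by_cases hxv : x = v
      · exact Or.inr (Or.inl hxv)
      · have h3 := hv x (hu x hxv)
        rcases h1 with rfl | rfl <;> rcases h2 with rfl | rfl <;> tauto
    · have huv : H.Adj u v := hu v hvu
      -- normalise the neighbours of `v`
      obtain ⟨q, hq⟩ : ∃ q, ∀ w, H.Adj v w → w = u ∨ w = q := by
        rcases hv u huv.symm with h | h
        · exact ⟨q, fun w hw => h ▸ hv w hw⟩
        · exact ⟨p, fun w hw => h ▸ (hv w hw).symm⟩
      by_cases hX : ∃ x, x ≠ v ∧ ¬ H.Adj v x
      · obtain ⟨x, hxv, hvx⟩ := hX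
        have hux : H.Adj u x := hu x (by rintro rfl; exact hvx huv.symm)
        by_cases hy : ∃ y, y ≠ v ∧ ¬ H.Adj v y ∧ y ≠ x
        · obtain ⟨y, hyv, hvy, hyx⟩ := hy
          have huy : H.Adj u y := hu y (by rintro rfl; exact hvy huv.symm)
          have hxy : H.Adj x y := hα hxv.symm hyv.symm hyx.symm hvx hvy
          have hXall : ∀ z, z ≠ v → ¬ H.Adj v z → z = x ∨ z = y := by
            intro z hzv hvz
            by_contra hcon
            push Not at hcon
            exact hK hvx hvy hvz hxy (hα hxv.symm hzv.symm hcon.1.symm hvx hvz)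
              (hα hyv.symm hzv.symm hcon.2.symm hvy hvz)
          by_cases hw : H.Adj v q ∧ q ≠ u
          · obtain ⟨hvq, hqu⟩ := hw
            have huq : H.Adj u q := hu q hqu
            have hall : ∀ z, z = v ∨ z = u ∨ z = q ∨ z = x ∨ z = y := by
              intro z
              by_cases hzv : z = v
              · exact Or.inl hzv
              · by_cases hvz : H.Adj v z
                · rcases hq z hvz with h | h <;> tauto
                · rcases hXall z hzv hvz with h | h <;> tauto
            by_cases hqx : H.Adj q x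
            · by_cases hqy : H.Adj q y
              · right; right; right; right
                exact iso_coTwoP1P3 (a := u) (b := q) (c := x) (d := y) (e := v) hxv.symm
                  hyv.symm huq hux huy hqx hqy hxy huv.symm hvq hvx hvy (fun z => by
                    have := hall z; tauto)
              · right; right; right; left
                exact iso_gem (a := v) (b := q) (c := x) (d := y) (e := u) hxv.symm hyv.symm
                  (by rintro rfl; exact hvy hvq) hvq hqx hxy hvx hvy hqy huv huq hux huy
                  (fun z => by have := hall z; tauto)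
            · by_cases hqy : H.Adj q y
              · right; right; right; left
                exact iso_gem (a := v) (b := q) (c := y) (d := x) (e := u) hyv.symm hxv.symm
                  (by rintro rfl; exact hvx hvq) hvq hqy hxy.symm hvy hvx hqx huv huq huy hux
                  (fun z => by have := hall z; tauto)
              · exact (h2 hvq hxy hvx hvy hqx hqy).elim
          · right; left
            refine iso_paw (a := v) (b := u) (c := x) (d := y) hxv.symm hyv.symm huv.symm hux huy
              hxy hvx hvy fun z => ?_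
            by_cases hzv : z = v
            · exact Or.inl hzv
            · by_cases hvz : H.Adj v z
              · rcases hq z hvz with h | h
                · tauto
                · subst h
                  by_cases hzu : z = u
                  · tauto
                  · exact absurd ⟨hvz, hzu⟩ hw
              · rcases hXall z hzv hvz with h | h <;> tauto
        · have hXall : ∀ z, z ≠ v → ¬ H.Adj v z → z = x := by
            intro z hzv hvz
            by_contra hcon
            exact hy ⟨z, hzv, hvz, hcon⟩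
          by_cases hw : H.Adj v q ∧ q ≠ u
          · obtain ⟨hvq, hqu⟩ := hw
            have huq : H.Adj u q := hu q hqu
            have hall : ∀ z, z = v ∨ z = u ∨ z = q ∨ z = x := by
              intro z
              by_cases hzv : z = v
              · exact Or.inl hzv
              · by_cases hvz : H.Adj v z
                · rcases hq z hvz with h | h <;> tauto
                · have := hXall z hzv hvz
                  tauto
            by_cases hqx : H.Adj q x
            · right; right; left
              exact iso_diamond (a := v) (b := u) (c := q) (d := x) hxv.symm huv.symm hvq huq hux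
                hqx hvx (fun z => by have := hall z; tauto)
            · right; left
              exact iso_paw (a := x) (b := u) (c := v) (d := q) hxv
                (by rintro rfl; exact hvx hvq) hux.symm huv huq hvq
                (fun h => hvx h.symm) (fun h => hqx h.symm) (fun z => by have := hall z; tauto)
          · left
            refine iso_P3 (a := v) (b := u) (c := x) hxv.symm huv.symm hux hvx fun z => ?_
            by_cases hzv : z = v
            · exact Or.inl hzv
            · by_cases hvz : H.Adj v z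
              · rcases hq z hvz with h | h
                · tauto
                · subst h
                  by_cases hzu : z = u
                  · tauto
                  · exact absurd ⟨hvz, hzu⟩ hw
              · have := hXall z hzv hvz
                tauto
      · -- `v` is universal
        exfalso
        push Not at hX
        obtain ⟨a, b, hab, hnab⟩ := hcomp
        have hau : a ≠ u := by
          rintro rfl
          exact hnab (hu b hab.symm)
        have hbu : b ≠ u := by
          rintro rfl
          exact hnab (hu a hab).symm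
        have hav : a ≠ v := by
          rintro rfl
          exact hnab (hX b hab.symm)
        have hbv : b ≠ v := by
          rintro rfl
          exact hnab (hX a hab).symm
        have h1 := hq a (hX a hav)
        have h2 := hq b (hX b hbv)
        rcases h1 with h1 | h1
        · exact hau h1
        · rcases h2 with h2 | h2
          · exact hbu h2
          · exact hab (h1.trans h2.symm)
  · left
    push Not at hcomp
    have htop : H = ⊤ := by
      ext a b
      rw [SimpleGraph.top_adj]
      exact ⟨fun h => h.ne, hcomp a b⟩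
    subst htop
    have hno : ¬ ∃ ι : Fin 5 → W, Function.Injective ι := by
      rintro ⟨ι, hι⟩
      exact not_bounded_of_complete ι hι h
    have hfin : Finite W := by
      by_contra hinf
      rw [not_finite_iff_infinite] at hinf
      obtain ⟨s, hs⟩ := Infinite.exists_subset_card_eq W 5
      exact hno ⟨fun i => (s.equivFinOfCardEq hs).symm i, fun i j hij =>
        (s.equivFinOfCardEq hs).symm.injective (Subtype.ext hij)⟩
    have := Fintype.ofFinite W
    refine ⟨Fintype.card W, Fintype.card_pos, ?_, ⟨?_⟩⟩
    · by_contra hlt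
      push Not at hlt
      have hle : Fintype.card (Fin 5) ≤ Fintype.card W := by
        rw [Fintype.card_fin]; omega
      obtain ⟨ι⟩ := Function.Embedding.nonempty_of_card_le hle
      exact hno ⟨ι, ι.injective⟩
    · exact SimpleGraph.Iso.completeGraph (Fintype.equivFin W)

end Pool.Agent.Work.MP_80fcda_co
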