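import Pool.Agent.Work.MP_80fcda_co.XCaseB
import Pool.Agent.Work.MP_80fcda_co.Necessity

/-!
# The classification
-/

set_option autoImplicit false

namespace Pool.Agent.Work.MP_80fcda_co

open Set

theorem X_bounded : BoundedCW coTwoP1P3 :=
  bounded_of_twoCon (k := 2 ^ 16) fun _ _ _ h2 hno => X_twoCon h2 hno

theorem BoundedCW.mono {U W : Type} {K : SimpleGraph U} {H : SimpleGraph W} (h : BoundedCW H)
    (hK : ContractsTo K H) : BoundedCW K := by
  obtain ⟨c, hc⟩ := h
  exact ⟨c, fun V _ G hG hno => hc V G hG fun h' => hno (h'.trans hK)⟩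

theorem BoundedCW.iso {U W : Type} {K : SimpleGraph U} {H : SimpleGraph W} (h : BoundedCW H)
    (e : K ≃g H) : BoundedCW K := h.mono (ContractsTo.iso e.symm)

theorem gem_diamond : ContractsTo diamond gem := by
  refine contractsTo_of_bags ![{0, 1}, {2}, {4}, {3}] ?_ ?_ ?_ ?_
  · intro v
    fin_cases v
    exacts [⟨0, by simp⟩, ⟨0, by simp⟩, ⟨1, by simp⟩, ⟨3, by simp⟩, ⟨2, by simp⟩]
  · intro i j hij
    fin_cases i <;> fin_cases j <;> simp at hij ⊢
  · intro i
    fin_cases i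
    · exact con_pair (by simp [gem])
    · exact con_singleton _
    · exact con_singleton _
    · exact con_singleton _
  · intro i j hij
    fin_cases i <;> fin_cases j <;> simp [diamond, gem, EAdj] at hij ⊢

theorem gem_paw : ContractsTo paw gem := by
  refine contractsTo_of_bags ![{0}, {1, 4}, {2}, {3}] ?_ ?_ ?_ ?_
  · intro v
    fin_cases v
    exacts [⟨0, by simp⟩, ⟨1, by simp⟩, ⟨2, by simp⟩, ⟨3, by simp⟩, ⟨1, by simp⟩]
  · intro i j hij
    fin_cases i <;> fin_cases j <;> simp at hij ⊢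
  · intro i
    fin_cases i
    · exact con_singleton _
    · exact con_pair (by simp [gem])
    · exact con_singleton _
    · exact con_singleton _
  · intro i j hij
    fin_cases i <;> fin_cases j <;> simp [paw, gem, EAdj] at hij ⊢

theorem gem_P3 : ContractsTo P3 gem := by
  refine contractsTo_of_bags ![{0}, {1, 4}, {2, 3}] ?_ ?_ ?_ ?_
  · intro v
    fin_cases v
    exacts [⟨0, by simp⟩, ⟨1, by simp⟩, ⟨2, by simp⟩, ⟨2, by simp⟩, ⟨1, by simp⟩]
  · intro i j hij
    fin_cases i <;> fin_cases j <;> simp at hij ⊢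
  · intro i
    fin_cases i
    · exact con_singleton _
    · exact con_pair (by simp [gem])
    · exact con_pair (by simp [gem])
  · intro i j hij
    fin_cases i <;> fin_cases j <;> simp [P3, gem, EAdj] at hij ⊢

theorem X_K4 : ContractsTo (⊤ : SimpleGraph (Fin 4)) coTwoP1P3 := by
  refine contractsTo_of_bags ![{0, 4}, {1}, {2}, {3}] ?_ ?_ ?_ ?_
  · intro v
    fin_cases v
    exacts [⟨0, by simp⟩, ⟨1, by simp⟩, ⟨2, by simp⟩, ⟨3, by simp⟩, ⟨0, by simp⟩]
  · intro i j hij
    fin_cases i <;> fin_cases j <;> simp at hij ⊢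
  · intro i
    fin_cases i
    · exact con_pair (by simp [coTwoP1P3])
    · exact con_singleton _
    · exact con_singleton _
    · exact con_singleton _
  · intro i j hij
    fin_cases i <;> fin_cases j <;> simp [coTwoP1P3, EAdj] at hij ⊢

theorem K4_K3 : ContractsTo (⊤ : SimpleGraph (Fin 3)) (⊤ : SimpleGraph (Fin 4)) := by
  refine contractsTo_of_bags ![{0, 3}, {1}, {2}] ?_ ?_ ?_ ?_
  · intro v
    fin_cases v
    exacts [⟨0, by simp⟩, ⟨1, by simp⟩, ⟨2, by simp⟩, ⟨0, by simp⟩]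
  · intro i j hij
    fin_cases i <;> fin_cases j <;> simp at hij ⊢
  · intro i
    fin_cases i
    · exact con_pair (by simp)
    · exact con_singleton _
    · exact con_singleton _
  · intro i j hij
    fin_cases i <;> fin_cases j <;> simp [EAdj] at hij ⊢

theorem K3_K2 : ContractsTo (⊤ : SimpleGraph (Fin 2)) (⊤ : SimpleGraph (Fin 3)) := by
  refine contractsTo_of_bags ![{0, 2}, {1}] ?_ ?_ ?_ ?_
  · intro v
    fin_cases v
    exacts [⟨0, by simp⟩, ⟨1, by simp⟩, ⟨0, by simp⟩]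
  · intro i j hij
    fin_cases i <;> fin_cases j <;> simp at hij ⊢
  · intro i
    fin_cases i
    · exact con_pair (by simp)
    · exact con_singleton _
  · intro i j hij
    fin_cases i <;> fin_cases j <;> simp [EAdj] at hij ⊢

theorem K2_K1 : ContractsTo (⊤ : SimpleGraph (Fin 1)) (⊤ : SimpleGraph (Fin 2)) := by
  refine contractsTo_of_bags ![{0, 1}] ?_ ?_ ?_ ?_
  · intro v
    fin_cases v
    exacts [⟨0, by simp⟩, ⟨0, by simp⟩]
  · intro i j hij
    fin_cases i <;> fin_cases j <;> simp at hij ⊢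
  · intro i
    fin_cases i
    · exact con_pair (by simp)
  · intro i j hij
    fin_cases i <;> fin_cases j <;> simp at hij ⊢

theorem K_bounded {m : ℕ} (h1 : 1 ≤ m) (h4 : m ≤ 4) : BoundedCW (⊤ : SimpleGraph (Fin m)) := by
  have k4 := X_bounded.mono X_K4
  have k3 := k4.mono K4_K3
  have k2 := k3.mono K3_K2
  have k1 := k2.mono K2_K1
  interval_cases m
  exacts [k1, k2, k3, k4]

theorem classification {W : Type} (H : SimpleGraph W) : BoundedCW H ↔
    (∃ m : ℕ, 1 ≤ m ∧ m ≤ 4 ∧ Nonempty (H ≃g (⊤ : SimpleGraph (Fin m)))) ∨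
      Nonempty (H ≃g P3) ∨ Nonempty (H ≃g paw) ∨ Nonempty (H ≃g diamond) ∨
      Nonempty (H ≃g gem) ∨ Nonempty (H ≃g coTwoP1P3) := by
  refine ⟨necessity, ?_⟩
  rintro (⟨m, h1, h4, ⟨e⟩⟩ | ⟨⟨e⟩⟩ | ⟨⟨e⟩⟩ | ⟨⟨e⟩⟩ | ⟨⟨e⟩⟩ | ⟨⟨e⟩⟩)
  · exact (K_bounded h1 h4).iso e
  · exact (gem_bounded.mono gem_P3).iso e
  · exact (gem_bounded.mono gem_paw).iso e
  · exact (gem_bounded.mono gem_diamond).iso e
  · exact gem_bounded.iso e
  · exact X_bounded.iso e

end Pool.Agent.Work.MP_80fcda_co
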