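import Pool.Agent.Work.MP_80fcda_co.K5

/-!
# The infinite grid has no `K₅` minor
-/

set_option autoImplicit false

namespace Pool.Agent.Work.MP_80fcda_co

open Set Finset

/-- The infinite grid on `ℕ × ℕ`. -/
def latt : SimpleGraph (ℕ × ℕ) where
  Adj x y := (x.1 = y.1 ∧ (x.2 + 1 = y.2 ∨ y.2 + 1 = x.2)) ∨
    (x.2 = y.2 ∧ (x.1 + 1 = y.1 ∨ y.1 + 1 = x.1))
  symm := ⟨fun x y h => by omega⟩
  loopless := ⟨fun x h => by omega⟩

theorem latt_adj {x y : ℕ × ℕ} : latt.Adj x y ↔ (x.1 = y.1 ∧ (x.2 + 1 = y.2 ∨ y.2 + 1 = x.2)) ∨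
    (x.2 = y.2 ∧ (x.1 + 1 = y.1 ∨ y.1 + 1 = x.1)) := Iff.rfl

/-- One of the two cells at an edge. -/
def side1 (x y : ℕ × ℕ) : ℕ × ℕ := (min x.1 y.1, min x.2 y.2)

/-- The other cell at an edge. -/
def side2 (x y : ℕ × ℕ) : ℕ × ℕ :=
  (min x.1 y.1 - if x.1 = y.1 then 1 else 0, min x.2 y.2 - if x.2 = y.2 then 1 else 0)

theorem side1_comm (x y : ℕ × ℕ) : side1 x y = side1 y x := by
  simp only [side1, min_comm]

theorem side2_comm (x y : ℕ × ℕ) : side2 x y = side2 y x := by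
  simp only [side2, min_comm, eq_comm]

/-- The box. -/
def box (n : ℕ) (x : ℕ × ℕ) : Prop := 1 ≤ x.1 ∧ x.1 ≤ n ∧ 1 ≤ x.2 ∧ x.2 ≤ n

/-- A bigger box. -/
def bigBox (n : ℕ) : Finset (ℕ × ℕ) := Finset.range (n + 2) ×ˢ Finset.range (n + 2)

theorem box.mem {n : ℕ} {x : ℕ × ℕ} (h : box n x) : x ∈ bigBox n := by
  obtain ⟨h1, h2, h3, h4⟩ := h
  simp only [bigBox, Finset.mem_product, Finset.mem_range]
  omega

theorem sum_latt {n a b : ℕ} (ha : a + 1 ≤ n) (hb : b + 1 ≤ n) (w : ℕ × ℕ → ZMod 2)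
    (hw : ∀ y, w y ≠ 0 → latt.Adj (a + 1, b + 1) y) :
    ∑ y ∈ bigBox n, w y = w (a + 2, b + 1) + w (a, b + 1) + w (a + 1, b + 2) + w (a + 1, b) := by
  have h4 : ∑ y ∈ ({(a + 2, b + 1), (a, b + 1), (a + 1, b + 2), (a + 1, b)} : Finset (ℕ × ℕ)), w y
      = w (a + 2, b + 1) + w (a, b + 1) + w (a + 1, b + 2) + w (a + 1, b) := by
    rw [Finset.sum_insert, Finset.sum_insert, Finset.sum_insert, Finset.sum_singleton]
    · ring
    · simp
    · simp
    · simp
  rw [← h4]
  symm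
  apply Finset.sum_subset
  · intro y hy
    simp only [Finset.mem_insert, Finset.mem_singleton] at hy
    simp only [bigBox, Finset.mem_product, Finset.mem_range]
    rcases hy with rfl | rfl | rfl | rfl <;> simp only <;> omega
  · intro y _ hy
    by_contra hne
    apply hy
    have := hw y hne
    rw [latt_adj] at this
    obtain ⟨y1, y2⟩ := y
    simp only [Finset.mem_insert, Finset.mem_singleton, Prod.mk.injEq]
    simp only at this
    omega

theorem potential {n : ℕ} (w : ℕ × ℕ → ℕ × ℕ → ZMod 2) (hs : ∀ x y, w x y = w y x)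
    (hsup : ∀ x y, w x y ≠ 0 → latt.Adj x y ∧ box n x ∧ box n y)
    (heven : ∀ x, ∑ y ∈ bigBox n, w x y = 0) :
    ∃ g : ℕ × ℕ → ZMod 2, ∀ x y, latt.Adj x y → 1 ≤ x.1 → 1 ≤ x.2 →
      g (side1 x y) + g (side2 x y) = w x y := by
  have h0 : ∀ x y, ¬ box n x → w x y = 0 := fun x y h => by
    by_contra hne
    exact h (hsup x y hne).2.1
  have hev : ∀ a b, w (a + 1, b + 1) (a + 2, b + 1) + w (a + 1, b + 1) (a, b + 1) +
      w (a + 1, b + 1) (a + 1, b + 2) + w (a + 1, b + 1) (a + 1, b) = 0 := by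
    intro a b
    by_cases hb : box n (a + 1, b + 1)
    · rw [← sum_latt hb.2.1 hb.2.2.2 (fun y => w (a + 1, b + 1) y) (fun y hy => (hsup _ _ hy).1)]
      exact heven _
    · simp [h0 _ _ hb]
  let g : ℕ × ℕ → ZMod 2 := fun p => ∑ j ∈ Finset.range (p.2 + 1), w (p.1, j) (p.1 + 1, j)
  have hg1 : ∀ a b, g (a, b + 1) = g (a, b) + w (a, b + 1) (a + 1, b + 1) := fun a b => by
    simp only [g]
    rw [Finset.sum_range_succ]
  have two : ∀ t : ZMod 2, t + t = 0 := CharTwo.add_self_eq_zero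
  have hg2 : ∀ b a, g (a + 1, b) + g (a, b) = w (a + 1, b) (a + 1, b + 1) := by
    intro b
    induction b with
    | zero =>
      intro a
      have hb : ∀ a, ¬ box n (a, 0) := fun a h => by
        have := h.2.2.1
        simp at this
      simp [g, h0 _ _ (hb _)]
    | succ b ih =>
      intro a
      rw [hg1, hg1]
      have e1 := ih a
      have e2 := hev a b
      rw [hs (a + 1, b + 1) (a, b + 1), hs (a + 1, b + 1) (a + 1, b)] at e2
      linear_combination e1 + e2 - two (w (a + 1, b + 1) (a + 1, b + 2))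
  refine ⟨g, ?_⟩
  have key : ∀ x y : ℕ × ℕ, ((x.1 = y.1 ∧ x.2 + 1 = y.2 ∧ 1 ≤ x.1) ∨
      (x.2 = y.2 ∧ x.1 + 1 = y.1 ∧ 1 ≤ x.2)) → g (side1 x y) + g (side2 x y) = w x y := by
    rintro ⟨x1, x2⟩ ⟨y1, y2⟩ h
    simp only at h
    rcases h with ⟨rfl, rfl, h1⟩ | ⟨rfl, rfl, h2⟩
    · obtain ⟨a, rfl⟩ := Nat.exists_eq_add_of_le' h1
      have e1 : side1 (a + 1, x2) (a + 1, x2 + 1) = (a + 1, x2) := by simp [side1]
      have e2 : side2 (a + 1, x2) (a + 1, x2 + 1) = (a, x2) := by simp [side2]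
      rw [e1, e2]
      exact hg2 x2 a
    · obtain ⟨b, rfl⟩ := Nat.exists_eq_add_of_le' h2
      have e1 : side1 (x1, b + 1) (x1 + 1, b + 1) = (x1, b + 1) := by simp [side1]
      have e2 : side2 (x1, b + 1) (x1 + 1, b + 1) = (x1, b) := by simp [side2]
      rw [e1, e2, hg1]
      linear_combination two (g (x1, b))
  intro x y hxy hx1 hx2
  rcases hxy with ⟨h, h' | h'⟩ | ⟨h, h' | h'⟩
  · exact key x y (Or.inl ⟨h, h', hx1⟩)
  · rw [side1_comm, side2_comm, hs]
    exact key y x (Or.inl ⟨h.symm, h', h ▸ hx1⟩)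
  · exact key x y (Or.inr ⟨h, h', hx2⟩)
  · rw [side1_comm, side2_comm, hs]
    exact key y x (Or.inr ⟨h.symm, h', h ▸ hx2⟩)

open Classical in
/-- The coboundary of a function on cells. -/
noncomputable def cob (g : ℕ × ℕ → ZMod 2) (x y : ℕ × ℕ) : ZMod 2 :=
  if latt.Adj x y then g (side1 x y) + g (side2 x y) else 0

theorem cob_comm (g : ℕ × ℕ → ZMod 2) (x y : ℕ × ℕ) : cob g x y = cob g y x := by
  by_cases h : latt.Adj x y
  · have h' := h.symm
    simp only [cob, h, h', if_true, side1_comm x y, side2_comm x y]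
  · have h' : ¬ latt.Adj y x := fun h2 => h h2.symm
    simp only [cob, h, h', if_false]

theorem cob_even {n : ℕ} (g : ℕ × ℕ → ZMod 2) {x : ℕ × ℕ} (hx : box n x) :
    ∑ y ∈ bigBox n, cob g x y = 0 := by
  obtain ⟨x1, x2⟩ := x
  obtain ⟨h1, h2, h3, h4⟩ := hx
  simp only at h1 h2 h3 h4
  obtain ⟨a, rfl⟩ := Nat.exists_eq_add_of_le' h1
  obtain ⟨b, rfl⟩ := Nat.exists_eq_add_of_le' h3
  rw [sum_latt h2 h4]
  · have two : ∀ t : ZMod 2, t + t = 0 := CharTwo.add_self_eq_zero
    have e1 : cob g (a + 1, b + 1) (a + 2, b + 1) = g (a + 1, b + 1) + g (a + 1, b) := by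
      simp [cob, latt_adj, side1, side2]
    have e2 : cob g (a + 1, b + 1) (a, b + 1) = g (a, b + 1) + g (a, b) := by
      simp [cob, latt_adj, side1, side2]
    have e3 : cob g (a + 1, b + 1) (a + 1, b + 2) = g (a + 1, b + 1) + g (a, b + 1) := by
      simp [cob, latt_adj, side1, side2]
    have e4 : cob g (a + 1, b + 1) (a + 1, b) = g (a + 1, b) + g (a, b) := by
      simp [cob, latt_adj, side1, side2]
    rw [e1, e2, e3, e4]
    linear_combination two (g (a + 1, b + 1)) + two (g (a + 1, b)) + two (g (a, b + 1)) +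
      two (g (a, b))
  · intro y hy
    by_contra hne
    exact hy (by simp [cob, hne])

/-- A symmetric sum with zero diagonal vanishes. -/
theorem sum_symm {V : Type} [DecidableEq V] (B : Finset V) (w : V → V → ZMod 2)
    (hs : ∀ x y, w x y = w y x) (h0 : ∀ x, w x x = 0) : ∑ x ∈ B, ∑ y ∈ B, w x y = 0 := by
  induction B using Finset.induction_on with
  | empty => simp
  | insert a B ha ih =>
    rw [Finset.sum_insert ha, Finset.sum_insert ha]
    have : ∀ x ∈ B, ∑ y ∈ insert a B, w x y = w x a + ∑ y ∈ B, w x y := fun x _ =>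
      Finset.sum_insert ha
    rw [Finset.sum_congr rfl this, Finset.sum_add_distrib, ih, h0]
    have : ∑ x ∈ B, w x a = ∑ x ∈ B, w a x := Finset.sum_congr rfl fun x _ => hs _ _
    rw [this]
    have := CharTwo.add_self_eq_zero (∑ x ∈ B, w a x)
    linear_combination this

theorem no_K5_grid {n : ℕ} (B : Fin 5 → Finset (ℕ × ℕ)) (hB : ∀ i, ∀ x ∈ B i, box n x)
    (hcon : ∀ i, Con latt (B i : Set (ℕ × ℕ))) (hdisj : ∀ i j, i ≠ j → ∀ x ∈ B i, x ∉ B j)
    (hadj : ∀ i j, i ≠ j → EAdj latt (B i : Set (ℕ × ℕ)) (B j)) : False := by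
  classical
  -- selected edges
  have hadj' : ∀ i j, ∃ a b, i ≠ j → a ∈ B i ∧ b ∈ B j ∧ latt.Adj a b := by
    intro i j
    by_cases h : i = j
    · exact ⟨(0, 0), (0, 0), fun h' => absurd h h'⟩
    · obtain ⟨a, ha, b, hb, hab⟩ := hadj i j h
      exact ⟨a, b, fun _ => ⟨ha, hb, hab⟩⟩
  choose a b hab using hadj'
  obtain ⟨s, hs⟩ : ∃ s : Fin 5 → Fin 5 → ℕ × ℕ, ∀ i j, i ≠ j →
      s i j ∈ B i ∧ latt.Adj (s i j) (s j i) := by
    refine ⟨fun i j => if i < j then a i j else b j i, fun i j hij => ?_⟩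
    rcases lt_or_gt_of_ne hij with h | h
    · simp only [h, if_true, h.asymm, if_false]
      exact ⟨(hab i j hij).1, (hab i j hij).2.2⟩
    · simp only [h, if_true, h.asymm, if_false]
      exact ⟨(hab j i hij.symm).2.1, (hab j i hij.symm).2.2.symm⟩
  have hsB : ∀ i j, i ≠ j → s i j ∈ B i := fun i j h => (hs i j h).1
  have hsA : ∀ i j, i ≠ j → latt.Adj (s i j) (s j i) := fun i j h => (hs i j h).2
  have huniq : ∀ i j x, x ∈ B i → x ∈ B j → i = j := by
    intro i j x hi hj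
    by_contra h
    exact hdisj i j h x hi hj
  let Bl : ℕ × ℕ → ℕ × ℕ → Prop := fun x y =>
    (∃ i, x ∈ B i ∧ y ∈ B i) ∨ ∃ i j, i ≠ j ∧ x = s i j ∧ y = s j i
  let Gt := {g : ℕ × ℕ → ZMod 2 // ∀ x y, latt.Adj x y → 1 ≤ x.1 → 1 ≤ x.2 →
    ¬ Bl x y → g (side1 x y) = g (side2 x y)}
  let ev : ℕ × ℕ → (Gt → ZMod 2) := fun p g => g.1 p
  let D : Fin 5 → Fin 5 → (Gt → ZMod 2) := fun i j =>
    ev (if i < j then side1 (s i j) (s j i) else side2 (s i j) (s j i))
  have hD : ∀ (χ : (Gt → ZMod 2) → ZMod 2) i j, i ≠ j → χ (D i j) + χ (D j i) =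
      χ (ev (side1 (s i j) (s j i))) + χ (ev (side2 (s i j) (s j i))) := by
    intro χ i j hij
    rcases lt_or_gt_of_ne hij with h | h
    · simp only [D, h, if_true, h.asymm, if_false]
      rw [side2_comm (s j i)]
    · simp only [D, h, if_true, h.asymm, if_false]
      rw [side1_comm (s j i), add_comm]
  refine no_dual D ?_ ?_
  · -- parity
    intro χ i
    let g : ℕ × ℕ → ZMod 2 := fun p => χ (ev p)
    have hg : ∀ x y, latt.Adj x y → 1 ≤ x.1 → 1 ≤ x.2 →
        ¬ Bl x y → g (side1 x y) = g (side2 x y) := by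
      intro x y h h1 h2 h5
      simp only [g]
      congr 1
      funext G
      exact G.2 x y h h1 h2 h5
    have e1 : ∑ x ∈ B i, ∑ y ∈ bigBox n, cob g x y = 0 :=
      Finset.sum_eq_zero fun x hx => cob_even g (hB i x hx)
    have hsub : B i ⊆ bigBox n := fun x hx => (hB i x hx).mem
    have e2 : ∀ x, ∑ y ∈ bigBox n, cob g x y =
        ∑ y ∈ B i, cob g x y + ∑ y ∈ bigBox n \ B i, cob g x y := fun x => by
      rw [add_comm, Finset.sum_sdiff hsub]
    rw [Finset.sum_congr rfl fun x _ => e2 x, Finset.sum_add_distrib,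
      sum_symm (B i) (cob g) (cob_comm g) (fun x => by simp [cob]), zero_add,
      ← Finset.sum_product'] at e1
    rw [← e1, Finset.sum_congr rfl fun j hj => hD χ i j (Ne.symm (by simpa using hj))]
    have hinj : ∀ j ∈ univ.filter (· ≠ i), ∀ j' ∈ univ.filter (· ≠ i),
        (s i j, s j i) = (s i j', s j' i) → j = j' := by
      intro j hj j' hj' h
      have hj1 : j ≠ i := by simpa using hj
      have hj2 : j' ≠ i := by simpa using hj'
      have h2 : s j i = s j' i := (Prod.ext_iff.mp h).2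
      exact huniq j j' _ (hsB j i hj1) (h2 ▸ hsB j' i hj2)
    have e3 : ∑ p ∈ (univ.filter (· ≠ i)).image (fun j => (s i j, s j i)), cob g p.1 p.2 =
        ∑ j ∈ univ.filter (· ≠ i), cob g (s i j) (s j i) := Finset.sum_image hinj
    have e4 : ∀ j ∈ univ.filter (· ≠ i), cob g (s i j) (s j i) =
        χ (ev (side1 (s i j) (s j i))) + χ (ev (side2 (s i j) (s j i))) := by
      intro j hj
      have hj1 : j ≠ i := by simpa using hj
      simp only [cob, hsA i j hj1.symm, if_true, g]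
    rw [← Finset.sum_congr rfl e4, ← e3]
    apply Finset.sum_subset
    · intro p hp
      obtain ⟨j, hj, rfl⟩ := Finset.mem_image.mp hp
      have hj1 : j ≠ i := by simpa using hj
      rw [Finset.mem_product, Finset.mem_sdiff]
      exact ⟨hsB i j hj1.symm, (hB j _ (hsB j i hj1)).mem, hdisj j i hj1 _ (hsB j i hj1)⟩
    · rintro ⟨x, y⟩ hp hnp
      rw [Finset.mem_product, Finset.mem_sdiff] at hp
      simp only at hp
      simp only [cob]
      split_ifs with hxy
      · have hx0 := hB i x hp.1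
        rw [hg x y hxy hx0.1 hx0.2.2.1, CharTwo.add_self_eq_zero]
        rintro (⟨j, hxj, hyj⟩ | ⟨j, k, hjk, rfl, rfl⟩)
        · have := huniq i j x hp.1 hxj
          subst this
          exact hp.2.2 hyj
        · have := huniq i j _ hp.1 (hsB j k hjk)
          subst this
          exact hnp (Finset.mem_image.mpr ⟨k, by simpa using hjk.symm, rfl⟩)
      · rfl
  · -- triangles
    intro i j k hij hjk hki
    obtain ⟨wi, hi1, hi2, hi3⟩ := exists_join (hcon i) (F := bigBox n)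
      (fun x hx => (hB i x hx).mem) (hsB i j hij) (hsB i k hki.symm)
    obtain ⟨wj, hj1, hj2, hj3⟩ := exists_join (hcon j) (F := bigBox n)
      (fun x hx => (hB j x hx).mem) (hsB j i hij.symm) (hsB j k hjk)
    obtain ⟨wk, hk1, hk2, hk3⟩ := exists_join (hcon k) (F := bigBox n)
      (fun x hx => (hB k x hx).mem) (hsB k i hki) (hsB k j hjk.symm)
    let w : ℕ × ℕ → ℕ × ℕ → ZMod 2 := fun x y => el (s i j) (s j i) x y + el (s j k) (s k j) x y +
      el (s k i) (s i k) x y + (wi x y + wj x y + wk x y)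
    have hel : ∀ i j, i ≠ j → ∀ x y, el (s i j) (s j i) x y ≠ 0 →
        latt.Adj x y ∧ box n x ∧ box n y ∧ Bl x y := by
      intro i j hij x y h
      simp only [el, ne_eq, ite_eq_right_iff, one_ne_zero, imp_false, not_not] at h
      rcases h with ⟨rfl, rfl⟩ | ⟨rfl, rfl⟩
      · exact ⟨hsA i j hij, hB _ _ (hsB i j hij), hB _ _ (hsB j i hij.symm),
          Or.inr ⟨i, j, hij, rfl, rfl⟩⟩
      · exact ⟨(hsA i j hij).symm, hB _ _ (hsB j i hij.symm), hB _ _ (hsB i j hij),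
          Or.inr ⟨j, i, hij.symm, rfl, rfl⟩⟩
    have hint : ∀ (i : Fin 5) (w : ℕ × ℕ → ℕ × ℕ → ZMod 2), (∀ x y, w x y ≠ 0 → latt.Adj x y ∧
        x ∈ (B i : Set (ℕ × ℕ)) ∧ y ∈ (B i : Set (ℕ × ℕ))) → ∀ x y, w x y ≠ 0 →
        latt.Adj x y ∧ box n x ∧ box n y ∧ Bl x y := by
      intro i w hw x y h
      obtain ⟨h1, h2, h3⟩ := hw x y h
      exact ⟨h1, hB i _ h2, hB i _ h3, Or.inl ⟨i, h2, h3⟩⟩
    have hsup : ∀ x y, w x y ≠ 0 → latt.Adj x y ∧ box n x ∧ box n y ∧ Bl x y := by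
      intro x y h
      by_contra hcon
      apply h
      have e1 : el (s i j) (s j i) x y = 0 := by
        by_contra h'; exact hcon (hel _ _ hij _ _ h')
      have e2 : el (s j k) (s k j) x y = 0 := by
        by_contra h'; exact hcon (hel _ _ hjk _ _ h')
      have e3 : el (s k i) (s i k) x y = 0 := by
        by_contra h'; exact hcon (hel _ _ hki _ _ h')
      have e4 : wi x y = 0 := by
        by_contra h'; exact hcon (hint i wi hi2 _ _ h')
      have e5 : wj x y = 0 := by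
        by_contra h'; exact hcon (hint j wj hj2 _ _ h')
      have e6 : wk x y = 0 := by
        by_contra h'; exact hcon (hint k wk hk2 _ _ h')
      simp only [w, e1, e2, e3, e4, e5, e6, add_zero]
    have hmem : ∀ i j, i ≠ j → s i j ∈ bigBox n := fun i j h => (hB i _ (hsB i j h)).mem
    have two : ∀ t : ZMod 2, t + t = 0 := CharTwo.add_self_eq_zero
    obtain ⟨g, hg⟩ := potential (n := n) w (by
      intro x y
      simp only [w]
      rw [el_comm, el_comm (s j k), el_comm (s k i), hi1, hj1, hk1])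
      (fun x y h => ⟨(hsup x y h).1, (hsup x y h).2.1, (hsup x y h).2.2.1⟩) (by
      intro x
      simp only [w]
      rw [Finset.sum_add_distrib, Finset.sum_add_distrib, Finset.sum_add_distrib,
        Finset.sum_add_distrib, Finset.sum_add_distrib, hi3, hj3, hk3,
        sum_el (hsA i j hij).ne (hmem _ _ hij) (hmem _ _ hij.symm),
        sum_el (hsA j k hjk).ne (hmem _ _ hjk) (hmem _ _ hjk.symm),
        sum_el (hsA k i hki).ne (hmem _ _ hki) (hmem _ _ hki.symm)]
      linear_combination two (if x = s i j then 1 else 0) + two (if x = s j i then 1 else 0) +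
        two (if x = s j k then 1 else 0) + two (if x = s k j then 1 else 0) +
        two (if x = s k i then 1 else 0) + two (if x = s i k then 1 else 0))
    have hgG : ∀ x y, latt.Adj x y → 1 ≤ x.1 → 1 ≤ x.2 →
        ¬ Bl x y → g (side1 x y) = g (side2 x y) := by
      intro x y h h1 h2 h5
      have := hg x y h h1 h2
      have hw0 : w x y = 0 := by
        by_contra h'
        exact h5 (hsup x y h').2.2.2
      rw [hw0] at this
      exact CharTwo.add_eq_zero.mp this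
    refine ⟨fun c => c ⟨g, hgG⟩, fun x y hxy => ?_⟩
    rw [hD (fun c => c ⟨g, hgG⟩) x y hxy]
    have hbx := hB x _ (hsB x y hxy)
    have h1 := hg (s x y) (s y x) (hsA x y hxy) hbx.1 hbx.2.2.1
    refine Eq.trans h1 ?_
    have hw : ∀ (i : Fin 5) (w : ℕ × ℕ → ℕ × ℕ → ZMod 2), (∀ x y, w x y ≠ 0 → latt.Adj x y ∧
        x ∈ (B i : Set (ℕ × ℕ)) ∧ y ∈ (B i : Set (ℕ × ℕ))) → w (s x y) (s y x) = 0 := by
      intro i w hw
      by_contra h
      obtain ⟨-, h2, h3⟩ := hw _ _ h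
      exact hxy ((huniq x i _ (hsB x y hxy) h2).trans (huniq y i _ (hsB y x hxy.symm) h3).symm)
    have hel' : ∀ i j, i ≠ j → el (s i j) (s j i) (s x y) (s y x) = el i j x y := by
      intro i j hij
      simp only [el]
      congr 1
      simp only [eq_iff_iff]
      constructor
      · rintro (⟨h1, h2⟩ | ⟨h1, h2⟩)
        · exact Or.inl ⟨huniq _ _ _ (hsB x y hxy) (h1 ▸ hsB i j hij),
            huniq _ _ _ (hsB y x hxy.symm) (h2 ▸ hsB j i hij.symm)⟩
        · exact Or.inr ⟨huniq _ _ _ (hsB x y hxy) (h1 ▸ hsB j i hij.symm),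
            huniq _ _ _ (hsB y x hxy.symm) (h2 ▸ hsB i j hij)⟩
      · rintro (⟨rfl, rfl⟩ | ⟨rfl, rfl⟩)
        · exact Or.inl ⟨rfl, rfl⟩
        · exact Or.inr ⟨rfl, rfl⟩
    simp only [w]
    rw [hel' i j hij, hel' j k hjk, hel' k i hki, hw i wi hi2, hw j wj hj2, hw k wk hk2]
    ring

end Pool.Agent.Work.MP_80fcda_co
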