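import Pool.Agent.Work.MP_80fcda_co.FamA

/-!
# The grid has no `K₅` minor
-/

set_option autoImplicit false

namespace Pool.Agent.Work.MP_80fcda_co

open Set Finset

/-- The elementary flow along a pair. -/
def el {V : Type} [DecidableEq V] (u v x y : V) : ZMod 2 :=
  if (x = u ∧ y = v) ∨ (x = v ∧ y = u) then 1 else 0

theorem el_comm {V : Type} [DecidableEq V] (u v x y : V) : el u v x y = el u v y x := by
  simp only [el]
  congr 1
  simp only [eq_iff_iff]
  tauto

theorem sum_el {V : Type} [DecidableEq V] {F : Finset V} {u v : V} (huv : u ≠ v) (hu : u ∈ F)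
    (hv : v ∈ F) (x : V) :
    ∑ y ∈ F, el u v x y = (if x = u then 1 else 0) + (if x = v then 1 else 0) := by
  by_cases h1 : x = u
  · subst h1
    rw [Finset.sum_eq_single v]
    · simp [el, huv]
    · intro b _ hb
      simp [el, hb, huv]
    · intro h; exact absurd hv h
  · by_cases h2 : x = v
    · subst h2
      rw [Finset.sum_eq_single u]
      · simp [el, h1]
      · intro b _ hb
        simp [el, hb, h1]
      · intro h; exact absurd hu h
    · simp [el, h1, h2]

theorem exists_join {V : Type} [DecidableEq V] {G : SimpleGraph V} {A : Set V} (hA : Con G A)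
    {F : Finset V} (hF : A ⊆ F) {u v : V} (hu : u ∈ A) (hv : v ∈ A) :
    ∃ w : V → V → ZMod 2, (∀ x y, w x y = w y x) ∧
      (∀ x y, w x y ≠ 0 → G.Adj x y ∧ x ∈ A ∧ y ∈ A) ∧
      ∀ x, ∑ y ∈ F, w x y = (if x = u then 1 else 0) + (if x = v then 1 else 0) := by
  let S : Set V := {v | v ∈ A ∧ ∃ w : V → V → ZMod 2, (∀ x y, w x y = w y x) ∧
      (∀ x y, w x y ≠ 0 → G.Adj x y ∧ x ∈ A ∧ y ∈ A) ∧
      ∀ x, ∑ y ∈ F, w x y = (if x = u then 1 else 0) + (if x = v then 1 else 0)}
  have hS : A ⊆ S := by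
    refine hA.2 S (fun x hx => hx.1) ⟨u, hu, fun _ _ => 0, fun _ _ => rfl, ?_, ?_⟩ ?_
    · intro x y h; exact absurd rfl h
    · intro x
      rw [CharTwo.add_self_eq_zero]
      simp
    · rintro v ⟨hv, w, h1, h2, h3⟩ v' hv' hvv'
      refine ⟨hv', fun x y => w x y + el v v' x y, ?_, ?_, ?_⟩
      · intro x y
        show w x y + el v v' x y = w y x + el v v' y x
        rw [h1, el_comm]
      · intro x y hne
        replace hne : w x y + el v v' x y ≠ 0 := hne
        by_cases h : w x y = 0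
        · rw [h, zero_add] at hne
          simp only [el, ne_eq, ite_eq_right_iff, one_ne_zero, imp_false, not_not] at hne
          rcases hne with ⟨rfl, rfl⟩ | ⟨rfl, rfl⟩
          · exact ⟨hvv', hv, hv'⟩
          · exact ⟨hvv'.symm, hv', hv⟩
        · exact h2 x y h
      · intro x
        rw [Finset.sum_add_distrib, h3, sum_el hvv'.ne (hF hv) (hF hv')]
        have : ((if x = v then 1 else 0 : ZMod 2)) + (if x = v then 1 else 0) = 0 :=
          CharTwo.add_self_eq_zero _
        linear_combination this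
  exact (hS hv).2

theorem third : ∀ a b : Fin 5, ∃ k : Fin 5, k ≠ a ∧ k ≠ b := by decide

theorem el_order {a b j k : Fin 5} (ha : 0 < a) (hab : a < b) (hj : 0 < j) (hjk : j < k) :
    el 0 j a b + el j k a b + el k 0 a b = if a = j ∧ b = k then 1 else 0 := by
  have ha' : a ≠ 0 := ha.ne'
  have hb' : b ≠ 0 := (ha.trans hab).ne'
  have h3 : ¬ (a = k ∧ b = j) := by
    rintro ⟨rfl, rfl⟩
    exact absurd hab hjk.asymm
  simp [el, ha', hb', h3]

theorem card_Dt : (Finset.univ.filter fun p : Fin 5 × Fin 5 => p.1 ≠ p.2).card = 20 := by decide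

theorem card_Q : Fintype.card {p : Fin 5 × Fin 5 // 0 < p.1 ∧ p.1 < p.2} = 6 := by decide

set_option maxHeartbeats 400000 in
/-- The combinatorial core: `K₅` has no planar dual. -/
theorem no_dual {C : Type} (D : Fin 5 → Fin 5 → C)
    (h1 : ∀ χ : C → ZMod 2, ∀ i, ∑ j ∈ univ.filter (· ≠ i), (χ (D i j) + χ (D j i)) = 0)
    (h2 : ∀ i j k : Fin 5, i ≠ j → j ≠ k → k ≠ i → ∃ g : C → ZMod 2, ∀ a b, a ≠ b →
      g (D a b) + g (D b a) = el i j a b + el j k a b + el k i a b) : False := by
  classical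
  obtain ⟨Dt, hDt, hDm⟩ : ∃ Dt : Finset (Fin 5 × Fin 5), Dt.card = 20 ∧
      ∀ a b, (a, b) ∈ Dt ↔ a ≠ b := ⟨_, card_Dt, fun a b => by simp⟩
  obtain ⟨N, hNdef⟩ : ∃ N : Finset C, N = Dt.image fun p => D p.1 p.2 := ⟨_, rfl⟩
  have hN : ∀ a b, a ≠ b → D a b ∈ N := fun a b hab => by
    rw [hNdef]
    exact Finset.mem_image.mpr ⟨(a, b), (hDm a b).mpr hab, rfl⟩
  -- sides of an edge are different
  have hside : ∀ a b, a ≠ b → D a b ≠ D b a := by
    intro a b hab heq
    obtain ⟨k, hk1, hk2⟩ := third a b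
    obtain ⟨g, hg⟩ := h2 a b k hab hk2.symm hk1
    have := hg a b hab
    rw [heq, CharTwo.add_self_eq_zero] at this
    simp only [el] at this
    simp [hk1.symm, hk2.symm, hab, hab.symm] at this
  -- lower bound on degrees
  have hdeg : ∀ c ∈ N, 3 ≤ (Dt.filter fun p => D p.1 p.2 = c).card := by
    intro c hc
    rw [hNdef] at hc
    obtain ⟨⟨i, j⟩, hij, rfl⟩ := Finset.mem_image.mp hc
    have hij' : i ≠ j := (hDm i j).mp hij
    let b : Fin 5 → Fin 5 → ZMod 2 := fun x y =>
      (if D x y = D i j then 1 else 0) + (if D y x = D i j then 1 else 0)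
    have hb : ∀ x, ∑ y ∈ univ.filter (· ≠ x), b x y = 0 := fun x =>
      h1 (fun d => if d = D i j then 1 else 0) x
    have hbij : b i j = 1 := by
      simp [b, (hside i j hij').symm]
    have hbc : ∀ x y, b x y = b y x := fun x y => add_comm _ _
    have hex : ∀ x y, x ≠ y → b x y = 1 → ∃ z, z ≠ x ∧ z ≠ y ∧ b x z = 1 := by
      intro x y hxy hxy1
      by_contra hcon
      push Not at hcon
      have h := hb x
      rw [Finset.sum_eq_single y] at h
      · rw [hxy1] at h; exact one_ne_zero h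
      · intro z hz hzy
        have := hcon z (by simpa using hz) hzy
        generalize b x z = t at this ⊢
        revert this; revert t; decide
      · intro h'
        exfalso; apply h'; simpa using hxy.symm
    obtain ⟨k, hki, hkj, hk⟩ := hex i j hij' hbij
    obtain ⟨l, hlj, hli, hl⟩ := hex j i hij'.symm (by rw [hbc]; exact hbij)
    have hd : ∀ x y, x ≠ y → b x y = 1 → ∃ p ∈ Dt.filter (fun p => D p.1 p.2 = D i j),
        p = (x, y) ∨ p = (y, x) := by
      intro x y hxy hb1
      by_cases h : D x y = D i j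
      · exact ⟨(x, y), Finset.mem_filter.mpr ⟨(hDm x y).mpr hxy, h⟩, Or.inl rfl⟩
      · by_cases h' : D y x = D i j
        · exact ⟨(y, x), Finset.mem_filter.mpr ⟨(hDm y x).mpr hxy.symm, h'⟩, Or.inr rfl⟩
        · simp [b, h, h'] at hb1
    obtain ⟨p, hp, hp'⟩ := hd i j hij' hbij
    obtain ⟨q, hq, hq'⟩ := hd i k hki.symm hk
    obtain ⟨r, hr, hr'⟩ := hd j l hlj.symm hl
    have hpq : p ≠ q := by
      rintro rfl
      rcases hp' with h | h <;> rcases hq' with h' | h' <;> rw [h] at h' <;>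
        simp only [Prod.mk.injEq] at h'
      · exact hkj h'.2.symm
      · exact hki h'.1.symm
      · exact hki h'.2.symm
      · exact hkj h'.1.symm
    have hpr : p ≠ r := by
      rintro rfl
      rcases hp' with h | h <;> rcases hr' with h' | h' <;> rw [h] at h' <;>
        simp only [Prod.mk.injEq] at h'
      · exact hij' h'.1
      · exact hli h'.1.symm
      · exact hli h'.2.symm
      · exact hij' h'.2
    have hqr : q ≠ r := by
      rintro rfl
      rcases hq' with h | h <;> rcases hr' with h' | h' <;> rw [h] at h' <;>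
        simp only [Prod.mk.injEq] at h'
      · exact hij' h'.1
      · exact hkj h'.2
      · exact hkj h'.1
      · exact hij' h'.2
    have : ({p, q, r} : Finset (Fin 5 × Fin 5)) ⊆ Dt.filter (fun p => D p.1 p.2 = D i j) := by
      intro x hx
      simp only [Finset.mem_insert, Finset.mem_singleton] at hx
      rcases hx with rfl | rfl | rfl <;> assumption
    have := Finset.card_le_card this
    rwa [Finset.card_eq_three.mpr ⟨p, q, r, hpq, hpr, hqr, rfl⟩] at this
  have hsum : Dt.card = ∑ c ∈ N, (Dt.filter fun p => D p.1 p.2 = c).card := by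
    rw [hNdef]
    exact Finset.card_eq_sum_card_image _ _
  have hle : N.card * 3 ≤ 20 := by
    have := Finset.card_nsmul_le_sum N _ 3 hdeg
    rwa [smul_eq_mul, ← hsum, hDt] at this
  -- lower bound on the number of classes
  let Q := {p : Fin 5 × Fin 5 // 0 < p.1 ∧ p.1 < p.2}
  have hQ : Fintype.card Q = 6 := card_Q
  have h2' : ∀ q : Q, ∃ g : C → ZMod 2, ∀ a b, a ≠ b →
      g (D a b) + g (D b a) = el 0 q.1.1 a b + el q.1.1 q.1.2 a b + el q.1.2 0 a b := fun q =>
    h2 0 q.1.1 q.1.2 q.2.1.ne q.2.2.ne (q.2.1.trans q.2.2).ne'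
  choose g hg using h2'
  let Φ : (Q → ZMod 2) × ZMod 2 → (N → ZMod 2) := fun p c => ∑ q, p.1 q * g q c.1 + p.2
  have hval : ∀ (p : (Q → ZMod 2) × ZMod 2) (q : Q),
      Φ p ⟨D q.1.1 q.1.2, hN _ _ q.2.2.ne⟩ + Φ p ⟨D q.1.2 q.1.1, hN _ _ q.2.2.ne'⟩ = p.1 q := by
    intro p q
    have e1 : ∀ q' : Q, p.1 q' * g q' (D q.1.1 q.1.2) + p.1 q' * g q' (D q.1.2 q.1.1) =
        if q' = q then p.1 q' else 0 := by
      intro q'
      rw [← mul_add, hg q' _ _ q.2.2.ne]
      have : el 0 q'.1.1 q.1.1 q.1.2 + el q'.1.1 q'.1.2 q.1.1 q.1.2 + el q'.1.2 0 q.1.1 q.1.2 =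
          if q' = q then 1 else 0 := by
        rw [el_order q.2.1 q.2.2 q'.2.1 q'.2.2]
        congr 1
        rw [Subtype.ext_iff, Prod.ext_iff]
        simp only [eq_iff_iff]
        constructor
        · rintro ⟨h, h'⟩; exact ⟨h.symm, h'.symm⟩
        · rintro ⟨h, h'⟩; exact ⟨h.symm, h'.symm⟩
      rw [this]
      split_ifs <;> simp
    have : Φ p ⟨D q.1.1 q.1.2, hN _ _ q.2.2.ne⟩ + Φ p ⟨D q.1.2 q.1.1, hN _ _ q.2.2.ne'⟩ =
        ∑ q', (p.1 q' * g q' (D q.1.1 q.1.2) + p.1 q' * g q' (D q.1.2 q.1.1)) := by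
      simp only [Φ]
      rw [Finset.sum_add_distrib]
      have : p.2 + p.2 = 0 := CharTwo.add_self_eq_zero _
      linear_combination this
    rw [this, Finset.sum_congr rfl fun q' _ => e1 q']
    rw [Finset.sum_ite_eq']
    simp
  have hinj : Function.Injective Φ := by
    intro p p' hpp
    have e1 : p.1 = p'.1 := by
      funext q
      rw [← hval, ← hval, hpp]
    have e2 : p.2 = p'.2 := by
      have := congrFun hpp ⟨D 0 1, hN _ _ (by decide)⟩
      simp only [Φ, e1] at this
      exact add_left_cancel this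
    exact Prod.ext e1 e2
  have hcard := Fintype.card_le_of_injective Φ hinj
  rw [Fintype.card_prod, Fintype.card_fun, Fintype.card_fun, hQ, ZMod.card,
    Fintype.card_coe] at hcard
  have : 2 ^ 7 ≤ 2 ^ N.card := by simpa using hcard
  have : 7 ≤ N.card := (Nat.pow_le_pow_iff_right (by norm_num)).mp this
  omega

end Pool.Agent.Work.MP_80fcda_co
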