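import Pool.Agent.Work.MP_80fcda_co.Model

/-!
# A lower bound criterion for clique-width
-/

set_option autoImplicit false

namespace Pool.Agent.Work.MP_80fcda_co

open Set

variable {V : Type}

/-- The vertices of `A` see at most `k` different neighbourhoods outside `A`. -/
def LDiv (G : SimpleGraph V) (k : ℕ) (A : Set V) : Prop :=
  ∃ c : A → Fin k, ∀ x y : A, c x = c y → ∀ v ∉ A, (G.Adj x v ↔ G.Adj y v)

/-- The invariant for subexpressions. -/
def Good {k : ℕ} (G : SimpleGraph V) (s : KExpr k) (f : s.Vert → V) : Prop :=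
  Function.Injective f ∧
  (∃ R : Fin k → Fin k → Prop, ∀ x y, x ≠ y →
    (G.Adj (f x) (f y) ↔ s.graph.Adj x y ∨ R (s.label x) (s.label y))) ∧
  ∀ x y, s.label x = s.label y → ∀ v ∉ range f, (G.Adj (f x) v ↔ G.Adj (f y) v)

theorem Good.ldiv {k : ℕ} {G : SimpleGraph V} {s : KExpr k} {f : s.Vert → V} (h : Good G s f) :
    LDiv G k (range f) := by
  choose g hg using fun x : range f => x.2
  refine ⟨fun x => s.label (g x), fun x y hxy v hv => ?_⟩
  have := h.2.2 (g x) (g y) hxy v hv
  rwa [hg, hg] at this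

theorem Good.exists_ldiv {k : ℕ} [Finite V] (G : SimpleGraph V) (S : Set V) (m : ℕ) (hm : 1 ≤ m) :
    ∀ (s : KExpr k) (f : s.Vert → V), Good G s f → m < (range f ∩ S).ncard →
      ∃ A : Set V, m < (A ∩ S).ncard ∧ (A ∩ S).ncard ≤ 2 * m ∧ LDiv G k A := by
  intro s
  induction s with
  | vertex i =>
    intro f hf hlt
    exfalso
    have h1 : (range f ∩ S).ncard ≤ 1 := by
      refine (ncard_le_ncard inter_subset_left (toFinite _)).trans ?_
      rw [Set.ncard_le_one (toFinite _)]
      rintro _ ⟨x, rfl⟩ _ ⟨y, rfl⟩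
      rfl
    omega
  | union s t ihs iht =>
    intro f hf hlt
    by_cases hle : (range f ∩ S).ncard ≤ 2 * m
    · exact ⟨range f, hlt, hle, hf.ldiv⟩
    · obtain ⟨hinj, ⟨R, hR⟩, hout⟩ := hf
      have hr : range f = range (fun x => f (Sum.inl x)) ∪ range (fun x => f (Sum.inr x)) := by
        ext v
        constructor
        · rintro ⟨x | x, rfl⟩
          · exact Or.inl ⟨x, rfl⟩
          · exact Or.inr ⟨x, rfl⟩
        · rintro (⟨x, rfl⟩ | ⟨x, rfl⟩) <;> exact ⟨_, rfl⟩
      have hcard : (range f ∩ S).ncard ≤ (range (fun x => f (Sum.inl x)) ∩ S).ncard +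
          (range (fun x => f (Sum.inr x)) ∩ S).ncard := by
        rw [hr, union_inter_distrib_right]
        exact ncard_union_le _ _
      have hsum : m < (range (fun x => f (Sum.inl x)) ∩ S).ncard ∨
          m < (range (fun x => f (Sum.inr x)) ∩ S).ncard := by omega
      rcases hsum with h | h
      · refine ihs _ ⟨fun x y hxy => Sum.inl_injective (hinj hxy), ⟨R, fun x y hxy => ?_⟩, ?_⟩ h
        · exact hR (Sum.inl x) (Sum.inl y) (fun h => hxy (Sum.inl_injective h))
        · intro x y hxy v hv
          by_cases hv' : v ∈ range f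
          · rw [hr] at hv'
            rcases hv' with hv' | ⟨z, rfl⟩
            · exact absurd hv' hv
            · have e1 := hR (Sum.inl x) (Sum.inr z) (by simp)
              have e2 := hR (Sum.inl y) (Sum.inr z) (by simp)
              simp only [KExpr.graph, KExpr.label] at e1 e2
              rw [e1, e2, hxy]
              exact Iff.rfl
          · exact hout (Sum.inl x) (Sum.inl y) hxy v hv'
      · refine iht _ ⟨fun x y hxy => Sum.inr_injective (hinj hxy), ⟨R, fun x y hxy => ?_⟩, ?_⟩ h
        · exact hR (Sum.inr x) (Sum.inr y) (fun h => hxy (Sum.inr_injective h))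
        · intro x y hxy v hv
          by_cases hv' : v ∈ range f
          · rw [hr] at hv'
            rcases hv' with ⟨z, rfl⟩ | hv'
            · have e1 := hR (Sum.inr x) (Sum.inl z) (by simp)
              have e2 := hR (Sum.inr y) (Sum.inl z) (by simp)
              simp only [KExpr.graph, KExpr.label] at e1 e2
              rw [e1, e2, hxy]
              exact Iff.rfl
            · exact absurd hv' hv
          · exact hout (Sum.inr x) (Sum.inr y) hxy v hv'
  | join i j hij s ih =>
    intro f hf hlt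
    obtain ⟨hinj, ⟨R, hR⟩, hout⟩ := hf
    refine ih f ⟨hinj, ⟨fun a b => R a b ∨ (a = i ∧ b = j) ∨ (b = i ∧ a = j),
      fun x y hxy => ?_⟩, hout⟩ hlt
    have := hR x y hxy
    simp only [KExpr.graph, KExpr.label, SimpleGraph.sup_adj, SimpleGraph.fromRel_adj] at this
    rw [this]
    tauto
  | relabel i j s ih =>
    intro f hf hlt
    obtain ⟨hinj, ⟨R, hR⟩, hout⟩ := hf
    refine ih f ⟨hinj, ⟨fun a b => R (if a = i then j else a) (if b = i then j else b),
      fun x y hxy => ?_⟩, fun x y hxy v hv => hout x y ?_ v hv⟩ hlt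
    · exact hR x y hxy
    · simp only [KExpr.label, hxy]

theorem exists_ldiv_of_expr {k : ℕ} [Finite V] {G : SimpleGraph V} {e : KExpr k}
    (he : Nonempty (e.graph ≃g G)) (S : Set V) (m : ℕ) (hm : 1 ≤ m) (hS : m < S.ncard) :
    ∃ A : Set V, m < (A ∩ S).ncard ∧ (A ∩ S).ncard ≤ 2 * m ∧ LDiv G k A := by
  obtain ⟨f⟩ := he
  have hr : range (f : e.Vert → V) = univ := f.surjective.range_eq
  refine Good.exists_ldiv G S m hm e f ⟨f.injective, ⟨fun _ _ => False, fun x y _ => ?_⟩, ?_⟩ ?_
  · rw [or_false]
    exact f.map_adj_iff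
  · intro x y _ v hv
    rw [hr] at hv
    exact absurd (mem_univ v) hv
  · rw [hr, univ_inter]; exact hS

end Pool.Agent.Work.MP_80fcda_co
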