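import Pool.Agent.Work.MP_80fcda_co.Model

/-!
# Two disjoint connections, and rooted triangles
-/

set_option autoImplicit false

namespace Pool.Agent.Work.MP_80fcda_co

open Set

variable {V : Type} {G : SimpleGraph V}

/-- `v` separates `P` from `Q` in `A`. -/
def Sep (G : SimpleGraph V) (A P Q : Set V) (v : V) : Prop :=
  ∀ D ⊆ A \ {v}, Con G D → (D ∩ P).Nonempty → (D ∩ Q).Nonempty → False

/-- The part of `A` reachable from `P`. -/
def reachP (G : SimpleGraph V) (A P : Set V) : Set V :=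
  {x | ∃ D ⊆ A, Con G D ∧ x ∈ D ∧ (D ∩ P).Nonempty}

theorem reachP_subset {A P : Set V} : reachP G A P ⊆ A := by
  rintro x ⟨D, hD, -, hx, -⟩
  exact hD hx

theorem menger_aux {A P Q : Set V} {v w s : V}
    (hQ : ∀ q ∈ Q, q ∉ reachP G (A \ {v, w}) P)
    (hs : Sep G (insert v (insert w (reachP G (A \ {v, w}) P))) P {v, w} s) :
    Sep G A P Q s := by
  rintro D hDA hD ⟨p, hpD, hpP⟩ ⟨q, hqD, hqQ⟩
  by_cases hpv : p ∈ ({v, w} : Set V)
  · refine hs {p} ?_ (con_singleton p) ⟨p, rfl, hpP⟩ ⟨p, rfl, hpv⟩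
    rintro x rfl
    refine ⟨?_, (hDA hpD).2⟩
    rcases hpv with rfl | rfl
    · exact Or.inl rfl
    · exact Or.inr (Or.inl rfl)
  · obtain ⟨K, hK, hpK⟩ := exists_comp (G := G) (A := D \ {v, w}) (v := p) ⟨hpD, hpv⟩
    have hKr : K ⊆ reachP G (A \ {v, w}) P := by
      intro x hx
      exact ⟨K, fun y hy => ⟨(hDA (hK.subset hy).1).1, (hK.subset hy).2⟩, hK.con, hx, p, hpK, hpP⟩
    have hqK : q ∉ K := fun h => hQ q hqQ (hKr h)
    obtain ⟨a, ha, b, hb, hab⟩ := hD.exists_edge (hK.subset.trans sdiff_subset) hK.con.1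
      ⟨q, hqD, hqK⟩
    have hbvw : b ∈ ({v, w} : Set V) := by
      by_contra hcon
      exact hb.2 (hK.closed a ha b ⟨hb.1, hcon⟩ hab)
    refine hs (K ∪ {b}) ?_ (hK.con.union (con_singleton b) ⟨a, ha, b, rfl, hab⟩)
      ⟨p, Or.inl hpK, hpP⟩ ⟨b, Or.inr rfl, hbvw⟩
    rintro x (hx | rfl)
    · exact ⟨Or.inr (Or.inr (hKr hx)), (hDA (hK.subset hx).1).2⟩
    · refine ⟨?_, (hDA hb.1).2⟩
      rcases hbvw with rfl | rfl
      · exact Or.inl rfl
      · exact Or.inr (Or.inl rfl)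

theorem Sep.symm {A P Q : Set V} {v : V} (h : Sep G A P Q v) : Sep G A Q P v :=
  fun D hD hc h1 h2 => h D hD hc h2 h1

/-- Two disjoint connected sets joining `P` and `Q` inside `A`. -/
def TwoLinks (G : SimpleGraph V) (A P Q : Set V) : Prop :=
  ∃ X Y : Set V, X ⊆ A ∧ Y ⊆ A ∧ Disjoint X Y ∧ Con G X ∧ Con G Y ∧
    (X ∩ P).Nonempty ∧ (X ∩ Q).Nonempty ∧ (Y ∩ P).Nonempty ∧ (Y ∩ Q).Nonempty

theorem menger2 [Finite V] [Nonempty V] : ∀ (n : ℕ) (A P Q : Set V), A.ncard = n → P ⊆ A →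
    Q ⊆ A → (∃ v, Sep G A P Q v) ∨ TwoLinks G A P Q := by
  intro n
  induction n using Nat.strong_induction_on with
  | _ n ih =>
    intro A P Q hn hP hQ
    by_cases hw : ∃ w ∈ A, w ∉ P ∧ w ∉ Q
    · obtain ⟨w, hwA, hwP, hwQ⟩ := hw
      have hlt : (A \ {w}).ncard < n := by
        rw [← hn]
        exact ncard_lt_ncard ⟨sdiff_subset, fun h => (h hwA).2 rfl⟩ (toFinite _)
      rcases ih _ hlt (A \ {w}) P Q rfl (fun x hx => ⟨hP hx, fun h => hwP (h ▸ hx)⟩)
        (fun x hx => ⟨hQ hx, fun h => hwQ (h ▸ hx)⟩) with ⟨v, hv⟩ | ⟨X, Y, hX, hY, h⟩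
      swap
      · exact Or.inr ⟨X, Y, hX.trans sdiff_subset, hY.trans sdiff_subset, h⟩
      by_cases hvA : v ∈ A ∧ v ≠ w
      swap
      · left
        refine ⟨w, fun D hD => hv D fun x hx => ⟨hD hx, ?_⟩⟩
        rintro rfl
        exact hvA ⟨(hD hx).1, (hD hx).2⟩
      obtain ⟨hvA, hvw⟩ := hvA
      by_cases hPv : P ⊆ {v}
      · left
        refine ⟨v, ?_⟩
        rintro D hD - ⟨p, hp, hpP⟩ -
        exact (hD hp).2 (hPv hpP)
      by_cases hQv : Q ⊆ {v}
      · left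
        refine ⟨v, ?_⟩
        rintro D hD - - ⟨p, hp, hpP⟩
        exact (hD hp).2 (hQv hpP)
      rw [not_subset] at hPv hQv
      obtain ⟨p, hp, hpv⟩ := hPv
      obtain ⟨q, hq, hqv⟩ := hQv
      have hpv' : p ≠ v := hpv
      have hqv' : q ≠ v := hqv
      have hmem : ∀ {R : Set V}, R ⊆ A → w ∉ R → ∀ x ∈ R, x ≠ v →
          x ∈ reachP G (A \ {v, w}) R := by
        intro R hR hwR x hx hxv
        refine ⟨{x}, ?_, con_singleton x, rfl, x, rfl, hx⟩
        rintro y rfl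
        refine ⟨hR hx, ?_⟩
        rintro (h | h)
        · exact hxv h
        · exact hwR (h ▸ hx)
      have hdisj : ∀ x, x ∈ reachP G (A \ {v, w}) P → x ∈ reachP G (A \ {v, w}) Q → False := by
        rintro x ⟨D, hD, hDc, hx, hDP⟩ ⟨D', hD', hDc', hx', hDQ⟩
        refine hv (D ∪ D') ?_ (hDc.union_inter hDc' ⟨x, hx, hx'⟩)
          (hDP.mono (inter_subset_inter_left _ subset_union_left))
          (hDQ.mono (inter_subset_inter_left _ subset_union_right))
        rintro y (hy | hy)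
        · have := hD hy
          exact ⟨⟨this.1, fun h => this.2 (Or.inr h)⟩, fun h => this.2 (Or.inl h)⟩
        · have := hD' hy
          exact ⟨⟨this.1, fun h => this.2 (Or.inr h)⟩, fun h => this.2 (Or.inl h)⟩
      have hselfP : ∀ x ∈ reachP G (A \ {v, w}) P, x ∈ Q → False := fun x hx hxQ => by
        have hxA := reachP_subset hx
        exact hdisj x hx (hmem hQ hwQ x hxQ fun h => hxA.2 (Or.inl h))
      have hselfQ : ∀ x ∈ reachP G (A \ {v, w}) Q, x ∈ P → False := fun x hx hxP => by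
        have hxA := reachP_subset hx
        exact hdisj x (hmem hP hwP x hxP fun h => hxA.2 (Or.inl h)) hx
      have hsub : ∀ R : Set V, insert v (insert w (reachP G (A \ {v, w}) R)) ⊆ A := by
        intro R x hx
        rcases hx with rfl | rfl | hx
        · exact hvA
        · exact hwA
        · exact (reachP_subset hx).1
      have hlt1 : (insert v (insert w (reachP G (A \ {v, w}) P))).ncard < n := by
        rw [← hn]
        refine ncard_lt_ncard ⟨hsub P, fun h => ?_⟩ (toFinite _)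
        rcases h (hQ hq) with h | h | h
        · exact hqv' h
        · exact hwQ (h ▸ hq)
        · exact hselfP q h hq
      have hlt2 : (insert v (insert w (reachP G (A \ {v, w}) Q))).ncard < n := by
        rw [← hn]
        refine ncard_lt_ncard ⟨hsub Q, fun h => ?_⟩ (toFinite _)
        rcases h (hP hp) with h | h | h
        · exact hpv' h
        · exact hwP (h ▸ hp)
        · exact hselfQ p h hp
      have hin : ∀ {R : Set V}, R ⊆ A → w ∉ R →
          R ⊆ insert v (insert w (reachP G (A \ {v, w}) R)) := by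
        intro R hR hwR x hx
        by_cases hxv : x = v
        · exact Or.inl hxv
        · exact Or.inr (Or.inr (hmem hR hwR x hx hxv))
      have hvw' : ∀ R : Set V, ({v, w} : Set V) ⊆
          insert v (insert w (reachP G (A \ {v, w}) R)) := by
        rintro R x (rfl | rfl)
        · exact Or.inl rfl
        · exact Or.inr (Or.inl rfl)
      -- normal form of two links to `{v, w}`
      have hnorm : ∀ {B R : Set V}, TwoLinks G B R {v, w} → ∃ X Y : Set V, X ⊆ B ∧ Y ⊆ B ∧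
          Disjoint X Y ∧ Con G X ∧ Con G Y ∧ (X ∩ R).Nonempty ∧ (Y ∩ R).Nonempty ∧ v ∈ X ∧
          w ∈ Y := by
        rintro B R ⟨X, Y, hX, hY, hd, hXc, hYc, h1, ⟨a, haX, ha⟩, h3, ⟨b, hbY, hb⟩⟩
        have hab : a ≠ b := fun h => Set.disjoint_left.mp hd haX (h ▸ hbY)
        rcases ha with ha | ha <;> rcases hb with hb | hb
        · exact absurd (ha.trans hb.symm) hab
        · exact ⟨X, Y, hX, hY, hd, hXc, hYc, h1, h3, ha ▸ haX, hb ▸ hbY⟩
        · exact ⟨Y, X, hY, hX, hd.symm, hYc, hXc, h3, h1, hb ▸ hbY, ha ▸ haX⟩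
        · exact absurd (ha.trans hb.symm) hab
      rcases ih _ hlt1 _ P {v, w} rfl (hin hP hwP) (hvw' P) with ⟨s, hs⟩ | hl1
      · exact Or.inl ⟨s, menger_aux (fun q' hq' h => hselfP q' h hq') hs⟩
      rcases ih _ hlt2 _ Q {v, w} rfl (hin hQ hwQ) (hvw' Q) with ⟨s, hs⟩ | hl2
      · exact Or.inl ⟨s, (menger_aux (fun p' hp' h => hselfQ p' h hp') hs).symm⟩
      obtain ⟨X1, Y1, hX1, hY1, hd1, hXc1, hYc1, hXP, hYP, hvX1, hwY1⟩ := hnorm hl1
      obtain ⟨X2, Y2, hX2, hY2, hd2, hXc2, hYc2, hXQ, hYQ, hvX2, hwY2⟩ := hnorm hl2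
      right
      refine ⟨X1 ∪ X2, Y1 ∪ Y2, union_subset (hX1.trans (hsub P)) (hX2.trans (hsub Q)),
        union_subset (hY1.trans (hsub P)) (hY2.trans (hsub Q)), ?_,
        hXc1.union_inter hXc2 ⟨v, hvX1, hvX2⟩, hYc1.union_inter hYc2 ⟨w, hwY1, hwY2⟩,
        hXP.mono (inter_subset_inter_left _ subset_union_left),
        hXQ.mono (inter_subset_inter_left _ subset_union_right),
        hYP.mono (inter_subset_inter_left _ subset_union_left),
        hYQ.mono (inter_subset_inter_left _ subset_union_right)⟩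
      rw [Set.disjoint_left]
      have hcross : ∀ x, x ∈ insert v (insert w (reachP G (A \ {v, w}) P)) →
          x ∈ insert v (insert w (reachP G (A \ {v, w}) Q)) → x = v ∨ x = w := by
        rintro x (h | h | h) (h' | h' | h')
        · exact Or.inl h
        · exact Or.inl h
        · exact Or.inl h
        · exact Or.inr h
        · exact Or.inr h
        · exact Or.inr h
        · exact Or.inl h'
        · exact Or.inr h'
        · exact (hdisj x h h').elim
      rintro x (hx | hx) (hy | hy)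
      · exact Set.disjoint_left.mp hd1 hx hy
      · rcases hcross x (hX1 hx) (hY2 hy) with rfl | rfl
        · exact Set.disjoint_left.mp hd2 hvX2 hy
        · exact Set.disjoint_left.mp hd1 hx hwY1
      · rcases hcross x (hY1 hy) (hX2 hx) with rfl | rfl
        · exact Set.disjoint_left.mp hd1 hvX1 hy
        · exact Set.disjoint_left.mp hd2 hx hwY2
      · exact Set.disjoint_left.mp hd2 hx hy
    · push Not at hw
      by_cases hPQ : ∃ p ∈ P, p ∈ Q
      · obtain ⟨p, hp, hq⟩ := hPQ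
        by_cases hsep : Sep G A P Q p
        · exact Or.inl ⟨p, hsep⟩
        · right
          simp only [Sep, not_forall] at hsep
          obtain ⟨D, hD, hDc, h1, h2, -⟩ := hsep
          refine ⟨{p}, D, by simpa using hP hp, hD.trans sdiff_subset, ?_, con_singleton p, hDc,
            ⟨p, rfl, hp⟩, ⟨p, rfl, hq⟩, h1, h2⟩
          rw [Set.disjoint_left]
          rintro x rfl hx
          exact (hD hx).2 rfl
      · push Not at hPQ
        have hedge : ∀ D ⊆ A, Con G D → (D ∩ P).Nonempty → (D ∩ Q).Nonempty →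
            ∃ p ∈ D ∩ P, ∃ q ∈ D ∩ Q, G.Adj p q := by
          intro D hDA hD h1 ⟨q, hqD, hqQ⟩
          obtain ⟨a, ha, b, hb, hab⟩ := hD.exists_edge (S := D ∩ P) inter_subset_left h1
            ⟨q, hqD, fun h => hPQ q h.2 hqQ⟩
          refine ⟨a, ha, b, ⟨hb.1, ?_⟩, hab⟩
          by_contra hbQ
          exact hbQ (hw b (hDA hb.1) fun hbP => hb.2 ⟨hb.1, hbP⟩)
        by_cases hex : ∃ p ∈ P, ∃ q ∈ Q, G.Adj p q
        · obtain ⟨p1, hp1, q1, hq1, h1⟩ := hex
          by_cases hs1 : Sep G A P Q p1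
          · exact Or.inl ⟨p1, hs1⟩
          by_cases hs2 : Sep G A P Q q1
          · exact Or.inl ⟨q1, hs2⟩
          right
          simp only [Sep, not_forall] at hs1 hs2
          obtain ⟨D1, hD1, hDc1, hP1, hQ1, -⟩ := hs1
          obtain ⟨D2, hD2, hDc2, hP2, hQ2, -⟩ := hs2
          obtain ⟨p2, hp2, q2, hq2, h2⟩ := hedge D1 (hD1.trans sdiff_subset) hDc1 hP1 hQ1
          obtain ⟨p3, hp3, q3, hq3, h3⟩ := hedge D2 (hD2.trans sdiff_subset) hDc2 hP2 hQ2
          have hp21 : p2 ≠ p1 := fun h => (hD1 hp2.1).2 h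
          have hq31 : q3 ≠ q1 := fun h => (hD2 hq3.1).2 h
          have hpq : ∀ {x y}, x ∈ P → y ∈ Q → x ≠ y := fun hx hy h => hPQ _ hx (h ▸ hy)
          have mk : ∀ {p q p' q' : V}, p ∈ P → q ∈ Q → p' ∈ P → q' ∈ Q → G.Adj p q →
              G.Adj p' q' → p ≠ p' → q ≠ q' → TwoLinks G A P Q := by
            intro p q p' q' hp hq hp' hq' h h' hne hne'
            refine ⟨{p} ∪ {q}, {p'} ∪ {q'}, ?_, ?_, ?_,
              (con_singleton p).union (con_singleton q) ⟨p, rfl, q, rfl, h⟩,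
              (con_singleton p').union (con_singleton q') ⟨p', rfl, q', rfl, h'⟩,
              ⟨p, Or.inl rfl, hp⟩, ⟨q, Or.inr rfl, hq⟩, ⟨p', Or.inl rfl, hp'⟩,
              ⟨q', Or.inr rfl, hq'⟩⟩
            · rintro x (rfl | rfl)
              · exact hP hp
              · exact hQ hq
            · rintro x (rfl | rfl)
              · exact hP hp'
              · exact hQ hq'
            · rw [Set.disjoint_left]
              rintro x (rfl | rfl) (h | h)
              · exact hne h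
              · exact hpq hp hq' h
              · exact hpq hp' hq h.symm
              · exact hne' h
          by_cases hq21 : q2 = q1
          · by_cases hp31 : p3 = p1
            · rw [hq21] at h2
              rw [hp31] at h3
              exact mk hp2.2 hq1 hp1 hq3.2 h2 h3 hp21 hq31.symm
            · exact mk hp1 hq1 hp3.2 hq3.2 h1 h3 (Ne.symm hp31) hq31.symm
          · exact mk hp1 hq1 hp2.2 hq2.2 h1 h2 hp21.symm (Ne.symm hq21)
        · left
          refine ⟨Classical.arbitrary V, fun D hD hDc h1 h2 => ?_⟩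
          obtain ⟨p, hp, q, hq, h⟩ := hedge D (hD.trans sdiff_subset) hDc h1 h2
          exact hex ⟨p, hp.2, q, hq.2, h⟩

/-- Two disjoint connected subsets extend to a partition into two connected sets. -/
theorem Con.extend {A X Y : Set V} (hA : Con G A) (hX : Con G X) (hY : Con G Y) (hXA : X ⊆ A)
    (hYA : Y ⊆ A) (hd : Disjoint X Y) : ∃ B C : Set V, B ∪ C = A ∧ Disjoint B C ∧ Con G B ∧
      Con G C ∧ EAdj G B C ∧ X ⊆ B ∧ Y ⊆ C := by
  obtain ⟨y, hy⟩ := hY.1
  obtain ⟨x, hx⟩ := hX.1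
  have hYd : Y ⊆ A \ X := fun z hz => ⟨hYA hz, fun h => Set.disjoint_left.mp hd h hz⟩
  obtain ⟨K, hK, hyK⟩ := exists_comp (G := G) (hYd hy)
  have hYK : Y ⊆ K := hK.subset_of_con hY hYd ⟨y, hyK, hy⟩
  have hXK : X ⊆ A \ K := fun z hz => ⟨hXA hz, fun h => (hK.subset h).2 hz⟩
  have hKA : K ⊆ A := hK.subset.trans sdiff_subset
  refine ⟨A \ K, K, sdiff_union_of_subset hKA, disjoint_sdiff_left, hA.diff_comp hX hXA hK,
    hK.con, ?_, hXK, hYK⟩
  exact (hA.eadj_of_partition (union_sdiff_cancel hKA) disjoint_sdiff_right hK.con.1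
    ⟨x, hXK hx⟩).symm

/-- A connected proper subset can be avoided by a removable vertex. -/
theorem Con.exists_removable [Finite V] {A : Set V} (hA : Con G A) : ∀ (n : ℕ) (M : Set V),
    Con G M → M ⊆ A → (A \ M).ncard = n + 1 → ∃ u ∈ A \ M, Con G (A \ {u}) := by
  intro n
  induction n with
  | zero =>
    intro M hM hMA hn
    obtain ⟨u, hu⟩ := ncard_eq_one.mp hn
    have huA : u ∈ A \ M := hu ▸ rfl
    refine ⟨u, huA, ?_⟩
    rw [← hu, sdiff_sdiff_right_self, inter_eq_right.mpr hMA]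
    exact hM
  | succ n ih =>
    intro M hM hMA hn
    have hne : (A \ M).Nonempty := by
      rw [← ncard_pos (toFinite _)]; omega
    obtain ⟨m, hm, w, hw, hmw⟩ := hA.exists_edge hMA hM.1 hne
    obtain ⟨u, hu, huc⟩ := ih (M ∪ {w}) (hM.union (con_singleton w) ⟨m, hm, w, rfl, hmw⟩)
      (union_subset hMA (by simpa using hw.1)) (by
        have : A \ (M ∪ {w}) = (A \ M) \ {w} := by
          ext x; simp only [mem_sdiff, mem_union, mem_singleton_iff]; tauto
        rw [this, ncard_sdiff_singleton_of_mem hw, hn]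
        rfl)
    exact ⟨u, ⟨hu.1, fun h => hu.2 (Or.inl h)⟩, huc⟩

/-- Either three vertices of a connected set are the roots of a triangle model, or one vertex
separates them pairwise. -/
theorem rooted_triangle [Finite V] : ∀ (n : ℕ) (F : Set V) (w1 w2 w3 : V),
    F.ncard = n → Con G F → w1 ∈ F → w2 ∈ F → w3 ∈ F → w1 ≠ w2 → w1 ≠ w3 → w2 ≠ w3 →
    (∃ H1 H2 H3 : Set V, H1 ∪ H2 ∪ H3 = F ∧ Disjoint H1 H2 ∧ Disjoint H1 H3 ∧ Disjoint H2 H3 ∧
      Con G H1 ∧ Con G H2 ∧ Con G H3 ∧ w1 ∈ H1 ∧ w2 ∈ H2 ∧ w3 ∈ H3 ∧ EAdj G H1 H2 ∧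
      EAdj G H1 H3 ∧ EAdj G H2 H3) ∨
    ∃ u, ∀ D ⊆ F \ {u}, Con G D → ¬ (w1 ∈ D ∧ w2 ∈ D) ∧ ¬ (w1 ∈ D ∧ w3 ∈ D) ∧
      ¬ (w2 ∈ D ∧ w3 ∈ D) := by
  intro n
  induction n using Nat.strong_induction_on with
  | _ n ih =>
    intro F w1 w2 w3 hn hF h1 h2 h3 h12 h13 h23
    have : Nonempty V := ⟨w1⟩
    obtain ⟨E, hE, h1E⟩ := exists_comp (G := G) (A := F \ {w3}) (v := w1) ⟨h1, h13⟩
    have hEF : E ⊆ F := hE.subset.trans sdiff_subset
    have h3E : w3 ∉ E := fun h => (hE.subset h).2 rfl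
    by_cases h2E : w2 ∈ E
    swap
    · right
      refine ⟨w3, fun D hD hDc => ⟨?_, ?_, ?_⟩⟩
      · rintro ⟨ha, hb⟩
        exact h2E (hE.subset_of_con hDc hD ⟨w1, h1E, ha⟩ hb)
      · rintro ⟨-, hb⟩; exact (hD hb).2 rfl
      · rintro ⟨-, hb⟩; exact (hD hb).2 rfl
    rcases menger2 (G := G) _ E {w1, w2} {x | x ∈ E ∧ G.Adj x w3} rfl
      (by rintro x (rfl | rfl) <;> assumption) (fun x hx => hx.1) with ⟨v, hv⟩ | hl
    swap
    · left
      obtain ⟨X, Y, hX, hY, hd, hXc, hYc, hX1, hX2, hY1, hY2, hw1X, hw2Y⟩ :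
          ∃ X Y : Set V, X ⊆ E ∧ Y ⊆ E ∧ Disjoint X Y ∧ Con G X ∧ Con G Y ∧
            (X ∩ {w1, w2}).Nonempty ∧ (X ∩ {x | x ∈ E ∧ G.Adj x w3}).Nonempty ∧
            (Y ∩ {w1, w2}).Nonempty ∧ (Y ∩ {x | x ∈ E ∧ G.Adj x w3}).Nonempty ∧
            w1 ∈ X ∧ w2 ∈ Y := by
        obtain ⟨X, Y, hX, hY, hd, hXc, hYc, hX1, hX2, hY1, hY2⟩ := hl
        obtain ⟨a, haX, ha⟩ := id hX1
        obtain ⟨b, hbY, hb⟩ := id hY1
        have hab : a ≠ b := fun h => Set.disjoint_left.mp hd haX (h ▸ hbY)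
        rcases ha with ha | ha <;> rcases hb with hb | hb
        · exact absurd (ha.trans hb.symm) hab
        · exact ⟨X, Y, hX, hY, hd, hXc, hYc, hX1, hX2, hY1, hY2, ha ▸ haX, hb ▸ hbY⟩
        · exact ⟨Y, X, hY, hX, hd.symm, hYc, hXc, hY1, hY2, hX1, hX2, hb ▸ hbY, ha ▸ haX⟩
        · exact absurd (ha.trans hb.symm) hab
      obtain ⟨B, C, hBC, hdBC, hB, hC, hadj, hXB, hYC⟩ := hE.con.extend hXc hYc hX hY hd
      obtain ⟨x, hxX, -, hx⟩ := hX2
      obtain ⟨y, hyY, -, hy⟩ := hY2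
      have hBE : B ⊆ E := hBC ▸ subset_union_left
      have hCE : C ⊆ E := hBC ▸ subset_union_right
      refine ⟨B, C, F \ E, ?_, hdBC, ?_, ?_, hB, hC, hF.diff_comp (con_singleton w3)
        (by simpa using h3) hE, hXB hw1X, hYC hw2Y, ⟨h3, h3E⟩, hadj,
        ⟨x, hXB hxX, w3, ⟨h3, h3E⟩, hx⟩, ⟨y, hYC hyY, w3, ⟨h3, h3E⟩, hy⟩⟩
      · rw [hBC, union_sdiff_cancel hEF]
      · exact disjoint_sdiff_right.mono_left hBE
      · exact disjoint_sdiff_right.mono_left hCE
    have hvE : v ∈ E := by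
      by_contra hvE
      obtain ⟨a, ha, b, hb, hab⟩ := hF.eadj_comp hE ⟨w3, h3, rfl⟩
      have hb3 : b = w3 := hb.2
      subst hb3
      refine hv E (fun x hx => ⟨hx, fun h => hvE (h ▸ hx)⟩) hE.con ⟨w1, h1E, Or.inl rfl⟩
        ⟨a, ha, ha, hab⟩
    have h3v : w3 ≠ v := fun h => h3E (h ▸ hvE)
    -- `v` separates `w3` from the others
    have hstar : ∀ D ⊆ F \ {v}, Con G D → ∀ w ∈ ({w1, w2} : Set V), w ∈ E → w ∈ D → w3 ∈ D →
        False := by
      intro D hD hDc w hw hwE hwD h3D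
      have hw3 : w ≠ w3 := fun h => h3E (h ▸ hwE)
      obtain ⟨K, hK, hwK⟩ := exists_comp (G := G) (A := D \ {w3}) (v := w) ⟨hwD, hw3⟩
      have hKE : K ⊆ E := hE.subset_of_con hK.con (fun x hx => ⟨(hD (hK.subset hx).1).1,
        (hK.subset hx).2⟩) ⟨w, hwE, hwK⟩
      obtain ⟨a, ha, b, hb, hab⟩ := hDc.eadj_comp hK ⟨w3, h3D, rfl⟩
      have hb3 : b = w3 := hb.2
      subst hb3
      exact hv K (fun x hx => ⟨hKE hx, (hD (hK.subset hx).1).2⟩) hK.con ⟨w, hwK, hw⟩
        ⟨a, ha, hKE ha, hab⟩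
    by_cases hsep12 : ∀ D ⊆ F \ {v}, Con G D → ¬ (w1 ∈ D ∧ w2 ∈ D)
    · right
      refine ⟨v, fun D hD hDc => ⟨hsep12 D hD hDc, ?_, ?_⟩⟩
      · rintro ⟨ha, hb⟩
        exact hstar D hD hDc w1 (Or.inl rfl) h1E ha hb
      · rintro ⟨ha, hb⟩
        exact hstar D hD hDc w2 (Or.inr rfl) h2E ha hb
    push Not at hsep12
    obtain ⟨D1, hD1, hD1c, h1D1, h2D1⟩ := hsep12
    obtain ⟨D0, hD0, h1D0⟩ := exists_comp (G := G) (hD1 h1D1)
    have h2D0 : w2 ∈ D0 := hD0.subset_of_con hD1c hD1 ⟨w1, h1D0, h1D1⟩ h2D1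
    have h3D0 : w3 ∉ D0 := fun h => hstar D0 hD0.subset hD0.con w1 (Or.inl rfl) h1E h1D0 h
    have hvF : v ∈ F := hEF hvE
    have hvD0 : v ∉ D0 := fun h => (hD0.subset h).2 rfl
    have hD0F : D0 ⊆ F := hD0.subset.trans sdiff_subset
    have hD0v : EAdj G D0 {v} := (hF.eadj_comp hD0 ⟨v, hvF, rfl⟩).mono subset_rfl
      inter_subset_right
    have hF' : Con G (D0 ∪ {v}) := hD0.con.union (con_singleton v) hD0v
    have hlt : (D0 ∪ {v}).ncard < n := by
      rw [← hn]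
      refine ncard_lt_ncard ⟨union_subset hD0F (by simpa using hvF), fun h => ?_⟩ (toFinite _)
      rcases h h3 with h | h
      · exact h3D0 h
      · exact h3v h
    have h1v : w1 ≠ v := fun h => hvD0 (h ▸ h1D0)
    have h2v : w2 ≠ v := fun h => hvD0 (h ▸ h2D0)
    rcases ih _ hlt (D0 ∪ {v}) w1 w2 v rfl hF' (Or.inl h1D0) (Or.inl h2D0) (Or.inr rfl) h12 h1v
      h2v with ⟨H1, H2, H3, hU, hd12, hd13, hd23, hc1, hc2, hc3, hm1, hm2, hm3, e12, e13, e23⟩ |
      ⟨u, hu⟩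
    · left
      have hcompl : Con G (F \ D0) := hF.diff_comp (con_singleton v) (by simpa using hvF) hD0
      have hH1 : H1 ⊆ D0 := by
        intro x hx
        have : x ∈ D0 ∪ {v} := hU ▸ Or.inl (Or.inl hx)
        rcases this with h | h
        · exact h
        · exact absurd hm3 (Set.disjoint_left.mp hd13 (h ▸ hx))
      have hH2 : H2 ⊆ D0 := by
        intro x hx
        have : x ∈ D0 ∪ {v} := hU ▸ Or.inl (Or.inr hx)
        rcases this with h | h
        · exact h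
        · exact absurd hm3 (Set.disjoint_left.mp hd23 (h ▸ hx))
      refine ⟨H1, H2, H3 ∪ (F \ D0), ?_, hd12, ?_, ?_, hc1, hc2,
        hc3.union_inter hcompl ⟨v, hm3, hvF, hvD0⟩, hm1, hm2, Or.inr ⟨h3, h3D0⟩, e12,
        e13.mono subset_rfl subset_union_left, e23.mono subset_rfl subset_union_left⟩
      · rw [← union_assoc, hU]
        ext x
        simp only [mem_union, mem_singleton_iff, mem_sdiff]
        constructor
        · rintro ((h | rfl) | h)
          · exact hD0F h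
          · exact hvF
          · exact h.1
        · intro hx
          by_cases h : x ∈ D0
          · exact Or.inl (Or.inl h)
          · exact Or.inr ⟨hx, h⟩
      · rw [disjoint_union_right]
        exact ⟨hd13, disjoint_sdiff_right.mono_left hH1⟩
      · rw [disjoint_union_right]
        exact ⟨hd23, disjoint_sdiff_right.mono_left hH2⟩
    · right
      have huv : u ≠ v := by
        rintro rfl
        exact (hu D0 (fun x hx => ⟨Or.inl hx, fun h => hvD0 (h ▸ hx)⟩) hD0.con).1 ⟨h1D0, h2D0⟩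
      -- the part of a connected set on our side
      have hpart : ∀ D ⊆ F \ {u}, Con G D → v ∈ D → ∀ w ∈ D0, w ∈ D →
          ∃ K ⊆ (D0 ∪ {v}) \ {u}, Con G K ∧ w ∈ K ∧ v ∈ K := by
        intro D hD hDc hvD w hwD0 hwD
        have hwv : w ≠ v := fun h => hvD0 (h ▸ hwD0)
        obtain ⟨K, hK, hwK⟩ := exists_comp (G := G) (A := D \ {v}) (v := w) ⟨hwD, hwv⟩
        have hKD0 : K ⊆ D0 := hD0.subset_of_con hK.con (fun x hx => ⟨(hD (hK.subset hx).1).1,
          (hK.subset hx).2⟩) ⟨w, hwD0, hwK⟩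
        refine ⟨K ∪ {v}, ?_, hK.con.union (con_singleton v) ((hDc.eadj_comp hK
          ⟨v, hvD, rfl⟩).mono subset_rfl inter_subset_right), Or.inl hwK, Or.inr rfl⟩
        rintro x (hx | rfl)
        · exact ⟨Or.inl (hKD0 hx), (hD (hK.subset hx).1).2⟩
        · exact ⟨Or.inr rfl, huv.symm⟩
      refine ⟨u, fun D hD hDc => ?_⟩
      by_cases hvD : v ∈ D
      · refine ⟨?_, ?_, ?_⟩
        · rintro ⟨ha, -⟩
          obtain ⟨K, hK, hKc, hwK, hvK⟩ := hpart D hD hDc hvD w1 h1D0 ha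
          exact (hu K hK hKc).2.1 ⟨hwK, hvK⟩
        · rintro ⟨ha, -⟩
          obtain ⟨K, hK, hKc, hwK, hvK⟩ := hpart D hD hDc hvD w1 h1D0 ha
          exact (hu K hK hKc).2.1 ⟨hwK, hvK⟩
        · rintro ⟨ha, -⟩
          obtain ⟨K, hK, hKc, hwK, hvK⟩ := hpart D hD hDc hvD w2 h2D0 ha
          exact (hu K hK hKc).2.2 ⟨hwK, hvK⟩
      · have hin : ∀ w ∈ D0, w ∈ D → D ⊆ D0 := fun w hw hwD =>
          hD0.subset_of_con hDc (fun x hx => ⟨(hD hx).1, fun h => hvD (h ▸ hx)⟩) ⟨w, hw, hwD⟩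
        refine ⟨?_, ?_, ?_⟩
        · rintro ⟨ha, hb⟩
          exact (hu D (fun x hx => ⟨Or.inl (hin w1 h1D0 ha hx), (hD hx).2⟩) hDc).1 ⟨ha, hb⟩
        · rintro ⟨ha, hb⟩
          exact h3D0 (hin w1 h1D0 ha hb)
        · rintro ⟨ha, hb⟩
          exact h3D0 (hin w2 h2D0 ha hb)

end Pool.Agent.Work.MP_80fcda_co
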