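import Pool.Agent.Work.MP_80fcda_co.Basic

/-!
# Contraction models
-/

set_option autoImplicit false

namespace Pool.Agent.Work.MP_80fcda_co

open Set

variable {V W : Type}

/-- `φ` exhibits `H` as a contraction of `G`. -/
structure IsModel (G : SimpleGraph V) (H : SimpleGraph W) (φ : V → W) : Prop where
  con : ∀ w, Con G (φ ⁻¹' {w})
  adj : ∀ a b, a ≠ b → (H.Adj a b ↔ EAdj G (φ ⁻¹' {a}) (φ ⁻¹' {b}))

theorem ContractsTo.exists_model {H : SimpleGraph W} {V : Type} {G : SimpleGraph V}
    (h : ContractsTo H G) : ∃ φ : V → W, IsModel G H φ := by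
  induction h with
  | @iso V G e =>
    have hpre : ∀ w, (e : V → W) ⁻¹' {w} = {e.symm w} := by
      intro w
      ext x
      simp only [mem_preimage, mem_singleton_iff]
      constructor
      · rintro rfl; simp
      · rintro rfl; simp
    refine ⟨e, ⟨fun w => ?_, fun a b _ => ?_⟩⟩
    · rw [hpre]; exact con_singleton _
    · rw [hpre, hpre, eadj_singleton_left]
      simp only [mem_singleton_iff, exists_eq_left]
      exact (e.symm.map_adj_iff).symm
  | @step V G u v huv _ ih =>
    classical
    obtain ⟨φ', hφ'⟩ := ih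
    have huv' : u ≠ v := huv.ne
    let φ : V → W := fun x => if hx : x = v then φ' ⟨u, huv'⟩ else φ' ⟨x, hx⟩
    have φv : φ v = φ' ⟨u, huv'⟩ := by simp [φ]
    have φne : ∀ (x : V) (hx : x ≠ v), φ x = φ' ⟨x, hx⟩ := fun x hx => by simp [φ, hx]
    refine ⟨φ, ⟨fun w => ?_, fun a b hab => ?_⟩⟩
    · refine ⟨?_, fun S hS hne hcl => ?_⟩
      · obtain ⟨x, hx⟩ := (hφ'.con w).1
        exact ⟨x.1, by simpa [φne x.1 x.2] using hx⟩
      · have huS : v ∈ S → u ∈ S := fun hv => by
          refine hcl v hv u ?_ huv.symm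
          have := hS hv
          simpa [φv, φne u huv'] using this
        have hvS : u ∈ S → v ∈ S := fun hu => by
          refine hcl u hu v ?_ huv
          have := hS hu
          simpa [φv, φne u huv'] using this
        have hne' : {x : {w : V // w ≠ v} | x.1 ∈ S}.Nonempty := by
          obtain ⟨s, hs⟩ := hne
          by_cases h : s = v
          · subst h; exact ⟨⟨u, huv'⟩, huS hs⟩
          · exact ⟨⟨s, h⟩, hs⟩
        have key := (hφ'.con w).2 {x | x.1 ∈ S} (by
          intro x hx
          have := hS hx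
          simpa [φne x.1 x.2] using this) hne' (by
          rintro x hx y hy ⟨hxy, h | ⟨h1, h2⟩ | ⟨h1, h2⟩⟩
          · exact hcl x.1 hx y.1 (by simpa [φne y.1 y.2] using hy) h
          · have hxu : u ∈ S := h1 ▸ hx
            exact hcl v (hvS hxu) y.1 (by simpa [φne y.1 y.2] using hy) h2
          · have hvw : v ∈ φ ⁻¹' {w} := by
              have : φ' ⟨u, huv'⟩ = w := by
                have : (⟨u, huv'⟩ : {w : V // w ≠ v}) = y := Subtype.ext h1.symm
                rw [this]; exact hy
              simpa [φv] using this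
            have := hcl x.1 hx v hvw h2.symm
            show y.1 ∈ S
            rw [h1]; exact huS this)
        intro x hx
        by_cases h : x = v
        · subst h
          exact hvS (key (show (⟨u, huv'⟩ : {w : V // w ≠ x}) ∈ φ' ⁻¹' {w} by simpa [φv] using hx))
        · exact key (show (⟨x, h⟩ : {w : V // w ≠ v}) ∈ φ' ⁻¹' {w} by simpa [φne x h] using hx)
    · rw [hφ'.adj a b hab]
      constructor
      · rintro ⟨x, hx, y, hy, hxy, h | ⟨h1, h2⟩ | ⟨h1, h2⟩⟩
        · exact ⟨x.1, by simpa [φne x.1 x.2] using hx, y.1, by simpa [φne y.1 y.2] using hy, h⟩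
        · refine ⟨v, ?_, y.1, by simpa [φne y.1 y.2] using hy, h2⟩
          have : (⟨u, huv'⟩ : {w : V // w ≠ v}) = x := Subtype.ext h1.symm
          simpa [φv, this] using hx
        · refine ⟨x.1, by simpa [φne x.1 x.2] using hx, v, ?_, h2.symm⟩
          have : (⟨u, huv'⟩ : {w : V // w ≠ v}) = y := Subtype.ext h1.symm
          simpa [φv, this] using hy
      · rintro ⟨x, hx, y, hy, hxy⟩
        by_cases hxv : x = v
        · subst hxv
          have hy' : y ≠ x := hxy.ne'
          refine ⟨⟨u, huv'⟩, by simpa [φv] using hx, ⟨y, hy'⟩, by simpa [φne y hy'] using hy, ?_,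
            Or.inr (Or.inl ⟨rfl, hxy⟩)⟩
          rintro heq
          apply hab
          have h1 : φ' ⟨u, huv'⟩ = a := by simpa [φv] using hx
          have h2 : φ' ⟨y, hy'⟩ = b := by simpa [φne y hy'] using hy
          rw [← h1, ← h2, heq]
        · by_cases hyv : y = v
          · subst hyv
            refine ⟨⟨x, hxv⟩, by simpa [φne x hxv] using hx, ⟨u, huv'⟩, by simpa [φv] using hy, ?_,
              Or.inr (Or.inr ⟨rfl, hxy.symm⟩)⟩
            rintro heq
            apply hab
            have h1 : φ' ⟨x, hxv⟩ = a := by simpa [φne x hxv] using hx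
            have h2 : φ' ⟨u, huv'⟩ = b := by simpa [φv] using hy
            rw [← h1, ← h2, heq]
          · refine ⟨⟨x, hxv⟩, by simpa [φne x hxv] using hx, ⟨y, hyv⟩,
              by simpa [φne y hyv] using hy, ?_, Or.inl hxy⟩
            intro heq
            exact hxy.ne (congrArg Subtype.val heq)

theorem IsModel.contract {G : SimpleGraph V} {H : SimpleGraph W} {φ : V → W} (hφ : IsModel G H φ)
    {u v : V} (huv : G.Adj u v) (h : φ u = φ v) :
    IsModel (contractEdge G u v) H (fun x => φ x.1) := by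
  have huv' : u ≠ v := huv.ne
  refine ⟨fun w => ?_, fun a b hab => ?_⟩
  · refine ⟨?_, fun S' hS' hne hcl => ?_⟩
    · obtain ⟨x, hx⟩ := (hφ.con w).1
      by_cases hxv : x = v
      · subst hxv
        exact ⟨⟨u, huv'⟩, by simpa [h] using hx⟩
      · exact ⟨⟨x, hxv⟩, hx⟩
    · let S : Set V := {x | (∃ hx : x ≠ v, (⟨x, hx⟩ : {w : V // w ≠ v}) ∈ S') ∨
        (x = v ∧ (⟨u, huv'⟩ : {w : V // w ≠ v}) ∈ S')}
      have hSsub : S ⊆ φ ⁻¹' {w} := by
        rintro x (⟨hx, hxS⟩ | ⟨rfl, hu⟩)
        · exact hS' hxS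
        · have : φ u = w := hS' hu
          show φ x = w
          rw [← h, this]
      have hcl' : Closed G (φ ⁻¹' {w}) S := by
        intro x hx y hy hxy
        have hy' : φ y = w := hy
        by_cases hyv : y = v
        · subst hyv
          right
          refine ⟨rfl, ?_⟩
          rcases hx with ⟨hxv, hxS⟩ | ⟨hxv, hu⟩
          · by_cases hxu : x = u
            · subst hxu; exact hxS
            · refine hcl _ hxS ⟨u, huv'⟩ (show φ u = w by rw [h, hy']) ⟨?_, ?_⟩
              · intro he; exact hxu (congrArg Subtype.val he)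
              · exact Or.inr (Or.inr ⟨rfl, hxy.symm⟩)
          · exact hu
        · left
          refine ⟨hyv, ?_⟩
          rcases hx with ⟨hxv, hxS⟩ | ⟨hxv, hu⟩
          · refine hcl _ hxS ⟨y, hyv⟩ hy' ⟨?_, Or.inl hxy⟩
            intro he; exact hxy.ne (congrArg Subtype.val he)
          · by_cases hyu : y = u
            · subst hyu; exact hu
            · refine hcl _ hu ⟨y, hyv⟩ hy' ⟨?_, Or.inr (Or.inl ⟨rfl, ?_⟩)⟩
              · intro he; exact hyu (congrArg Subtype.val he).symm
              · exact hxv ▸ hxy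
      have hSne : S.Nonempty := by
        obtain ⟨x, hx⟩ := hne
        exact ⟨x.1, Or.inl ⟨x.2, hx⟩⟩
      have key := (hφ.con w).2 S hSsub hSne hcl'
      intro x hx
      rcases key (show x.1 ∈ φ ⁻¹' {w} from hx) with ⟨h1, h2⟩ | ⟨h1, _⟩
      · exact h2
      · exact absurd h1 x.2
  · rw [hφ.adj a b hab]
    constructor
    · rintro ⟨x, hx, y, hy, hxy⟩
      have hx' : φ x = a := hx
      have hy' : φ y = b := hy
      by_cases hxv : x = v
      · subst hxv
        have hyx : y ≠ x := hxy.ne'
        refine ⟨⟨u, huv'⟩, (show φ u = a by rw [h, hx']), ⟨y, hyx⟩, hy', ?_,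
          Or.inr (Or.inl ⟨rfl, hxy⟩)⟩
        intro he
        apply hab
        have he' : u = y := congrArg Subtype.val he
        rw [← hx', ← hy', ← he', h]
      · by_cases hyv : y = v
        · subst hyv
          refine ⟨⟨x, hxv⟩, hx', ⟨u, huv'⟩, (show φ u = b by rw [h, hy']), ?_,
            Or.inr (Or.inr ⟨rfl, hxy.symm⟩)⟩
          intro he
          apply hab
          have he' : x = u := congrArg Subtype.val he
          rw [← hx', ← hy', he', h]
        · refine ⟨⟨x, hxv⟩, hx', ⟨y, hyv⟩, hy', ?_, Or.inl hxy⟩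
          intro he; exact hxy.ne (congrArg Subtype.val he)
    · rintro ⟨x, hx, y, hy, hxy, h' | ⟨h1, h2⟩ | ⟨h1, h2⟩⟩
      · exact ⟨x.1, hx, y.1, hy, h'⟩
      · have hx' : φ x.1 = a := hx
        exact ⟨v, (show φ v = a by rw [← h, ← h1, hx']), y.1, hy, h2⟩
      · have hy' : φ y.1 = b := hy
        exact ⟨x.1, hx, v, (show φ v = b by rw [← h, ← h1, hy']), h2.symm⟩

theorem IsModel.contractsTo {H : SimpleGraph W} : ∀ (n : ℕ) {V : Type} [Finite V]
    {G : SimpleGraph V} {φ : V → W}, Nat.card V = n → IsModel G H φ → ContractsTo H G := by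
  intro n
  induction n using Nat.strong_induction_on with
  | _ n ih =>
    intro V _ G φ hn hφ
    by_cases hinj : Function.Injective φ
    · have hsurj : Function.Surjective φ := fun w => by
        obtain ⟨x, hx⟩ := (hφ.con w).1
        exact ⟨x, hx⟩
      refine ContractsTo.iso ⟨Equiv.ofBijective φ ⟨hinj, hsurj⟩, ?_⟩
      intro a b
      simp only [Equiv.ofBijective_apply]
      by_cases hab : a = b
      · subst hab; simp
      · have hne : φ a ≠ φ b := fun h => hab (hinj h)
        have hpre : ∀ x, φ ⁻¹' {φ x} = {x} := by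
          intro x; ext y
          simp only [mem_preimage, mem_singleton_iff]
          exact ⟨fun h => hinj h, fun h => h ▸ rfl⟩
        rw [hφ.adj _ _ hne, hpre, hpre, eadj_singleton_left]
        simp
    · simp only [Function.Injective, not_forall] at hinj
      obtain ⟨x, y, hxy, hne⟩ := hinj
      obtain ⟨z, hz, hxz⟩ := (hφ.con (φ x)).exists_adj_of_ne (u := x) (v := y) rfl hxy.symm hne
      have hz' : φ x = φ z := (show φ z = φ x from hz).symm
      have hm := hφ.contract hxz hz'
      refine ContractsTo.step hxz (ih (Nat.card {w : V // w ≠ z}) ?_ rfl hm)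
      rw [← hn]
      have : Nat.card {w : V // w ≠ z} < Nat.card V := by
        apply Finite.card_subtype_lt (x := z)
        simp
      exact this

theorem contractsTo_iff [Finite V] {G : SimpleGraph V} {H : SimpleGraph W} :
    ContractsTo H G ↔ ∃ φ : V → W, IsModel G H φ :=
  ⟨fun h => h.exists_model, fun ⟨_, hφ⟩ => IsModel.contractsTo _ rfl hφ⟩

theorem IsModel.con_preimage {G : SimpleGraph V} {H : SimpleGraph W} {φ : V → W}
    (hφ : IsModel G H φ) {B : Set W} (hB : Con H B) : Con G (φ ⁻¹' B) := by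
  refine ⟨?_, fun S hS hne hcl => ?_⟩
  · obtain ⟨b, hb⟩ := hB.1
    obtain ⟨x, hx⟩ := (hφ.con b).1
    exact ⟨x, by rw [mem_preimage, show φ x = b from hx]; exact hb⟩
  · have hfib : ∀ x ∈ S, φ ⁻¹' {φ x} ⊆ S := by
      intro x hx
      have hsub : φ ⁻¹' {φ x} ⊆ φ ⁻¹' B := by
        intro y hy
        have : φ y = φ x := hy
        rw [mem_preimage, this]; exact hS hx
      exact (hφ.con (φ x)).subset_of_closed hsub hcl ⟨x, hx, rfl⟩
    have key := hB.2 (φ '' S) (by rintro _ ⟨x, hx, rfl⟩; exact hS hx) (hne.image φ) (by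
      rintro _ ⟨x, hx, rfl⟩ b hb hxb
      obtain ⟨y, hy, z, hz, hyz⟩ := (hφ.adj _ _ hxb.ne).mp hxb
      have hz' : φ z = b := hz
      exact ⟨z, hcl y (hfib x hx hy) z (by rw [mem_preimage, hz']; exact hb) hyz, hz'⟩)
    intro x hx
    obtain ⟨y, hy, hyx⟩ := key hx
    exact hfib y hy hyx.symm

theorem IsModel.comp {U : Type} {G : SimpleGraph V} {H : SimpleGraph W} {K : SimpleGraph U}
    {φ : V → W} {ψ : W → U} (hφ : IsModel G H φ) (hψ : IsModel H K ψ) :
    IsModel G K (ψ ∘ φ) := by
  refine ⟨fun w => ?_, fun a b hab => ?_⟩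
  · rw [preimage_comp]
    exact hφ.con_preimage (hψ.con w)
  · rw [hψ.adj a b hab]
    constructor
    · rintro ⟨x, hx, y, hy, hxy⟩
      obtain ⟨p, hp, q, hq, hpq⟩ := (hφ.adj _ _ hxy.ne).mp hxy
      have hp' : φ p = x := hp
      have hq' : φ q = y := hq
      have hx' : ψ x = a := hx
      have hy' : ψ y = b := hy
      exact ⟨p, by simp [hp', hx'], q, by simp [hq', hy'], hpq⟩
    · rintro ⟨p, hp, q, hq, hpq⟩
      have hp' : ψ (φ p) = a := hp
      have hq' : ψ (φ q) = b := hq
      have hne : φ p ≠ φ q := fun h => hab (by rw [← hp', ← hq', h])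
      exact ⟨φ p, hp', φ q, hq', (hφ.adj _ _ hne).mpr ⟨p, rfl, q, rfl, hpq⟩⟩

theorem ContractsTo.trans {U : Type} [Finite V] {G : SimpleGraph V} {H : SimpleGraph W}
    {K : SimpleGraph U} (h₁ : ContractsTo H G) (h₂ : ContractsTo K H) : ContractsTo K G := by
  obtain ⟨φ, hφ⟩ := h₁.exists_model
  obtain ⟨ψ, hψ⟩ := h₂.exists_model
  exact contractsTo_iff.mpr ⟨_, hφ.comp hψ⟩

/-- A contraction from a partition into bags indexed by the vertices of `H`. -/
theorem contractsTo_of_bags [Finite V] {G : SimpleGraph V} {H : SimpleGraph W} (B : W → Set V)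
    (hcov : ∀ v, ∃ w, v ∈ B w) (hdisj : ∀ w w', w ≠ w' → Disjoint (B w) (B w'))
    (hcon : ∀ w, Con G (B w)) (hadj : ∀ a b, a ≠ b → (H.Adj a b ↔ EAdj G (B a) (B b))) :
    ContractsTo H G := by
  choose φ hφ using hcov
  have hpre : ∀ w, φ ⁻¹' {w} = B w := by
    intro w
    ext x
    simp only [mem_preimage, mem_singleton_iff]
    constructor
    · rintro rfl; exact hφ x
    · intro hx
      by_contra hne
      exact Set.disjoint_left.mp (hdisj _ _ hne) (hφ x) hx
  refine contractsTo_iff.mpr ⟨φ, ⟨fun w => ?_, fun a b hab => ?_⟩⟩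
  · rw [hpre]; exact hcon w
  · rw [hpre, hpre]; exact hadj a b hab

end Pool.Agent.Work.MP_80fcda_co
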