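import Pool.Agent.Work.MP_80fcda_co.DecTools
import Pool.Agent.Work.MP_80fcda_co.Menger

/-!
# The side lemma for gem-contraction-free graphs
-/

set_option autoImplicit false

namespace Pool.Agent.Work.MP_80fcda_co

open Set

variable {V : Type} {G : SimpleGraph V}

/-- `G` is connected and has no cut vertex. -/
structure TwoCon (G : SimpleGraph V) : Prop where
  con : Con G univ
  del : ∀ v, Con G {v}ᶜ

/-- In a 2-connected graph, a set all of whose outgoing edges lead to `v` is everything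
but `v`. -/
theorem TwoCon.eq_compl (h : TwoCon G) {K : Set V} {v : V} (hK : K.Nonempty) (hv : v ∉ K)
    (hcl : ∀ a ∈ K, ∀ b ∉ K, G.Adj a b → b = v) : ∀ x, x ≠ v → x ∈ K := by
  intro x hx
  refine (h.del v).2 K (fun a ha => ?_) hK (fun a ha b hb hab => ?_) hx
  · rintro rfl; exact hv ha
  · by_contra hbK
    exact hb (hcl a ha b hbK hab)

/-- A set with an outgoing edge and something else outside has two outside neighbours. -/
theorem TwoCon.two_nbrs (h : TwoCon G) {K : Set V} {x y : V} (hK : K.Nonempty) (hx : x ∉ K)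
    (hy : y ∉ K) (hxy : x ≠ y) : ∃ a ∈ K, ∃ b ∈ K, ∃ p ∉ K, ∃ q ∉ K, G.Adj a p ∧ G.Adj b q ∧
      p ≠ q := by
  obtain ⟨a, ha, p, hp, hap⟩ := h.con.exists_edge (subset_univ K) hK ⟨x, mem_univ x, hx⟩
  have : ∃ b ∈ K, ∃ q ∉ K, G.Adj b q ∧ q ≠ p := by
    by_contra hcon
    push Not at hcon
    have hall := h.eq_compl hK hp.2 (fun a ha b hb hab => hcon a ha b hb hab)
    by_cases h1 : x = p
    · exact hy (hall y fun h2 => hxy (h1.trans h2.symm))
    · exact hx (hall x h1)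
  obtain ⟨b, hb, q, hq, hbq, hqp⟩ := this
  exact ⟨a, ha, b, hb, p, hp.2, q, hq, hap, hbq, hqp.symm⟩

/-- A gem from its five bags. -/
theorem gem_of_bags [Finite V] {B0 B1 B2 B3 B4 : Set V}
    (hcov : ∀ x, x ∈ B0 ∨ x ∈ B1 ∨ x ∈ B2 ∨ x ∈ B3 ∨ x ∈ B4)
    (d01 : Disjoint B0 B1) (d02 : Disjoint B0 B2) (d03 : Disjoint B0 B3) (d04 : Disjoint B0 B4)
    (d12 : Disjoint B1 B2) (d13 : Disjoint B1 B3) (d14 : Disjoint B1 B4) (d23 : Disjoint B2 B3)
    (d24 : Disjoint B2 B4) (d34 : Disjoint B3 B4)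
    (c0 : Con G B0) (c1 : Con G B1) (c2 : Con G B2) (c3 : Con G B3) (c4 : Con G B4)
    (e01 : EAdj G B0 B1) (e12 : EAdj G B1 B2) (e23 : EAdj G B2 B3) (e40 : EAdj G B4 B0)
    (e41 : EAdj G B4 B1) (e42 : EAdj G B4 B2) (e43 : EAdj G B4 B3)
    (n02 : ¬ EAdj G B0 B2) (n03 : ¬ EAdj G B0 B3) (n13 : ¬ EAdj G B1 B3) :
    ContractsTo gem G := by
  refine contractsTo_of_bags ![B0, B1, B2, B3, B4] ?_ ?_ ?_ ?_
  · intro v
    rcases hcov v with h | h | h | h | h
    exacts [⟨0, h⟩, ⟨1, h⟩, ⟨2, h⟩, ⟨3, h⟩, ⟨4, h⟩]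
  · intro i j hij
    fin_cases i <;> fin_cases j <;>
      first
      | exact absurd rfl hij
      | assumption
      | (apply Disjoint.symm; assumption)
  · intro i
    fin_cases i <;> assumption
  · intro i j hij
    fin_cases i <;> fin_cases j <;>
      first
      | exact absurd rfl hij
      | (simp only [gem]; simp; first | assumption | (apply EAdj.symm; assumption) |
          (intro h; have h' := h.symm; contradiction))

/-- A partition into a triangle `S, T, C` of connected sets and a connected set `A` not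
joined to `C`. -/
structure Tri (G : SimpleGraph V) (S T C A : Set V) : Prop where
  cS : Con G S
  cT : Con G T
  cC : Con G C
  cA : Con G A
  cov : ∀ x, x ∈ S ∨ x ∈ T ∨ x ∈ C ∨ x ∈ A
  dST : Disjoint S T
  dSC : Disjoint S C
  dTC : Disjoint T C
  dSA : Disjoint S A
  dTA : Disjoint T A
  dCA : Disjoint C A
  eST : EAdj G S T
  eSC : EAdj G S C
  eTC : EAdj G T C
  nCA : ¬ EAdj G C A

theorem Tri.swap {S T C A : Set V} (h : Tri G S T C A) : Tri G T S C A :=
  ⟨h.cT, h.cS, h.cC, h.cA, fun x => by have := h.cov x; tauto, h.dST.symm, h.dTC, h.dSC, h.dTA,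
    h.dSA, h.dCA, h.eST.symm, h.eTC, h.eSC, h.nCA⟩

theorem Tri.gem [Finite V] {S T C A U V' M : Set V} (h : Tri G S T C A)
    (hU : U ∪ V' ∪ M = A) (dUV : Disjoint U V') (dUM : Disjoint U M) (dVM : Disjoint V' M)
    (cSU : Con G (S ∪ U)) (cV : Con G V') (cM : Con G M) (eTV : EAdj G T V')
    (nTM : ¬ EAdj G T M) (eVM : EAdj G V' M) (e1 : EAdj G (S ∪ U) V') (e2 : EAdj G (S ∪ U) M) :
    ContractsTo gem G := by
  have hUA : U ⊆ A := by rw [← hU]; exact subset_union_left.trans subset_union_left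
  have hVA : V' ⊆ A := by rw [← hU]; exact subset_union_right.trans subset_union_left
  have hMA : M ⊆ A := by rw [← hU]; exact subset_union_right
  refine gem_of_bags (B0 := C) (B1 := T) (B2 := V') (B3 := M) (B4 := S ∪ U) ?_ h.dTC.symm
    (h.dCA.mono_right hVA) (h.dCA.mono_right hMA)
    (disjoint_union_right.mpr ⟨h.dSC.symm, h.dCA.mono_right hUA⟩)
    (h.dTA.mono_right hVA) (h.dTA.mono_right hMA)
    (disjoint_union_right.mpr ⟨h.dST.symm, h.dTA.mono_right hUA⟩) dVM
    (disjoint_union_right.mpr ⟨(h.dSA.mono_right hVA).symm, dUV.symm⟩)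
    (disjoint_union_right.mpr ⟨(h.dSA.mono_right hMA).symm, dUM.symm⟩)
    h.cC h.cT cV cM cSU h.eTC.symm eTV eVM (h.eSC.mono subset_union_left subset_rfl)
    (h.eST.mono subset_union_left subset_rfl) e1 e2
    (fun h' => h.nCA (h'.mono subset_rfl hVA)) (fun h' => h.nCA (h'.mono subset_rfl hMA)) nTM
  intro x
  rcases h.cov x with hx | hx | hx | hx
  · right; right; right; right; exact Or.inl hx
  · right; left; exact hx
  · left; exact hx
  · rw [← hU] at hx
    rcases hx with (hx | hx) | hx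
    · right; right; right; right; exact Or.inr hx
    · right; right; left; exact hx
    · right; right; right; left; exact hx

/-- The basic split. -/
theorem Tri.gem_split [Finite V] {S T C A V' M : Set V} (h : Tri G S T C A)
    (hU : V' ∪ M = A) (dVM : Disjoint V' M) (cV : Con G V') (cM : Con G M)
    (eTV : EAdj G T V') (nTM : ¬ EAdj G T M) (e1 : EAdj G S V') (e2 : EAdj G S M) :
    ContractsTo Pool.Agent.Work.MP_80fcda_co.gem G := by
  refine h.gem (U := ∅) (V' := V') (M := M) (by simpa using hU) (by simp) (by simp) dVM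
    (by simpa using h.cS) cV cM eTV nTM ?_ (by simpa using e1) (by simpa using e2)
  exact h.cA.eadj_of_partition hU dVM cV.1 cM.1

/-- The vertices with a neighbour in `S`. -/
def NB (G : SimpleGraph V) (S : Set V) : Set V := {a | ∃ s ∈ S, G.Adj a s}

theorem eadj_iff_NB {S B : Set V} : EAdj G S B ↔ (B ∩ NB G S).Nonempty := by
  constructor
  · rintro ⟨s, hs, b, hb, hsb⟩
    exact ⟨b, hb, s, hs, hsb.symm⟩
  · rintro ⟨b, hb, s, hs, hbs⟩
    exact ⟨s, hs, b, hb, hbs.symm⟩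

theorem Tri.step_a [Finite V] {S T C A : Set V} (h2 : TwoCon G)
    (hno : ¬ ContractsTo Pool.Agent.Work.MP_80fcda_co.gem G)
    (h : Tri G S T C A) (hS : EAdj G S A) (hT : EAdj G T A) {x : V} (hxA : x ∈ A)
    (_hxS : x ∉ NB G S) (hxT : x ∉ NB G T) :
    ∃ M, IsComp G (A \ NB G T) M ∧ x ∈ M ∧ Con G (A \ M) ∧ A ∩ NB G S ⊆ M := by
  obtain ⟨M, hM, hxM⟩ := exists_comp (G := G) (A := A \ NB G T) (v := x) ⟨hxA, hxT⟩
  have hMA : M ⊆ A := hM.subset.trans sdiff_subset
  have nTM : ¬ EAdj G T M := by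
    rw [eadj_iff_NB]
    rintro ⟨m, hm, hmT⟩
    exact (hM.subset hm).2 hmT
  have hAM : (A \ M).Nonempty := by
    rw [eadj_iff_NB] at hT
    obtain ⟨t, htA, htT⟩ := hT
    exact ⟨t, htA, fun h => (hM.subset h).2 htT⟩
  have hMne := hM.con.1
  -- every component of `A \ M` is joined to `T` and to `M`
  have hcomp : ∀ F, IsComp G (A \ M) F → EAdj G T F ∧ EAdj G F M := by
    intro F hF
    have h1 : EAdj G F (A ∩ M) := h.cA.eadj_comp hF ⟨x, hxA, hxM⟩
    obtain ⟨f, hf, m, hm, hfm⟩ := h1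
    refine ⟨?_, f, hf, m, hm.2, hfm⟩
    rw [eadj_iff_NB]
    refine ⟨f, hf, ?_⟩
    by_contra hfT
    have := hM.closed m hm.2 f ⟨(hF.subset hf).1, hfT⟩ hfm.symm
    exact (hF.subset hf).2 this
  -- `A \ M` is connected
  have hcon : Con G (A \ M) := by
    obtain ⟨f, hf⟩ := hAM
    obtain ⟨F1, hF1, hfF1⟩ := exists_comp (G := G) hf
    by_cases hrest : ((A \ M) \ F1).Nonempty
    · exfalso
      obtain ⟨g, hg⟩ := hrest
      -- every component is joined to `S`
      have hSF : ∀ F, IsComp G (A \ M) F → EAdj G S F := by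
        intro F hF
        by_contra hnS
        apply hno
        have hrest' : EAdj G T (A \ F) := by
          -- another component
          by_cases hgF : g ∈ F
          · have hd : Disjoint F F1 := by
              rcases hF.eq_or_disjoint hF1 with h | h
              · exact absurd (h ▸ hgF) hg.2
              · exact h
            exact (hcomp F1 hF1).1.mono subset_rfl fun y hy =>
              ⟨(hF1.subset hy).1, fun h => Set.disjoint_left.mp hd h hy⟩
          · obtain ⟨F2, hF2, hgF2⟩ := exists_comp (G := G) hg.1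
            have hd : Disjoint F F2 := by
              rcases hF.eq_or_disjoint hF2 with h | h
              · exact absurd (h ▸ hgF2) hgF
              · exact h
            exact (hcomp F2 hF2).1.mono subset_rfl fun y hy =>
              ⟨(hF2.subset hy).1, fun h => Set.disjoint_left.mp hd h hy⟩
        have hFA : F ⊆ A := hF.subset.trans sdiff_subset
        refine h.swap.gem_split (V' := A \ F) (M := F) (sdiff_union_of_subset hFA)
          disjoint_sdiff_left (h.cA.diff_comp hM.con hMA hF) hF.con ?_ hnS hrest' (hcomp F hF).1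
        -- `S` is joined to `A \ F`
        rw [eadj_iff_NB] at hS ⊢
        obtain ⟨s, hsA, hsS⟩ := hS
        refine ⟨s, ⟨hsA, fun hsF => hnS ?_⟩, hsS⟩
        rw [eadj_iff_NB]
        exact ⟨s, hsF, hsS⟩
      apply hno
      obtain ⟨F2, hF2, hgF2⟩ := exists_comp (G := G) hg.1
      have hF1A : F1 ⊆ A := hF1.subset.trans sdiff_subset
      have hUeq : (A \ M) \ F1 = ⋃ F ∈ {F | IsComp G (A \ M) F ∧ F ≠ F1}, F := by
        ext y
        simp only [mem_iUnion, mem_ofPred_eq, exists_prop]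
        constructor
        · intro hy
          obtain ⟨F, hF, hyF⟩ := exists_comp (G := G) hy.1
          exact ⟨F, ⟨hF, fun h => hy.2 (h ▸ hyF)⟩, hyF⟩
        · rintro ⟨F, ⟨hF, hne⟩, hyF⟩
          refine ⟨hF.subset hyF, fun hy1 => ?_⟩
          rcases hF.eq_or_disjoint hF1 with h | h
          · exact hne h
          · exact Set.disjoint_left.mp h hyF hy1
      have hF2U : F2 ⊆ (A \ M) \ F1 := by
        intro y hy
        refine ⟨hF2.subset hy, fun hy1 => ?_⟩
        rcases hF2.eq_or_disjoint hF1 with h | h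
        · exact hg.2 (h ▸ hgF2)
        · exact Set.disjoint_left.mp h hy hy1
      refine h.gem (U := (A \ M) \ F1) (V' := F1) (M := M) ?_ disjoint_sdiff_left
        (disjoint_sdiff_left.mono_left sdiff_subset) (disjoint_sdiff_left.mono_left hF1.subset)
        ?_ hF1.con hM.con (hcomp F1 hF1).1 nTM (hcomp F1 hF1).2
        ((hSF F1 hF1).mono subset_union_left subset_rfl)
        ((hcomp F2 hF2).2.mono (hF2U.trans subset_union_right) subset_rfl)
      · rw [sdiff_union_of_subset hF1.subset, sdiff_union_of_subset hMA]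
      · rw [hUeq]
        exact h.cS.biUnion fun F hF => ⟨hF.1.con, hSF F hF.1⟩
    · rw [not_nonempty_iff_eq_empty, sdiff_eq_empty] at hrest
      rw [subset_antisymm hrest hF1.subset]
      exact hF1.con
  refine ⟨M, hM, hxM, hcon, ?_⟩
  -- `F = A \ M` is not joined to `S`
  have hFS : ¬ EAdj G S (A \ M) := by
    intro hFS
    have hTF : EAdj G T (A \ M) := by
      rw [eadj_iff_NB] at hT ⊢
      obtain ⟨t, htA, htT⟩ := hT
      exact ⟨t, ⟨htA, fun h => (hM.subset h).2 htT⟩, htT⟩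
    have hMS : ¬ EAdj G S M := fun hMS =>
      hno (h.gem_split (V' := A \ M) (M := M) (sdiff_union_of_subset hMA) disjoint_sdiff_left
        hcon hM.con hTF nTM hFS hMS)
    -- two neighbours of `M`
    have hout : ∀ a ∈ M, ∀ p ∉ M, G.Adj a p → p ∈ A \ M ∧ p ∈ NB G T := by
      intro a ha p hp hap
      have hpA : p ∈ A := by
        rcases h.cov p with h' | h' | h' | h'
        · exact absurd ⟨p, h', a, ha, hap.symm⟩ hMS
        · exact absurd ⟨p, h', a, ha, hap.symm⟩ nTM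
        · exact absurd ⟨p, h', a, hMA ha, hap.symm⟩ h.nCA
        · exact h'
      refine ⟨⟨hpA, hp⟩, ?_⟩
      by_contra hpT
      exact hp (hM.closed a ha p ⟨hpA, hpT⟩ hap)
    obtain ⟨s, hs⟩ := h.cS.1
    obtain ⟨t, ht⟩ := h.cT.1
    obtain ⟨a, ha, b, hb, p, hp, q, hq, hap, hbq, hpq⟩ := h2.two_nbrs hMne (x := s) (y := t)
      (fun h' => Set.disjoint_left.mp h.dSA hs (hMA h'))
      (fun h' => Set.disjoint_left.mp h.dTA ht (hMA h'))
      (fun h' => Set.disjoint_left.mp h.dST hs (h' ▸ ht))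
    obtain ⟨hpF, hpT⟩ := hout a ha p hp hap
    obtain ⟨hqF, hqT⟩ := hout b hb q hq hbq
    obtain ⟨B1, B2, hB, hdB, hB1, hB2, eB, hpB, hqB⟩ := hcon.split hpF hqF hpq
    -- the symmetric core
    have core : ∀ (B1 B2 : Set V) (a b p q : V), B1 ∪ B2 = A \ M → Disjoint B1 B2 → Con G B1 →
        Con G B2 → EAdj G B1 B2 → p ∈ B1 → q ∈ B2 → q ∈ NB G T → a ∈ M → G.Adj a p → b ∈ M →
        G.Adj b q → ¬ EAdj G S B1 := by
      intro B1 B2 a b p q hB hdB hB1 hB2 eB hpB hqB hqT ha hap hb hbq hSB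
      apply hno
      have hs1 : B1 ⊆ A \ M := hB ▸ subset_union_left
      have hs2 : B2 ⊆ A \ M := hB ▸ subset_union_right
      refine h.gem (U := B1) (V' := B2) (M := M) ?_ hdB (disjoint_sdiff_left.mono_left hs1)
        (disjoint_sdiff_left.mono_left hs2) (h.cS.union hB1 hSB) hB2 hM.con ?_ nTM
        ⟨q, hqB, b, hb, hbq.symm⟩ (eB.mono subset_union_right subset_rfl)
        ⟨p, Or.inr hpB, a, ha, hap.symm⟩
      · rw [hB, sdiff_union_of_subset hMA]
      · rw [eadj_iff_NB]; exact ⟨q, hqB, hqT⟩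
    have n1 := core B1 B2 a b p q hB hdB hB1 hB2 eB hpB hqB hqT ha hap hb hbq
    have n2 := core B2 B1 b a q p (by rw [union_comm, hB]) hdB.symm hB2 hB1 eB.symm hqB hpB hpT hb
      hbq ha hap
    rw [← hB, eadj_union_right] at hFS
    rcases hFS with h' | h'
    · exact n1 h'
    · exact n2 h'
  rintro y ⟨hyA, hyS⟩
  by_contra hyM
  apply hFS
  rw [eadj_iff_NB]
  exact ⟨y, ⟨hyA, hyM⟩, hyS⟩

/-- Structure of the attachments on one side. -/
theorem Tri.step_b [Finite V] {S T C A : Set V} (h2 : TwoCon G)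
    (hno : ¬ ContractsTo Pool.Agent.Work.MP_80fcda_co.gem G)
    (h : Tri G S T C A) (hS : EAdj G S A) (hT : EAdj G T A) {x : V} (hxA : x ∈ A)
    (hxS : x ∉ NB G S) (hxT : x ∉ NB G T) :
    (∃ t ∈ A, A ∩ NB G T = {t} ∧ Con G (A \ {t})) ∧ ∀ y ∈ A, y ∈ NB G S → y ∉ NB G T := by
  obtain ⟨M, hM, hxM, hcon, hSM⟩ := h.step_a h2 hno hS hT hxA hxS hxT
  have hMA : M ⊆ A := hM.subset.trans sdiff_subset
  have hMT : M = A \ NB G T := by
    refine subset_antisymm hM.subset ?_
    rintro y ⟨hyA, hyT⟩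
    by_contra hyM
    have hyS : y ∉ NB G S := fun h => hyM (hSM ⟨hyA, h⟩)
    obtain ⟨M', hM', hyM', -, hSM'⟩ := h.step_a h2 hno hS hT hyA hyS hyT
    rw [eadj_iff_NB] at hS
    obtain ⟨s, hsA, hsS⟩ := hS
    rcases hM.eq_or_disjoint hM' with h' | h'
    · exact hyM (h' ▸ hyM')
    · exact Set.disjoint_left.mp h' (hSM ⟨hsA, hsS⟩) (hSM' ⟨hsA, hsS⟩)
  have hST : ∀ y ∈ A, y ∈ NB G S → y ∉ NB G T := by
    intro y hyA hyS
    have := hSM ⟨hyA, hyS⟩
    rw [hMT] at this
    exact this.2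
  refine ⟨?_, hST⟩
  have hne : (A \ M).ncard ≠ 0 := by
    rw [Ne, Set.ncard_eq_zero (toFinite _)]
    exact hcon.1.ne_empty
  obtain ⟨n, hn⟩ := Nat.exists_eq_succ_of_ne_zero hne
  obtain ⟨t, ht, htc⟩ := h.cA.exists_removable n M hM.con hMA hn
  have htT : t ∈ NB G T := by
    by_contra h'
    exact ht.2 (hMT ▸ ⟨ht.1, h'⟩)
  refine ⟨t, ht.1, ?_, htc⟩
  refine subset_antisymm ?_ (by rintro y rfl; exact ⟨ht.1, htT⟩)
  rintro y ⟨hyA, hyT⟩
  by_contra hyt
  apply hno
  have hyt' : y ≠ t := hyt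
  refine h.swap.gem_split (V' := A \ {t}) (M := {t}) (sdiff_union_of_subset (by simpa using ht.1))
    disjoint_sdiff_left htc (con_singleton t) ?_ ?_ ?_ ?_
  · rw [eadj_iff_NB] at hS ⊢
    obtain ⟨s, hsA, hsS⟩ := hS
    exact ⟨s, ⟨hsA, fun hst => hST s hsA hsS (by rw [show s = t from hst]; exact htT)⟩, hsS⟩
  · rw [eadj_iff_NB]
    rintro ⟨s, hs, hsS⟩
    rw [mem_singleton_iff] at hs
    subst hs
    exact hST s ht.1 hsS htT
  · rw [eadj_iff_NB]
    exact ⟨y, ⟨hyA, hyt⟩, hyT⟩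
  · rw [eadj_iff_NB]
    exact ⟨t, rfl, htT⟩

/-- The degree bound. -/
theorem Tri.degree [Finite V] {S T C A : Set V} (h2 : TwoCon G)
    (hno : ¬ ContractsTo Pool.Agent.Work.MP_80fcda_co.gem G)
    (h : Tri G S T C A) {s t : V} (hsA : s ∈ A) (htA : t ∈ A)
    (hs : A ∩ NB G S = {s}) (ht : A ∩ NB G T = {t}) (hsc : Con G (A \ {s}))
    (htc : Con G (A \ {t})) (hst : s ≠ t) :
    ∀ y ∈ A, (G.neighborSet y ∩ A).ncard ≤ 2 := by
  have hsS : s ∈ NB G S := (hs ▸ rfl : s ∈ A ∩ NB G S).2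
  have htT : t ∈ NB G T := (ht ▸ rfl : t ∈ A ∩ NB G T).2
  have hSeq : ∀ y ∈ A, y ∈ NB G S → y = s := fun y hy hyS => by
    have : y ∈ A ∩ NB G S := ⟨hy, hyS⟩
    rw [hs] at this; exact this
  have hTeq : ∀ y ∈ A, y ∈ NB G T → y = t := fun y hy hyT => by
    have : y ∈ A ∩ NB G T := ⟨hy, hyT⟩
    rw [ht] at this; exact this
  -- no rooted triangle
  have ntri : ∀ U V' M : Set V, U ∪ V' ∪ M = A → Disjoint U V' → Disjoint U M → Disjoint V' M →
      Con G U → Con G V' → Con G M → s ∈ U → t ∈ V' → EAdj G U V' → EAdj G U M → EAdj G V' M →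
      False := by
    intro U V' M hU d1 d2 d3 c1 c2 c3 hsU htV e1 e2 e3
    apply hno
    have hMA : M ⊆ A := by rw [← hU]; exact subset_union_right
    refine h.gem (U := U) (V' := V') (M := M) hU d1 d2 d3
      (h.cS.union c1 (by rw [eadj_iff_NB]; exact ⟨s, hsU, hsS⟩)) c2 c3
      (by rw [eadj_iff_NB]; exact ⟨t, htV, htT⟩) ?_ e3 (e1.mono subset_union_right subset_rfl)
      (e2.mono subset_union_right subset_rfl)
    rw [eadj_iff_NB]
    rintro ⟨y, hy, hyT⟩
    have := hTeq y (hMA hy) hyT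
    subst this
    exact Set.disjoint_left.mp d3 htV hy
  intro y hyA
  by_contra hdeg
  push Not at hdeg
  obtain ⟨n1, n2, n3, hn1, hn2, hn3, h12, h13, h23⟩ := (two_lt_ncard_iff (toFinite _)).mp hdeg
  by_cases hys : y = s
  · subst hys
    have hne : ∀ n ∈ G.neighborSet y ∩ A, n ∈ A \ {y} := fun n hn => ⟨hn.2, hn.1.ne'⟩
    obtain ⟨B1, B2, hB, hdB, hB1, hB2, eB, h1B, h2B⟩ := hsc.split (hne n1 hn1) (hne n2 hn2) h12
    have hB1A : B1 ⊆ A \ {y} := hB ▸ subset_union_left
    have hB2A : B2 ⊆ A \ {y} := hB ▸ subset_union_right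
    have hdy : ∀ B ⊆ A \ {y}, Disjoint {y} B := fun B hB => by
      rw [Set.disjoint_left]
      rintro z rfl hz
      exact (hB hz).2 rfl
    have htB : t ∈ B1 ∪ B2 := hB ▸ ⟨htA, fun h => hst h.symm⟩
    rcases htB with htB | htB
    · refine ntri {y} B1 B2 ?_ (hdy _ hB1A) (hdy _ hB2A) hdB (con_singleton y) hB1 hB2 rfl htB
        ⟨y, rfl, n1, h1B, hn1.1⟩ ⟨y, rfl, n2, h2B, hn2.1⟩ eB
      rw [union_assoc, hB, union_sdiff_cancel (by simpa using hyA)]
    · refine ntri {y} B2 B1 ?_ (hdy _ hB2A) (hdy _ hB1A) hdB.symm (con_singleton y) hB2 hB1 rfl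
        htB ⟨y, rfl, n2, h2B, hn2.1⟩ ⟨y, rfl, n1, h1B, hn1.1⟩ eB.symm
      rw [union_assoc, union_comm B2, hB, union_sdiff_cancel (by simpa using hyA)]
  by_cases hyt : y = t
  · subst hyt
    have hne : ∀ n ∈ G.neighborSet y ∩ A, n ∈ A \ {y} := fun n hn => ⟨hn.2, hn.1.ne'⟩
    obtain ⟨B1, B2, hB, hdB, hB1, hB2, eB, h1B, h2B⟩ := htc.split (hne n1 hn1) (hne n2 hn2) h12
    have hB1A : B1 ⊆ A \ {y} := hB ▸ subset_union_left
    have hB2A : B2 ⊆ A \ {y} := hB ▸ subset_union_right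
    have hdy : ∀ B ⊆ A \ {y}, Disjoint B {y} := fun B hB => by
      rw [Set.disjoint_left]
      rintro z hz rfl
      exact (hB hz).2 rfl
    have hsB : s ∈ B1 ∪ B2 := hB ▸ ⟨hsA, hst⟩
    rcases hsB with hsB | hsB
    · refine ntri B1 {y} B2 ?_ (hdy _ hB1A) hdB (hdy _ hB2A).symm hB1 (con_singleton y) hB2 hsB
        rfl ⟨n1, h1B, y, rfl, hn1.1.symm⟩ eB ⟨y, rfl, n2, h2B, hn2.1⟩
      rw [union_assoc, union_comm {y}, ← union_assoc, hB,
        sdiff_union_of_subset (by simpa using hyA)]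
    · refine ntri B2 {y} B1 ?_ (hdy _ hB2A) hdB.symm (hdy _ hB1A).symm hB2 (con_singleton y) hB1
        hsB rfl ⟨n2, h2B, y, rfl, hn2.1.symm⟩ eB.symm ⟨y, rfl, n1, h1B, hn1.1⟩
      rw [union_assoc, union_comm {y}, ← union_assoc, union_comm B2, hB,
        sdiff_union_of_subset (by simpa using hyA)]
  -- `y` is neither `s` nor `t`
  have hclosed : ∀ (K : Set V) (v : V), K ⊆ A → K.Nonempty → v ∉ K → Closed G (A \ {v}) K →
      s ∉ K → t ∉ K → False := by
    intro K v hKA hKne hvK hcl hsK htK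
    obtain ⟨z1, hz1⟩ := h.cS.1
    obtain ⟨z2, hz2⟩ := h.cT.1
    have hall := h2.eq_compl hKne hvK (by
      intro a ha b hb hab
      by_contra hbv
      rcases h.cov b with h' | h' | h' | h'
      · have := hSeq a (hKA ha) ⟨b, h', hab⟩
        exact hsK (this ▸ ha)
      · have := hTeq a (hKA ha) ⟨b, h', hab⟩
        exact htK (this ▸ ha)
      · exact h.nCA ⟨b, h', a, hKA ha, hab.symm⟩
      · exact hb (hcl a ha b ⟨h', hbv⟩ hab))
    by_cases hz : z1 = v
    · refine Set.disjoint_left.mp h.dTA hz2 (hKA (hall z2 ?_))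
      rintro rfl
      exact Set.disjoint_left.mp h.dST hz1 (hz ▸ hz2)
    · exact Set.disjoint_left.mp h.dSA hz1 (hKA (hall z1 hz))
  have hne : ∀ n ∈ G.neighborSet y ∩ A, n ∈ A \ {y} := fun n hn => ⟨hn.2, hn.1.ne'⟩
  have hsD : s ∈ A \ {y} := ⟨hsA, fun h => hys h.symm⟩
  have htD : t ∈ A \ {y} := ⟨htA, fun h => hyt h.symm⟩
  have : Nonempty V := ⟨y⟩
  by_cases hD : Con G (A \ {y})
  · rcases menger2 (G := G) _ (A \ {y}) {s, t} ((A \ {y}) ∩ G.neighborSet y) rfl
      (by rintro z (rfl | rfl) <;> assumption) inter_subset_left with ⟨v, hv⟩ | hl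
    · by_cases hvD : v ∈ A \ {y}
      · obtain ⟨K, hK, hyK⟩ := exists_comp (G := G) (A := A \ {v}) (v := y)
          ⟨hyA, fun h => hvD.2 h.symm⟩
        have hno' : ∀ w ∈ ({s, t} : Set V), w ≠ y → w ∉ K := by
          intro w hw hwy hwK
          obtain ⟨L, hL, hwL⟩ := exists_comp (G := G) (A := K \ {y}) (v := w) ⟨hwK, hwy⟩
          obtain ⟨a, ha, b, hb, hab⟩ := hK.con.eadj_comp hL ⟨y, hyK, rfl⟩
          have hby : b = y := hb.2
          subst hby
          refine hv L (fun z hz => ⟨⟨(hK.subset (hL.subset hz).1).1, (hL.subset hz).2⟩,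
            (hK.subset (hL.subset hz).1).2⟩) hL.con ⟨w, hwL, hw⟩
            ⟨a, ha, ⟨(hK.subset (hL.subset ha).1).1, (hL.subset ha).2⟩, hab.symm⟩
        exact hclosed K v (hK.subset.trans sdiff_subset) ⟨y, hyK⟩ (fun h => (hK.subset h).2 rfl)
          hK.closed (hno' s (Or.inl rfl) fun h => hys h.symm)
          (hno' t (Or.inr rfl) fun h => hyt h.symm)
      · refine hv (A \ {y}) (fun z hz => ⟨hz, fun h => hvD (h ▸ hz)⟩) hD ⟨s, hsD, Or.inl rfl⟩
          ⟨n1, hne n1 hn1, hne n1 hn1, hn1.1⟩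
    · obtain ⟨X, Y, hX, hY, hd, hXc, hYc, hX2, hY2, hsX, htY⟩ :
          ∃ X Y : Set V, X ⊆ A \ {y} ∧ Y ⊆ A \ {y} ∧ Disjoint X Y ∧ Con G X ∧ Con G Y ∧
            (X ∩ ((A \ {y}) ∩ G.neighborSet y)).Nonempty ∧
            (Y ∩ ((A \ {y}) ∩ G.neighborSet y)).Nonempty ∧ s ∈ X ∧ t ∈ Y := by
        obtain ⟨X, Y, hX, hY, hd, hXc, hYc, ⟨a, haX, ha⟩, hX2, ⟨b, hbY, hb⟩, hY2⟩ := hl
        have hab : a ≠ b := fun h => Set.disjoint_left.mp hd haX (h ▸ hbY)
        rcases ha with ha | ha <;> rcases hb with hb | hb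
        · exact absurd (ha.trans hb.symm) hab
        · exact ⟨X, Y, hX, hY, hd, hXc, hYc, hX2, hY2, ha ▸ haX, hb ▸ hbY⟩
        · exact ⟨Y, X, hY, hX, hd.symm, hYc, hXc, hY2, hX2, hb ▸ hbY, ha ▸ haX⟩
        · exact absurd (ha.trans hb.symm) hab
      obtain ⟨B, C', hBC, hdBC, hB, hC', hadj, hXB, hYC⟩ := hD.extend hXc hYc hX hY hd
      obtain ⟨p, hpX, -, hp⟩ := hX2
      obtain ⟨q, hqY, -, hq⟩ := hY2
      have hBs : B ⊆ A \ {y} := hBC ▸ subset_union_left
      have hCs : C' ⊆ A \ {y} := hBC ▸ subset_union_right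
      refine ntri B C' {y} ?_ hdBC (disjoint_sdiff_left.mono_left hBs)
        (disjoint_sdiff_left.mono_left hCs) hB hC' (con_singleton y) (hXB hsX) (hYC htY) hadj
        ⟨p, hXB hpX, y, rfl, hp.symm⟩ ⟨q, hYC hqY, y, rfl, hq.symm⟩
      rw [hBC, sdiff_union_of_subset (by simpa using hyA)]
  · -- `A \ {y}` is disconnected
    have hcomp : ∀ K, IsComp G (A \ {y}) K → s ∈ K ∨ t ∈ K := by
      intro K hK
      by_contra hcon
      push Not at hcon
      exact hclosed K y (hK.subset.trans sdiff_subset) hK.con.1 (fun h => (hK.subset h).2 rfl)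
        hK.closed hcon.1 hcon.2
    obtain ⟨Ks, hKs, hsKs⟩ := exists_comp (G := G) hsD
    obtain ⟨Kt, hKt, htKt⟩ := exists_comp (G := G) htD
    have hd : Disjoint Ks Kt := by
      rcases hKs.eq_or_disjoint hKt with h | h
      · exfalso
        apply hD
        have : A \ {y} = Ks := by
          refine subset_antisymm (fun z hz => ?_) hKs.subset
          obtain ⟨K, hK, hzK⟩ := exists_comp (G := G) hz
          rcases hcomp K hK with h' | h'
          · rcases hK.eq_or_disjoint hKs with h'' | h''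
            · exact h'' ▸ hzK
            · exact absurd hsKs (Set.disjoint_left.mp h'' h')
          · rcases hK.eq_or_disjoint hKt with h'' | h''
            · exact h ▸ h'' ▸ hzK
            · exact absurd htKt (Set.disjoint_left.mp h'' h')
        rw [this]
        exact hKs.con
      · exact h
    have hcover : ∀ z ∈ A \ {y}, z ∈ Ks ∨ z ∈ Kt := by
      intro z hz
      obtain ⟨K, hK, hzK⟩ := exists_comp (G := G) hz
      rcases hcomp K hK with h' | h'
      · rcases hK.eq_or_disjoint hKs with h'' | h''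
        · exact Or.inl (h'' ▸ hzK)
        · exact absurd hsKs (Set.disjoint_left.mp h'' h')
      · rcases hK.eq_or_disjoint hKt with h'' | h''
        · exact Or.inr (h'' ▸ hzK)
        · exact absurd htKt (Set.disjoint_left.mp h'' h')
    have hyKs : EAdj G Ks {y} := (h.cA.eadj_comp hKs ⟨y, hyA, rfl⟩).mono subset_rfl
      inter_subset_right
    have hyKt : EAdj G Kt {y} := (h.cA.eadj_comp hKt ⟨y, hyA, rfl⟩).mono subset_rfl
      inter_subset_right
    have hyns : y ∉ Ks := fun h => (hKs.subset h).2 rfl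
    have hynt : y ∉ Kt := fun h => (hKt.subset h).2 rfl
    have hAeq : Ks ∪ Kt ∪ {y} = A := by
      ext z
      constructor
      · rintro ((hz | hz) | rfl)
        · exact (hKs.subset hz).1
        · exact (hKt.subset hz).1
        · exact hyA
      · intro hz
        by_cases hzy : z = y
        · exact Or.inr hzy
        · rcases hcover z ⟨hz, hzy⟩ with h | h
          · exact Or.inl (Or.inl h)
          · exact Or.inl (Or.inr h)
    -- two neighbours on the side of `t`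
    have caseT : ∀ n n' : V, n ∈ Kt → n' ∈ Kt → n ≠ n' → G.Adj y n → G.Adj y n' → False := by
      intro n n' hn hn' hnn hyn hyn'
      obtain ⟨B1, B2, hB, hdB, hB1, hB2, eB, h1B, h2B⟩ := hKt.con.split hn hn' hnn
      have hU : Con G (Ks ∪ {y}) := hKs.con.union (con_singleton y) hyKs
      have hB1s : B1 ⊆ Kt := hB ▸ subset_union_left
      have hB2s : B2 ⊆ Kt := hB ▸ subset_union_right
      have hdU : ∀ B ⊆ Kt, Disjoint (Ks ∪ {y}) B := fun B hB => by
        rw [Set.disjoint_left]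
        rintro z (hz | rfl) hzB
        · exact Set.disjoint_left.mp hd hz (hB hzB)
        · exact hynt (hB hzB)
      have htB : t ∈ B1 ∪ B2 := hB ▸ htKt
      rcases htB with htB | htB
      · refine ntri (Ks ∪ {y}) B1 B2 ?_ (hdU _ hB1s) (hdU _ hB2s) hdB hU hB1 hB2 (Or.inl hsKs) htB
          ⟨y, Or.inr rfl, n, h1B, hyn⟩ ⟨y, Or.inr rfl, n', h2B, hyn'⟩ eB
        rw [union_assoc, hB, union_right_comm, hAeq]
      · refine ntri (Ks ∪ {y}) B2 B1 ?_ (hdU _ hB2s) (hdU _ hB1s) hdB.symm hU hB2 hB1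
          (Or.inl hsKs) htB ⟨y, Or.inr rfl, n', h2B, hyn'⟩ ⟨y, Or.inr rfl, n, h1B, hyn⟩ eB.symm
        rw [union_assoc, union_comm B2, hB, union_right_comm, hAeq]
    have caseS : ∀ n n' : V, n ∈ Ks → n' ∈ Ks → n ≠ n' → G.Adj y n → G.Adj y n' → False := by
      intro n n' hn hn' hnn hyn hyn'
      obtain ⟨B1, B2, hB, hdB, hB1, hB2, eB, h1B, h2B⟩ := hKs.con.split hn hn' hnn
      have hU : Con G (Kt ∪ {y}) := hKt.con.union (con_singleton y) hyKt
      have hB1s : B1 ⊆ Ks := hB ▸ subset_union_left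
      have hB2s : B2 ⊆ Ks := hB ▸ subset_union_right
      have hdU : ∀ B ⊆ Ks, Disjoint B (Kt ∪ {y}) := fun B hB => by
        rw [Set.disjoint_left]
        rintro z hzB (hz | rfl)
        · exact Set.disjoint_left.mp hd (hB hzB) hz
        · exact hyns (hB hzB)
      have hsB : s ∈ B1 ∪ B2 := hB ▸ hsKs
      rcases hsB with hsB | hsB
      · refine ntri B1 (Kt ∪ {y}) B2 ?_ (hdU _ hB1s) hdB (hdU _ hB2s).symm hB1 hU hB2 hsB
          (Or.inl htKt) ⟨n, h1B, y, Or.inr rfl, hyn.symm⟩ eB ⟨y, Or.inr rfl, n', h2B, hyn'⟩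
        rw [union_right_comm, hB, ← union_assoc, hAeq]
      · refine ntri B2 (Kt ∪ {y}) B1 ?_ (hdU _ hB2s) hdB.symm (hdU _ hB1s).symm hB2 hU hB1 hsB
          (Or.inl htKt) ⟨n', h2B, y, Or.inr rfl, hyn'.symm⟩ eB.symm ⟨y, Or.inr rfl, n, h1B, hyn⟩
        rw [union_right_comm, union_comm B2, hB, ← union_assoc, hAeq]
    rcases hcover n1 (hne n1 hn1) with k1 | k1 <;> rcases hcover n2 (hne n2 hn2) with k2 | k2 <;>
      rcases hcover n3 (hne n3 hn3) with k3 | k3
    · exact caseS n1 n2 k1 k2 h12 hn1.1 hn2.1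
    · exact caseS n1 n2 k1 k2 h12 hn1.1 hn2.1
    · exact caseS n1 n3 k1 k3 h13 hn1.1 hn3.1
    · exact caseT n2 n3 k2 k3 h23 hn2.1 hn3.1
    · exact caseS n2 n3 k2 k3 h23 hn2.1 hn3.1
    · exact caseT n1 n3 k1 k3 h13 hn1.1 hn3.1
    · exact caseT n1 n2 k1 k2 h12 hn1.1 hn2.1
    · exact caseT n1 n2 k1 k2 h12 hn1.1 hn2.1

/-- The side lemma. -/
theorem Tri.dec_gem [Finite V] {S T C A : Set V} (h2 : TwoCon G)
    (hno : ¬ ContractsTo Pool.Agent.Work.MP_80fcda_co.gem G)
    (h : Tri G S T C A) (hS : EAdj G S A) (hT : EAdj G T A) : Dec (res G A) 2 A := by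
  by_cases hall : ∀ x ∈ A, x ∈ NB G S ∨ x ∈ NB G T
  · refine (dec_of_cograph h.cA.1 ?_).mono (by norm_num)
    intro a ha b hb c hc d hd hI
    apply hno
    have hbase : Con G (S ∪ T ∪ C) :=
      (h.cS.union h.cT h.eST).union h.cC (h.eSC.mono subset_union_left subset_rfl)
    have hhub : Con G ((S ∪ T ∪ C) ∪ ⋃ x ∈ {x | x ∈ A ∧ x ≠ a ∧ x ≠ b ∧ x ≠ c ∧ x ≠ d},
        ({x} : Set V)) := by
      refine hbase.biUnion fun x hx => ⟨con_singleton x, ?_⟩
      rcases hall x hx.1 with ⟨s, hs, hxs⟩ | ⟨s, hs, hxs⟩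
      · exact ⟨s, Or.inl (Or.inl hs), x, rfl, hxs.symm⟩
      · exact ⟨s, Or.inl (Or.inr hs), x, rfl, hxs.symm⟩
    have hmem : ∀ x, x ∈ ((S ∪ T ∪ C) ∪ ⋃ x ∈ {x | x ∈ A ∧ x ≠ a ∧ x ≠ b ∧ x ≠ c ∧ x ≠ d},
        ({x} : Set V)) ↔ (x ≠ a ∧ x ≠ b ∧ x ≠ c ∧ x ≠ d) := by
      intro x
      simp only [mem_union, mem_iUnion, mem_ofPred_eq, mem_singleton_iff, exists_prop,
        exists_eq_right']
      constructor
      · rintro (((hx | hx) | hx) | hx)
        · refine ⟨?_, ?_, ?_, ?_⟩ <;> rintro rfl <;>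
            exact Set.disjoint_left.mp h.dSA hx (by assumption)
        · refine ⟨?_, ?_, ?_, ?_⟩ <;> rintro rfl <;>
            exact Set.disjoint_left.mp h.dTA hx (by assumption)
        · refine ⟨?_, ?_, ?_, ?_⟩ <;> rintro rfl <;>
            exact Set.disjoint_left.mp h.dCA hx (by assumption)
        · exact hx.2
      · intro hx
        rcases h.cov x with h' | h' | h' | h'
        · exact Or.inl (Or.inl (Or.inl h'))
        · exact Or.inl (Or.inl (Or.inr h'))
        · exact Or.inl (Or.inr h')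
        · exact Or.inr ⟨h', hx⟩
    generalize ((S ∪ T ∪ C) ∪ ⋃ x ∈ {x | x ∈ A ∧ x ≠ a ∧ x ≠ b ∧ x ≠ c ∧ x ≠ d},
        ({x} : Set V)) = Hub at hhub hmem
    have hsub : S ∪ T ⊆ Hub := by
      intro x hx
      rw [hmem]
      rcases hx with hx | hx
      · refine ⟨?_, ?_, ?_, ?_⟩ <;> rintro rfl <;>
          exact Set.disjoint_left.mp h.dSA hx (by assumption)
      · refine ⟨?_, ?_, ?_, ?_⟩ <;> rintro rfl <;>
          exact Set.disjoint_left.mp h.dTA hx (by assumption)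
    have hadj : ∀ x ∈ A, EAdj G Hub {x} := by
      intro x hx
      rcases hall x hx with ⟨s, hs, hxs⟩ | ⟨s, hs, hxs⟩
      · exact ⟨s, hsub (Or.inl hs), x, rfl, hxs.symm⟩
      · exact ⟨s, hsub (Or.inr hs), x, rfl, hxs.symm⟩
    have hdis : ∀ x, (x = a ∨ x = b ∨ x = c ∨ x = d) → Disjoint {x} Hub := by
      intro x hx
      rw [Set.disjoint_left]
      rintro y rfl hy
      rw [hmem] at hy
      tauto
    refine gem_of_bags (B0 := {a}) (B1 := {b}) (B2 := {c}) (B3 := {d}) (B4 := Hub) ?_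
      (by simpa using hI.ab.ne) (by simpa using hI.ac') (by simpa using hI.ad')
      (hdis a (by tauto)) (by simpa using hI.bc.ne) (by simpa using hI.bd') (hdis b (by tauto))
      (by simpa using hI.cd.ne) (hdis c (by tauto)) (hdis d (by tauto)) (con_singleton a)
      (con_singleton b) (con_singleton c) (con_singleton d) hhub
      (by simpa [EAdj] using hI.ab) (by simpa [EAdj] using hI.bc) (by simpa [EAdj] using hI.cd)
      (hadj a ha) (hadj b hb) (hadj c hc) (hadj d hd) (by simpa [EAdj] using hI.ac)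
      (by simpa [EAdj] using hI.ad) (by simpa [EAdj] using hI.bd)
    intro x
    simp only [mem_singleton_iff, hmem]
    tauto
  · push Not at hall
    obtain ⟨x, hxA, hxS, hxT⟩ := hall
    obtain ⟨⟨t, htA, ht, htc⟩, hST⟩ := h.step_b h2 hno hS hT hxA hxS hxT
    obtain ⟨⟨s, hsA, hs, hsc⟩, -⟩ := h.swap.step_b h2 hno hT hS hxA hxT hxS
    have hst : s ≠ t := by
      rintro rfl
      have h1 : s ∈ A ∩ NB G S := hs ▸ rfl
      have h2 : s ∈ A ∩ NB G T := ht ▸ rfl
      exact hST s hsA h1.2 h2.2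
    exact dec_of_degree_two h.cA (h.degree h2 hno hsA htA hs ht hsc htc hst)

end Pool.Agent.Work.MP_80fcda_co
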