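import Pool.Agent.Work.MP_80fcda_co.Lower

/-!
# Upper bounds for clique-width from decompositions
-/

set_option autoImplicit false

namespace Pool.Agent.Work.MP_80fcda_co

open Set

variable {V : Type}

/-- `A` has at most `k` different nonempty neighbourhoods outside `A`. -/
def Div (G : SimpleGraph V) (k : ℕ) (A : Set V) : Prop :=
  ∃ c : V → Fin k, ∀ x ∈ A, ∀ y ∈ A, (∃ v ∉ A, G.Adj x v) → (∃ v ∉ A, G.Adj y v) →
    c x = c y → ∀ v ∉ A, (G.Adj x v ↔ G.Adj y v)

/-- `A` can be decomposed down to single vertices through sets with few outside neighbourhoods. -/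
inductive Dec (G : SimpleGraph V) (k : ℕ) : Set V → Prop
  | single (v : V) : Dec G k {v}
  | union {A B C : Set V} (hA : Dec G k A) (hB : Dec G k B) (hd : Disjoint A B) (hC : A ∪ B = C)
      (hdiv : Div G k C) : Dec G k C

/-- The labelled graph `(A, E, l)` is built by an expression. -/
def Rz (K : ℕ) (A : Set V) (E : V → V → Prop) (l : V → Fin K) : Prop :=
  ∃ (e : KExpr K) (f : e.Vert → V), Function.Injective f ∧ range f = A ∧
    (∀ x y, e.graph.Adj x y ↔ E (f x) (f y)) ∧ ∀ x, e.label x = l (f x)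

theorem Rz.congr {K : ℕ} {A : Set V} {E E' : V → V → Prop} {l l' : V → Fin K} (h : Rz K A E l)
    (hE : ∀ x ∈ A, ∀ y ∈ A, (E x y ↔ E' x y)) (hl : ∀ x ∈ A, l x = l' x) : Rz K A E' l' := by
  obtain ⟨e, f, hf, hr, h1, h2⟩ := h
  have hm : ∀ x, f x ∈ A := fun x => hr ▸ ⟨x, rfl⟩
  exact ⟨e, f, hf, hr, fun x y => (h1 x y).trans (hE _ (hm x) _ (hm y)),
    fun x => (h2 x).trans (hl _ (hm x))⟩

theorem Rz.single {K : ℕ} (v : V) (E : V → V → Prop) (hE : ¬ E v v) (l : V → Fin K) :
    Rz K {v} E l := by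
  refine ⟨KExpr.vertex (l v), fun _ => v, fun _ _ _ => rfl, ?_, fun x y => ?_, fun x => rfl⟩
  · ext x
    constructor
    · rintro ⟨_, rfl⟩; rfl
    · rintro rfl; exact ⟨(), rfl⟩
  · constructor
    · intro h; exact h.elim
    · intro h; exact absurd h hE

theorem Rz.union {K : ℕ} {A B : Set V} {E : V → V → Prop} {l : V → Fin K} (hA : Rz K A E l)
    (hB : Rz K B E l) (hd : Disjoint A B) (hE : ∀ x ∈ A, ∀ y ∈ B, ¬ E x y ∧ ¬ E y x) :
    Rz K (A ∪ B) E l := by
  obtain ⟨e, f, hf, hr, h1, h2⟩ := hA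
  obtain ⟨e', f', hf', hr', h1', h2'⟩ := hB
  have hm : ∀ x, f x ∈ A := fun x => hr ▸ ⟨x, rfl⟩
  have hm' : ∀ x, f' x ∈ B := fun x => hr' ▸ ⟨x, rfl⟩
  refine ⟨KExpr.union e e', Sum.elim f f', ?_, ?_, ?_, ?_⟩
  · rintro (x | x) (y | y) hxy
    · exact congrArg Sum.inl (hf hxy)
    · exfalso
      have : f x = f' y := hxy
      exact Set.disjoint_left.mp hd (hm x) (this ▸ hm' y)
    · exfalso
      have : f' x = f y := hxy
      exact Set.disjoint_left.mp hd (hm y) (this ▸ hm' x)
    · exact congrArg Sum.inr (hf' hxy)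
  · rw [← hr, ← hr']
    exact Sum.elim_range f f'
  · rintro (x | x) (y | y)
    · exact h1 x y
    · exact ⟨fun h => (nomatch h), fun h => absurd h (hE _ (hm x) _ (hm' y)).1⟩
    · exact ⟨fun h => (nomatch h), fun h => absurd h (hE _ (hm y) _ (hm' x)).2⟩
    · exact h1' x y
  · rintro (x | x)
    · exact h2 x
    · exact h2' x

theorem Rz.join {K : ℕ} {A : Set V} {E : V → V → Prop} {l : V → Fin K} (h : Rz K A E l)
    {i j : Fin K} (hij : i ≠ j) :
    Rz K A (fun x y => E x y ∨ (l x = i ∧ l y = j) ∨ (l x = j ∧ l y = i)) l := by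
  obtain ⟨e, f, hf, hr, h1, h2⟩ := h
  refine ⟨KExpr.join i j hij e, f, hf, hr, fun x y => ?_, h2⟩
  simp only [KExpr.graph, SimpleGraph.sup_adj, SimpleGraph.fromRel_adj, h1 x y, h2]
  constructor
  · rintro (h | ⟨-, h | h⟩)
    · exact Or.inl h
    · exact Or.inr (Or.inl h)
    · exact Or.inr (Or.inr h.symm)
  · rintro (h | h | h)
    · exact Or.inl h
    · refine Or.inr ⟨?_, Or.inl h⟩
      rintro rfl
      exact hij (h.1.symm.trans h.2)
    · refine Or.inr ⟨?_, Or.inr h.symm⟩
      rintro rfl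
      exact hij (h.2.symm.trans h.1)

theorem Rz.relabel {K : ℕ} {A : Set V} {E : V → V → Prop} {l : V → Fin K} (h : Rz K A E l)
    (i j : Fin K) : Rz K A E (fun x => if l x = i then j else l x) := by
  obtain ⟨e, f, hf, hr, h1, h2⟩ := h
  refine ⟨KExpr.relabel i j e, f, hf, hr, h1, fun x => ?_⟩
  simp only [KExpr.label, h2]

theorem Rz.map {K : ℕ} {A : Set V} {E : V → V → Prop} {l : V → Fin K} (h : Rz K A E l)
    (ρ : Fin K → Fin K) (hρ : ∀ i, ρ (ρ i) = ρ i) : Rz K A E (fun x => ρ (l x)) := by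
  have key : ∀ L : List (Fin K), Rz K A E (fun x => if l x ∈ L then ρ (l x) else l x) := by
    intro L
    induction L with
    | nil => simpa using h
    | cons i L ih =>
      refine (ih.relabel i (ρ i)).congr (fun _ _ _ _ => Iff.rfl) (fun x _ => ?_)
      by_cases hxL : l x ∈ L
      · have : l x ∈ i :: L := List.mem_cons_of_mem _ hxL
        simp only [hxL, this, if_true]
        split_ifs with h1
        · rw [← h1, hρ]
        · rfl
      · by_cases hxi : l x = i
        · have : i ∉ L := hxi ▸ hxL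
          simp [hxi, this]
        · have : l x ∉ i :: L := by
            simp [hxL, hxi]
          simp [hxL, this, hxi]
  have := key (List.finRange K)
  simpa using this

theorem Rz.joins {K : ℕ} {A : Set V} {E : V → V → Prop} {l : V → Fin K} (h : Rz K A E l)
    (R : Fin K → Fin K → Prop) (hR : ∀ i, ¬ R i i) :
    Rz K A (fun x y => E x y ∨ R (l x) (l y) ∨ R (l y) (l x)) l := by
  classical
  have key : ∀ L : List (Fin K × Fin K), (∀ p ∈ L, p.1 ≠ p.2) →
      Rz K A (fun x y => E x y ∨ (l x, l y) ∈ L ∨ (l y, l x) ∈ L) l := by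
    intro L
    induction L with
    | nil => intro _; simpa using h
    | cons p L ih =>
      intro hL
      refine ((ih fun q hq => hL q (List.mem_cons_of_mem _ hq)).join
        (hL p List.mem_cons_self)).congr (fun x _ y _ => ?_) (fun _ _ => rfl)
      obtain ⟨a, b⟩ := p
      simp only [List.mem_cons, Prod.mk.injEq]
      tauto
  have := key ((Finset.univ.filter fun p : Fin K × Fin K => R p.1 p.2).toList) (by
    intro p hp
    simp only [Finset.mem_toList, Finset.mem_filter, Finset.mem_univ, true_and] at hp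
    intro heq
    rw [heq] at hp
    exact hR _ hp)
  simpa using this

/-- The label `(b, i)`. -/
def lab {k : ℕ} (b : Fin 3) (i : Fin k) : Fin (3 * k) := finProdFinEquiv (b, i)

theorem lab_inj {k : ℕ} {b b' : Fin 3} {i i' : Fin k} : lab b i = lab b' i' ↔ b = b' ∧ i = i' := by
  simp [lab]

/-- Apply `g b i` to the label `(b, i)`. -/
def onLab {k : ℕ} {α : Type} (g : Fin 3 → Fin k → α) (x : Fin (3 * k)) : α :=
  g (finProdFinEquiv.symm x).1 (finProdFinEquiv.symm x).2

@[simp] theorem onLab_lab {k : ℕ} {α : Type} (g : Fin 3 → Fin k → α) (b : Fin 3) (i : Fin k) :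
    onLab g (lab b i) = g b i := by
  simp [onLab, lab]

/-- Same colour in `A` forces same adjacency outside `A`. -/
def Col {k : ℕ} (G : SimpleGraph V) (A : Set V) (c : V → Fin k) : Prop :=
  ∀ x ∈ A, ∀ y ∈ A, c x = c y → ∀ v ∉ A, (G.Adj x v ↔ G.Adj y v)

theorem Div.col {G : SimpleGraph V} {k : ℕ} {A : Set V} (h : Div G k A) :
    ∃ c : V → Fin (k + 1), Col G A c := by
  classical
  obtain ⟨c, hc⟩ := h
  refine ⟨fun x => if ∃ v ∉ A, G.Adj x v then (c x).castSucc else Fin.last k, ?_⟩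
  intro x hx y hy hxy v hv
  by_cases h1 : ∃ v ∉ A, G.Adj x v
  · by_cases h2 : ∃ v ∉ A, G.Adj y v
    · simp only [h1, h2, if_true, Fin.castSucc_inj] at hxy
      exact hc x hx y hy h1 h2 hxy v hv
    · simp only [h1, h2, if_true, if_false] at hxy
      exact absurd hxy (Fin.castSucc_lt_last _).ne
  · by_cases h2 : ∃ v ∉ A, G.Adj y v
    · simp only [h1, h2, if_true, if_false] at hxy
      exact absurd hxy.symm (Fin.castSucc_lt_last _).ne
    · exact ⟨fun h => absurd ⟨v, hv, h⟩ h1, fun h => absurd ⟨v, hv, h⟩ h2⟩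

/-- The basic combination step. -/
theorem Rz.combine {k : ℕ} {G : SimpleGraph V} {A B : Set V} (hd : Disjoint A B)
    {cA cB c : V → Fin k} (hcA : Col G A cA) (hcB : Col G B cB) (hc : Col G (A ∪ B) c)
    (hA : Rz (3 * k) A G.Adj (fun x => lab 0 (cA x)))
    (hB : Rz (3 * k) B G.Adj (fun x => lab 0 (cB x))) :
    ∃ c' : V → Fin k, Col G (A ∪ B) c' ∧ Rz (3 * k) (A ∪ B) G.Adj (fun x => lab 0 (c' x)) := by
  classical
  have hdl : ∀ x ∈ A, x ∉ B := fun _ h => Set.disjoint_left.mp hd h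
  have hdr : ∀ x ∈ B, x ∉ A := fun _ h => Set.disjoint_right.mp hd h
  -- shift the labels of `B`
  have hB1 : Rz (3 * k) B G.Adj (fun x => lab 1 (cB x)) := by
    refine (hB.map (onLab fun b i => if b = 0 then lab 1 i else lab b i) ?_).congr
      (fun _ _ _ _ => Iff.rfl) (fun x _ => by simp)
    intro i
    obtain ⟨⟨b, j⟩, rfl⟩ := finProdFinEquiv.surjective i
    change onLab _ (onLab _ (lab b j)) = onLab _ (lab b j)
    by_cases hb : b = 0 <;> simp [hb]
  -- the union
  let l : V → Fin (3 * k) := fun x => if x ∈ A then lab 0 (cA x) else lab 1 (cB x)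
  let E : V → V → Prop := fun x y => G.Adj x y ∧ ((x ∈ A ∧ y ∈ A) ∨ (x ∈ B ∧ y ∈ B))
  have hU : Rz (3 * k) (A ∪ B) E l := by
    refine Rz.union (hA.congr (fun x hx y hy => ?_) (fun x hx => ?_))
      (hB1.congr (fun x hx y hy => ?_) (fun x hx => ?_)) hd ?_
    · simp [E, hx, hy]
    · simp [l, hx]
    · simp [E, hx, hy]
    · simp [l, hdr x hx]
    · intro x hx y hy
      simp [E, hx, hy, hdl x hx, hdr y hy]
  -- the joins
  let R : Fin (3 * k) → Fin (3 * k) → Prop := fun p q =>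
    ∃ x ∈ A, ∃ y ∈ B, G.Adj x y ∧ p = lab 0 (cA x) ∧ q = lab 1 (cB y)
  have hJ := hU.joins R (by
    rintro i ⟨x, hx, y, hy, -, h1, h2⟩
    have := h1.symm.trans h2
    rw [lab_inj] at this
    exact absurd this.1 (by decide))
  have hRx : ∀ x ∈ A, ∀ y ∈ B, (R (l x) (l y) ↔ G.Adj x y) := by
    intro x hx y hy
    constructor
    · rintro ⟨x', hx', y', hy', hadj, h1, h2⟩
      simp only [l, hx, if_true, lab_inj] at h1
      simp only [l, hdr y hy, if_false, lab_inj] at h2
      have h3 : G.Adj x y' := (hcA x hx x' hx' h1.2 y' (hdr y' hy')).mpr hadj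
      exact ((hcB y hy y' hy' h2.2 x (hdl x hx)).mpr h3.symm).symm
    · intro hadj
      exact ⟨x, hx, y, hy, hadj, by simp [l, hx], by simp [l, hdr y hy]⟩
  have hRr : ∀ x y, R (l x) (l y) → x ∈ A := by
    rintro x y ⟨x', hx', y', hy', hadj, h1, h2⟩
    by_contra hx
    simp only [l, hx, if_false, lab_inj] at h1
    exact absurd h1.1 (by decide)
  have hRr' : ∀ x y, R (l x) (l y) → y ∉ A := by
    rintro x y ⟨x', hx', y', hy', hadj, h1, h2⟩ hy
    simp only [l, hy, if_true, lab_inj] at h2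
    exact absurd h2.1 (by decide)
  have hJ' : Rz (3 * k) (A ∪ B) G.Adj l := by
    refine hJ.congr (fun x hx y hy => ?_) (fun _ _ => rfl)
    rcases hx with hx | hx <;> rcases hy with hy | hy
    · have h1 : ¬ R (l x) (l y) := fun h => hRr' _ _ h hy
      have h2 : ¬ R (l y) (l x) := fun h => hRr' _ _ h hx
      simp [E, hx, hy, h1, h2]
    · have h2 : ¬ R (l y) (l x) := fun h => hRr' _ _ h hx
      simp [E, hx, hy, hdl x hx, hdr y hy, hRx x hx y hy, h2]
    · have h1 : ¬ R (l x) (l y) := fun h => hRr' _ _ h hy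
      simp [E, hx, hy, hdl y hy, hdr x hx, hRx y hy x hx, h1, G.adj_comm x y]
    · have h1 : ¬ R (l x) (l y) := fun h => hdr x hx (hRr _ _ h)
      have h2 : ¬ R (l y) (l x) := fun h => hdr y hy (hRr _ _ h)
      simp [E, hx, hy, h1, h2]
  -- the new colours
  let rA : V → V := fun x => if h : ∃ z ∈ A, cA z = cA x then h.choose else x
  let rB : V → V := fun x => if h : ∃ z ∈ B, cB z = cB x then h.choose else x
  have hrA : ∀ x ∈ A, rA x ∈ A ∧ cA (rA x) = cA x := by
    intro x hx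
    have h : ∃ z ∈ A, cA z = cA x := ⟨x, hx, rfl⟩
    simp only [rA, h, dif_pos]
    exact h.choose_spec
  have hrB : ∀ x ∈ B, rB x ∈ B ∧ cB (rB x) = cB x := by
    intro x hx
    have h : ∃ z ∈ B, cB z = cB x := ⟨x, hx, rfl⟩
    simp only [rB, h, dif_pos]
    exact h.choose_spec
  let c' : V → Fin k := fun x => if x ∈ A then c (rA x) else c (rB x)
  have hout : ∀ x ∈ A ∪ B, ∃ z ∈ A ∪ B, c' x = c z ∧ ∀ v ∉ A ∪ B, (G.Adj x v ↔ G.Adj z v) := by
    rintro x (hx | hx)
    · exact ⟨rA x, Or.inl (hrA x hx).1, by simp [c', hx], fun v hv =>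
        hcA x hx _ (hrA x hx).1 (hrA x hx).2.symm v (fun h => hv (Or.inl h))⟩
    · exact ⟨rB x, Or.inr (hrB x hx).1, by simp [c', hdr x hx], fun v hv =>
        hcB x hx _ (hrB x hx).1 (hrB x hx).2.symm v (fun h => hv (Or.inr h))⟩
  refine ⟨c', ?_, ?_⟩
  · intro x hx y hy hxy v hv
    obtain ⟨z, hz, h1, h2⟩ := hout x hx
    obtain ⟨w, hw, h3, h4⟩ := hout y hy
    rw [h2 v hv, h4 v hv]
    exact hc z hz w hw (h1.symm.trans (hxy.trans h3)) v hv
  · -- relabelling through the third block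
    have hgA : ∃ gA : Fin k → Fin k, ∀ x ∈ A, gA (cA x) = c (rA x) := by
      refine ⟨fun i => if h : ∃ z ∈ A, cA z = i then c h.choose else i, fun x hx => ?_⟩
      have h : ∃ z ∈ A, cA z = cA x := ⟨x, hx, rfl⟩
      simp only [h, dif_pos, rA]
    have hgB : ∃ gB : Fin k → Fin k, ∀ x ∈ B, gB (cB x) = c (rB x) := by
      refine ⟨fun i => if h : ∃ z ∈ B, cB z = i then c h.choose else i, fun x hx => ?_⟩
      have h : ∃ z ∈ B, cB z = cB x := ⟨x, hx, rfl⟩
      simp only [h, dif_pos, rB]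
    obtain ⟨gA, hgA⟩ := hgA
    obtain ⟨gB, hgB⟩ := hgB
    have hM1 := hJ'.map (onLab fun b i => if b = 0 then lab 2 (gA i) else if b = 1 then
      lab 2 (gB i) else lab b i) (by
      intro i
      obtain ⟨⟨b, j⟩, rfl⟩ := finProdFinEquiv.surjective i
      change onLab _ (onLab _ (lab b j)) = onLab _ (lab b j)
      by_cases hb : b = 0
      · simp [hb]
      · by_cases hb' : b = 1 <;> simp [hb, hb'])
    have hM2 := hM1.map (onLab fun b i => if b = 2 then lab 0 i else lab b i) (by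
      intro i
      obtain ⟨⟨b, j⟩, rfl⟩ := finProdFinEquiv.surjective i
      change onLab _ (onLab _ (lab b j)) = onLab _ (lab b j)
      by_cases hb : b = 2 <;> simp [hb])
    refine hM2.congr (fun _ _ _ _ => Iff.rfl) ?_
    rintro x (hx | hx)
    · simp [l, c', hx, hgA x hx]
    · simp [l, c', hdr x hx, hgB x hx]

theorem Dec.rz {G : SimpleGraph V} {k : ℕ} {A : Set V} (h : Dec G k A) :
    ∃ c : V → Fin (k + 1), Col G A c ∧ Rz (3 * (k + 1)) A G.Adj (fun x => lab 0 (c x)) := by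
  induction h with
  | single v =>
    refine ⟨fun _ => 0, ?_, Rz.single v _ (G.loopless.irrefl v) _⟩
    rintro x rfl y rfl _ w _
    rfl
  | @union A B C _ _ hd hC hdiv ihA ihB =>
    subst hC
    obtain ⟨cA, hcA, hA⟩ := ihA
    obtain ⟨cB, hcB, hB⟩ := ihB
    obtain ⟨c, hc⟩ := hdiv.col
    exact Rz.combine hd hcA hcB hc hA hB

theorem Dec.expr {G : SimpleGraph V} {k : ℕ} (h : Dec G k univ) :
    ∃ e : KExpr (3 * (k + 1)), Nonempty (e.graph ≃g G) := by
  obtain ⟨c, -, e, f, hf, hr, h1, -⟩ := h.rz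
  refine ⟨e, ⟨⟨Equiv.ofBijective f ⟨hf, ?_⟩, ?_⟩⟩⟩
  · exact range_eq_univ.mp hr
  · intro a b
    exact (h1 a b).symm

theorem Dec.cliqueWidth_le {G : SimpleGraph V} {k : ℕ} (h : Dec G k univ) :
    cliqueWidth G ≤ 3 * (k + 1) :=
  Nat.sInf_le h.expr

/-- A colouring by any small finite type suffices. -/
theorem Div.of_col {G : SimpleGraph V} {k : ℕ} {A : Set V} {α : Type} [Finite α] (c : V → α)
    (hk : Nat.card α ≤ k) (h : ∀ x ∈ A, ∀ y ∈ A, (∃ v ∉ A, G.Adj x v) → (∃ v ∉ A, G.Adj y v) →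
      c x = c y → ∀ v ∉ A, (G.Adj x v ↔ G.Adj y v)) : Div G k A := by
  have e := Finite.equivFin α
  refine ⟨fun x => Fin.castLE hk (e (c x)), fun x hx y hy h1 h2 hxy => h x hx y hy h1 h2 ?_⟩
  have := Fin.castLE_injective hk hxy
  exact e.injective this

theorem Div.mono {G : SimpleGraph V} {k k' : ℕ} {A : Set V} (h : Div G k A) (hk : k ≤ k') :
    Div G k' A := by
  obtain ⟨c, hc⟩ := h
  exact Div.of_col c (by simpa using hk) hc

theorem Dec.mono {G : SimpleGraph V} {k k' : ℕ} {A : Set V} (h : Dec G k A) (hk : k ≤ k') :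
    Dec G k' A := by
  induction h with
  | single v => exact Dec.single v
  | union _ _ hd hC hdiv ihA ihB => exact Dec.union ihA ihB hd hC (hdiv.mono hk)

theorem dec_of_finite [Finite V] (G : SimpleGraph V) {A : Set V} (hA : A.Nonempty) :
    Dec G (Nat.card V) A := by
  have hdiv : ∀ B : Set V, Div G (Nat.card V) B := fun B =>
    Div.of_col (fun x : V => x) le_rfl (fun x _ y _ _ _ hxy v _ => by rw [hxy])
  have key : ∀ n : ℕ, ∀ B : Set V, B.ncard = n → B.Nonempty → Dec G (Nat.card V) B := by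
    intro n
    induction n with
    | zero =>
      intro B hB hne
      rw [Set.ncard_eq_zero (toFinite _)] at hB
      exact absurd hB hne.ne_empty
    | succ n ih =>
      intro B hB hne
      obtain ⟨x, hx⟩ := hne
      by_cases h : (B \ {x}).Nonempty
      · refine Dec.union (Dec.single x) (ih (B \ {x}) ?_ h) disjoint_sdiff_right
          (union_sdiff_cancel (by simpa using hx)) (hdiv B)
        rw [Set.ncard_sdiff_singleton_of_mem hx, hB]
        rfl
      · have : B = {x} := by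
          apply subset_antisymm _ (by simpa using hx)
          intro y hy
          by_contra hne
          exact h ⟨y, hy, hne⟩
        rw [this]
        exact Dec.single x
  exact key _ A rfl hA

theorem exists_expr [Finite V] [Nonempty V] (G : SimpleGraph V) :
    ∃ k, ∃ e : KExpr k, Nonempty (e.graph ≃g G) :=
  ⟨_, (dec_of_finite G (A := univ) univ_nonempty).expr⟩

/-- From a clique-width bound to a cut. -/
theorem exists_ldiv_of_cliqueWidth [Finite V] [Nonempty V] {G : SimpleGraph V} {k : ℕ}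
    (hk : cliqueWidth G ≤ k) (S : Set V) (m : ℕ) (hm : 1 ≤ m) (hS : m < S.ncard) :
    ∃ A : Set V, m < (A ∩ S).ncard ∧ (A ∩ S).ncard ≤ 2 * m ∧ LDiv G k A := by
  have hne : {k | ∃ e : KExpr k, Nonempty (e.graph ≃g G)}.Nonempty := exists_expr G
  obtain ⟨e, he⟩ := Nat.sInf_mem hne
  obtain ⟨A, h1, h2, c, hc⟩ := exists_ldiv_of_expr he S m hm hS
  exact ⟨A, h1, h2, fun x => Fin.castLE hk (c x), fun x y hxy =>
    hc x y (Fin.castLE_injective hk hxy)⟩

end Pool.Agent.Work.MP_80fcda_co
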