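import Pool.Agent.Work.MP_80fcda_co.XCut

/-!
# Small connected sets with at least four outside neighbours
-/

set_option autoImplicit false

namespace Pool.Agent.Work.MP_80fcda_co

open Set

variable {V : Type} {G : SimpleGraph V}

theorem mem_nbr_insert {Z : Set V} {x n : V} (hx : x ∈ nbr G Z) (hne : x ≠ n) :
    x ∈ nbr G (insert n Z) := by
  refine ⟨?_, ?_⟩
  · rintro (h | h)
    · exact hne h
    · exact hx.1 h
  · obtain ⟨a, ha, hax⟩ := hx.2
    exact ⟨a, Or.inr ha, hax⟩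

theorem mem_nbr_insert' {Z : Set V} {x n : V} (hxZ : x ∉ Z) (h : G.Adj n x) :
    x ∈ nbr G (insert n Z) := by
  refine ⟨?_, n, Or.inl rfl, h⟩
  rintro (h' | h')
  · exact h.ne h'.symm
  · exact hxZ h'

theorem comp_insert_eadj (h2 : TwoCon G) {Z K : Set V} {u : V} (hZ : Con G Zᶜ)
    (hZne : Z.Nonempty) (hu : u ∉ Z) (hK : IsComp G (insert u Z)ᶜ K) :
    EAdj G {u} K ∧ EAdj G Z K := by
  have e : (insert u Z)ᶜ = Zᶜ \ {u} := by
    ext x
    simp only [mem_compl_iff, mem_insert_iff, not_or, mem_sdiff, mem_singleton_iff]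
    tauto
  constructor
  · rw [e] at hK
    exact ((hZ.eadj_comp hK ⟨u, hu, rfl⟩).mono subset_rfl inter_subset_right).symm
  · by_contra hcon
    obtain ⟨z, hz⟩ := hZne
    have hall := h2.eq_compl (K := K) (v := u) hK.con.1 (fun h => hK.subset h (Or.inl rfl)) (by
      intro a ha b hb hab
      by_contra hbu
      refine hb (hK.closed a ha b ?_ hab)
      rintro (h | h)
      · exact hbu h
      · exact hcon ⟨b, h, a, ha, hab.symm⟩)
    refine hK.subset (hall z ?_) (Or.inr hz)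
    rintro rfl
    exact hu hz

theorem Sm.dec_of_cut [Finite V] [Nonempty V] {m : ℕ} {Z : Set V} {u : V} (hZ : Sm G m Z)
    (hK : ∀ K, IsComp G (insert u Z)ᶜ K → (nbr G K).ncard ≤ m + 1 → Dec G (2 ^ (m + 2)) K) :
    Dec G (2 ^ (m + 3)) univ := by
  obtain ⟨W0, h0, hm, h1, hd⟩ := hZ.ex
  have hm' : (insert u W0).ncard ≤ m + 1 := by
    have := ncard_insert_le u W0
    omega
  have h1' : ∀ a ∈ insert u Z, a ∉ insert u W0 → ∀ b, G.Adj a b → b ∈ insert u Z := by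
    rintro a (rfl | ha) ha0 b hab
    · exact absurd (Or.inl rfl) ha0
    · exact Or.inr (h1 a ha (fun h => ha0 (Or.inr h)) b hab)
  refine dec_assemble (m := m + 1) (insert_subset_insert h0) hm' h1' ?_ fun K hKc => ?_
  · rintro a (rfl | ha) ha0
    · exact absurd (Or.inl rfl) ha0
    · exact hd a ha (fun h => ha0 (Or.inr h))
  · exact (hK K hKc (nbr_ncard_le hm' h1' hKc)).mono (Nat.pow_le_pow_right (by norm_num) (by omega))

theorem Sm.three [Finite V] (h2 : TwoCon G) (hno : ¬ ContractsTo coTwoP1P3 G) {m : ℕ}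
    {Z : Set V} {u : V} (hZ : Sm G m Z) (hZc : Con G Zᶜ) (hu : u ∉ Z) {K1 K2 K3 : Set V}
    (h1 : IsComp G (insert u Z)ᶜ K1) (hK2 : IsComp G (insert u Z)ᶜ K2)
    (h3 : IsComp G (insert u Z)ᶜ K3) (h12 : K1 ≠ K2) (h13 : K1 ≠ K3) (h23 : K2 ≠ K3) :
    Dec G (2 ^ (m + 3)) univ := by
  have : Nonempty V := ⟨u⟩
  refine hZ.dec_of_cut (u := u) fun K hK hm => ?_
  obtain ⟨C, L, hC, hL, hKC, hKL, hCL⟩ : ∃ C L, IsComp G (insert u Z)ᶜ C ∧
      IsComp G (insert u Z)ᶜ L ∧ K ≠ C ∧ K ≠ L ∧ C ≠ L := by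
    by_cases e1 : K = K1
    · exact ⟨K2, K3, hK2, h3, e1 ▸ h12, e1 ▸ h13, h23⟩
    · by_cases e2 : K = K2
      · exact ⟨K1, K3, h1, h3, e1, e2 ▸ h23, h13⟩
      · exact ⟨K1, K2, h1, hK2, e1, e2, h12⟩
  have aK := comp_insert_eadj h2 hZc hZ.con.1 hu hK
  have aC := comp_insert_eadj h2 hZc hZ.con.1 hu hC
  have aL := comp_insert_eadj h2 hZc hZ.con.1 hu hL
  have hsub : ∀ M, IsComp G (insert u Z)ᶜ M → M ≠ L → IsComp G ((Z ∪ L) ∪ ({u} : Set V))ᶜ M := by
    intro M hM hne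
    refine ⟨?_, hM.con, ?_⟩
    · rintro x hx ((h | h) | h)
      · exact hM.subset hx (Or.inr h)
      · exact Set.disjoint_left.mp (hM.disjoint_of_ne hL hne) hx h
      · exact hM.subset hx (Or.inl h)
    · intro x hx y hy hxy
      refine hM.closed x hx y ?_ hxy
      rintro (h | h)
      · exact hy (Or.inr h)
      · exact hy (Or.inl (Or.inl h))
  refine dec_comp_X h2 hno (hZ.con.union hL.con aL.2) (con_singleton u) ?_
    (aL.1.symm.mono subset_union_right subset_rfl) (hsub K hK hKL) (hsub C hC hCL) hKC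
    (aC.2.mono subset_union_left subset_rfl) aC.1 (aK.2.mono subset_union_left subset_rfl) aK.1 hm
  rw [disjoint_singleton_right]
  rintro (h | h)
  · exact hu h
  · exact hL.subset h (Or.inl rfl)

theorem Sm.two [Finite V] (h2 : TwoCon G) (hno : ¬ ContractsTo coTwoP1P3 G) {m : ℕ}
    {Z : Set V} {u : V} (hZ : Sm G m Z) (hZc : Con G Zᶜ) (hu : u ∉ Z)
    (hnc : ¬ Con G (insert u Z)ᶜ)
    (hrich : ∀ K, IsComp G (insert u Z)ᶜ K → ∃ x ∈ K, ∃ y ∈ K, x ≠ y ∧ x ∈ nbr G Z ∧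
      y ∈ nbr G Z) : Dec G (2 ^ (m + 3)) univ := by
  have : Nonempty V := ⟨u⟩
  refine hZ.dec_of_cut (u := u) fun K hK hm => ?_
  obtain ⟨C, hC, hKC⟩ := exists_other_comp hK hnc
  obtain ⟨x, hx, y, hy, hxy, hxZ, hyZ⟩ := hrich C hC
  obtain ⟨C1, C2, hCC, hdC, hC1, hC2, e12, hx1, hy2⟩ := hC.con.split hx hy hxy
  have aK := comp_insert_eadj h2 hZc hZ.con.1 hu hK
  have aC := comp_insert_eadj h2 hZc hZ.con.1 hu hC
  have core : ∀ C1 C2 : Set V, C1 ∪ C2 = C → Disjoint C1 C2 → Con G C1 → Con G C2 →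
      EAdj G C1 C2 → EAdj G Z C1 → EAdj G Z C2 → EAdj G {u} C1 → Dec G (2 ^ (m + 2)) K := by
    intro C1 C2 hCC hdC hC1 hC2 e12 eZ1 eZ2 eu
    have s1 : C1 ⊆ C := hCC ▸ subset_union_left
    have s2 : C2 ⊆ C := hCC ▸ subset_union_right
    have hKC' := hK.disjoint_of_ne hC hKC
    refine dec_comp_X h2 hno (S0 := Z) (T0 := {u} ∪ C1) (C := C2) hZ.con
      ((con_singleton u).union hC1 eu) ?_ (eZ1.mono subset_rfl subset_union_right) ?_ ?_ ?_
      eZ2 (e12.mono subset_union_right subset_rfl) aK.2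
      (aK.1.mono subset_union_left subset_rfl) hm
    · rw [disjoint_union_right, disjoint_singleton_right]
      exact ⟨hu, Set.disjoint_left.mpr fun z hz hzC => hC.subset (s1 hzC) (Or.inr hz)⟩
    · refine ⟨?_, hK.con, ?_⟩
      · rintro z hz (h | h | h)
        · exact hK.subset hz (Or.inr h)
        · exact hK.subset hz (Or.inl h)
        · exact Set.disjoint_left.mp hKC' hz (s1 h)
      · intro a ha b hb hab
        refine hK.closed a ha b ?_ hab
        rintro (h | h)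
        · exact hb (Or.inr (Or.inl h))
        · exact hb (Or.inl h)
    · refine ⟨?_, hC2, ?_⟩
      · rintro z hz (h | h | h)
        · exact hC.subset (s2 hz) (Or.inr h)
        · exact hC.subset (s2 hz) (Or.inl h)
        · exact Set.disjoint_left.mp hdC h hz
      · intro a ha b hb hab
        have hbC : b ∈ C := by
          refine hC.closed a (s2 ha) b ?_ hab
          rintro (h | h)
          · exact hb (Or.inr (Or.inl h))
          · exact hb (Or.inl h)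
        rw [← hCC] at hbC
        rcases hbC with h | h
        · exact absurd (Or.inr (Or.inr h)) hb
        · exact h
    · rintro rfl
      obtain ⟨z, hz⟩ := hK.con.1
      exact Set.disjoint_left.mp hKC' hz (s2 hz)
  have eZ1 : EAdj G Z C1 := by
    obtain ⟨-, a, ha, hax⟩ := hxZ
    exact ⟨a, ha, x, hx1, hax⟩
  have eZ2 : EAdj G Z C2 := by
    obtain ⟨-, a, ha, hay⟩ := hyZ
    exact ⟨a, ha, y, hy2, hay⟩
  have hu' := aC.1
  rw [← hCC, eadj_union_right] at hu'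
  rcases hu' with h | h
  · exact core C1 C2 hCC hdC hC1 hC2 e12 eZ1 eZ2 h
  · exact core C2 C1 (by rw [union_comm, hCC]) hdC.symm hC2 hC1 e12.symm eZ2 eZ1 h

/-- `G` is a counterexample: 2-connected, without a contraction to the complement of
`2P₁ + P₃`, and without a good decomposition. -/
structure Rob (G : SimpleGraph V) : Prop where
  two : TwoCon G
  no : ¬ ContractsTo coTwoP1P3 G
  dec : ¬ Dec G (2 ^ 16) univ

variable [Finite V]

theorem Rob.con (h : Rob G) {m : ℕ} {W : Set V} (hW : Sm G m W) (hm : m ≤ 12) : Con G Wᶜ := by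
  by_contra hc
  exact h.dec ((hW.dec h.two h.no hc).mono (Nat.pow_le_pow_right (by norm_num) (by omega)))

theorem Rob.out (h : Rob G) {m : ℕ} {Z : Set V} {p : V} (hZ : Sm G m Z) (hm : m ≤ 11)
    (hp : p ∈ nbr G Z) : ∃ x, x ∉ Z ∧ G.Adj p x := by
  have h1 := h.con hZ (by omega)
  obtain ⟨y, hy⟩ := (h.con (hZ.ins hp) (by omega)).1
  obtain ⟨x, hx, hpx⟩ := h1.exists_adj_of_ne (u := p) (v := y) hp.1 (fun h => hy (Or.inr h))
    (fun h => hy (Or.inl h.symm))
  exact ⟨x, hx, hpx⟩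

/-- The third tool. -/
theorem Rob.four (h : Rob G) {m : ℕ} {Z : Set V} (hZ : Sm G m Z) (hm : m ≤ 10)
    {n1 n2 n3 n4 w : V} (h1 : n1 ∈ nbr G Z)
    (h2 : n2 ∈ nbr G Z)
    (h3 : n3 ∈ nbr G Z)
    (h4 : n4 ∈ nbr G Z) (h12 : n1 ≠ n2) (h13 : n1 ≠ n3)
    (h23 : n2 ≠ n3) (h14 : n1 ≠ n4) (h24 : n2 ≠ n4) (h34 : n3 ≠ n4) (hw : w ∉ Z)
    (hadj : G.Adj n4 w) (huniq : ∀ y, y ∉ Z → G.Adj n4 y → y = w) : False := by
  have hZ' := hZ.ins h4
  have hF := h.con hZ' (by omega)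
  have f1 : n1 ∈ (insert n4 Z)ᶜ := (mem_nbr_insert h1 h14).1
  have f2 : n2 ∈ (insert n4 Z)ᶜ := (mem_nbr_insert h2 h24).1
  have f3 : n3 ∈ (insert n4 Z)ᶜ := (mem_nbr_insert h3 h34).1
  rcases rooted_triangle (G := G) _ (insert n4 Z)ᶜ n1 n2 n3 rfl hF f1 f2 f3 h12 h13 h23 with
    ⟨H1, H2, H3, hU, d12, d13, d23, c1, c2, c3, k1, k2, k3, e12, e13, e23⟩ | ⟨u, hu⟩
  · have tri : ∀ (H1 H2 H3 : Set V) (n1 n2 n3 : V), H1 ∪ H2 ∪ H3 = (insert n4 Z)ᶜ →
        Disjoint H1 H2 → Disjoint H1 H3 → Disjoint H2 H3 → Con G H1 → Con G H2 → Con G H3 →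
        n1 ∈ H1 → n2 ∈ H2 → n3 ∈ H3 → EAdj G H1 H2 → EAdj G H1 H3 → EAdj G H2 H3 →
        n1 ∈ nbr G Z → n2 ∈ nbr G Z →
        n3 ∈ nbr G Z → w ∈ H1 → False := by
      intro H1 H2 H3 n1 n2 n3 hU d12 d13 d23 c1 c2 c3 k1 k2 k3 e12 e13 e23 h1 h2 h3 hwH
      have s1 : H1 ⊆ (insert n4 Z)ᶜ := by
        rw [← hU]; exact subset_union_left.trans subset_union_left
      have s2 : H2 ⊆ (insert n4 Z)ᶜ := by
        rw [← hU]; exact subset_union_right.trans subset_union_left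
      have s3 : H3 ⊆ (insert n4 Z)ᶜ := by rw [← hU]; exact subset_union_right
      have dz : ∀ H ⊆ (insert n4 Z)ᶜ, Disjoint Z H := fun H hH =>
        Set.disjoint_left.mpr fun x hx hxH => hH hxH (Or.inr hx)
      have dn : ∀ H ⊆ (insert n4 Z)ᶜ, Disjoint H {n4} := fun H hH => by
        rw [disjoint_singleton_right]
        exact fun hx => hH hx (Or.inl rfl)
      have ez : ∀ {n : V} {H : Set V}, n ∈ nbr G Z → n ∈ H →
          EAdj G Z H := by
        rintro n H ⟨-, a, ha, han⟩ hn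
        exact ⟨a, ha, n, hn, han⟩
      have nn : ∀ H ⊆ (insert n4 Z)ᶜ, Disjoint H1 H → ¬ EAdj G {n4} H := by
        rintro H hH hd ⟨a, ha, b, hb, hab⟩
        rw [mem_singleton_iff] at ha
        subst ha
        have := huniq b (fun h => hH hb (Or.inr h)) hab
        exact Set.disjoint_left.mp hd hwH (this ▸ hb)
      refine h.no (X_of_bags (B0 := Z) (B1 := H1) (B2 := H2) (B3 := H3) (B4 := {n4}) ?_
        (dz _ s1) (dz _ s2) (dz _ s3) ?_ d12 d13 (dn _ s1) d23 (dn _ s2) (dn _ s3) hZ.con c1 c2 c3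
        (con_singleton n4) (ez h1 k1) (ez h2 k2) (ez h3 k3) e12 e13 e23 ?_
        ⟨n4, rfl, w, hwH, hadj⟩ (nn _ s2 d12) (nn _ s3 d13))
      · intro x
        by_cases hx : x ∈ insert n4 Z
        · rcases hx with hx | hx
          · exact Or.inr (Or.inr (Or.inr (Or.inr hx)))
          · exact Or.inl hx
        · have hx' : x ∈ (insert n4 Z)ᶜ := hx
          rw [← hU] at hx'
          rcases hx' with (hx' | hx') | hx'
          · exact Or.inr (Or.inl hx')
          · exact Or.inr (Or.inr (Or.inl hx'))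
          · exact Or.inr (Or.inr (Or.inr (Or.inl hx')))
      · rw [disjoint_singleton_right]
        exact h4.1
      · obtain ⟨-, a, ha, han⟩ := h4
        exact ⟨n4, rfl, a, ha, han.symm⟩
    have hwF : w ∈ (insert n4 Z)ᶜ := by
      rintro (h' | h')
      · exact hadj.ne h'.symm
      · exact hw h'
    rw [← hU] at hwF
    rcases hwF with (hwF | hwF) | hwF
    · exact tri H1 H2 H3 n1 n2 n3 hU d12 d13 d23 c1 c2 c3 k1 k2 k3 e12 e13 e23 h1 h2 h3 hwF
    · exact tri H2 H1 H3 n2 n1 n3 (by rw [← hU, union_comm H2]) d12.symm d23 d13 c2 c1 c3 k2 k1 k3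
        e12.symm e23 e13 h2 h1 h3 hwF
    · exact tri H3 H1 H2 n3 n1 n2 (by rw [← hU, union_assoc, union_comm H3]) d13.symm d23.symm
        d12 c3 c1 c2 k3 k1 k2 e13.symm e23.symm e12 h3 h1 h2 hwF
  · -- separated by `u`
    have huF : u ∈ (insert n4 Z)ᶜ := by
      by_contra h'
      exact (hu _ (fun x hx => ⟨hx, fun h'' => h' (h'' ▸ hx)⟩) hF).1 ⟨f1, f2⟩
    have e : (insert u (insert n4 Z))ᶜ = (insert n4 Z)ᶜ \ {u} := by
      ext x
      simp only [mem_compl_iff, mem_insert_iff, not_or, mem_sdiff, mem_singleton_iff]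
      tauto
    have hins : u ∈ nbr G (insert n4 Z) →
        Con G ((insert n4 Z)ᶜ \ {u}) := by
      intro hn
      rw [← e]
      exact h.con (hZ'.ins hn) (by omega)
    by_cases e1 : u = n1
    · have hc := hins (e1 ▸ mem_nbr_insert h1 h14)
      exact (hu _ subset_rfl hc).2.2 ⟨⟨f2, fun h' => h12 (e1 ▸ h').symm⟩,
        ⟨f3, fun h' => h13 (e1 ▸ h').symm⟩⟩
    by_cases e2 : u = n2
    · have hc := hins (e2 ▸ mem_nbr_insert h2 h24)
      exact (hu _ subset_rfl hc).2.1 ⟨⟨f1, fun h' => e1 (show n1 = u from h').symm⟩,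
        ⟨f3, fun h' => h23 (e2 ▸ h').symm⟩⟩
    by_cases e3 : u = n3
    · have hc := hins (e3 ▸ mem_nbr_insert h3 h34)
      exact (hu _ subset_rfl hc).1 ⟨⟨f1, fun h' => e1 (show n1 = u from h').symm⟩,
        ⟨f2, fun h' => e2 (show n2 = u from h').symm⟩⟩
    rw [← e] at hu
    have g : ∀ {n : V}, n ∈ (insert n4 Z)ᶜ → u ≠ n → n ∈ (insert u (insert n4 Z))ᶜ := by
      intro n hn hne
      rw [e]
      exact ⟨hn, fun h' => hne (show n = u from h').symm⟩
    obtain ⟨K1, hK1, kk1⟩ := exists_comp (G := G) (g f1 e1)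
    obtain ⟨K2, hK2, kk2⟩ := exists_comp (G := G) (g f2 e2)
    obtain ⟨K3, hK3, kk3⟩ := exists_comp (G := G) (g f3 e3)
    refine h.dec ((hZ'.three h.two h.no hF huF hK1 hK2 hK3 ?_ ?_ ?_).mono
      (Nat.pow_le_pow_right (by norm_num) (by omega)))
    · rintro rfl; exact (hu K1 hK1.subset hK1.con).1 ⟨kk1, kk2⟩
    · rintro rfl; exact (hu K1 hK1.subset hK1.con).2.1 ⟨kk1, kk3⟩
    · rintro rfl; exact (hu K2 hK2.subset hK2.con).2.2 ⟨kk2, kk3⟩

end Pool.Agent.Work.MP_80fcda_co
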