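import Pool.Agent.Work.MP_80fcda_co.XCase

/-!
# Case A: a small connected set with at least four outside neighbours
-/

set_option autoImplicit false

namespace Pool.Agent.Work.MP_80fcda_co

open Set

variable {V : Type} {G : SimpleGraph V}

/-- A path of four bags and two further bags joined to the middle ones, first case. -/
theorem X_one [Finite V] {a b c d Q1 Q2 : Set V}
    (hcov : ∀ x, x ∈ a ∨ x ∈ b ∨ x ∈ c ∨ x ∈ d ∨ x ∈ Q1 ∨ x ∈ Q2)
    (ca : Con G a) (cb : Con G b) (cc : Con G c) (cd : Con G d) (c1 : Con G Q1) (c2 : Con G Q2)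
    (dab : Disjoint a b) (dac : Disjoint a c) (dad : Disjoint a d) (dbc : Disjoint b c)
    (dbd : Disjoint b d) (da1 : Disjoint a Q1) (da2 : Disjoint a Q2)
    (db1 : Disjoint b Q1) (db2 : Disjoint b Q2) (dc1 : Disjoint c Q1) (dc2 : Disjoint c Q2)
    (dd1 : Disjoint d Q1) (dd2 : Disjoint d Q2) (d12 : Disjoint Q1 Q2)
    (eab : EAdj G a b) (ebc : EAdj G b c) (ecd : EAdj G c d) (nac : ¬ EAdj G a c)
    (nad : ¬ EAdj G a d) (e12 : EAdj G Q1 Q2) (b1 : EAdj G b Q1)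
    (b2 : EAdj G b Q2) (k1 : EAdj G c Q1) (k2 : EAdj G c Q2) (a1 : EAdj G a Q1)
    (a2 : ¬ EAdj G a Q2) : ContractsTo coTwoP1P3 G := by
  refine X_of_bags (B0 := b) (B1 := Q1) (B2 := c ∪ d) (B3 := Q2) (B4 := a) ?_ db1
    (disjoint_union_right.mpr ⟨dbc, dbd⟩) db2 dab.symm
    (disjoint_union_right.mpr ⟨dc1.symm, dd1.symm⟩) d12 da1.symm
    (disjoint_union_left.mpr ⟨dc2, dd2⟩)
    (disjoint_union_left.mpr ⟨dac.symm, dad.symm⟩) da2.symm cb c1 (cc.union cd ecd) c2 ca b1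
    (ebc.mono subset_rfl subset_union_left) b2 (k1.symm.mono subset_rfl subset_union_left) e12
    (k2.mono subset_union_left subset_rfl) eab a1 ?_ a2
  · intro x
    rcases hcov x with h | h | h | h | h | h
    · exact Or.inr (Or.inr (Or.inr (Or.inr h)))
    · exact Or.inl h
    · exact Or.inr (Or.inr (Or.inl (Or.inl h)))
    · exact Or.inr (Or.inr (Or.inl (Or.inr h)))
    · exact Or.inr (Or.inl h)
    · exact Or.inr (Or.inr (Or.inr (Or.inl h)))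
  · rw [eadj_union_right]
    rintro (h | h)
    · exact nac h
    · exact nad h

/-- Second case. -/
theorem X_both [Finite V] {a b c d Q1 Q2 : Set V}
    (hcov : ∀ x, x ∈ a ∨ x ∈ b ∨ x ∈ c ∨ x ∈ d ∨ x ∈ Q1 ∨ x ∈ Q2)
    (ca : Con G a) (cb : Con G b) (cc : Con G c) (cd : Con G d) (c1 : Con G Q1) (c2 : Con G Q2)
    (dab : Disjoint a b) (dac : Disjoint a c) (dad : Disjoint a d) (dbc : Disjoint b c)
    (dbd : Disjoint b d) (dcd : Disjoint c d) (da1 : Disjoint a Q1) (da2 : Disjoint a Q2)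
    (db2 : Disjoint b Q2) (dc1 : Disjoint c Q1) (dc2 : Disjoint c Q2)
    (dd1 : Disjoint d Q1) (dd2 : Disjoint d Q2) (d12 : Disjoint Q1 Q2)
    (ecd : EAdj G c d) (nac : ¬ EAdj G a c)
    (nad : ¬ EAdj G a d) (e12 : EAdj G Q1 Q2) (b1 : EAdj G b Q1)
    (k1 : EAdj G c Q1) (k2 : EAdj G c Q2) (a1 : EAdj G a Q1)
    (a2 : EAdj G a Q2) (l1 : EAdj G d Q1) (l2 : EAdj G d Q2) : ContractsTo coTwoP1P3 G := by
  refine X_of_bags (B0 := Q2) (B1 := Q1 ∪ b) (B2 := c) (B3 := d) (B4 := a) ?_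
    (disjoint_union_right.mpr ⟨d12.symm, db2.symm⟩) dc2.symm dd2.symm da2.symm
    (disjoint_union_left.mpr ⟨dc1.symm, dbc⟩) (disjoint_union_left.mpr ⟨dd1.symm, dbd⟩)
    (disjoint_union_left.mpr ⟨da1.symm, dab.symm⟩) dcd dac.symm dad.symm c2
    (c1.union cb b1.symm) cc cd ca (e12.symm.mono subset_rfl subset_union_left) k2.symm l2.symm
    (k1.symm.mono subset_union_left subset_rfl) (l1.symm.mono subset_union_left subset_rfl) ecd
    a2 (a1.mono subset_rfl subset_union_left) nac nad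
  intro x
  rcases hcov x with h | h | h | h | h | h
  · exact Or.inr (Or.inr (Or.inr (Or.inr h)))
  · exact Or.inr (Or.inl (Or.inr h))
  · exact Or.inr (Or.inr (Or.inl h))
  · exact Or.inr (Or.inr (Or.inr (Or.inl h)))
  · exact Or.inr (Or.inl (Or.inl h))
  · exact Or.inl h

variable [Finite V]

/-- A path of four bags whose middle bags have two neighbours each in the rest. -/
theorem Rob.bagP4 (h : Rob G) {a b c d : Set V} {m : ℕ} (hm : m ≤ 11)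
    (hP : Sm G m (a ∪ b ∪ c ∪ d)) (ca : Con G a) (cb : Con G b) (cc : Con G c) (cd : Con G d)
    (dab : Disjoint a b) (dac : Disjoint a c) (dad : Disjoint a d) (dbc : Disjoint b c)
    (dbd : Disjoint b d) (dcd : Disjoint c d)
    (eab : EAdj G a b) (ebc : EAdj G b c) (ecd : EAdj G c d) (nac : ¬ EAdj G a c)
    (nad : ¬ EAdj G a d) (nbd : ¬ EAdj G b d)
    (haQ : EAdj G a (a ∪ b ∪ c ∪ d)ᶜ) (hdQ : EAdj G d (a ∪ b ∪ c ∪ d)ᶜ)
    {b1 b2 c1 c2 : V} (hb1 : b1 ∉ a ∪ b ∪ c ∪ d) (hb2 : b2 ∉ a ∪ b ∪ c ∪ d)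
    (hc1 : c1 ∉ a ∪ b ∪ c ∪ d) (hc2 : c2 ∉ a ∪ b ∪ c ∪ d) (hb12 : b1 ≠ b2) (hc12 : c1 ≠ c2)
    (hbb1 : ∃ x ∈ b, G.Adj x b1) (hbb2 : ∃ x ∈ b, G.Adj x b2) (hcc1 : ∃ x ∈ c, G.Adj x c1)
    (hcc2 : ∃ x ∈ c, G.Adj x c2) : False := by
  have hQ := h.con hP (by omega)
  have : Nonempty V := ⟨b1⟩
  have dP : ∀ x, (x ∈ a ∨ x ∈ b ∨ x ∈ c ∨ x ∈ d) → x ∈ a ∪ b ∪ c ∪ d := by
    rintro x (h | h | h | h)
    · exact Or.inl (Or.inl (Or.inl h))
    · exact Or.inl (Or.inl (Or.inr h))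
    · exact Or.inl (Or.inr h)
    · exact Or.inr h
  -- no double split
  have nosplit : ∀ Q1 Q2 : Set V, Q1 ∪ Q2 = (a ∪ b ∪ c ∪ d)ᶜ → Disjoint Q1 Q2 → Con G Q1 →
      Con G Q2 → EAdj G b Q1 → EAdj G b Q2 → EAdj G c Q1 → EAdj G c Q2 → False := by
    intro Q1 Q2 hQQ d12 c1 c2 eb1 eb2 ec1 ec2
    have s1 : Q1 ⊆ (a ∪ b ∪ c ∪ d)ᶜ := hQQ ▸ subset_union_left
    have s2 : Q2 ⊆ (a ∪ b ∪ c ∪ d)ᶜ := hQQ ▸ subset_union_right
    have e12 : EAdj G Q1 Q2 := hQ.eadj_of_partition hQQ d12 c1.1 c2.1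
    have dd : ∀ (X Y : Set V), (X = a ∨ X = b ∨ X = c ∨ X = d) → Y ⊆ (a ∪ b ∪ c ∪ d)ᶜ →
        Disjoint X Y := by
      intro X Y hX hY
      rw [Set.disjoint_left]
      intro x hx hxY
      refine hY hxY (dP x ?_)
      rcases hX with rfl | rfl | rfl | rfl
      · exact Or.inl hx
      · exact Or.inr (Or.inl hx)
      · exact Or.inr (Or.inr (Or.inl hx))
      · exact Or.inr (Or.inr (Or.inr hx))
    have hcov : ∀ x, x ∈ a ∨ x ∈ b ∨ x ∈ c ∨ x ∈ d ∨ x ∈ Q1 ∨ x ∈ Q2 := by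
      intro x
      by_cases hx : x ∈ a ∪ b ∪ c ∪ d
      · rcases hx with ((hx | hx) | hx) | hx
        · exact Or.inl hx
        · exact Or.inr (Or.inl hx)
        · exact Or.inr (Or.inr (Or.inl hx))
        · exact Or.inr (Or.inr (Or.inr (Or.inl hx)))
      · have hx' : x ∈ (a ∪ b ∪ c ∪ d)ᶜ := hx
        rw [← hQQ] at hx'
        rcases hx' with hx' | hx'
        · exact Or.inr (Or.inr (Or.inr (Or.inr (Or.inl hx'))))
        · exact Or.inr (Or.inr (Or.inr (Or.inr (Or.inr hx'))))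
    have da1 := dd a Q1 (Or.inl rfl) s1
    have da2 := dd a Q2 (Or.inl rfl) s2
    have db1 := dd b Q1 (Or.inr (Or.inl rfl)) s1
    have db2 := dd b Q2 (Or.inr (Or.inl rfl)) s2
    have dc1 := dd c Q1 (Or.inr (Or.inr (Or.inl rfl))) s1
    have dc2 := dd c Q2 (Or.inr (Or.inr (Or.inl rfl))) s2
    have dd1 := dd d Q1 (Or.inr (Or.inr (Or.inr rfl))) s1
    have dd2 := dd d Q2 (Or.inr (Or.inr (Or.inr rfl))) s2
    rw [← hQQ, eadj_union_right] at haQ hdQ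
    by_cases ha1 : EAdj G a Q1
    · by_cases ha2 : EAdj G a Q2
      · by_cases hd1 : EAdj G d Q1
        · by_cases hd2 : EAdj G d Q2
          · exact h.no (X_both hcov ca cb cc cd c1 c2 dab dac dad dbc dbd dcd da1 da2 db2 dc1 dc2
              dd1 dd2 d12 ecd nac nad e12 eb1 ec1 ec2 ha1 ha2 hd1 hd2)
          · exact h.no (X_one (a := d) (b := c) (c := b) (d := a) (Q1 := Q1) (Q2 := Q2)
              (fun x => by have := hcov x; tauto) cd cc cb ca c1 c2 dcd.symm dbd.symm dad.symm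
              dbc.symm dac.symm dd1 dd2 dc1 dc2 db1 db2 da1 da2 d12 ecd.symm ebc.symm eab.symm
              (fun h => nbd h.symm) (fun h => nad h.symm) e12 ec1 ec2 eb1 eb2 hd1 hd2)
        · have hd2 := hdQ.resolve_left hd1
          exact h.no (X_one (a := d) (b := c) (c := b) (d := a) (Q1 := Q2) (Q2 := Q1)
              (fun x => by have := hcov x; tauto) cd cc cb ca c2 c1 dcd.symm dbd.symm dad.symm
              dbc.symm dac.symm dd2 dd1 dc2 dc1 db2 db1 da2 da1 d12.symm ecd.symm ebc.symm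
              eab.symm (fun h => nbd h.symm) (fun h => nad h.symm) e12.symm ec2 ec1 eb2 eb1 hd2
              hd1)
      · exact h.no (X_one (a := a) (b := b) (c := c) (d := d) (Q1 := Q1) (Q2 := Q2) hcov
          ca cb cc cd c1 c2 dab dac dad dbc dbd da1 da2 db1 db2 dc1 dc2 dd1 dd2 d12 eab ebc ecd
          nac nad e12 eb1 eb2 ec1 ec2 ha1 ha2)
    · have ha2 := haQ.resolve_left ha1
      exact h.no (X_one (a := a) (b := b) (c := c) (d := d) (Q1 := Q2) (Q2 := Q1)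
          (fun x => by have := hcov x; tauto)
          ca cb cc cd c2 c1 dab dac dad dbc dbd da2 da1 db2 db1 dc2 dc1 dd2 dd1 d12.symm eab ebc
          ecd nac nad e12.symm eb2 eb1 ec2 ec1 ha2 ha1)
  have nb : ∀ {x : V} {b : Set V}, (∃ y ∈ b, G.Adj y x) → x ∈ NB G b := by
    rintro x b ⟨y, hy, hyx⟩
    exact ⟨y, hy, hyx.symm⟩
  rcases menger2 (G := G) _ (a ∪ b ∪ c ∪ d)ᶜ ((a ∪ b ∪ c ∪ d)ᶜ ∩ NB G b)
    ((a ∪ b ∪ c ∪ d)ᶜ ∩ NB G c) rfl inter_subset_left inter_subset_left with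
    ⟨u, hu⟩ | ⟨X, Y, hX, hY, hd, hXc, hYc, h1, h2', h3, h4⟩
  swap
  · obtain ⟨B, C', hBC, hdBC, hB, hC', -, hXB, hYC⟩ := hQ.extend hXc hYc hX hY hd
    have e : ∀ {R Z B : Set V}, (Z ∩ ((a ∪ b ∪ c ∪ d)ᶜ ∩ NB G R)).Nonempty → Z ⊆ B →
        EAdj G R B := by
      rintro R Z B ⟨x, hx, -, hx'⟩ hZ
      rw [eadj_iff_NB]
      exact ⟨x, hZ hx, hx'⟩
    exact nosplit B C' hBC hdBC hB hC' (e h1 hXB) (e h3 hYC) (e h2' hXB) (e h4 hYC)
  -- no connected set meets both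
  have sep : ∀ D ⊆ (a ∪ b ∪ c ∪ d)ᶜ \ {u}, Con G D → ∀ x ∈ D, ∀ y ∈ D, (∃ z ∈ b, G.Adj z x) →
      (∃ z ∈ c, G.Adj z y) → False := by
    intro D hD hDc x hx y hy hbx hcy
    exact hu D hD hDc ⟨x, hx, (hD hx).1, nb hbx⟩ ⟨y, hy, (hD hy).1, nb hcy⟩
  have huQ : u ∉ a ∪ b ∪ c ∪ d := by
    intro hu'
    exact sep (a ∪ b ∪ c ∪ d)ᶜ (fun x hx => ⟨hx, fun h => hx ((show x = u from h) ▸ hu')⟩) hQ
      b1 hb1 c1 hc1 hbb1 hcc1
  have e : (insert u (a ∪ b ∪ c ∪ d))ᶜ = (a ∪ b ∪ c ∪ d)ᶜ \ {u} := by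
    ext x
    simp only [mem_compl_iff, mem_insert_iff, not_or, mem_sdiff, mem_singleton_iff]
    tauto
  rw [← e] at sep
  have hmem : ∀ x, x ∉ a ∪ b ∪ c ∪ d → x ≠ u → x ∈ (insert u (a ∪ b ∪ c ∪ d))ᶜ := by
    rintro x hx hxu (h' | h')
    · exact hxu h'
    · exact hx h'
  have hnc : ¬ Con G (insert u (a ∪ b ∪ c ∪ d))ᶜ := by
    intro hc
    obtain ⟨x, hx, hbx⟩ : ∃ x ∈ (insert u (a ∪ b ∪ c ∪ d))ᶜ, ∃ z ∈ b, G.Adj z x := by
      by_cases h1 : b1 = u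
      · exact ⟨b2, hmem b2 hb2 (fun h => hb12 (h1.trans h.symm)), hbb2⟩
      · exact ⟨b1, hmem b1 hb1 h1, hbb1⟩
    obtain ⟨y, hy, hcy⟩ : ∃ y ∈ (insert u (a ∪ b ∪ c ∪ d))ᶜ, ∃ z ∈ c, G.Adj z y := by
      by_cases h1 : c1 = u
      · exact ⟨c2, hmem c2 hc2 (fun h => hc12 (h1.trans h.symm)), hcc2⟩
      · exact ⟨c1, hmem c1 hc1 h1, hcc1⟩
    exact sep _ subset_rfl hc x hx y hy hbx hcy
  have hun : u ∉ nbr G (a ∪ b ∪ c ∪ d) := fun hun => hnc (h.con (hP.ins hun) (by omega))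
  have hne : ∀ x, (∃ z ∈ b, G.Adj z x) ∨ (∃ z ∈ c, G.Adj z x) → x ≠ u := by
    rintro x hx rfl
    apply hun
    refine ⟨huQ, ?_⟩
    rcases hx with ⟨z, hz, hzx⟩ | ⟨z, hz, hzx⟩
    · exact ⟨z, dP z (Or.inr (Or.inl hz)), hzx⟩
    · exact ⟨z, dP z (Or.inr (Or.inr (Or.inl hz))), hzx⟩
  have mb1 := hmem b1 hb1 (hne b1 (Or.inl hbb1))
  have mb2 := hmem b2 hb2 (hne b2 (Or.inl hbb2))
  have mc1 := hmem c1 hc1 (hne c1 (Or.inr hcc1))
  have mc2 := hmem c2 hc2 (hne c2 (Or.inr hcc2))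
  obtain ⟨K1, hK1, k1⟩ := exists_comp (G := G) mb1
  obtain ⟨K2, hK2, k2⟩ := exists_comp (G := G) mc1
  have h12 : K1 ≠ K2 := by
    rintro rfl
    exact sep K1 hK1.subset hK1.con b1 k1 c1 k2 hbb1 hcc1
  by_cases h3 : ∃ K3, IsComp G (insert u (a ∪ b ∪ c ∪ d))ᶜ K3 ∧ K1 ≠ K3 ∧ K2 ≠ K3
  · obtain ⟨K3, hK3, h13, h23⟩ := h3
    exact h.dec ((hP.three h.two h.no hQ huQ hK1 hK2 hK3 h12 h13 h23).mono
      (Nat.pow_le_pow_right (by norm_num) (by omega)))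
  · push Not at h3
    have k1' : b2 ∈ K1 := by
      obtain ⟨K, hK, hk⟩ := exists_comp (G := G) mb2
      by_cases h' : K1 = K
      · exact h' ▸ hk
      · exfalso
        have := h3 K hK h'
        exact sep K2 hK2.subset hK2.con b2 (this ▸ hk) c1 k2 hbb2 hcc1
    have k2' : c2 ∈ K2 := by
      obtain ⟨K, hK, hk⟩ := exists_comp (G := G) mc2
      by_cases h' : K1 = K
      · exfalso
        exact sep K1 hK1.subset hK1.con b1 k1 c2 (h' ▸ hk) hbb1 hcc2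
      · have := h3 K hK h'
        exact this ▸ hk
    refine h.dec ((hP.two h.two h.no hQ huQ hnc ?_).mono
      (Nat.pow_le_pow_right (by norm_num) (by omega)))
    intro K hK
    have nn : ∀ {x : V}, x ∉ a ∪ b ∪ c ∪ d → (∃ z ∈ b, G.Adj z x) ∨ (∃ z ∈ c, G.Adj z x) →
        x ∈ nbr G (a ∪ b ∪ c ∪ d) := by
      intro x hx hx'
      refine ⟨hx, ?_⟩
      rcases hx' with ⟨z, hz, hzx⟩ | ⟨z, hz, hzx⟩
      · exact ⟨z, dP z (Or.inr (Or.inl hz)), hzx⟩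
      · exact ⟨z, dP z (Or.inr (Or.inr (Or.inl hz))), hzx⟩
    by_cases h' : K1 = K
    · subst h'
      exact ⟨b1, k1, b2, k1', hb12, nn hb1 (Or.inl hbb1), nn hb2 (Or.inl hbb2)⟩
    · have := h3 K hK h'
      subst this
      exact ⟨c1, k2, c2, k2', hc12, nn hc1 (Or.inr hcc1), nn hc2 (Or.inr hcc2)⟩

/-- Outside neighbourhoods have no edge plus an isolated vertex. -/
theorem Rob.P2 (h : Rob G) {m : ℕ} {Z : Set V} (hZ : Sm G m Z) (hm : m ≤ 9) {p r s t : V}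
    (hp : p ∈ nbr G Z) (hr : r ∈ nbr G Z) (hs : s ∈ nbr G Z) (ht : t ∈ nbr G Z)
    (hrs : G.Adj r s) (hpr : ¬ G.Adj p r) (hps : ¬ G.Adj p s) (hp1 : p ≠ r) (hp2 : p ≠ s)
    (ht1 : t ≠ p) (ht2 : t ≠ r) (ht3 : t ≠ s) : False := by
  have hr' := mem_nbr_insert hr hp1.symm
  have hs' := mem_nbr_insert (mem_nbr_insert hs hp2.symm) hrs.ne'
  have hW := ((hZ.ins hp).ins hr').ins hs'
  have hR := h.con hW (by omega)
  have htR : t ∈ (insert s (insert r (insert p Z)))ᶜ := by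
    rintro (h' | h' | h' | h')
    · exact ht3 h'
    · exact ht2 h'
    · exact ht1 h'
    · exact ht.1 h'
  have eZ : ∀ {x : V}, x ∈ nbr G Z → EAdj G Z {x} := by
    rintro x ⟨-, a, ha, hax⟩
    exact ⟨a, ha, x, rfl, hax⟩
  obtain ⟨xp, hxpZ, hxp⟩ := h.out hZ (by omega) hp
  obtain ⟨xr, hxrZ, hxr⟩ := h.out (hZ.ins hs) (by omega) (mem_nbr_insert hr hrs.ne)
  obtain ⟨xs, hxsZ, hxs⟩ := h.out (hZ.ins hr) (by omega) (mem_nbr_insert hs hrs.ne')
  refine h.no (X_of_bags (B0 := (insert s (insert r (insert p Z)))ᶜ) (B1 := Z) (B2 := {r})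
    (B3 := {s}) (B4 := {p}) ?_ ?_ ?_ ?_ ?_ ?_ ?_ ?_ ?_ ?_ ?_ hR hZ.con (con_singleton r)
    (con_singleton s) (con_singleton p) ?_ ?_ ?_ (eZ hr) (eZ hs) ?_ ?_ (eZ hp).symm ?_ ?_)
  · intro x
    by_cases hx : x ∈ insert s (insert r (insert p Z))
    · rcases hx with hx | hx | hx | hx
      · exact Or.inr (Or.inr (Or.inr (Or.inl hx)))
      · exact Or.inr (Or.inr (Or.inl hx))
      · exact Or.inr (Or.inr (Or.inr (Or.inr hx)))
      · exact Or.inr (Or.inl hx)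
    · exact Or.inl hx
  · exact Set.disjoint_left.mpr fun x hx hxZ => hx (Or.inr (Or.inr (Or.inr hxZ)))
  · rw [disjoint_singleton_right]; exact fun hx => hx (Or.inr (Or.inl rfl))
  · rw [disjoint_singleton_right]; exact fun hx => hx (Or.inl rfl)
  · rw [disjoint_singleton_right]; exact fun hx => hx (Or.inr (Or.inr (Or.inl rfl)))
  · rw [disjoint_singleton_right]; exact hr.1
  · rw [disjoint_singleton_right]; exact hs.1
  · rw [disjoint_singleton_right]; exact hp.1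
  · rw [disjoint_singleton_right]; exact fun hx => hrs.ne' hx
  · rw [disjoint_singleton_right]; exact fun hx => hp1 hx
  · rw [disjoint_singleton_right]; exact fun hx => hp2 hx
  · obtain ⟨-, a, ha, hat⟩ := ht
    exact ⟨t, htR, a, ha, hat.symm⟩
  · refine ⟨xr, ?_, r, rfl, hxr.symm⟩
    rintro (h' | h' | h' | h')
    · exact hxrZ (Or.inl h')
    · exact hxr.ne h'.symm
    · exact hpr (h' ▸ hxr).symm
    · exact hxrZ (Or.inr h')
  · refine ⟨xs, ?_, s, rfl, hxs.symm⟩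
    rintro (h' | h' | h' | h')
    · exact hxs.ne h'.symm
    · exact hxsZ (Or.inl h')
    · exact hps (h' ▸ hxs).symm
    · exact hxsZ (Or.inr h')
  · exact ⟨r, rfl, s, rfl, hrs⟩
  · refine ⟨p, rfl, xp, ?_, hxp⟩
    rintro (h' | h' | h' | h')
    · exact hps (h' ▸ hxp)
    · exact hpr (h' ▸ hxp)
    · exact hxp.ne h'.symm
    · exact hxpZ h'
  · rintro ⟨x, rfl, y, rfl, hxy⟩
    exact hpr hxy
  · rintro ⟨x, rfl, y, rfl, hxy⟩
    exact hps hxy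

theorem exists_fourth {S : Set V} (hS : 4 ≤ S.ncard) (a b c : V) :
    ∃ t ∈ S, t ≠ a ∧ t ≠ b ∧ t ≠ c := by
  have h3 : ({a, b, c} : Set V).ncard < S.ncard := by
    have h1 := ncard_insert_le a ({b, c} : Set V)
    have h2 := ncard_insert_le b ({c} : Set V)
    have h3 := ncard_singleton c
    omega
  obtain ⟨t, ht, ht'⟩ := exists_mem_notMem_of_ncard_lt_ncard h3
  simp only [mem_insert_iff, mem_singleton_iff, not_or] at ht'
  exact ⟨t, ht, ht'⟩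

theorem four_le {S : Set V} {a b c d : V} (ha : a ∈ S) (hb : b ∈ S) (hc : c ∈ S) (hd : d ∈ S)
    (hab : a ≠ b) (hac : a ≠ c) (had : a ≠ d) (hbc : b ≠ c) (hbd : b ≠ d) (hcd : c ≠ d) :
    4 ≤ S.ncard := by
  have h1 : ({a, b, c, d} : Set V) ⊆ S := by
    rintro x (rfl | rfl | rfl | rfl) <;> assumption
  have h2 : ({a, b, c, d} : Set V).ncard = 4 := by
    rw [ncard_insert_of_notMem (by simp [hab, hac, had]), ncard_insert_of_notMem
      (by simp [hbc, hbd]), ncard_pair hcd]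
  rw [← h2]
  exact ncard_le_ncard h1 (toFinite _)

end Pool.Agent.Work.MP_80fcda_co
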