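import Pool.Agent.Work.MP_80fcda_co.XCaseA

/-!
# Case A, completed
-/

set_option autoImplicit false

namespace Pool.Agent.Work.MP_80fcda_co

open Set

variable {V : Type} {G : SimpleGraph V} [Finite V]

/-- A vertex without a neighbour in `nbr G Z` is impossible, if `nbr G Z` contains an edge. -/
theorem Rob.far (h : Rob G) {m : ℕ} {Z : Set V} (hZ : Sm G m Z) (hm : m ≤ 6)
    (h4 : 4 ≤ (nbr G Z).ncard) {n1 n2 : V} (h1 : n1 ∈ nbr G Z) (h2 : n2 ∈ nbr G Z)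
    (h12 : G.Adj n1 n2) {w2 w n : V} (hw2Z : w2 ∉ Z) (hw2N : w2 ∉ nbr G Z)
    (hw2 : ∀ x ∈ nbr G Z, ¬ G.Adj w2 x) (hwZ : w ∉ Z) (hwN : w ∉ nbr G Z) (hww : G.Adj w w2)
    (hn : n ∈ nbr G Z) (hnw : G.Adj n w) : False := by
  -- Step 1
  have step1 : ∀ n ∈ nbr G Z, G.Adj n w → ∀ x ∈ nbr G Z, ∀ y ∈ nbr G Z, x ≠ n → y ≠ n →
      ¬ G.Adj x y := by
    intro n hn hnw x hx y hy hxn hyn hxy
    obtain ⟨t, ht, t1, t2, t3⟩ := exists_fourth h4 n x y
    have hw' : w ∈ nbr G (insert n Z) := mem_nbr_insert' hwZ hnw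
    have g : ∀ {z : V}, z ∈ nbr G Z → z ≠ n → z ∈ nbr G (insert w (insert n Z)) := by
      intro z hz hzn
      refine mem_nbr_insert (mem_nbr_insert hz hzn) ?_
      rintro rfl
      exact hwN hz
    have gw2 : w2 ∈ nbr G (insert w (insert n Z)) := by
      refine mem_nbr_insert' ?_ hww
      rintro (h' | h')
      · exact hw2N (h' ▸ hn)
      · exact hw2Z h'
    have ne2 : ∀ {z : V}, z ∈ nbr G Z → w2 ≠ z := fun hz h' => hw2N (h' ▸ hz)
    exact h.P2 ((hZ.ins hn).ins hw') (by omega) gw2 (g hx hxn) (g hy hyn) (g ht t1) hxy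
      (hw2 x hx) (hw2 y hy) (ne2 hx) (ne2 hy) (ne2 ht).symm t2 t3
  -- Step 2
  obtain ⟨x0, hx0, hnx0⟩ : ∃ x0 ∈ nbr G Z, G.Adj n x0 := by
    by_cases e1 : n = n1
    · exact ⟨n2, h2, e1 ▸ h12⟩
    by_cases e2 : n = n2
    · exact ⟨n1, h1, e2 ▸ h12.symm⟩
    exact absurd h12 (step1 n hn hnw n1 h1 n2 h2 (Ne.symm e1) (Ne.symm e2))
  -- Step 3
  have step3 : ∀ y ∈ nbr G Z, y ≠ n → G.Adj n y := by
    intro y hy hyn
    by_cases hyx : y = x0
    · exact hyx ▸ hnx0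
    by_contra hcon
    obtain ⟨t, ht, t1, t2, t3⟩ := exists_fourth h4 y n x0
    exact h.P2 hZ (by omega) hy hn hx0 ht hnx0 (fun h' => hcon h'.symm)
      (step1 n hn hnw y hy x0 hx0 hyn hnx0.ne') hyn hyx t1 t2 t3
  -- the others
  obtain ⟨p1, hp1, p1n, -, -⟩ := exists_fourth h4 n n n
  obtain ⟨p2, hp2, p2n, p21, -⟩ := exists_fourth h4 n p1 p1
  obtain ⟨p3, hp3, p3n, p31, p32⟩ := exists_fourth h4 n p1 p2
  have ind : ∀ x ∈ nbr G Z, ∀ y ∈ nbr G Z, x ≠ n → y ≠ n → ¬ G.Adj x y := step1 n hn hnw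
  -- Step 4
  have step4 : ∀ y ∈ nbr G Z, y ≠ n → ¬ G.Adj w y := by
    intro y hy hyn hwy
    obtain ⟨z, hz, zn, zy, -⟩ := exists_fourth h4 n y y
    exact step1 y hy hwy.symm n hn z hz hyn.symm zy (step3 z hz zn)
  have hZn := hZ.ins hn
  have q1 : p1 ∈ nbr G (insert n Z) := mem_nbr_insert hp1 p1n
  have q2 : p2 ∈ nbr G (insert n Z) := mem_nbr_insert hp2 p2n
  have q3 : p3 ∈ nbr G (insert n Z) := mem_nbr_insert hp3 p3n
  -- Step 6
  obtain ⟨x, hxZn, hpx⟩ := h.out hZn (by omega) q1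
  have hxZ : x ∉ Z := fun h' => hxZn (Or.inr h')
  have hxn : x ≠ n := fun h' => hxZn (Or.inl h')
  have hxN : x ∉ nbr G Z := fun h' => ind p1 hp1 x h' p1n hxn hpx
  have nx : ∀ {z : V}, z ∈ nbr G Z → z ≠ x := fun hz h' => hxN (h' ▸ hz)
  have nw : ∀ {z : V}, z ∈ nbr G Z → z ≠ w := fun hz h' => hwN (h' ▸ hz)
  have nw2 : ∀ {z : V}, z ∈ nbr G Z → z ≠ w2 := fun hz h' => hw2N (h' ▸ hz)
  -- Step 7
  have step7 : G.Adj x p2 := by
    by_contra hcon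
    by_cases hxn' : G.Adj n x
    · exact h.P2 hZn (by omega) q2 (mem_nbr_insert' hxZ hxn') q1 q3 hpx.symm
        (fun h' => hcon h'.symm) (ind p2 hp2 p1 hp1 p2n p1n) (nx hp2) p21 p32 (nx hp3) p31
    · exact h.P2 (hZ.ins hp1) (by omega) (mem_nbr_insert' hxZ hpx) (mem_nbr_insert hp2 p21)
        (mem_nbr_insert hn p1n.symm) (mem_nbr_insert hp3 p31) (step3 p2 hp2 p2n).symm hcon
        (fun h' => hxn' h'.symm) (nx hp2).symm hxn (nx hp3) p32 p3n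
  have hwx' : w ≠ x := by
    rintro rfl
    exact step4 p1 hp1 p1n hpx.symm
  -- Step 8
  have hZnp := hZn.ins q1
  have r2 : p2 ∈ nbr G (insert p1 (insert n Z)) := mem_nbr_insert q2 p21
  have r3 : p3 ∈ nbr G (insert p1 (insert n Z)) := mem_nbr_insert q3 p31
  have rw' : w ∈ nbr G (insert p1 (insert n Z)) :=
    mem_nbr_insert (mem_nbr_insert' hwZ hnw) (nw hp1).symm
  have rx : x ∈ nbr G (insert p1 (insert n Z)) := mem_nbr_insert' hxZn hpx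
  have step8 : G.Adj w x := by
    by_contra hcon
    exact h.P2 hZnp (by omega) rw' rx r2 r3 step7 hcon (step4 p2 hp2 p2n) hwx' (nw hp2).symm
      (nw hp3) (nx hp3) p32
  -- Step 9
  have hw2x' : w2 ≠ x := by
    rintro rfl
    exact hw2 p1 hp1 hpx.symm
  have hw2m : w2 ∉ insert p1 (insert n Z) := by
    rintro (h' | h' | h')
    · exact hw2N (h' ▸ hp1)
    · exact hw2N (h' ▸ hn)
    · exact hw2Z h'
  have step9 : G.Adj w2 x := by
    by_contra hcon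
    exact h.P2 (hZnp.ins rw') (by omega) (mem_nbr_insert' hw2m hww)
      (mem_nbr_insert rx hwx'.symm) (mem_nbr_insert r2 (nw hp2)) (mem_nbr_insert r3 (nw hp3))
      step7 hcon (hw2 p2 hp2) hw2x' (nw2 hp2).symm (nw2 hp3) (nx hp3) p32
  -- Step 10
  have hw2m' : w2 ∉ insert p1 Z := by
    rintro (h' | h')
    · exact hw2N (h' ▸ hp1)
    · exact hw2Z h'
  exact h.P2 ((hZ.ins hp1).ins (mem_nbr_insert' hxZ hpx)) (by omega)
    (mem_nbr_insert' hw2m' step9.symm) (mem_nbr_insert (mem_nbr_insert hn p1n.symm) hxn.symm)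
    (mem_nbr_insert (mem_nbr_insert hp2 p21) (nx hp2))
    (mem_nbr_insert (mem_nbr_insert hp3 p31) (nx hp3)) (step3 p2 hp2 p2n) (hw2 n hn) (hw2 p2 hp2)
    (nw2 hn).symm (nw2 hp2).symm (nw2 hp3) p3n p32

/-- The outside neighbourhood of a small set has no edge, if it has at least four vertices. -/
theorem Rob.multi (h : Rob G) {m : ℕ} {Z : Set V} (hZ : Sm G m Z) (hm : m ≤ 6)
    (h4 : 4 ≤ (nbr G Z).ncard) {n1 n2 : V} (h1 : n1 ∈ nbr G Z) (h2 : n2 ∈ nbr G Z)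
    (h12 : G.Adj n1 n2) : False := by
  have : Nonempty V := ⟨n1⟩
  -- every vertex has a neighbour in `nbr G Z`
  have hall : ∀ x, x ∉ Z → x ∉ nbr G Z → ∃ y ∈ nbr G Z, G.Adj x y := by
    intro x hxZ hxN
    by_contra hcon
    push Not at hcon
    obtain ⟨a, ⟨haZ, haN, ha⟩, b, ⟨hbZ, hb⟩, hab⟩ := (h.con hZ (by omega)).exists_edge
      (S := {x | x ∉ Z ∧ x ∉ nbr G Z ∧ ∀ y ∈ nbr G Z, ¬ G.Adj x y}) (fun x hx => hx.1)
      ⟨x, hxZ, hxN, hcon⟩ ⟨n1, h1.1, fun h' => h'.2.1 h1⟩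
    have hbN : b ∉ nbr G Z := fun h' => ha b h' hab
    obtain ⟨n, hn, hbn⟩ : ∃ n ∈ nbr G Z, G.Adj b n := by
      by_contra hcon'
      push Not at hcon'
      exact hb ⟨hbZ, hbN, hcon'⟩
    exact h.far hZ hm h4 h1 h2 h12 haZ haN ha hbZ hbN hab.symm hn hbn.symm
  have h2' : n2 ∈ nbr G (insert n1 Z) := mem_nbr_insert h2 h12.ne'
  have hW := (hZ.ins h1).ins h2'
  have hW' : ∀ x ∈ (insert n2 (insert n1 Z))ᶜ, x ∈ nbr G (insert n2 (insert n1 Z)) := by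
    intro x hx
    have hx2 : x ≠ n2 := fun h' => hx (Or.inl h')
    have hx1 : x ≠ n1 := fun h' => hx (Or.inr (Or.inl h'))
    have hxZ : x ∉ Z := fun h' => hx (Or.inr (Or.inr h'))
    by_cases hxN : x ∈ nbr G Z
    · exact mem_nbr_insert (mem_nbr_insert hxN hx1) hx2
    · obtain ⟨n0, hn0, hxn0⟩ := hall x hxZ hxN
      by_cases a1 : G.Adj n1 x
      · exact mem_nbr_insert (mem_nbr_insert' hxZ a1) hx2
      · by_cases a2 : G.Adj n2 x
        · exact mem_nbr_insert' (fun h' => hx (Or.inr h')) a2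
        · exfalso
          have e1 : n0 ≠ n1 := by rintro rfl; exact a1 hxn0.symm
          have e2 : n0 ≠ n2 := by rintro rfl; exact a2 hxn0.symm
          obtain ⟨t, ht, t0, t1, t2⟩ := exists_fourth h4 n0 n1 n2
          exact h.P2 (hZ.ins hn0) (by omega) (mem_nbr_insert' hxZ hxn0.symm)
            (mem_nbr_insert h1 e1.symm) (mem_nbr_insert h2 e2.symm) (mem_nbr_insert ht t0) h12
            (fun h' => a1 h'.symm) (fun h' => a2 h'.symm) hx1 hx2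
            (fun h' => hxN (h' ▸ ht)) t1 t2
  obtain ⟨W0, h0, hm0, hb0, hd0⟩ := hW.ex
  refine h.dec ((dec_assemble h0 hm0 hb0 hd0 fun K hK => ?_).mono
    (Nat.pow_le_pow_right (by norm_num) (by omega)))
  have hdec : Dec (res G K) 1 K := by
    refine dec_of_cograph hK.con.1 ?_
    intro a ha b hb c hc d hd hI
    exact h.P2 hW (by omega) (hW' d (hK.subset hd)) (hW' a (hK.subset ha)) (hW' b (hK.subset hb))
      (hW' c (hK.subset hc)) hI.ab (fun h' => hI.ad h'.symm) (fun h' => hI.bd h'.symm) hI.ad'.symm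
      hI.bd'.symm hI.cd.ne hI.ac'.symm hI.bc.ne'
  refine (hdec.lift (W := W0) ?_ subset_rfl).mono ?_
  · intro x hx v hv hxv
    have hvW : v ∈ insert n2 (insert n1 Z) := by
      by_contra h'
      exact hv (hK.closed x hx v h' hxv)
    by_contra h'
    exact hK.subset hx (hb0 v hvW h' x hxv.symm)
  · calc (1 + 1) * 2 ^ W0.ncard ≤ 4 * 2 ^ (m + 1 + 1) :=
          Nat.mul_le_mul (by norm_num) (Nat.pow_le_pow_right (by norm_num) hm0)
      _ = 2 ^ (m + 1 + 1 + 2) := by ring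

/-- The third tool, again. -/
theorem Rob.two_out (h : Rob G) {m : ℕ} {Z : Set V} (hZ : Sm G m Z) (hm : m ≤ 10)
    (h4 : 4 ≤ (nbr G Z).ncard) {n : V} (hn : n ∈ nbr G Z) :
    ∃ x y, x ∉ Z ∧ y ∉ Z ∧ x ≠ y ∧ G.Adj n x ∧ G.Adj n y := by
  obtain ⟨x, hx, hnx⟩ := h.out hZ (by omega) hn
  by_contra hcon
  push Not at hcon
  obtain ⟨n1, h1, n1n, -, -⟩ := exists_fourth h4 n n n
  obtain ⟨n2, h2, n2n, n21, -⟩ := exists_fourth h4 n n1 n1
  obtain ⟨n3, h3, n3n, n31, n32⟩ := exists_fourth h4 n n1 n2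
  refine h.four hZ hm h1 h2 h3 hn n21.symm n31.symm n32.symm n1n n2n n3n hx hnx ?_
  intro y hy hny
  by_contra hne
  exact hcon x y hx hy (Ne.symm hne) hnx hny

/-- Case A. -/
theorem Rob.caseA (h : Rob G) {Z : Set V} (hZ : Sm G 3 Z) (h4 : 4 ≤ (nbr G Z).ncard) : False := by
  obtain ⟨z, hz⟩ := hZ.con.1
  have ind : ∀ x ∈ nbr G Z, ∀ y ∈ nbr G Z, ¬ G.Adj x y := fun x hx y hy hxy =>
    h.multi hZ (by norm_num) h4 hx hy hxy
  obtain ⟨n, hn, -, -, -⟩ := exists_fourth h4 z z z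
  obtain ⟨n', hn', n'n, -, -⟩ := exists_fourth h4 n n n
  obtain ⟨n3, hn3, n3n, n3n', -⟩ := exists_fourth h4 n n' n'
  obtain ⟨n4, hn4, n4n, n4n', n43⟩ := exists_fourth h4 n n' n3
  obtain ⟨y1, y2, hy1Z, hy2Z, y12, hny1, hny2⟩ := h.two_out hZ (by norm_num) h4 hn
  have hy1N : y1 ∉ nbr G Z := fun h' => ind n hn y1 h' hny1
  have hy2N : y2 ∉ nbr G Z := fun h' => ind n hn y2 h' hny2
  have hZ1 := hZ.ins hn
  have m1 : y1 ∈ nbr G (insert n Z) := mem_nbr_insert' hy1Z hny1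
  have m2 : y2 ∈ nbr G (insert n Z) := mem_nbr_insert' hy2Z hny2
  have m' : n' ∈ nbr G (insert n Z) := mem_nbr_insert hn' n'n
  have m3 : n3 ∈ nbr G (insert n Z) := mem_nbr_insert hn3 n3n
  have m4 : n4 ∈ nbr G (insert n Z) := mem_nbr_insert hn4 n4n
  have ny1 : ∀ {z : V}, z ∈ nbr G Z → z ≠ y1 := fun hz h' => hy1N (h' ▸ hz)
  have ny2 : ∀ {z : V}, z ∈ nbr G Z → z ≠ y2 := fun hz h' => hy2N (h' ▸ hz)
  have h4' : 4 ≤ (nbr G (insert n Z)).ncard :=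
    four_le m1 m2 m' m3 y12 (ny1 hn').symm (ny1 hn3).symm (ny2 hn').symm (ny2 hn3).symm
      n3n'.symm
  have ind1 : ∀ x ∈ nbr G (insert n Z), ∀ y ∈ nbr G (insert n Z), ¬ G.Adj x y :=
    fun x hx y hy hxy => h.multi hZ1 (by norm_num) h4' hx hy hxy
  obtain ⟨u1, u2, hu1, hu2, u12, hyu1, hyu2⟩ := h.two_out hZ1 (by norm_num) h4' m1
  have hu1N : u1 ∉ nbr G (insert n Z) := fun h' => ind1 y1 m1 u1 h' hyu1
  have hu2N : u2 ∉ nbr G (insert n Z) := fun h' => ind1 y1 m1 u2 h' hyu2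
  obtain ⟨s2, hs2, hys2⟩ := h.out hZ1 (by norm_num) m2
  have hs2N : s2 ∉ nbr G (insert n Z) := fun h' => ind1 y2 m2 s2 h' hys2
  obtain ⟨s', hs', hns'⟩ := h.out hZ1 (by norm_num) m'
  have hs'N : s' ∉ nbr G (insert n Z) := fun h' => ind1 n' m' s' h' hns'
  -- the four bags
  have hP : Sm G 7 (({y2} ∪ {n, y1}) ∪ Z ∪ {n'} : Set V) := by
    have e : (({y2} ∪ {n, y1}) ∪ Z ∪ {n'} : Set V) =
        insert n' (insert y2 (insert y1 (insert n Z))) := by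
      ext x
      simp only [mem_union, mem_singleton_iff, mem_insert_iff]
      tauto
    rw [e]
    have k1 := (hZ1.ins m1).ins (mem_nbr_insert m2 y12.symm)
    exact k1.ins (mem_nbr_insert (mem_nbr_insert m' (ny1 hn')) (ny2 hn'))
  have out : ∀ x, x ∉ insert n Z → x ∉ nbr G (insert n Z) →
      x ∉ (({y2} ∪ {n, y1}) ∪ Z ∪ {n'} : Set V) := by
    rintro x hx hxN (((h' | h' | h') | h') | h')
    · exact hxN ((show x = y2 from h') ▸ m2)
    · exact hx (Or.inl h')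
    · exact hxN ((show x = y1 from h') ▸ m1)
    · exact hx (Or.inr h')
    · exact hxN ((show x = n' from h') ▸ m')
  have out' : ∀ x ∈ nbr G Z, x ≠ n → x ≠ n' → x ∉ (({y2} ∪ {n, y1}) ∪ Z ∪ {n'} : Set V) := by
    rintro x hx h1 h2 (((h' | h' | h') | h') | h')
    · exact ny2 hx h'
    · exact h1 h'
    · exact ny1 hx h'
    · exact hx.1 h'
    · exact h2 h'
  have exZ : ∀ {x : V}, x ∈ nbr G Z → ∃ a ∈ Z, G.Adj a x := fun hx => hx.2
  refine h.bagP4 (a := {y2}) (b := {n, y1}) (c := Z) (d := {n'}) (m := 7) (by norm_num) hP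
    (con_singleton y2) (con_pair hny1) hZ.con (con_singleton n') ?_ ?_ ?_ ?_ ?_ ?_
    ⟨y2, rfl, n, Or.inl rfl, hny2.symm⟩ ?_ ?_ ?_ ?_ ?_
    ⟨y2, rfl, s2, out s2 hs2 hs2N, hys2⟩ ⟨n', rfl, s', out s' hs' hs'N, hns'⟩
    (out u1 hu1 hu1N) (out u2 hu2 hu2N) (out' n3 hn3 n3n n3n') (out' n4 hn4 n4n n4n') u12
    n43.symm ⟨y1, Or.inr rfl, hyu1⟩ ⟨y1, Or.inr rfl, hyu2⟩ (exZ hn3) (exZ hn4)
  · rw [disjoint_singleton_left]
    rintro (h' | h')
    · exact ny2 hn h'.symm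
    · exact y12 h'.symm
  · rw [disjoint_singleton_left]; exact hy2Z
  · rw [disjoint_singleton_left]; exact fun h' => ny2 hn' h'.symm
  · rw [Set.disjoint_left]
    rintro x (rfl | rfl) hx
    · exact hn.1 hx
    · exact hy1Z hx
  · rw [disjoint_singleton_right]
    rintro (h' | h')
    · exact n'n h'
    · exact ny1 hn' h'
  · rw [disjoint_singleton_right]; exact hn'.1
  · obtain ⟨a, ha, han⟩ := exZ hn
    exact ⟨n, Or.inl rfl, a, ha, han.symm⟩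
  · obtain ⟨a, ha, han⟩ := exZ hn'
    exact ⟨a, ha, n', rfl, han⟩
  · rintro ⟨x, rfl, y, hy, hxy⟩
    exact hy2N ⟨hy2Z, y, hy, hxy.symm⟩
  · rintro ⟨x, rfl, y, rfl, hxy⟩
    exact ind1 _ m2 _ m' hxy
  · rintro ⟨x, (rfl | rfl), y, rfl, hxy⟩
    · exact ind _ hn _ hn' hxy
    · exact ind1 _ m1 _ m' hxy

end Pool.Agent.Work.MP_80fcda_co
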