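import Pool.Agent.Work.MP_80fcda_co.XCaseA2
import Pool.Agent.Work.MP_80fcda_co.Blocks

/-!
# Case B: small connected sets have at most three outside neighbours
-/

set_option autoImplicit false

namespace Pool.Agent.Work.MP_80fcda_co

open Set

variable {V : Type} {G : SimpleGraph V}

/-- `v` has exactly the three neighbours `p`, `q` and `r`. -/
structure Deg3 (G : SimpleGraph V) (v p q r : V) : Prop where
  pq : p ≠ q
  pr : p ≠ r
  qr : q ≠ r
  ap : G.Adj v p
  aq : G.Adj v q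
  ar : G.Adj v r
  all : ∀ w, G.Adj v w → w = p ∨ w = q ∨ w = r

theorem Deg3.swap12 {v p q r : V} (h : Deg3 G v p q r) : Deg3 G v q p r :=
  ⟨h.pq.symm, h.qr, h.pr, h.aq, h.ap, h.ar, fun w hw => by have := h.all w hw; tauto⟩

theorem Deg3.swap23 {v p q r : V} (h : Deg3 G v p q r) : Deg3 G v p r q :=
  ⟨h.pr, h.pq, h.qr.symm, h.ap, h.ar, h.aq, fun w hw => by have := h.all w hw; tauto⟩

/-- The vertices which do not have exactly two neighbours. -/
def Br (G : SimpleGraph V) : Set V := {v | ¬ ∃ x y, Deg2 G v x y}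

variable [Finite V]

theorem Rob.two_deg (h : Rob G) (v : V) : ∃ x y, x ≠ y ∧ G.Adj v x ∧ G.Adj v y := by
  have h1 : Sm G 1 {v} := Sm.of_ncard (con_singleton v) (by simp)
  obtain ⟨x, hx⟩ := (h.con h1 (by norm_num)).1
  obtain ⟨n, -, hn⟩ := h.two.con.exists_adj_of_ne (mem_univ v) (mem_univ x)
    (fun h' => hx (show x = v from h'.symm))
  have h3 : Sm G 2 (insert n {v}) := h1.ins ⟨fun h' => hn.ne h'.symm, v, rfl, hn⟩
  obtain ⟨y, hy⟩ := (h.con h3 (by norm_num)).1
  obtain ⟨a, ha, b, hb, p, hp, q, hq, hap, hbq, hpq⟩ := h.two.two_nbrs (K := {v}) (x := n) (y := y)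
    ⟨v, rfl⟩ (fun h' => hn.ne h'.symm) (fun h' => hy (Or.inr h')) (fun h' => hy (Or.inl h'.symm))
  rw [mem_singleton_iff] at ha hb
  subst ha
  subst hb
  exact ⟨p, q, hpq, hap, hbq⟩

section caseB

variable (h : Rob G) (hB : ∀ Z : Set V, Con G Z → Z.ncard ≤ 3 → (nbr G Z).ncard ≤ 3)

include h hB

omit h in
theorem no_four {Z : Set V} (hZ : Con G Z) (hm : Z.ncard ≤ 3) {a b c d : V}
    (ha : a ∈ nbr G Z) (hb : b ∈ nbr G Z) (hc : c ∈ nbr G Z) (hd : d ∈ nbr G Z)
    (hab : a ≠ b) (hac : a ≠ c) (had : a ≠ d) (hbc : b ≠ c) (hbd : b ≠ d) (hcd : c ≠ d) :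
    False := by
  have h1 := four_le ha hb hc hd hab hac had hbc hbd hcd
  have h2 := hB Z hZ hm
  omega

theorem deg_cases {v : V} (hv : v ∈ Br G) : ∃ p q r, Deg3 G v p q r := by
  obtain ⟨x, y, hxy, hvx, hvy⟩ := h.two_deg v
  obtain ⟨z, hvz, hzx, hzy⟩ : ∃ z, G.Adj v z ∧ z ≠ x ∧ z ≠ y := by
    by_contra hcon
    push Not at hcon
    refine hv ⟨x, y, hxy, hvx, hvy, fun w hw => ?_⟩
    by_cases h' : w = x
    · exact Or.inl h'
    · exact Or.inr (hcon w hw h')
  refine ⟨x, y, z, hxy, hzx.symm, hzy.symm, hvx, hvy, hvz, fun w hw => ?_⟩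
  by_contra hcon
  push Not at hcon
  have g : ∀ {w : V}, G.Adj v w → w ∈ nbr G {v} := fun {w} hw =>
    ⟨fun h' => hw.ne (show w = v from h').symm, v, rfl, hw⟩
  exact no_four hB (con_singleton v) (by simp) (g hvx) (g hvy) (g hvz) (g hw) hxy hzx.symm
    hcon.1.symm hzy.symm hcon.2.1.symm hcon.2.2.symm

theorem deg3_out {v p q r : V} (hv : Deg3 G v p q r) : ∃ p', p' ≠ v ∧ p' ≠ q ∧ p' ≠ r ∧
    G.Adj p p' ∧ ∀ x, G.Adj p x → x = v ∨ x = q ∨ x = r ∨ x = p' := by
  have hc : Con G {q, v, r} := con_triple hv.aq.symm hv.ar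
  have hn : ({q, v, r} : Set V).ncard ≤ 3 := by
    have h1 := ncard_insert_le q ({v, r} : Set V)
    have h2 := ncard_insert_le v ({r} : Set V)
    have h3 := ncard_singleton r
    omega
  have hpm : p ∈ nbr G {q, v, r} := by
    refine ⟨?_, v, by simp, hv.ap⟩
    rintro (h' | h' | h')
    · exact hv.pq h'
    · exact hv.ap.ne h'.symm
    · exact hv.pr h'
  obtain ⟨p', hp', hpp'⟩ := h.out (Sm.of_ncard hc hn) (by norm_num) hpm
  simp only [mem_insert_iff, mem_singleton_iff, not_or] at hp'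
  refine ⟨p', hp'.2.1, hp'.1, hp'.2.2, hpp', fun x hx => ?_⟩
  by_contra hcon
  push Not at hcon
  have hc' : Con G {v, p} := con_pair hv.ap
  have hn' : ({v, p} : Set V).ncard ≤ 3 := by
    have h1 := ncard_insert_le v ({p} : Set V)
    have h3 := ncard_singleton p
    omega
  refine no_four hB hc' hn' (a := q) (b := r) (c := x) (d := p') ?_ ?_ ?_ ?_ hv.qr
    hcon.2.1.symm (Ne.symm hp'.1) hcon.2.2.1.symm (Ne.symm hp'.2.2) hcon.2.2.2
  · refine ⟨?_, v, by simp, hv.aq⟩
    rintro (h' | h')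
    · exact hv.aq.ne h'.symm
    · exact hv.pq h'.symm
  · refine ⟨?_, v, by simp, hv.ar⟩
    rintro (h' | h')
    · exact hv.ar.ne h'.symm
    · exact hv.pr h'.symm
  · refine ⟨?_, p, by simp, hx⟩
    rintro (h' | h')
    · exact hcon.1 h'
    · exact hx.ne h'.symm
  · refine ⟨?_, p, by simp, hpp'⟩
    rintro (h' | h')
    · exact hp'.2.1 h'
    · exact hpp'.ne h'.symm

/-- A triangle: the third neighbour of `p`. -/
theorem tri_hub {v p q r : V} (hv : Deg3 G v p q r) (hpq : G.Adj p q) :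
    ∃ Z, IsComp G (Br G) Z ∧ v ∈ Z ∧ Z.ncard ≤ 3 ∧ ∃ n1 n2 n3, n1 ∈ nbr G Z ∧ n2 ∈ nbr G Z ∧
      n3 ∈ nbr G Z ∧ n1 ≠ n2 ∧ n1 ≠ n3 ∧ n2 ≠ n3 := by
  obtain ⟨p', hp'v, hp'q, hp'r, hpp', hpall⟩ := deg3_out h hB hv
  obtain ⟨q', hq'v, hq'p, hq'r, hqq', hqall⟩ := deg3_out h hB hv.swap12
  obtain ⟨r', hr'v, hr'p, hr'q, hrr', hrall⟩ :=
    deg3_out h hB (v := v) (p := r) (q := p) (r := q) hv.swap23.swap12
  have s1 : ∀ {w : V}, ∀ {u : V}, G.Adj u w → w ∈ nbr G {u} := fun {w u} hw =>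
    ⟨fun h' => hw.ne (show w = u from h').symm, u, rfl, hw⟩
  have hpr : ¬ G.Adj p r := fun hpr =>
    no_four hB (con_singleton p) (by simp) (s1 hv.ap.symm) (s1 hpq) (s1 hpr) (s1 hpp')
      hv.aq.ne hv.ar.ne hp'v.symm hv.qr hp'q.symm hp'r.symm
  have hqr : ¬ G.Adj q r := fun hqr =>
    no_four hB (con_singleton q) (by simp) (s1 hv.aq.symm) (s1 hpq.symm) (s1 hqr) (s1 hqq')
      hv.ap.ne hv.ar.ne hq'v.symm hv.pr hq'p.symm hq'r.symm
  have n3 : ∀ a b c : V, ({a, b, c} : Set V).ncard ≤ 3 := by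
    intro a b c
    have h1 := ncard_insert_le a ({b, c} : Set V)
    have h2 := ncard_insert_le b ({c} : Set V)
    have h3 := ncard_singleton c
    omega
  have hcp : Con G {v, p, p'} := con_triple hv.ap hpp'
  have hcq : Con G {v, q, q'} := con_triple hv.aq hqq'
  -- the third neighbours are different
  have hp'q' : p' ≠ q' := by
    rintro rfl
    obtain ⟨x, hx, hqx⟩ := h.out (Sm.of_ncard hcp (n3 v p p')) (by norm_num) (p := q) (by
      refine ⟨?_, v, by simp, hv.aq⟩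
      rintro (h' | h' | h')
      · exact hv.aq.ne h'.symm
      · exact hv.pq h'.symm
      · exact hp'q (show q = p' from h').symm)
    simp only [mem_insert_iff, mem_singleton_iff, not_or] at hx
    rcases hqall x hqx with h' | h' | h' | h'
    · exact hx.1 h'
    · exact hx.2.1 h'
    · exact hqr (h' ▸ hqx)
    · exact hx.2.2 h'
  have hp'r' : p' ≠ r' := by
    rintro rfl
    obtain ⟨x, hx, hrx⟩ := h.out (Sm.of_ncard hcp (n3 v p p')) (by norm_num) (p := r) (by
      refine ⟨?_, v, by simp, hv.ar⟩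
      rintro (h' | h' | h')
      · exact hv.ar.ne h'.symm
      · exact hv.pr h'.symm
      · exact hp'r (show r = p' from h').symm)
    simp only [mem_insert_iff, mem_singleton_iff, not_or] at hx
    rcases hrall x hrx with h' | h' | h' | h'
    · exact hx.1 h'
    · exact hx.2.1 h'
    · exact hqr (h' ▸ hrx).symm
    · exact hx.2.2 h'
  have hq'r' : q' ≠ r' := by
    rintro rfl
    obtain ⟨x, hx, hrx⟩ := h.out (Sm.of_ncard hcq (n3 v q q')) (by norm_num) (p := r) (by
      refine ⟨?_, v, by simp, hv.ar⟩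
      rintro (h' | h' | h')
      · exact hv.ar.ne h'.symm
      · exact hv.qr h'.symm
      · exact hq'r (show r = q' from h').symm)
    simp only [mem_insert_iff, mem_singleton_iff, not_or] at hx
    rcases hrall x hrx with h' | h' | h' | h'
    · exact hx.1 h'
    · exact hpr (h' ▸ hrx).symm
    · exact hx.2.1 h'
    · exact hx.2.2 h'
  have hr : Deg2 G r v r' := by
    refine ⟨hr'v.symm, hv.ar.symm, hrr', fun w hw => ?_⟩
    rcases hrall w hw with h' | h' | h' | h'
    · exact Or.inl h'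
    · exact absurd (h' ▸ hw).symm hpr
    · exact absurd (h' ▸ hw).symm hqr
    · exact Or.inr h'
  have hp : Deg3 G p v q p' := by
    refine ⟨hv.aq.ne, hp'v.symm, hp'q.symm, hv.ap.symm, hpq, hpp', fun w hw => ?_⟩
    rcases hpall w hw with h' | h' | h' | h'
    · exact Or.inl h'
    · exact Or.inr (Or.inl h')
    · exact absurd (h' ▸ hw) hpr
    · exact Or.inr (Or.inr h')
  have hq : Deg3 G q v p q' := by
    refine ⟨hv.ap.ne, hq'v.symm, hq'p.symm, hv.aq.symm, hpq.symm, hqq', fun w hw => ?_⟩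
    rcases hqall w hw with h' | h' | h' | h'
    · exact Or.inl h'
    · exact Or.inr (Or.inl h')
    · exact absurd (h' ▸ hw) hqr
    · exact Or.inr (Or.inr h')
  -- three neighbours exclude two
  have hbr : ∀ {u a b c : V}, Deg3 G u a b c → u ∈ Br G := by
    rintro u a b c hu ⟨x, y, hxy⟩
    rcases hxy.all a hu.ap with h1 | h1 <;> rcases hxy.all b hu.aq with h2 | h2 <;>
      rcases hxy.all c hu.ar with h3 | h3
    · exact hu.pq (h1.trans h2.symm)
    · exact hu.pq (h1.trans h2.symm)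
    · exact hu.pr (h1.trans h3.symm)
    · exact hu.qr (h2.trans h3.symm)
    · exact hu.qr (h2.trans h3.symm)
    · exact hu.pr (h1.trans h3.symm)
    · exact hu.pq (h1.trans h2.symm)
    · exact hu.pq (h1.trans h2.symm)
  -- `p'` has two neighbours
  have key : ∀ {p q p' q' : V}, Deg3 G v p q r → G.Adj p q → p' ≠ v → p' ≠ q → p' ≠ r → p' ≠ q' →
      p' ≠ r' → G.Adj p p' → (∀ x, G.Adj q x → x = v ∨ x = p ∨ x = r ∨ x = q') →
      Con G {v, p, p'} → p' ∉ Br G := by
    intro p q p' q' hv hpq hp'v hp'q hp'r hp'q' hp'r' hpp' hqall hcp hbr'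
    obtain ⟨a, b, c, habc⟩ := deg_cases h hB hbr'
    obtain ⟨s, t, hst, hsp, htp, hs, ht⟩ : ∃ s t, s ≠ t ∧ s ≠ p ∧ t ≠ p ∧ G.Adj p' s ∧
        G.Adj p' t := by
      rcases habc.all p hpp'.symm with h' | h' | h'
      · exact ⟨b, c, habc.qr, fun h'' => habc.pq (h''.trans h').symm,
          fun h'' => habc.pr (h''.trans h').symm, habc.aq, habc.ar⟩
      · exact ⟨a, c, habc.pr, fun h'' => habc.pq (h''.trans h'),
          fun h'' => habc.qr (h''.trans h').symm, habc.ap, habc.ar⟩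
      · exact ⟨a, b, habc.pq, fun h'' => habc.pr (h''.trans h'),
          fun h'' => habc.qr (h''.trans h'), habc.ap, habc.aq⟩
    have hp'p : p' ≠ p := hpp'.ne'
    have hvp' : ¬ G.Adj p' v := by
      intro h'
      rcases hv.all p' h'.symm with h'' | h'' | h''
      · exact hp'p h''
      · exact hp'q h''
      · exact hp'r h''
    have hs' : ∀ s, s ≠ p → G.Adj p' s → s ∈ nbr G {v, p, p'} ∧ s ≠ q ∧ s ≠ r := by
      intro s hsp hs
      refine ⟨⟨?_, p', by simp, hs⟩, ?_, ?_⟩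
      · rintro (h' | h' | h')
        · exact hvp' (h' ▸ hs)
        · exact hsp h'
        · exact hs.ne h'.symm
      · rintro rfl
        rcases hqall p' hs.symm with h' | h' | h' | h'
        · exact hp'v h'
        · exact hp'p h'
        · exact hp'r h'
        · exact hp'q' h'
      · rintro rfl
        rcases hr.all p' hs.symm with h' | h'
        · exact hp'v h'
        · exact hp'r' h'
    have k1 := hs' s hsp hs
    have k2 := hs' t htp ht
    refine no_four hB hcp (n3 v p p') (a := q) (b := r) (c := s) (d := t) ?_ ?_ k1.1 k2.1 hv.qr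
      k1.2.1.symm k2.2.1.symm k1.2.2.symm k2.2.2.symm hst
    · refine ⟨?_, v, by simp, hv.aq⟩
      rintro (h' | h' | h')
      · exact hv.aq.ne h'.symm
      · exact hv.pq h'.symm
      · exact hp'q (show q = p' from h').symm
    · refine ⟨?_, v, by simp, hv.ar⟩
      rintro (h' | h' | h')
      · exact hv.ar.ne h'.symm
      · exact hv.pr h'.symm
      · exact hp'r (show r = p' from h').symm
  have kp := key hv hpq hp'v hp'q hp'r hp'q' hp'r' hpp' hqall hcp
  have kq := key hv.swap12 hpq.symm hq'v hq'p hq'r hp'q'.symm hq'r' hqq' hpall hcq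
  have hrB : r ∉ Br G := fun h' => h' ⟨v, r', hr⟩
  refine ⟨{p, v, q}, ⟨?_, con_triple hv.ap.symm hv.aq, ?_⟩, by simp, n3 p v q, r, p', q', ?_, ?_,
    ?_, hp'r.symm, hq'r.symm, hp'q'⟩
  · rintro x (rfl | rfl | rfl)
    · exact hbr hp
    · exact hbr hv
    · exact hbr hq
  · rintro a (rfl | rfl | rfl) b hb hab
    · rcases hp.all b hab with h' | h' | h'
      · exact Or.inr (Or.inl h')
      · exact Or.inr (Or.inr h')
      · exact absurd (h' ▸ hb) kp
    · rcases hv.all b hab with h' | h' | h'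
      · exact Or.inl h'
      · exact Or.inr (Or.inr h')
      · exact absurd (h' ▸ hb) hrB
    · rcases hq.all b hab with h' | h' | h'
      · exact Or.inr (Or.inl h')
      · exact Or.inl h'
      · exact absurd (h' ▸ hb) kq
  · refine ⟨?_, v, by simp, hv.ar⟩
    rintro (h' | h' | h')
    · exact hv.pr h'.symm
    · exact hv.ar.ne h'.symm
    · exact hv.qr (show r = q from h').symm
  · refine ⟨?_, p, by simp, hpp'⟩
    rintro (h' | h' | h')
    · exact hpp'.ne h'.symm
    · exact hp'v h'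
    · exact hp'q h'
  · refine ⟨?_, q, by simp, hqq'⟩
    rintro (h' | h' | h')
    · exact hq'p h'
    · exact hq'v h'
    · exact hqq'.ne (show q' = q from h').symm

theorem hub {v : V} (hv : v ∈ Br G) :
    ∃ Z, IsComp G (Br G) Z ∧ v ∈ Z ∧ Z.ncard ≤ 3 ∧ ∃ n1 n2 n3, n1 ∈ nbr G Z ∧ n2 ∈ nbr G Z ∧
      n3 ∈ nbr G Z ∧ n1 ≠ n2 ∧ n1 ≠ n3 ∧ n2 ≠ n3 := by
  obtain ⟨p, q, r, h3⟩ := deg_cases h hB hv
  by_cases hpq : G.Adj p q
  · exact tri_hub h hB h3 hpq
  by_cases hpr : G.Adj p r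
  · exact tri_hub h hB h3.swap23 hpr
  by_cases hqr : G.Adj q r
  · exact tri_hub h hB h3.swap12.swap23 hqr
  -- all neighbours have degree two
  have key : ∀ {p q r : V}, Deg3 G v p q r → ¬ G.Adj p q → ¬ G.Adj p r → p ∉ Br G := by
    intro p q r h3 hpq hpr hp
    obtain ⟨p', hp'v, -, -, hpp', hpall⟩ := deg3_out h hB h3
    refine hp ⟨v, p', hp'v.symm, h3.ap.symm, hpp', fun w hw => ?_⟩
    rcases hpall w hw with h' | h' | h' | h'
    · exact Or.inl h'
    · exact absurd (h' ▸ hw) hpq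
    · exact absurd (h' ▸ hw) hpr
    · exact Or.inr h'
  have kp := key h3 hpq hpr
  have kq := key h3.swap12 (fun h' => hpq h'.symm) hqr
  have kr := key h3.swap23.swap12 (fun h' => hpr h'.symm) (fun h' => hqr h'.symm)
  have s1 : ∀ {w : V}, ∀ {u : V}, G.Adj u w → w ∈ nbr G {u} := fun {w u} hw =>
    ⟨fun h' => hw.ne (show w = u from h').symm, u, rfl, hw⟩
  refine ⟨{v}, ⟨?_, con_singleton v, ?_⟩, rfl, by simp, p, q, r, s1 h3.ap, s1 h3.aq, s1 h3.ar,
    h3.pq, h3.pr, h3.qr⟩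
  · rintro x rfl
    exact hv
  · rintro a rfl b hb hab
    exfalso
    rcases h3.all b hab with h' | h' | h'
    · exact kp (h' ▸ hb)
    · exact kq (h' ▸ hb)
    · exact kr (h' ▸ hb)

omit hB in
/-- Following a path of vertices of degree two. -/
theorem strand {Z : Set V} (hZ : IsComp G (Br G) Z) (hm : Z.ncard ≤ 3) {r n2 n3 : V}
    (hr : r ∈ nbr G Z) (h2 : n2 ∈ nbr G Z) (h3 : n3 ∈ nbr G Z) (hr2 : r ≠ n2) (hr3 : r ≠ n3)
    (h23 : n2 ≠ n3) :
    ∃ (S : Set V) (x s : V), Con G S ∧ (∀ a ∈ S, a ∉ Br G) ∧ r ∈ S ∧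
      (∀ a ∈ S, a ∈ nbr G Z → a = r) ∧ x ∉ S ∧ x ∉ Z ∧ x ∈ Br G ∧
      (∀ a ∈ S, ∀ b, b ∉ S → G.Adj a b → b ∈ Z ∨ b = x) ∧ s ∈ S ∧ G.Adj s x ∧
      ∀ a ∈ S, G.Adj a x → a = s := by
  have hZs : Sm G 3 Z := Sm.of_ncard hZ.con hm
  have hnB : ∀ n ∈ nbr G Z, n ∉ Br G := by
    rintro n ⟨hn, a, ha, han⟩ hnB
    exact hn (hZ.closed a ha n hnB han)
  let P : Set V → Prop := fun S => Con G S ∧ (∀ a ∈ S, a ∉ Br G) ∧ r ∈ S ∧
      (∀ a ∈ S, a ∈ nbr G Z → a = r) ∧ ∃ x s, x ∉ S ∧ x ∉ Z ∧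
      (∀ a ∈ S, ∀ b, b ∉ S → G.Adj a b → b ∈ Z ∨ b = x) ∧ s ∈ S ∧ G.Adj s x ∧
      ∀ a ∈ S, G.Adj a x → a = s
  have hP0 : P {r} := by
    have hrB := hnB r hr
    rw [Br, mem_ofPred_eq, not_not] at hrB
    obtain ⟨z, hz, hzr⟩ := hr.2
    obtain ⟨x, hx⟩ : ∃ x, Deg2 G r z x := by
      obtain ⟨a, b, hab⟩ := hrB
      rcases hab.all z hzr.symm with h' | h'
      · exact ⟨b, h' ▸ hab⟩
      · exact ⟨a, h' ▸ hab.swap⟩
    have hxZ : x ∉ Z := by
      intro hxZ
      obtain ⟨y, hyZ, hry⟩ := h.out hZs (by norm_num) hr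
      rcases hx.all y hry with h' | h'
      · exact hyZ (h' ▸ hz)
      · exact hyZ (h' ▸ hxZ)
    refine ⟨con_singleton r, ?_, rfl, fun a ha _ => ha, x, r, fun h' => hx.ay.ne h'.symm, hxZ, ?_,
      rfl, hx.ay, fun a ha _ => ha⟩
    · rintro a rfl
      exact hnB _ hr
    · rintro a rfl b hb hab
      rcases hx.all b hab with h' | h'
      · exact Or.inl (h' ▸ hz)
      · exact Or.inr h'
  obtain ⟨S, ⟨hS, hSB, hrS, hSr, x, s, hxS, hxZ, hout, hsS, hsx, huniq⟩, hmax⟩ :=
    Set.exists_max_image {S : Set V | P S} Set.ncard (toFinite _) ⟨{r}, hP0⟩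
  refine ⟨S, x, s, hS, hSB, hrS, hSr, hxS, hxZ, ?_, hout, hsS, hsx, huniq⟩
  by_contra hxB
  have hxB' := hxB
  rw [Br, mem_ofPred_eq, not_not] at hxB
  obtain ⟨y, hy⟩ : ∃ y, Deg2 G x s y := by
    obtain ⟨a, b, hab⟩ := hxB
    rcases hab.all s hsx.symm with h' | h'
    · exact ⟨b, h' ▸ hab⟩
    · exact ⟨a, h' ▸ hab.swap⟩
  have hSZ : ∀ a ∈ S, a ∉ Z := fun a ha h' => hSB a ha (hZ.subset h')
  have hTcon : Con G (insert x S) := by
    rw [← union_singleton]
    exact hS.union (con_singleton x) ⟨s, hsS, x, rfl, hsx⟩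
  by_cases hyS : y ∈ S ∨ y ∈ Z
  · -- everything outside `Z` is in `insert x S`
    have hsub : Zᶜ ⊆ insert x S := by
      refine (h.con hZs (by norm_num)).2 (insert x S) ?_ ⟨x, Or.inl rfl⟩ ?_
      · rintro a (rfl | ha)
        · exact hxZ
        · exact hSZ a ha
      · rintro a (rfl | ha) b hb hab
        · rcases hy.all b hab with h' | h'
          · exact Or.inr (h' ▸ hsS)
          · rcases hyS with h'' | h''
            · exact Or.inr (h' ▸ h'')
            · exact absurd (h' ▸ h'') hb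
        · by_cases hbS : b ∈ S
          · exact Or.inr hbS
          · rcases hout a ha b hbS hab with h' | h'
            · exact absurd h' hb
            · exact Or.inl h'
    have g : ∀ n ∈ nbr G Z, n = r ∨ n = x := by
      intro n hn
      rcases hsub hn.1 with h' | h'
      · exact Or.inr h'
      · exact Or.inl (hSr n h' hn)
    rcases g n2 h2 with h' | h'
    · exact hr2 h'.symm
    · rcases g n3 h3 with h'' | h''
      · exact hr3 h''.symm
      · exact h23 (h'.trans h''.symm)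
  · push Not at hyS
    have hxy : x ≠ y := hy.ay.ne
    have hPT : P (insert x S) := by
      refine ⟨hTcon, ?_, Or.inr hrS, ?_, y, x, ?_, hyS.2, ?_, Or.inl rfl, hy.ay, ?_⟩
      · rintro a (rfl | ha)
        · exact hxB'
        · exact hSB a ha
      · rintro a (rfl | ha) han
        · exfalso
          obtain ⟨-, z, hz, hza⟩ := han
          rcases hy.all z hza.symm with h' | h'
          · exact hSZ s hsS (h' ▸ hz)
          · exact hyS.2 (h' ▸ hz)
        · exact hSr a ha han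
      · rintro (h' | h')
        · exact hxy h'.symm
        · exact hyS.1 h'
      · rintro a (rfl | ha) b hb hab
        · rcases hy.all b hab with h' | h'
          · exact absurd (Or.inr (h' ▸ hsS)) hb
          · exact Or.inr h'
        · rcases hout a ha b (fun h' => hb (Or.inr h')) hab with h' | h'
          · exact Or.inl h'
          · exact absurd (Or.inl h') hb
      · rintro a (rfl | ha) hay
        · rfl
        · exfalso
          rcases hout a ha y hyS.1 hay with h' | h'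
          · exact hyS.2 h'
          · exact hxy h'.symm
    have := hmax (insert x S) hPT
    rw [ncard_insert_of_notMem hxS] at this
    omega

theorem caseB : False := by
  -- some vertex does not have degree two
  obtain ⟨v, hv⟩ : ∃ v, v ∈ Br G := by
    by_contra hcon
    push Not at hcon
    have hd : Dec (res G univ) 2 univ := by
      refine dec_of_degree_two h.two.con fun z _ => ?_
      have hz := hcon z
      rw [Br, mem_ofPred_eq, not_not] at hz
      obtain ⟨x, y, hz⟩ := hz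
      have hsub : G.neighborSet z ∩ univ ⊆ {x, y} := by
        rintro w ⟨hw, -⟩
        exact hz.all w hw
      exact (ncard_le_ncard hsub (toFinite _)).trans ((ncard_insert_le _ _).trans (by simp))
    rw [res_univ] at hd
    exact h.dec (hd.mono (by norm_num))
  obtain ⟨Z, hZ, hvZ, hm, n1, n2, n3, h1, h2, h3, h12, h13, h23⟩ := hub h hB hv
  obtain ⟨S, x, s, hS, hSB, hrS, hSr, hxS, hxZ, hxB, hout, hsS, hsx, huniq⟩ :=
    strand h hZ hm h1 h2 h3 h12 h13 h23
  obtain ⟨Z', hZ', hxZ', hm', m1, m2, m3, k1, k2, k3, k12, k13, k23⟩ := hub h hB hxB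
  have hd : Disjoint Z Z' := by
    rcases hZ.eq_or_disjoint hZ' with h' | h'
    · exact absurd (h' ▸ hxZ') hxZ
    · exact h'
  have hSZ : ∀ a ∈ S, a ∉ Z := fun a ha h' => hSB a ha (hZ.subset h')
  have hSZ' : ∀ a ∈ S, a ∉ Z' := fun a ha h' => hSB a ha (hZ'.subset h')
  have hnB : ∀ n ∈ nbr G Z, n ∉ Br G := by
    rintro n ⟨hn, a, ha, han⟩ hnB
    exact hn (hZ.closed a ha n hnB han)
  have hnB' : ∀ n ∈ nbr G Z', n ∉ Br G := by
    rintro n ⟨hn, a, ha, han⟩ hnB
    exact hn (hZ'.closed a ha n hnB han)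
  -- the union
  have hY : Sm G 6 (Z ∪ S ∪ Z') := by
    refine ⟨?_, Z ∪ Z', ?_, ?_, ?_, ?_⟩
    · obtain ⟨z, hz, hzr⟩ := h1.2
      exact (hZ.con.union hS ⟨z, hz, n1, hrS, hzr⟩).union hZ'.con
        ⟨s, Or.inr hsS, x, hxZ', hsx⟩
    · exact union_subset (subset_union_left.trans subset_union_left) subset_union_right
    · have := ncard_union_le Z Z'
      omega
    · rintro a ((ha | ha) | ha) ha0 b hab
      · exact absurd (Or.inl ha) ha0
      · by_cases hbS : b ∈ S
        · exact Or.inl (Or.inr hbS)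
        · rcases hout a ha b hbS hab with h' | h'
          · exact Or.inl (Or.inl h')
          · exact Or.inr (h' ▸ hxZ')
      · exact absurd (Or.inr ha) ha0
    · rintro a ((ha | ha) | ha) ha0
      · exact absurd (Or.inl ha) ha0
      · have hz := hSB a ha
        rw [Br, mem_ofPred_eq, not_not] at hz
        obtain ⟨x, y, hz⟩ := hz
        have hsub : G.neighborSet a ⊆ {x, y} := fun w hw => hz.all w hw
        exact (ncard_le_ncard hsub (toFinite _)).trans ((ncard_insert_le _ _).trans (by simp))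
      · exact absurd (Or.inr ha) ha0
  -- neighbours of the union
  have gn : ∀ n ∈ nbr G Z, n ≠ n1 → n ∈ nbr G (Z ∪ S ∪ Z') := by
    intro n hn hne
    refine ⟨?_, ?_⟩
    · rintro ((h' | h') | h')
      · exact hn.1 h'
      · exact hne (hSr n h' hn)
      · exact hnB n hn (hZ'.subset h')
    · obtain ⟨a, ha, han⟩ := hn.2
      exact ⟨a, Or.inl (Or.inl ha), han⟩
  have gm : ∀ n ∈ nbr G Z', n ≠ s → n ∈ nbr G (Z ∪ S ∪ Z') := by
    intro n hn hne
    refine ⟨?_, ?_⟩
    · rintro ((h' | h') | h')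
      · exact hnB' n hn (hZ.subset h')
      · obtain ⟨a, ha, han⟩ := hn.2
        have haS : a ∉ S := fun h'' => hSZ' a h'' ha
        rcases hout n h' a haS han.symm with h'' | h''
        · exact Set.disjoint_left.mp hd h'' ha
        · exact hne (huniq n h' (h'' ▸ han.symm))
      · exact hn.1 h'
    · obtain ⟨a, ha, han⟩ := hn.2
      exact ⟨a, Or.inr ha, han⟩
  obtain ⟨ma, mb, hma, hmb, hmab, hmas, hmbs⟩ : ∃ ma mb, ma ∈ nbr G Z' ∧ mb ∈ nbr G Z' ∧
      ma ≠ mb ∧ ma ≠ s ∧ mb ≠ s := by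
    by_cases e1 : m1 = s
    · exact ⟨m2, m3, k2, k3, k23, fun h' => k12 (e1.trans h'.symm),
        fun h' => k13 (e1.trans h'.symm)⟩
    · by_cases e2 : m2 = s
      · exact ⟨m1, m3, k1, k3, k13, e1, fun h' => k23 (e2.trans h'.symm)⟩
      · exact ⟨m1, m2, k1, k2, k12, e1, e2⟩
  -- a vertex next to both hubs is impossible
  have hno2 : ∀ n ∈ nbr G Z, n ≠ n1 → n ∉ nbr G Z' := by
    intro n hn hne hn'
    have hz := hnB n hn
    rw [Br, mem_ofPred_eq, not_not] at hz
    obtain ⟨a, b, hab⟩ := hz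
    obtain ⟨y, hy, hny⟩ := h.out hY (by norm_num) (gn n hn hne)
    obtain ⟨z, hz, hzn⟩ := hn.2
    obtain ⟨z', hz', hzn'⟩ := hn'.2
    have hzz' : z ≠ z' := fun h' => Set.disjoint_left.mp hd hz (h' ▸ hz')
    have hyz : y ≠ z := fun h' => hy (Or.inl (Or.inl (h' ▸ hz)))
    have hyz' : y ≠ z' := fun h' => hy (Or.inr (h' ▸ hz'))
    rcases hab.all y hny with e1 | e1 <;> rcases hab.all z hzn.symm with e2 | e2 <;>
      rcases hab.all z' hzn'.symm with e3 | e3
    · exact hyz (e1.trans e2.symm)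
    · exact hyz (e1.trans e2.symm)
    · exact hyz' (e1.trans e3.symm)
    · exact hzz' (e2.trans e3.symm)
    · exact hzz' (e2.trans e3.symm)
    · exact hyz' (e1.trans e3.symm)
    · exact hyz (e1.trans e2.symm)
    · exact hyz (e1.trans e2.symm)
  obtain ⟨w, hw, hmw⟩ := h.out hY (by norm_num) (gm mb hmb hmbs)
  refine h.four hY (by norm_num) (gn n2 h2 h12.symm) (gn n3 h3 h13.symm) (gm ma hma hmas)
    (gm mb hmb hmbs) h23 (fun h' => hno2 n2 h2 h12.symm (h' ▸ hma))
    (fun h' => hno2 n3 h3 h13.symm (h' ▸ hma)) (fun h' => hno2 n2 h2 h12.symm (h' ▸ hmb))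
    (fun h' => hno2 n3 h3 h13.symm (h' ▸ hmb)) hmab hw hmw ?_
  intro y hy hmy
  have hz := hnB' mb hmb
  rw [Br, mem_ofPred_eq, not_not] at hz
  obtain ⟨a, b, hab⟩ := hz
  obtain ⟨z, hz, hzn⟩ := hmb.2
  have hwz : w ≠ z := fun h' => hw (Or.inr (h' ▸ hz))
  have hyz : y ≠ z := fun h' => hy (Or.inr (h' ▸ hz))
  rcases hab.all y hmy with e1 | e1 <;> rcases hab.all z hzn.symm with e2 | e2 <;>
    rcases hab.all w hmw with e3 | e3
  · exact e1.trans e3.symm
  · exact absurd (e1.trans e2.symm) hyz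
  · exact e1.trans e3.symm
  · exact absurd (e3.trans e2.symm) hwz
  · exact absurd (e3.trans e2.symm) hwz
  · exact e1.trans e3.symm
  · exact absurd (e1.trans e2.symm) hyz
  · exact e1.trans e3.symm

end caseB

/-- The 2-connected case. -/
theorem X_twoCon (h2 : TwoCon G) (hno : ¬ ContractsTo coTwoP1P3 G) : Dec G (2 ^ 16) univ := by
  by_contra hdec
  have h : Rob G := ⟨h2, hno, hdec⟩
  by_cases hA : ∃ Z : Set V, Con G Z ∧ Z.ncard ≤ 3 ∧ 4 ≤ (nbr G Z).ncard
  · obtain ⟨Z, hZ, hm, h4⟩ := hA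
    exact h.caseA (Sm.of_ncard hZ hm) h4
  · push Not at hA
    exact caseB h fun Z hZ hm => Nat.lt_succ_iff.mp (hA Z hZ hm)

end Pool.Agent.Work.MP_80fcda_co
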