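import Pool.Agent.Work.MP_80fcda_co.XTools

/-!
# Connected sets with disconnected complement
-/

set_option autoImplicit false

namespace Pool.Agent.Work.MP_80fcda_co

open Set

variable {V : Type} {G : SimpleGraph V}

theorem comp_eadj (hG : Con G univ) {W K : Set V} (hW : W.Nonempty) (hK : IsComp G Wᶜ K) :
    EAdj G W K := by
  have hK' : IsComp G (univ \ W) K := by rwa [← compl_eq_univ_sdiff]
  have := hG.eadj_comp hK' (by rwa [univ_inter])
  rw [univ_inter] at this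
  exact this.symm

/-- In a 2-connected graph, a component of the complement of a connected set `W` shares with
another component a partition of `W` into two connected sets. -/
theorem cut_share [Finite V] (h2 : TwoCon G) : ∀ (n : ℕ) (W K K' : Set V), W.ncard = n →
    Con G W → IsComp G Wᶜ K → IsComp G Wᶜ K' → K ≠ K' →
    ∃ S0 T0 C : Set V, S0 ∪ T0 = W ∧ Disjoint S0 T0 ∧ Con G S0 ∧ Con G T0 ∧
      IsComp G Wᶜ C ∧ K ≠ C ∧ EAdj G S0 C ∧ EAdj G T0 C ∧ EAdj G S0 K ∧ EAdj G T0 K := by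
  intro n
  induction n using Nat.strong_induction_on with
  | _ n ih =>
    intro W K K' hn hW hK hK' hne
    obtain ⟨w0, hw0⟩ := hW.1
    have : Nonempty V := ⟨w0⟩
    have hWK := comp_eadj h2.con hW.1 hK
    have hWK' := comp_eadj h2.con hW.1 hK'
    have aux : ∀ {L : Set V}, EAdj G W L → (W ∩ (W ∩ NB G L)).Nonempty := by
      intro L h
      obtain ⟨x, hx⟩ := eadj_iff_NB.mp h.symm
      exact ⟨x, hx.1, hx⟩
    rcases menger2 (G := G) _ W (W ∩ NB G K) (W ∩ NB G K') rfl inter_subset_left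
      inter_subset_left with ⟨v, hv⟩ | ⟨X, Y, hX, hY, hd, hXc, hYc, h1, h2', h3, h4⟩
    swap
    · obtain ⟨B, C', hBC, hdBC, hB, hC', -, hXB, hYC⟩ := hW.extend hXc hYc hX hY hd
      have e : ∀ {R Z B : Set V}, (Z ∩ (W ∩ NB G R)).Nonempty → Z ⊆ B → EAdj G B R := by
        rintro R Z B ⟨x, hx, -, y, hy, hxy⟩ hZ
        exact ⟨x, hZ hx, y, hy, hxy⟩
      exact ⟨B, C', K', hBC, hdBC, hB, hC', hK', hne, e h2' hXB, e h4 hYC, e h1 hXB, e h3 hYC⟩
    have hvW : v ∈ W := by
      by_contra hvA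
      refine hv W (fun x hx => ⟨hx, ?_⟩) hW (aux hWK) (aux hWK')
      rintro rfl
      exact hvA hx
    have hvs : ({v} : Set V) ⊆ W := by simpa using hvW
    obtain ⟨k', hk'⟩ := hK'.con.1
    have hk'K : k' ∉ K := fun h => Set.disjoint_left.mp (hK.disjoint_of_ne hK' hne) h hk'
    have hk'W : k' ∉ W := hK'.subset hk'
    have hk'v : k' ≠ v := by rintro rfl; exact hk'W hvW
    have hvK : v ∉ K := fun h => hK.subset h hvW
    -- a component of `W \ {v}` joined to `K`
    obtain ⟨D0, hD0, hD0K⟩ : ∃ D, IsComp G (W \ {v}) D ∧ EAdj G D K := by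
      obtain ⟨a, ha, b, hb, p, hp, q, hq, hap, hbq, hpq⟩ := h2.two_nbrs hK.con.1 hvK hk'K hk'v.symm
      have hmem : ∀ p, p ∉ K → ∀ a ∈ K, G.Adj a p → p ∈ W := by
        intro p hp a ha hap
        by_contra hpW
        exact hp (hK.closed a ha p hpW hap)
      by_cases hpv : p = v
      · have hqv : q ≠ v := fun h => hpq (hpv.trans h.symm)
        obtain ⟨D, hD, hqD⟩ := exists_comp (G := G) (A := W \ {v}) (v := q)
          ⟨hmem q hq b hb hbq, hqv⟩
        exact ⟨D, hD, q, hqD, b, hb, hbq.symm⟩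
      · obtain ⟨D, hD, hpD⟩ := exists_comp (G := G) (A := W \ {v}) (v := p)
          ⟨hmem p hp a ha hap, hpv⟩
        exact ⟨D, hD, p, hpD, a, ha, hap.symm⟩
    -- a component joined to `D1` and to `D2`
    obtain ⟨D1, D2, C1, hD1, hD2, hC1, hD1K, hD2K, hD1C, hD2C⟩ : ∃ D1 D2 C1 : Set V,
        IsComp G (W \ {v}) D1 ∧ IsComp G (W \ {v}) D2 ∧ IsComp G Wᶜ C1 ∧ EAdj G D1 K ∧
        ¬ EAdj G D2 K ∧ EAdj G D1 C1 ∧ EAdj G D2 C1 := by
      by_contra hcon
      push Not at hcon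
      let M : Set V := {x | (∃ D, IsComp G (W \ {v}) D ∧ EAdj G D K ∧ x ∈ D) ∨
        ∃ C, IsComp G Wᶜ C ∧ x ∈ C ∧ ∃ D, IsComp G (W \ {v}) D ∧ EAdj G D K ∧ EAdj G D C}
      have hvM : v ∉ M := by
        rintro (⟨D, hD, -, h⟩ | ⟨C, hC, h, -⟩)
        · exact (hD.subset h).2 rfl
        · exact hC.subset h hvW
      obtain ⟨d0, hd0⟩ := hD0.con.1
      have hall := h2.eq_compl (K := M) (v := v) ⟨d0, Or.inl ⟨D0, hD0, hD0K, hd0⟩⟩ hvM (by
        rintro a (⟨D, hD, hDK, haD⟩ | ⟨C, hC, haC, D, hD, hDK, hDC⟩) b hb hab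
        · by_contra hbv
          by_cases hbW : b ∈ W
          · exact hb (Or.inl ⟨D, hD, hDK, hD.closed a haD b ⟨hbW, hbv⟩ hab⟩)
          · obtain ⟨C, hC, hbC⟩ := exists_comp (G := G) (A := Wᶜ) hbW
            exact hb (Or.inr ⟨C, hC, hbC, D, hD, hDK, a, haD, b, hbC, hab⟩)
        · by_contra hbv
          by_cases hbW : b ∈ W
          · obtain ⟨D2, hD2, hbD⟩ := exists_comp (G := G) (A := W \ {v}) (v := b) ⟨hbW, hbv⟩
            have hn : ¬ EAdj G D2 K := fun h => hb (Or.inl ⟨D2, hD2, h, hbD⟩)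
            exact hcon D D2 C hD hD2 hC hDK hn hDC ⟨b, hbD, a, haC, hab.symm⟩
          · exact hb (Or.inr ⟨C, hC, hC.closed a haC b hbW hab, D, hD, hDK, hDC⟩))
      rcases hall k' hk'v with ⟨D, hD, -, h⟩ | ⟨C, hC, hkC, D, hD, hDK, hDC⟩
      · exact hk'W (hD.subset h).1
      · have hCK : C = K' := by
          rcases hC.eq_or_disjoint hK' with h | h
          · exact h
          · exact absurd hk' (Set.disjoint_left.mp h hkC)
        rw [hCK] at hDC
        have e : ∀ {L : Set V}, EAdj G D L → (D ∩ (W ∩ NB G L)).Nonempty := by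
          intro L h
          obtain ⟨x, hx, y, hy, hxy⟩ := h
          exact ⟨x, hx, (hD.subset hx).1, y, hy, hxy⟩
        exact hv D hD.subset hD.con (e hDK) (e hDC)
    have hD12 : D1 ≠ D2 := by rintro rfl; exact hD2K hD1K
    have hD1W : D1 ⊆ W := hD1.subset.trans sdiff_subset
    have hD2E : D2 ⊆ W \ D1 := fun x hx => ⟨(hD2.subset hx).1, fun h =>
      Set.disjoint_left.mp (hD1.disjoint_of_ne hD2 hD12) h hx⟩
    have hC1K : C1 ≠ K := by rintro rfl; exact hD2K hD2C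
    have hvD1 : v ∉ D1 := fun h => (hD1.subset h).2 rfl
    have hE : Con G (W \ D1) := hW.diff_comp (con_singleton v) hvs hD1
    have hvE : v ∈ W \ D1 := ⟨hvW, hvD1⟩
    by_cases hKE : EAdj G (W \ D1) K
    · exact ⟨D1, W \ D1, C1, union_sdiff_cancel hD1W, disjoint_sdiff_right, hD1.con, hE, hC1,
        hC1K.symm, hD1C, hD2C.mono hD2E subset_rfl, hD1K, hKE⟩
    · have hsub : Wᶜ ⊆ D1ᶜ := compl_subset_compl.mpr hD1W
      have hKD : IsComp G D1ᶜ K := by
        refine ⟨hK.subset.trans hsub, hK.con, fun a ha b hb hab => ?_⟩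
        by_contra hbK
        have hbW : b ∈ W := by
          by_contra h
          exact hbK (hK.closed a ha b h hab)
        exact hKE ⟨b, ⟨hbW, hb⟩, a, ha, hab.symm⟩
      obtain ⟨Cs, hCs, hvCs⟩ := exists_comp (G := G) (A := D1ᶜ) hvD1
      have hlt : D1.ncard < n := by
        rw [← hn]
        exact ncard_lt_ncard ⟨hD1W, fun h => hvD1 (h hvW)⟩ (toFinite _)
      obtain ⟨S0, T0, C, hST, hdST, hS, hT, hC, hKC, e1, e2, e3, e4⟩ :=
        ih _ hlt D1 K Cs rfl hD1.con hKD hCs (fun h => hvK (h ▸ hvCs))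
      have hEsub : W \ D1 ⊆ D1ᶜ := fun x hx => hx.2
      have hED : EAdj G (W \ D1) D1 := by
        have := hW.eadj_of_partition (union_sdiff_cancel hD1W) disjoint_sdiff_right hD1.con.1
          ⟨v, hvE⟩
        exact this.symm
      -- closing step
      have fin : ∀ S0 T0 C2 : Set V, S0 ∪ T0 = D1 → Disjoint S0 T0 → Con G S0 → Con G T0 →
          EAdj G S0 K → EAdj G T0 K → EAdj G (W \ D1) S0 → IsComp G Wᶜ C2 → C2 ≠ K →
          EAdj G T0 C2 → EAdj G (S0 ∪ (W \ D1)) C2 →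
          ∃ S0 T0 C : Set V, S0 ∪ T0 = W ∧ Disjoint S0 T0 ∧ Con G S0 ∧ Con G T0 ∧
          IsComp G Wᶜ C ∧ K ≠ C ∧ EAdj G S0 C ∧ EAdj G T0 C ∧ EAdj G S0 K ∧ EAdj G T0 K := by
        intro S0 T0 C2 hST hdST hS hT e3 e4 hES hC2 hC2K f1 f2
        refine ⟨S0 ∪ (W \ D1), T0, C2, ?_, ?_, hS.union hE hES.symm, hT, hC2, hC2K.symm, f2, f1,
          e3.mono subset_union_left subset_rfl, e4⟩
        · rw [union_right_comm, hST, union_sdiff_cancel hD1W]
        · rw [disjoint_union_left]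
          exact ⟨hdST, disjoint_sdiff_left.mono_right (hST ▸ subset_union_right)⟩
      -- the symmetric core
      have core : ∀ S0 T0 : Set V, S0 ∪ T0 = D1 → Disjoint S0 T0 → Con G S0 → Con G T0 →
          EAdj G S0 K → EAdj G T0 K → EAdj G S0 C → EAdj G T0 C → EAdj G (W \ D1) S0 →
          ∃ S0 T0 C : Set V, S0 ∪ T0 = W ∧ Disjoint S0 T0 ∧ Con G S0 ∧ Con G T0 ∧
          IsComp G Wᶜ C ∧ K ≠ C ∧ EAdj G S0 C ∧ EAdj G T0 C ∧ EAdj G S0 K ∧ EAdj G T0 K := by
        intro S0 T0 hST hdST hS hT e3 e4 e1 e2 hES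
        by_cases hCE : (C ∩ (W \ D1)).Nonempty
        · have hEC : W \ D1 ⊆ C := hC.subset_of_con hE hEsub hCE
          obtain ⟨t, ht, y, hy, hty⟩ := e2
          by_cases hyE : y ∈ W \ D1
          · have hET : EAdj G (W \ D1) T0 := ⟨y, hyE, t, ht, hty.symm⟩
            have hC1D : EAdj G (S0 ∪ T0) C1 := hST ▸ hD1C
            rcases eadj_union_left.mp hC1D with h | h
            · exact fin T0 S0 C1 (by rw [union_comm, hST]) hdST.symm hT hS e4 e3 hET hC1 hC1K h
                (hD2C.mono (hD2E.trans subset_union_right) subset_rfl)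
            · exact fin S0 T0 C1 hST hdST hS hT e3 e4 hES hC1 hC1K h
                (hD2C.mono (hD2E.trans subset_union_right) subset_rfl)
          · have hyW : y ∉ W := fun h => hyE ⟨h, hC.subset hy⟩
            obtain ⟨C2, hC2, hyC2⟩ := exists_comp (G := G) (A := Wᶜ) hyW
            have hC2C : C2 ⊆ C := hC.subset_of_con hC2.con (hC2.subset.trans hsub)
              ⟨y, hy, hyC2⟩
            have hvC2 : v ∉ C2 := fun h => hC2.subset h hvW
            obtain ⟨a, ha, b, hb, hab⟩ := hC.con.exists_edge hC2C hC2.con.1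
              ⟨v, hEC hvE, hvC2⟩
            have hbW : b ∈ W := by
              by_contra h
              exact hb.2 (hC2.closed a ha b h hab)
            have hEC2 : EAdj G (W \ D1) C2 := ⟨b, ⟨hbW, hC.subset hb.1⟩, a, ha, hab.symm⟩
            exact fin S0 T0 C2 hST hdST hS hT e3 e4 hES hC2 (fun h => hKE (h ▸ hEC2))
              ⟨t, ht, y, hyC2, hty⟩ (hEC2.mono subset_union_right subset_rfl)
        · have hCW : IsComp G Wᶜ C := by
            refine ⟨fun x hx hxW => hCE ⟨x, hx, hxW, hC.subset hx⟩, hC.con, ?_⟩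
            exact fun a ha b hb hab => hC.closed a ha b (hsub hb) hab
          exact fin S0 T0 C hST hdST hS hT e3 e4 hES hCW hKC.symm e2
            (e1.mono subset_union_left subset_rfl)
      rw [← hST, eadj_union_right] at hED
      rcases hED with h | h
      · exact core S0 T0 hST hdST hS hT e3 e4 e1 e2 (by rwa [← hST])
      · exact core T0 S0 (by rw [union_comm, hST]) hdST.symm hT hS e4 e3 e2 e1 (by rwa [← hST])

/-- `W` is connected and, outside of a set of at most `m` vertices, it consists of vertices of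
degree at most two without neighbours outside `W`. -/
structure Sm (G : SimpleGraph V) (m : ℕ) (W : Set V) : Prop where
  con : Con G W
  ex : ∃ W0 ⊆ W, W0.ncard ≤ m ∧ (∀ a ∈ W, a ∉ W0 → ∀ b, G.Adj a b → b ∈ W) ∧
    ∀ a ∈ W, a ∉ W0 → (G.neighborSet a).ncard ≤ 2

theorem Sm.of_ncard {m : ℕ} {W : Set V} (hW : Con G W) (hm : W.ncard ≤ m) : Sm G m W :=
  ⟨hW, W, subset_rfl, hm, fun _ h h' => absurd h h', fun _ h h' => absurd h h'⟩

theorem Sm.mono {m m' : ℕ} {W : Set V} (h : Sm G m W) (hm : m ≤ m') : Sm G m' W := by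
  obtain ⟨W0, h1, h2, h3⟩ := h.ex
  exact ⟨h.con, W0, h1, h2.trans hm, h3⟩

theorem Con.insert_nbr {W : Set V} {x : V} (h : Con G W) (hx : x ∈ nbr G W) :
    Con G (insert x W) := by
  obtain ⟨-, a, ha, hax⟩ := hx
  rw [← union_singleton]
  exact h.union (con_singleton x) ⟨a, ha, x, rfl, hax⟩

theorem Sm.ins {m : ℕ} {W : Set V} {x : V} (h : Sm G m W) (hx : x ∈ nbr G W) :
    Sm G (m + 1) (insert x W) := by
  obtain ⟨W0, h1, h2, h3, h4⟩ := h.ex
  refine ⟨h.con.insert_nbr hx, insert x W0, insert_subset_insert h1, ?_, ?_, ?_⟩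
  · have := ncard_insert_le x W0
    omega
  · rintro a (rfl | ha) ha0 b hab
    · exact absurd (Or.inl rfl) ha0
    · exact Or.inr (h3 a ha (fun h => ha0 (Or.inr h)) b hab)
  · rintro a (rfl | ha) ha0
    · exact absurd (Or.inl rfl) ha0
    · exact h4 a ha (fun h => ha0 (Or.inr h))

/-- Assembling the decomposition. -/
theorem dec_assemble [Finite V] [Nonempty V] {m : ℕ} {W0 W : Set V} (h0 : W0 ⊆ W)
    (hm : W0.ncard ≤ m) (h1 : ∀ a ∈ W, a ∉ W0 → ∀ b, G.Adj a b → b ∈ W)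
    (hd : ∀ a ∈ W, a ∉ W0 → (G.neighborSet a).ncard ≤ 2)
    (hK : ∀ K, IsComp G Wᶜ K → Dec G (2 ^ (m + 2)) K) : Dec G (2 ^ (m + 2)) univ := by
  refine dec_of_small hm (Nat.pow_le_pow_right (by norm_num) (by omega)) fun K hKc => ?_
  by_cases hKW : (K ∩ W).Nonempty
  · have hcl : Closed G W0ᶜ (W \ W0) := fun u hu v hv huv => ⟨h1 u hu.1 hu.2 v huv, hv⟩
    have hKs : K ⊆ W \ W0 := by
      refine hKc.con.subset_of_closed hKc.subset hcl ?_
      obtain ⟨x, hxK, hxW⟩ := hKW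
      exact ⟨x, ⟨hxW, hKc.subset hxK⟩, hxK⟩
    have hdec : Dec (res G K) 2 K := dec_of_degree_two hKc.con fun y hy =>
      (ncard_le_ncard inter_subset_left (toFinite _)).trans (hd y (hKs hy).1 (hKs hy).2)
    refine (hdec.lift (W := W0) ?_ subset_rfl).mono ?_
    · intro x hx v hv hxv
      by_contra h
      exact hv (hKc.closed x hx v h hxv)
    · calc (2 + 1) * 2 ^ W0.ncard ≤ 4 * 2 ^ m :=
            Nat.mul_le_mul (by norm_num) (Nat.pow_le_pow_right (by norm_num) hm)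
        _ = 2 ^ (m + 2) := by ring
  · refine hK K ⟨fun x hx hxW => hKW ⟨x, hx, hxW⟩, hKc.con, fun a ha b hb hab => ?_⟩
    exact hKc.closed a ha b (fun h => hb (h0 h)) hab

theorem nbr_ncard_le [Finite V] {m : ℕ} {W0 W K : Set V}
    (hm : W0.ncard ≤ m) (h1 : ∀ a ∈ W, a ∉ W0 → ∀ b, G.Adj a b → b ∈ W)
    (hK : IsComp G Wᶜ K) : (nbr G K).ncard ≤ m := by
  refine (ncard_le_ncard ?_ (toFinite _)).trans hm
  rintro x ⟨hxK, a, ha, hax⟩
  have hxW : x ∈ W := by
    by_contra h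
    exact hxK (hK.closed a ha x h hax)
  by_contra hx0
  exact hK.subset ha (h1 x hxW hx0 a hax.symm)

theorem exists_other_comp {A K : Set V} (hK : IsComp G A K) (h : ¬ Con G A) :
    ∃ K', IsComp G A K' ∧ K ≠ K' := by
  by_contra hcon
  push Not at hcon
  apply h
  have : A = K := by
    refine subset_antisymm (fun x hx => ?_) hK.subset
    obtain ⟨C, hC, hxC⟩ := exists_comp (G := G) hx
    rw [hcon C hC]
    exact hxC
  rw [this]
  exact hK.con

/-- A small connected set whose complement is not connected gives a decomposition. -/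
theorem Sm.dec [Finite V] (h2 : TwoCon G) (hno : ¬ ContractsTo coTwoP1P3 G) {m : ℕ}
    {W : Set V} (hW : Sm G m W) (hc : ¬ Con G Wᶜ) : Dec G (2 ^ (m + 2)) univ := by
  obtain ⟨w0, hw0⟩ := hW.con.1
  have : Nonempty V := ⟨w0⟩
  obtain ⟨W0, h0, hm, h1, hd⟩ := hW.ex
  refine dec_assemble h0 hm h1 hd fun K hK => ?_
  obtain ⟨K', hK', hne⟩ := exists_other_comp hK hc
  obtain ⟨S0, T0, C, hST, hdST, hS, hT, hC, hKC, e1, e2, e3, e4⟩ :=
    cut_share h2 _ W K K' rfl hW.con hK hK' hne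
  refine (dec_comp_X h2 hno hS hT hdST ?_ (hST ▸ hK) (hST ▸ hC) hKC e1 e2 e3 e4
    (nbr_ncard_le hm h1 hK)).mono (Nat.pow_le_pow_right (by norm_num) (by omega))
  exact hW.con.eadj_of_partition hST hdST hS.1 hT.1

end Pool.Agent.Work.MP_80fcda_co
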