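import Pool.Agent.Work.MP_80fcda_co.Gem

/-!
# Tools for graphs without the complement of `2P₁ + P₃`
-/

set_option autoImplicit false

namespace Pool.Agent.Work.MP_80fcda_co

open Set

variable {V : Type} {G : SimpleGraph V}

/-- The outside neighbours of `A`. -/
def nbr (G : SimpleGraph V) (A : Set V) : Set V := {x | x ∉ A ∧ ∃ a ∈ A, G.Adj a x}

/-- A model of the complement of `2P₁ + P₃` from its five bags. -/
theorem X_of_bags [Finite V] {B0 B1 B2 B3 B4 : Set V}
    (hcov : ∀ x, x ∈ B0 ∨ x ∈ B1 ∨ x ∈ B2 ∨ x ∈ B3 ∨ x ∈ B4)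
    (d01 : Disjoint B0 B1) (d02 : Disjoint B0 B2) (d03 : Disjoint B0 B3) (d04 : Disjoint B0 B4)
    (d12 : Disjoint B1 B2) (d13 : Disjoint B1 B3) (d14 : Disjoint B1 B4) (d23 : Disjoint B2 B3)
    (d24 : Disjoint B2 B4) (d34 : Disjoint B3 B4)
    (c0 : Con G B0) (c1 : Con G B1) (c2 : Con G B2) (c3 : Con G B3) (c4 : Con G B4)
    (e01 : EAdj G B0 B1) (e02 : EAdj G B0 B2) (e03 : EAdj G B0 B3) (e12 : EAdj G B1 B2)
    (e13 : EAdj G B1 B3) (e23 : EAdj G B2 B3) (e40 : EAdj G B4 B0) (e41 : EAdj G B4 B1)
    (n42 : ¬ EAdj G B4 B2) (n43 : ¬ EAdj G B4 B3) :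
    ContractsTo coTwoP1P3 G := by
  refine contractsTo_of_bags ![B0, B1, B2, B3, B4] ?_ ?_ ?_ ?_
  · intro v
    rcases hcov v with h | h | h | h | h
    exacts [⟨0, h⟩, ⟨1, h⟩, ⟨2, h⟩, ⟨3, h⟩, ⟨4, h⟩]
  · intro i j hij
    fin_cases i <;> fin_cases j <;>
      first
      | exact absurd rfl hij
      | assumption
      | (apply Disjoint.symm; assumption)
  · intro i
    fin_cases i <;> assumption
  · intro i j hij
    fin_cases i <;> fin_cases j <;>
      first
      | exact absurd rfl hij
      | (simp only [coTwoP1P3]; simp; first | assumption | (apply EAdj.symm; assumption) |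
          (intro h; have h' := h.symm; contradiction))

theorem dec_union_comps [Finite V] {k : ℕ} {A : Set V} (hA : A.Nonempty)
    (hK : ∀ K, IsComp G A K → Dec G k K)
    (hU : ∀ D ⊆ A, Closed G A D → Div G k D) : Dec G k A := by
  have key : ∀ n : ℕ, ∀ D : Set V, D ⊆ A → D.Nonempty → Closed G A D → D.ncard = n →
      Dec G k D := by
    intro n
    induction n using Nat.strong_induction_on with
    | _ n ih =>
      intro D hDA hDne hcl hn
      obtain ⟨x, hx⟩ := hDne
      obtain ⟨K, hKc, hxK⟩ := exists_comp (G := G) (hDA hx)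
      have hKD : K ⊆ D := hKc.con.subset_of_closed hKc.subset hcl ⟨x, hx, hxK⟩
      by_cases hrest : (D \ K).Nonempty
      · refine Dec.union (hK K hKc) (ih (D \ K).ncard ?_ (D \ K) (sdiff_subset.trans hDA) hrest
          ?_ rfl) disjoint_sdiff_right (union_sdiff_cancel hKD) (hU D hDA hcl)
        · rw [← hn]
          refine ncard_lt_ncard ?_ (toFinite _)
          exact ⟨sdiff_subset, fun h => (h hx).2 hxK⟩
        · intro u hu v hv huv
          refine ⟨hcl u hu.1 v hv huv, fun hvK => hu.2 ?_⟩
          exact hKc.closed v hvK u (hDA hu.1) huv.symm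
      · have : D = K := by
          rw [not_nonempty_iff_eq_empty, sdiff_eq_empty] at hrest
          exact subset_antisymm hrest hKD
        rw [this]
        exact hK K hKc
  exact key _ A subset_rfl hA (fun _ _ v hv _ => hv) rfl

theorem dec_of_small [Finite V] [Nonempty V] {k m : ℕ} {W : Set V} (hm : W.ncard ≤ m)
    (hk : 2 ^ m ≤ k) (hK : ∀ K, IsComp G Wᶜ K → Dec G k K) : Dec G k univ := by
  have hpow : 2 ^ W.ncard ≤ k := (Nat.pow_le_pow_right (by norm_num) hm).trans hk
  by_cases hne : (Wᶜ).Nonempty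
  · refine (dec_union_comps hne hK ?_).grow (subset_univ _) ?_
    · intro D hD hcl
      refine Div.of_trace (W := W) hpow fun y hy v hv hyv => ?_
      by_contra hvW
      exact hv (hcl y hy v hvW hyv)
    · intro F hF _
      refine Div.of_trace (W := W) hpow fun y _ v hv _ => ?_
      by_contra hvW
      exact hv (hF hvW)
  · rw [not_nonempty_iff_eq_empty, compl_empty_iff] at hne
    refine (dec_of_finite G univ_nonempty).mono ?_
    rw [hne, ncard_univ] at hpow
    exact (Nat.lt_two_pow_self).le.trans hpow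

theorem Tri.X_split [Finite V] {S T C A A1 A2 : Set V} (h : Tri G S T C A) (hA : A1 ∪ A2 = A)
    (hd : Disjoint A1 A2) (c1 : Con G A1) (c2 : Con G A2) (e1 : EAdj G S A1) (e2 : EAdj G S A2)
    (e3 : EAdj G T A1) (e4 : EAdj G T A2) : ContractsTo coTwoP1P3 G := by
  have h1 : A1 ⊆ A := hA ▸ subset_union_left
  have h2 : A2 ⊆ A := hA ▸ subset_union_right
  refine X_of_bags (B0 := S) (B1 := T) (B2 := A1) (B3 := A2) (B4 := C) ?_ h.dST
    (h.dSA.mono_right h1) (h.dSA.mono_right h2) h.dSC (h.dTA.mono_right h1)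
    (h.dTA.mono_right h2) h.dTC hd (h.dCA.symm.mono_left h1) (h.dCA.symm.mono_left h2)
    h.cS h.cT c1 c2 h.cC h.eST e1 e2 e3 e4 (h.cA.eadj_of_partition hA hd c1.1 c2.1)
    h.eSC.symm h.eTC.symm (fun h' => h.nCA (h'.mono subset_rfl h1))
    (fun h' => h.nCA (h'.mono subset_rfl h2))
  intro x
  rcases h.cov x with hx | hx | hx | hx
  · exact Or.inl hx
  · exact Or.inr (Or.inl hx)
  · exact Or.inr (Or.inr (Or.inr (Or.inr hx)))
  · rw [← hA] at hx
    rcases hx with hx | hx
    · exact Or.inr (Or.inr (Or.inl hx))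
    · exact Or.inr (Or.inr (Or.inr (Or.inl hx)))

/-- The side lemma. -/
theorem Tri.dec_X [Finite V] (h2 : TwoCon G) (hno : ¬ ContractsTo coTwoP1P3 G) (m : ℕ) :
    ∀ (n : ℕ) (S T C A : Set V), A.ncard = n → Tri G S T C A → EAdj G S A → EAdj G T A →
      (nbr G A).ncard ≤ m → Dec G (2 ^ (m + 1)) A := by
  intro n
  induction n using Nat.strong_induction_on with
  | _ n ih =>
    intro S T C A hn h hS hT hm
    obtain ⟨a0, ha0⟩ := h.cA.1
    have : Nonempty V := ⟨a0⟩
    have hS' : (A ∩ (A ∩ NB G S)).Nonempty := by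
      rw [eadj_iff_NB] at hS
      obtain ⟨x, hx⟩ := hS
      exact ⟨x, hx.1, hx⟩
    have hT' : (A ∩ (A ∩ NB G T)).Nonempty := by
      rw [eadj_iff_NB] at hT
      obtain ⟨x, hx⟩ := hT
      exact ⟨x, hx.1, hx⟩
    rcases menger2 (G := G) _ A (A ∩ NB G S) (A ∩ NB G T) rfl inter_subset_left
      inter_subset_left with ⟨v, hv⟩ | ⟨X, Y, hX, hY, hd, hXc, hYc, h1, h2', h3, h4⟩
    · have hvA : v ∈ A := by
        by_contra hvA
        refine hv A (fun x hx => ⟨hx, ?_⟩) h.cA hS' hT'
        rintro rfl
        exact hvA hx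
      have hvs : ({v} : Set V) ⊆ A := by simpa using hvA
      -- a component on the side of `S`
      have side : ∀ S T : Set V, Tri G S T C A → EAdj G T A → ∀ D, IsComp G (A \ {v}) D →
          EAdj G S D → ¬ EAdj G T D → Dec G (2 ^ (m + 1)) D := by
        intro S T h hT D hD hSD hTD
        have hDA : D ⊆ A := hD.subset.trans sdiff_subset
        have hvD : v ∉ D := fun h => (hD.subset h).2 rfl
        have hcon : Con G (A \ D) := h.cA.diff_comp (con_singleton v) hvs hD
        obtain ⟨t, ht, a, ha, hta⟩ := hT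
        have haD : a ∉ D := fun h => hTD ⟨t, ht, a, h, hta⟩
        have hTe : EAdj G T (A \ D) := ⟨t, ht, a, ⟨ha, haD⟩, hta⟩
        have hDv : EAdj G D {v} := (h.cA.eadj_comp hD ⟨v, hvA, rfl⟩).mono subset_rfl
          inter_subset_right
        have hlt : D.ncard < n := by
          rw [← hn]
          exact ncard_lt_ncard ⟨hDA, fun h => hvD (h hvA)⟩ (toFinite _)
        have htri : Tri G S (T ∪ (A \ D)) C D := by
          refine ⟨h.cS, h.cT.union hcon hTe, h.cC, hD.con, ?_, ?_, h.dSC, ?_, h.dSA.mono_right hDA,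
            ?_, h.dCA.mono_right hDA, h.eST.mono subset_rfl subset_union_left, h.eSC,
            h.eTC.mono subset_union_left subset_rfl, fun h' => h.nCA (h'.mono subset_rfl hDA)⟩
          · intro x
            rcases h.cov x with hx | hx | hx | hx
            · exact Or.inl hx
            · exact Or.inr (Or.inl (Or.inl hx))
            · exact Or.inr (Or.inr (Or.inl hx))
            · by_cases hxD : x ∈ D
              · exact Or.inr (Or.inr (Or.inr hxD))
              · exact Or.inr (Or.inl (Or.inr ⟨hx, hxD⟩))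
          · exact disjoint_union_right.mpr ⟨h.dST, h.dSA.mono_right sdiff_subset⟩
          · exact disjoint_union_left.mpr ⟨h.dTC, (h.dCA.mono_right sdiff_subset).symm⟩
          · exact disjoint_union_left.mpr ⟨h.dTA.mono_right hDA, disjoint_sdiff_left⟩
        refine ih D.ncard hlt S (T ∪ (A \ D)) C D rfl htri hSD ?_ ?_
        · exact hDv.symm.mono (fun x hx => Or.inr ⟨hvs hx, by
            rw [mem_singleton_iff] at hx; rw [hx]; exact hvD⟩) subset_rfl
        · have htn : t ∈ nbr G A := ⟨fun h' => Set.disjoint_left.mp h.dTA ht h', a, ha, hta.symm⟩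
          have hsub : nbr G D ⊆ insert v (nbr G A \ {t}) := by
            rintro x ⟨hxD, d, hd, hdx⟩
            by_cases hxv : x = v
            · exact Or.inl hxv
            · right
              refine ⟨⟨fun hxA => ?_, d, hDA hd, hdx⟩, ?_⟩
              · exact hxD (hD.closed d hd x ⟨hxA, hxv⟩ hdx)
              · intro hxt
                rw [mem_singleton_iff] at hxt
                exact hTD ⟨t, ht, d, hd, hxt ▸ hdx.symm⟩
          have h3 := ncard_sdiff_singleton_of_mem htn
          have h4 : 0 < (nbr G A).ncard := (ncard_pos (toFinite _)).mpr ⟨t, htn⟩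
          have h5 := ncard_insert_le v (nbr G A \ {t})
          have h6 := ncard_le_ncard hsub (toFinite _)
          omega
      have hcomp : ∀ D, IsComp G (A \ {v}) D → Dec G (2 ^ (m + 1)) D := by
        intro D hD
        have hDA : D ⊆ A := hD.subset.trans sdiff_subset
        by_cases hSD : EAdj G S D
        · have hTD : ¬ EAdj G T D := by
            intro hTD
            rw [eadj_iff_NB] at hSD hTD
            obtain ⟨x, hx, hx'⟩ := hSD
            obtain ⟨y, hy, hy'⟩ := hTD
            exact hv D hD.subset hD.con ⟨x, hx, hDA hx, hx'⟩ ⟨y, hy, hDA hy, hy'⟩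
          exact side S T h hT D hD hSD hTD
        · by_cases hTD : EAdj G T D
          · exact side T S h.swap hS D hD hTD hSD
          · exfalso
            have hall := h2.eq_compl (K := D) (v := v) hD.con.1 (fun h => (hD.subset h).2 rfl) (by
              intro a ha b hb hab
              by_contra hbv
              rcases h.cov b with h' | h' | h' | h'
              · exact hSD ⟨b, h', a, ha, hab.symm⟩
              · exact hTD ⟨b, h', a, ha, hab.symm⟩
              · exact h.nCA ⟨b, h', a, hDA ha, hab.symm⟩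
              · exact hb (hD.closed a ha b ⟨h', hbv⟩ hab))
            obtain ⟨s, hs⟩ := h.cS.1
            refine Set.disjoint_left.mp h.dSA hs (hDA (hall s ?_))
            rintro rfl
            exact Set.disjoint_left.mp h.dSA hs hvA
      by_cases hne : (A \ {v}).Nonempty
      · have h1 : Dec G (2 ^ (m + 1)) (A \ {v}) := by
          refine dec_union_comps hne hcomp fun D hD hcl => ?_
          refine Div.of_trace (W := insert v (nbr G A)) ?_ ?_
          · refine Nat.pow_le_pow_right (by norm_num) ?_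
            have := ncard_insert_le v (nbr G A)
            omega
          · intro x hx y hy hxy
            by_cases hyv : y = v
            · exact Or.inl hyv
            · right
              refine ⟨fun hyA => ?_, x, (hD hx).1, hxy⟩
              exact hy (hcl x hx y ⟨hyA, hyv⟩ hxy)
        refine Dec.union h1 (Dec.single v) disjoint_sdiff_left (sdiff_union_of_subset hvs) ?_
        refine Div.of_trace (W := nbr G A) ?_ fun x hx y hy hxy => ⟨hy, x, hx, hxy⟩
        exact Nat.pow_le_pow_right (by norm_num) (hm.trans (Nat.le_succ m))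
      · rw [not_nonempty_iff_eq_empty, sdiff_eq_empty] at hne
        rw [subset_antisymm hne hvs]
        exact Dec.single v
    · exfalso
      apply hno
      obtain ⟨B, C', hBC, hdBC, hB, hC', -, hXB, hYC⟩ := h.cA.extend hXc hYc hX hY hd
      have e : ∀ {R Z B : Set V}, (Z ∩ (A ∩ NB G R)).Nonempty → Z ⊆ B → EAdj G R B := by
        rintro R Z B ⟨x, hx, -, hx'⟩ hZ
        rw [eadj_iff_NB]
        exact ⟨x, hZ hx, hx'⟩
      exact h.X_split hBC hdBC hB hC' (e h1 hXB) (e h3 hYC) (e h2' hXB) (e h4 hYC)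

theorem dec_comp_X [Finite V] (h2 : TwoCon G) (hno : ¬ ContractsTo coTwoP1P3 G) {m : ℕ}
    {S0 T0 K C : Set V} (hS : Con G S0) (hT : Con G T0)
    (hd : Disjoint S0 T0) (hST : EAdj G S0 T0) (hK : IsComp G (S0 ∪ T0)ᶜ K)
    (hC : IsComp G (S0 ∪ T0)ᶜ C) (hKC : K ≠ C) (hCS : EAdj G S0 C) (hCT : EAdj G T0 C)
    (hKS : EAdj G S0 K) (hKT : EAdj G T0 K) (hm : (nbr G K).ncard ≤ m) :
    Dec G (2 ^ (m + 1)) K := by
  obtain ⟨S, T, h, h1, h2'⟩ := exists_tri h2.con hS hT hd hST hK hC hKC hCS hCT
  exact Tri.dec_X h2 hno m _ S T C K rfl h (hKS.mono h1 subset_rfl) (hKT.mono h2' subset_rfl) hm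

end Pool.Agent.Work.MP_80fcda_co
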